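import Pool.Agent.H69.SR.Orth

/-!
# Module Meas: measurability

* `meas_UU`: `gramSchmidt ℂ (fun r => f r η k) t = f t η k - ∑ i ∈ Finset.Iio t, (projection onto the span of gramSchmidt i)` (`gramSchmidt_def`); the projection onto the span of one vector `w` is
  `(⟪w, v⟫ / ‖w‖ ^ 2) • w` (`Submodule.starProjection_singleton`, also for `w = 0`), so it is measurable in `(w, v)`; strong induction on `t`. `‖w‖⁻¹ • w` is measurable.
* `prj`, `cop`, `mv`: finite sums; `meas_toLp`, `meas_coord` (Base). A function into `VV L n` is measurable iff all `k`-components are (`measurable_pi_iff`), into `E n`: `measurable_euclidean..` or `meas_toLp` (`v = toLp (fun j => v j)`).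
* `meas_run`, `meas_runG`: induction on `T` for all `m`; `Function.update η m v` is measurable in `(η, v)` (`measurable_pi_iff`, cases).
-/

set_option autoImplicit false

open MeasureTheory ProbabilityTheory
open scoped BigOperators ComplexConjugate InnerProductSpace

namespace H69.SR

variable {L n : ℕ} {f b : ℕ → Hs L n → VV L n}

private lemma meas_gs (hf : ∀ t, Measurable (f t)) (k : Fin L) (t : ℕ) :
    Measurable fun η : Hs L n => InnerProductSpace.gramSchmidt ℂ (fun r => f r η k) t := by
  induction t using Nat.strong_induction_on with
  | _ t ih =>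
    have h0 : Measurable fun η : Hs L n => f t η k := (measurable_pi_apply k).comp (hf t)
    have e : (fun η : Hs L n => InnerProductSpace.gramSchmidt ℂ (fun r => f r η k) t) =
        fun η => f t η k - ∑ i ∈ Finset.Iio t,
          (⟪InnerProductSpace.gramSchmidt ℂ (fun r => f r η k) i, f t η k⟫_ℂ /
            ((‖InnerProductSpace.gramSchmidt ℂ (fun r => f r η k) i‖ ^ 2 : ℝ) : ℂ)) •
            InnerProductSpace.gramSchmidt ℂ (fun r => f r η k) i := by
      funext η
      rw [InnerProductSpace.gramSchmidt_def]
      congr 1
      refine Finset.sum_congr rfl fun i _ => ?_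
      rw [Submodule.starProjection_singleton]
      rfl
    rw [e]
    refine h0.sub (Finset.measurable_fun_sum _ fun i hi => ?_)
    have h1 := ih i (Finset.mem_Iio.1 hi)
    exact ((h1.inner h0).div (Complex.measurable_ofReal.comp (h1.norm.pow_const 2))).smul h1

theorem meas_UU (hf : ∀ t, Measurable (f t)) (k : Fin L) (t : ℕ) : Measurable fun η => UU f η k t := by
  have h := meas_gs hf k t
  have e : (fun η : Hs L n => UU f η k t) = fun η =>
      ((‖InnerProductSpace.gramSchmidt ℂ (fun r => f r η k) t‖ : ℝ) : ℂ)⁻¹ •
        InnerProductSpace.gramSchmidt ℂ (fun r => f r η k) t := rfl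
  rw [e]
  exact ((Complex.measurable_ofReal.comp h.norm).inv).smul h

theorem meas_prj {α : Type} [MeasurableSpace α] {U : α → ℕ → E n} {v : α → E n}
    (hU : ∀ r, Measurable fun a => U a r) (hv : Measurable v) (t : ℕ) :
    Measurable fun a => prj (U a) t (v a) := by
  unfold prj
  exact Finset.measurable_fun_sum _ fun r _ => (Measurable.inner (𝕜 := ℂ) (hU r) hv).smul (hU r)

theorem meas_cop {α : Type} [MeasurableSpace α] {U : α → ℕ → E n} {v : α → E n}
    (hU : ∀ r, Measurable fun a => U a r) (hv : Measurable v) (t : ℕ) :
    Measurable fun a => cop (U a) t (v a) := by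
  unfold cop
  exact hv.sub (meas_prj hU hv t)

theorem meas_rW (hf : ∀ t, Measurable (f t)) (hb : ∀ t, Measurable (b t)) (t : ℕ) :
    Measurable fun p : MM L n × Hs L n => rW f b p.1 t p.2 := by
  refine measurable_pi_iff.2 fun k => ?_
  have h2 : Measurable fun p : MM L n × Hs L n => p.2 := measurable_snd
  have hU : ∀ r, Measurable fun p : MM L n × Hs L n => UU f p.2 k r := fun r => by
    have h := (meas_UU hf k r).comp h2
    exact h
  have hbt : Measurable fun p : MM L n × Hs L n => b t p.2 k := by
    have h := ((measurable_pi_apply k).comp (hb t)).comp h2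
    exact h
  have hmv : Measurable fun p : MM L n × Hs L n => mv (p.1 k) (UU f p.2 k t) := by
    unfold mv
    refine meas_toLp fun i => Finset.measurable_fun_sum _ fun j _ => ?_
    have h1 : Measurable fun p : MM L n × Hs L n => p.1 k i j :=
      (measurable_pi_apply j).comp ((measurable_pi_apply i).comp ((measurable_pi_apply k).comp measurable_fst))
    have h2 := (meas_coord j).comp (hU t)
    exact h1.mul h2
  exact hbt.add (meas_cop hU hmv t)

theorem meas_rG (hf : ∀ t, Measurable (f t)) (hb : ∀ t, Measurable (b t)) (t : ℕ) :
    Measurable fun p : VV L n × Hs L n => rG f b p.1 t p.2 := by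
  refine measurable_pi_iff.2 fun k => ?_
  have h2 : Measurable fun p : VV L n × Hs L n => p.2 := measurable_snd
  have hU : ∀ r, Measurable fun p : VV L n × Hs L n => UU f p.2 k r := fun r => by
    have h := (meas_UU hf k r).comp h2
    exact h
  have hbt : Measurable fun p : VV L n × Hs L n => b t p.2 k := by
    have h := ((measurable_pi_apply k).comp (hb t)).comp h2
    exact h
  have hg : Measurable fun p : VV L n × Hs L n => p.1 k := (measurable_pi_apply k).comp measurable_fst
  exact hbt.add ((Complex.measurable_ofReal.comp (hU t).norm).smul (meas_cop hU hg t))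

private lemma meas_upd {α : Type} [MeasurableSpace α] {η : α → Hs L n} {v : α → VV L n} (m : ℕ)
    (hη : Measurable η) (hv : Measurable v) : Measurable fun a => Function.update (η a) m (v a) := by
  refine measurable_pi_iff.2 fun s => ?_
  by_cases h : s = m
  · subst h
    simp only [Function.update_self]
    exact hv
  · simp only [Function.update_of_ne h]
    exact (measurable_pi_apply s).comp hη

theorem meas_run (hf : ∀ t, Measurable (f t)) (hb : ∀ t, Measurable (b t)) (T m : ℕ) :
    Measurable fun p : MM L n × Hs L n => run (rW f b p.1) m T p.2 := by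
  induction T generalizing m with
  | zero => exact measurable_snd
  | succ T ih =>
    have h1 : Measurable fun p : MM L n × Hs L n =>
        ((p.1, Function.update p.2 m (rW f b p.1 m p.2)) : MM L n × Hs L n) :=
      measurable_fst.prodMk (meas_upd m measurable_snd (meas_rW hf hb m))
    have h := (ih (m + 1)).comp h1
    exact h

theorem meas_runG (hf : ∀ t, Measurable (f t)) (hb : ∀ t, Measurable (b t)) (T m : ℕ) :
    Measurable fun p : (Fin T → VV L n) × Hs L n => runG f b m T p.1 p.2 := by
  induction T generalizing m with
  | zero => exact measurable_snd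
  | succ T ih =>
    have h0 : Measurable fun p : (Fin (T + 1) → VV L n) × Hs L n => ((p.1 0, p.2) : VV L n × Hs L n) :=
      ((measurable_pi_apply 0).comp measurable_fst).prodMk measurable_snd
    have hG := (meas_rG hf hb m).comp h0
    have hs : Measurable fun p : (Fin (T + 1) → VV L n) × Hs L n => (fun s : Fin T => p.1 s.succ) :=
      measurable_pi_iff.2 fun s => (measurable_pi_apply s.succ).comp measurable_fst
    have h1 : Measurable fun p : (Fin (T + 1) → VV L n) × Hs L n =>
        ((fun s => p.1 s.succ, Function.update p.2 m (rG f b (p.1 0) m p.2)) :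
          (Fin T → VV L n) × Hs L n) :=
      hs.prodMk (meas_upd m measurable_snd hG)
    have h := (ih (m + 1)).comp h1
    exact h

/-- the matrices `Q A Q` depend measurably on `A` -/
theorem meas_qwq (U : ℕ → E n) (t : ℕ) (i j : Fin n) :
    Measurable fun A : Fin n → Fin n → ℂ => qwq U t A i j := by
  unfold qwq
  refine Finset.measurable_fun_sum _ fun a _ => Finset.measurable_fun_sum _ fun b _ => ?_
  have h1 : Measurable fun A : Fin n → Fin n → ℂ => A a b :=
    (measurable_pi_apply b).comp (measurable_pi_apply a)
  exact (h1.const_mul _).mul_const _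

end H69.SR
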