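import Pool.Agent.H69.SR.Base

/-!
# Module KeyAlg: the covariance identity

`q := qm U t` (a Hermitian matrix, `conj (q i j) = q j i`), `Q := cop U t`, `(Q v) i = ∑ j, q i j * v j` (`cop_qm`). `u := U t`, `Q u = 0` (`OrtZ`), so `∑ j, q a j * u j = 0`
and `∑ j, u j * conj (q j b) = 0`.

Proof of `key_alg`. Fix `k` and let `φ M := l (Pi.single k (Q (M u)), Pi.single k (Q M Q))`, a real linear functional of an arbitrary complex matrix `M : Fin n → Fin n → ℂ`
(`Q M Q = qwq (U k) t M`). `a i j := φ(E_ij)`, `b i j := φ(i E_ij)`, `N i j := a i j - i b i j`, so `φ M = Re ∑ N i j M i j`. The matrix `Wm (Pi.single (k,i,j,true) 1) k` is `(E_ij + E_ji)/2`,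
`Wm (Pi.single (k,i,j,false) 1) k = i (E_ij - E_ji)/2`, the other components vanish. Hence the part of the left side with first index `k` is
`∑_ij ((a_ij + a_ji)^2 + (b_ij - b_ji)^2)/4 = (1/2) Re ∑_ij (N_ij conj N_ij + N_ij N_ji) =: S(N)`.
Now `N = N1 + N2` (first and second argument of `l`): with `c a := l (e_a at k, 0) - i l (i e_a at k, 0)`, `p i := ∑ a, c a * q a i`: `N1 i j = p i * u j`;
with `r a b := l (0, E_ab at k) - i l (0, i E_ab at k)`: `N2 i j = ∑ a b, r a b * q a i * q j b`. Then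
`∑ N1_ij conj N2_ij = ∑ p_i conj r_ab conj q_ai (∑_j u_j conj q_jb) = 0`, `∑ N1_ij N2_ji = ∑ p_i r_ab q_ib (∑_j q_aj u_j) = 0`, `∑ N2_ij N1_ji = 0` in the same way, `∑ N1_ij N1_ji = (∑ p_i u_i)^2 = 0`
because `∑_i p_i u_i = ∑_a c_a (Q u)_a = 0`, and `∑ |N1_ij|^2 = ‖p‖^2 ‖u‖^2`. So `S(N) = (1/2) ‖p‖^2 ‖u‖^2 + S(N2)`.
On the right side `S(N2)` is the second sum, and in the first sum `gv (Pi.single (k,i,true) 1) k = e_i/√2`, `gv (Pi.single (k,i,false) 1) k = i e_i/√2`, with values `‖u‖ Re(p_i)/√2`, `‖u‖ Re(i p_i)/√2`: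
the sum of squares is `(1/2) ‖u‖^2 ∑ |p_i|^2`.

`LA`, `LB` are the two linear maps (complete definitions below).
-/

set_option autoImplicit false

open MeasureTheory ProbabilityTheory
open scoped BigOperators ComplexConjugate InnerProductSpace

namespace H69.SR

variable {L n : ℕ}

lemma Wm_add (z z' : Ix L n → ℝ) : Wm (z + z') = Wm z + Wm z' := by
  funext k i j; simp only [Wm, Pi.add_apply]; push_cast; ring

lemma Wm_smul (c : ℝ) (z : Ix L n → ℝ) : Wm (c • z) = c • Wm z := by
  funext k i j; simp only [Wm, Pi.smul_apply, smul_eq_mul, Complex.real_smul]; push_cast; ring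

lemma gv_add (z z' : Gx L n → ℝ) : gv (z + z') = gv z + gv z' := by
  funext k; ext i; simp only [gv_apply, Pi.add_apply, PiLp.add_apply]; push_cast; ring

lemma gv_smul (c : ℝ) (z : Gx L n → ℝ) : gv (c • z) = c • gv z := by
  funext k; ext i
  simp only [gv_apply, Pi.smul_apply, PiLp.smul_apply, smul_eq_mul, Complex.real_smul]; push_cast; ring

lemma mv_add (A B : Fin n → Fin n → ℂ) (v : E n) : mv (A + B) v = mv A v + mv B v := by
  ext i; simp [mv, add_mul, Finset.sum_add_distrib]

lemma mv_smul (c : ℝ) (A : Fin n → Fin n → ℂ) (v : E n) : mv (c • A) v = c • mv A v := by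
  ext i; simp [mv, Finset.mul_sum, mul_assoc]

lemma cop_add (U : ℕ → E n) (t : ℕ) (v w : E n) : cop U t (v + w) = cop U t v + cop U t w := by
  simp only [cop, prj, inner_add_right, add_smul, Finset.sum_add_distrib]; abel

lemma cop_smulC (U : ℕ → E n) (t : ℕ) (c : ℂ) (v : E n) : cop U t (c • v) = c • cop U t v := by
  simp only [cop, prj, inner_smul_right, mul_smul, Finset.smul_sum, smul_sub]

lemma cop_smul (U : ℕ → E n) (t : ℕ) (c : ℝ) (v : E n) : cop U t (c • v) = c • cop U t v := by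
  have h : ∀ w : E n, c • w = (c : ℂ) • w := fun w => by ext i; simp
  rw [h, h, cop_smulC]

lemma qwq_add (U : ℕ → E n) (t : ℕ) (A B : Fin n → Fin n → ℂ) : qwq U t (A + B) = qwq U t A + qwq U t B := by
  funext i j; simp only [qwq, Pi.add_apply, mul_add, add_mul, Finset.sum_add_distrib]

lemma qwq_smul (U : ℕ → E n) (t : ℕ) (c : ℝ) (A : Fin n → Fin n → ℂ) : qwq U t (c • A) = c • qwq U t A := by
  funext i j
  simp only [qwq, Pi.smul_apply, Complex.real_smul, Finset.mul_sum]
  exact Finset.sum_congr rfl fun a _ => Finset.sum_congr rfl fun b _ => by ring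

/-- `z ↦ (Q W u, Q W Q)` -/
noncomputable def LA (U : Fin L → ℕ → E n) (t : ℕ) : (Ix L n → ℝ) →ₗ[ℝ] (VV L n × MM L n) where
  toFun z := (fun k => cop (U k) t (mv (Wm z k) (U k t)), fun k => qwq (U k) t (Wm z k))
  map_add' z z' := by
    refine Prod.ext ?_ ?_
    · funext k
      simp only [Wm_add, Pi.add_apply, mv_add, cop_add, Prod.fst_add]
    · funext k
      simp only [Wm_add, Pi.add_apply, qwq_add, Prod.snd_add]
  map_smul' c z := by
    refine Prod.ext ?_ ?_
    · funext k
      simp only [Wm_smul, Pi.smul_apply, mv_smul, cop_smul, Prod.smul_fst, RingHom.id_apply]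
    · funext k
      simp only [Wm_smul, Pi.smul_apply, qwq_smul, Prod.smul_snd, RingHom.id_apply]

/-- `(g, z) ↦ (‖u‖ Q g, Q W Q)` -/
noncomputable def LB (U : Fin L → ℕ → E n) (t : ℕ) :
    ((Gx L n → ℝ) × (Ix L n → ℝ)) →ₗ[ℝ] (VV L n × MM L n) where
  toFun p := (fun k => ((‖U k t‖ : ℝ) : ℂ) • cop (U k) t (gv p.1 k), fun k => qwq (U k) t (Wm p.2 k))
  map_add' p p' := by
    refine Prod.ext ?_ ?_
    · funext k
      simp only [Prod.fst_add, gv_add, Pi.add_apply, cop_add, smul_add]
    · funext k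
      simp only [Prod.snd_add, Wm_add, Pi.add_apply, qwq_add]
  map_smul' c p := by
    refine Prod.ext ?_ ?_
    · funext k
      simp only [Prod.smul_fst, gv_smul, Pi.smul_apply, cop_smul, RingHom.id_apply]
      rw [smul_comm]
    · funext k
      simp only [Prod.smul_snd, Wm_smul, Pi.smul_apply, qwq_smul, RingHom.id_apply]

theorem cop_qm (U : ℕ → E n) (t : ℕ) (v : E n) (i : Fin n) : cop U t v i = ∑ j, qm U t i j * v j := by
  simp only [cop, prj, qm, sub_mul, ite_mul, one_mul, zero_mul, Finset.sum_sub_distrib,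
    Finset.sum_ite_eq, Finset.mem_univ, if_true, PiLp.sub_apply, WithLp.ofLp_sum, Finset.sum_apply,
    PiLp.smul_apply, smul_eq_mul]
  congr 1
  simp only [inner_E, Finset.sum_mul]
  rw [Finset.sum_comm]
  refine Finset.sum_congr rfl fun j _ => Finset.sum_congr rfl fun r _ => ?_
  ring

private lemma ka_herm (U : ℕ → E n) (t : ℕ) (i j : Fin n) : conj (qm U t i j) = qm U t j i := by
  simp only [qm, map_sub, map_sum, map_mul, Complex.conj_conj]
  congr 1
  · by_cases h : i = j
    · simp [h]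
    · simp [h, Ne.symm h]
  · exact Finset.sum_congr rfl fun r _ => mul_comm _ _

private lemma ka_zero {U : ℕ → E n} (hU : OrtZ U) (t : ℕ) (i : Fin n) :
    ∑ j, qm U t i j * U t j = 0 := by
  rw [← cop_qm]
  have h : cop U t (U t) = 0 := by
    unfold cop prj
    rw [Finset.sum_eq_single t]
    · rcases hU.1 t with h | h
      · rw [inner_self_eq_norm_sq_to_K, h]
        simp
      · simp [h]
    · intro r _ hr
      rw [hU.2 r t hr, zero_smul]
    · intro h
      exact absurd (Finset.mem_range.2 (Nat.lt_succ_self t)) h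
  rw [h]
  rfl

private lemma ka_rep {ι : Type} [Fintype ι] [DecidableEq ι] (m : (ι → ℂ) →ₗ[ℝ] ℝ) :
    ∃ c : ι → ℂ, ∀ v, m v = (∑ a, c a * v a).re := by
  refine ⟨fun a => (m (Pi.single a 1) : ℂ) - (m (Pi.single a Complex.I) : ℂ) * Complex.I,
    fun v => ?_⟩
  have h1 : ∀ (a : ι) (z : ℂ), m (Pi.single a z) =
      z.re * m (Pi.single a 1) + z.im * m (Pi.single a Complex.I) := by
    intro a z
    have : (Pi.single a z : ι → ℂ) =
        z.re • (Pi.single a (1 : ℂ) : ι → ℂ) + z.im • (Pi.single a Complex.I : ι → ℂ) := by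
      rw [← Pi.single_smul, ← Pi.single_smul, ← Pi.single_add]
      congr 1
      apply Complex.ext <;> simp
    rw [this, map_add, map_smul, map_smul]
    simp
  conv_lhs => rw [← Finset.univ_sum_single v]
  rw [map_sum, Complex.re_sum]
  refine Finset.sum_congr rfl fun a _ => ?_
  rw [h1]
  simp [Complex.mul_re]
  ring

private lemma ka_repE (m : E n →ₗ[ℝ] ℝ) : ∃ c : Fin n → ℂ, ∀ v : E n, m v = (∑ a, c a * v a).re := by
  obtain ⟨c, hc⟩ := ka_rep (m ∘ₗ (WithLp.linearEquiv 2 ℝ (Fin n → ℂ)).symm.toLinearMap)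
  refine ⟨c, fun v => ?_⟩
  have h := hc (WithLp.ofLp v)
  exact h

private lemma ka_repM (m : (Fin n → Fin n → ℂ) →ₗ[ℝ] ℝ) :
    ∃ r : Fin n → Fin n → ℂ, ∀ M, m M = (∑ a, ∑ b, r a b * M a b).re := by
  obtain ⟨c, hc⟩ := ka_rep (ι := Fin n × Fin n) (m ∘ₗ
    { toFun := fun f i j => f (i, j)
      map_add' := fun f g => rfl
      map_smul' := fun s f => rfl })
  refine ⟨fun a b => c (a, b), fun M => ?_⟩
  have h := hc fun p => M p.1 p.2
  rw [Fintype.sum_prod_type] at h
  exact h

/-- the matrix of the functional on the vectors -/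
private noncomputable def kaP (U : ℕ → E n) (t : ℕ) (c : Fin n → ℂ) (i : Fin n) : ℂ :=
  ∑ a, c a * qm U t a i

/-- the matrix of the functional on the matrices -/
private noncomputable def kaR (U : ℕ → E n) (t : ℕ) (r : Fin n → Fin n → ℂ) (i j : Fin n) : ℂ :=
  ∑ a, ∑ b, r a b * qm U t a i * qm U t j b

private lemma ka_vec (U : ℕ → E n) (t : ℕ) (c : Fin n → ℂ) (v : E n) :
    ∑ a, c a * cop U t v a = ∑ i, kaP U t c i * v i := by
  simp only [cop_qm, kaP, Finset.mul_sum, Finset.sum_mul]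
  rw [Finset.sum_comm]
  refine Finset.sum_congr rfl fun i _ => Finset.sum_congr rfl fun a _ => ?_
  ring

private lemma ka_mat (U : ℕ → E n) (t : ℕ) (r : Fin n → Fin n → ℂ) (M : Fin n → Fin n → ℂ) :
    ∑ a, ∑ b, r a b * qwq U t M a b = ∑ i, ∑ j, kaR U t r i j * M i j := by
  simp only [qwq, kaR, Finset.mul_sum, Finset.sum_mul]
  calc ∑ a, ∑ b, ∑ i, ∑ j, r a b * (qm U t a i * M i j * qm U t j b)
      = ∑ a, ∑ i, ∑ b, ∑ j, r a b * (qm U t a i * M i j * qm U t j b) :=
        Finset.sum_congr rfl fun a _ => Finset.sum_comm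
    _ = ∑ i, ∑ a, ∑ b, ∑ j, r a b * (qm U t a i * M i j * qm U t j b) := Finset.sum_comm
    _ = ∑ i, ∑ a, ∑ j, ∑ b, r a b * (qm U t a i * M i j * qm U t j b) :=
        Finset.sum_congr rfl fun i _ => Finset.sum_congr rfl fun a _ => Finset.sum_comm
    _ = ∑ i, ∑ j, ∑ a, ∑ b, r a b * (qm U t a i * M i j * qm U t j b) :=
        Finset.sum_congr rfl fun i _ => Finset.sum_comm
    _ = _ := by
        refine Finset.sum_congr rfl fun i _ => Finset.sum_congr rfl fun j _ =>
          Finset.sum_congr rfl fun a _ => Finset.sum_congr rfl fun b _ => ?_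
        ring

private lemma ka_mv (p : Fin n → ℂ) (M : Fin n → Fin n → ℂ) (u : E n) :
    ∑ i, p i * mv M u i = ∑ i, ∑ j, (p i * u j) * M i j := by
  refine Finset.sum_congr rfl fun i _ => ?_
  change p i * (∑ j, M i j * u j) = _
  rw [Finset.mul_sum]
  exact Finset.sum_congr rfl fun j _ => by ring

private lemma ka_single (N : Fin n → Fin n → ℂ) (i j : Fin n) (w : ℂ) :
    ∑ a, ∑ b, N a b * (if a = i ∧ b = j then w else 0) = N i j * w := by
  rw [Finset.sum_eq_single i]
  · rw [Finset.sum_eq_single j]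
    · simp
    · intro b _ hb
      simp [hb]
    · intro h
      exact absurd (Finset.mem_univ j) h
  · intro a _ ha
    exact Finset.sum_eq_zero fun b _ => by simp [ha]
  · intro h
    exact absurd (Finset.mem_univ i) h

private lemma ka_WmT (k : Fin L) (i j : Fin n) (N : Fin n → Fin n → ℂ) :
    ∑ a, ∑ b, N a b * Wm (Pi.single (k, i, j, true) 1 : Ix L n → ℝ) k a b = (N i j + N j i) / 2 := by
  have h : ∀ a b, Wm (Pi.single (k, i, j, true) 1 : Ix L n → ℝ) k a b =
      (if a = i ∧ b = j then (1 / 2 : ℂ) else 0) + (if a = j ∧ b = i then (1 / 2 : ℂ) else 0) := by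
    intro a b
    have e1 : (Pi.single (k, i, j, true) 1 : Ix L n → ℝ) (k, a, b, true) =
        if a = i ∧ b = j then 1 else 0 := by
      rw [Pi.single_apply]
      simp
    have e2 : (Pi.single (k, i, j, true) 1 : Ix L n → ℝ) (k, b, a, true) =
        if a = j ∧ b = i then 1 else 0 := by
      rw [Pi.single_apply]
      simp [and_comm]
    have e3 : (Pi.single (k, i, j, true) 1 : Ix L n → ℝ) (k, a, b, false) = 0 := by
      rw [Pi.single_apply]
      simp
    have e4 : (Pi.single (k, i, j, true) 1 : Ix L n → ℝ) (k, b, a, false) = 0 := by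
      rw [Pi.single_apply]
      simp
    unfold Wm
    rw [e1, e2, e3, e4]
    split_ifs <;> norm_num
  simp only [h, mul_add, Finset.sum_add_distrib, ka_single]
  ring

private lemma ka_WmF (k : Fin L) (i j : Fin n) (N : Fin n → Fin n → ℂ) :
    ∑ a, ∑ b, N a b * Wm (Pi.single (k, i, j, false) 1 : Ix L n → ℝ) k a b =
      (N i j - N j i) * Complex.I / 2 := by
  have h : ∀ a b, Wm (Pi.single (k, i, j, false) 1 : Ix L n → ℝ) k a b =
      (if a = i ∧ b = j then (Complex.I / 2 : ℂ) else 0) +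
        (if a = j ∧ b = i then (-(Complex.I / 2) : ℂ) else 0) := by
    intro a b
    have e1 : (Pi.single (k, i, j, false) 1 : Ix L n → ℝ) (k, a, b, false) =
        if a = i ∧ b = j then 1 else 0 := by
      rw [Pi.single_apply]
      simp
    have e2 : (Pi.single (k, i, j, false) 1 : Ix L n → ℝ) (k, b, a, false) =
        if a = j ∧ b = i then 1 else 0 := by
      rw [Pi.single_apply]
      simp [and_comm]
    have e3 : (Pi.single (k, i, j, false) 1 : Ix L n → ℝ) (k, a, b, true) = 0 := by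
      rw [Pi.single_apply]
      simp
    have e4 : (Pi.single (k, i, j, false) 1 : Ix L n → ℝ) (k, b, a, true) = 0 := by
      rw [Pi.single_apply]
      simp
    unfold Wm
    rw [e1, e2, e3, e4]
    split_ifs <;> push_cast <;> ring
  simp only [h, mul_add, Finset.sum_add_distrib, ka_single]
  ring

/-- the quadratic form -/
private noncomputable def kaS (N : Fin n → Fin n → ℂ) : ℝ :=
  (1 / 2) * (∑ i, ∑ j, (N i j * conj (N i j) + N i j * N j i)).re

private lemma ka_sum (N : Fin n → Fin n → ℂ) :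
    ∑ i, ∑ j, ((((N i j + N j i) / 2).re) ^ 2 + (((N i j - N j i) * Complex.I / 2).re) ^ 2) = kaS N := by
  have e1 : ∀ i j, (((N i j + N j i) / 2).re) ^ 2 + (((N i j - N j i) * Complex.I / 2).re) ^ 2 =
      (1 / 4) * (((N i j).re ^ 2 + (N i j).im ^ 2) + ((N j i).re ^ 2 + (N j i).im ^ 2)) +
        (1 / 2) * (N i j * N j i).re := by
    intro i j
    simp only [Complex.div_re, Complex.mul_re, Complex.mul_im, Complex.add_re, Complex.add_im,
      Complex.sub_re, Complex.sub_im, Complex.I_re, Complex.I_im]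
    norm_num
    ring
  have e2 : ∀ i j, (N i j * conj (N i j) + N i j * N j i).re =
      ((N i j).re ^ 2 + (N i j).im ^ 2) + (N i j * N j i).re := by
    intro i j
    rw [Complex.add_re, Complex.mul_conj, Complex.ofReal_re, Complex.normSq_apply]
    ring
  unfold kaS
  simp only [e1, Complex.re_sum, e2]
  simp only [Finset.sum_add_distrib, ← Finset.mul_sum]
  have e3 : ∑ i, ∑ j, (N j i).re ^ 2 = ∑ i, ∑ j, (N i j).re ^ 2 := Finset.sum_comm
  have e4 : ∑ i, ∑ j, (N j i).im ^ 2 = ∑ i, ∑ j, (N i j).im ^ 2 := Finset.sum_comm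
  rw [e3, e4]
  ring

private lemma ka_l1 (l : (VV L n × MM L n) →L[ℝ] ℝ) (k : Fin L) :
    ∃ c : Fin n → ℂ, ∀ v : E n, l (Pi.single k v, 0) = (∑ a, c a * v a).re :=
  ka_repE
    { toFun := fun v => l (Pi.single k v, 0)
      map_add' := fun v w => by
        rw [← map_add, Prod.mk_add_mk, add_zero, Pi.single_add]
      map_smul' := fun s v => by
        rw [RingHom.id_apply, ← map_smul, Prod.smul_mk, smul_zero, Pi.single_smul] }

private lemma ka_l2 (l : (VV L n × MM L n) →L[ℝ] ℝ) (k : Fin L) :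
    ∃ r : Fin n → Fin n → ℂ, ∀ M : Fin n → Fin n → ℂ,
      l (0, Pi.single k M) = (∑ a, ∑ b, r a b * M a b).re :=
  ka_repM
    { toFun := fun M => l (0, Pi.single k M)
      map_add' := fun v w => by
        rw [← map_add, Prod.mk_add_mk, add_zero, Pi.single_add]
      map_smul' := fun s v => by
        rw [RingHom.id_apply, ← map_smul, Prod.smul_mk, smul_zero, Pi.single_smul] }

private lemma ka_split (l : (VV L n × MM L n) →L[ℝ] ℝ) (x : VV L n) (y : MM L n) :
    l (x, y) = l (x, 0) + l (0, y) := by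
  rw [← map_add, Prod.mk_add_mk, add_zero, zero_add]

private lemma ka_Wm_ne {k k' : Fin L} (h : k' ≠ k) (i j : Fin n) (c : Bool) :
    Wm (Pi.single (k, i, j, c) 1 : Ix L n → ℝ) k' = 0 := by
  funext a b
  have e : ∀ (a b : Fin n) (c' : Bool),
      (Pi.single (k, i, j, c) 1 : Ix L n → ℝ) (k', a, b, c') = 0 := by
    intro a b c'
    rw [Pi.single_apply]
    simp [h]
  unfold Wm
  simp [e]

private lemma ka_cop_zero (U : ℕ → E n) (t : ℕ) : cop U t 0 = 0 := by
  simp [cop, prj]

private lemma ka_mv_zero (u : E n) : mv 0 u = 0 := by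
  ext i
  simp [mv]

private lemma ka_qwq_zero (U : ℕ → E n) (t : ℕ) : qwq U t 0 = 0 := by
  funext i j
  simp [qwq]

private lemma ka_pi {β : Type} [Zero β] {k : Fin L} {x : Fin L → β} {v : β} (h1 : x k = v)
    (h2 : ∀ k', k' ≠ k → x k' = 0) : x = Pi.single k v := by
  funext k'
  by_cases h : k' = k
  · rw [h, Pi.single_eq_same, h1]
  · rw [Pi.single_eq_of_ne h, h2 k' h]

private lemma ka_LA (U : Fin L → ℕ → E n) (t : ℕ) (k : Fin L) (i j : Fin n) (c : Bool) :
    LA U t (Pi.single (k, i, j, c) 1) =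
      (Pi.single k (cop (U k) t (mv (Wm (Pi.single (k, i, j, c) 1 : Ix L n → ℝ) k) (U k t))),
        Pi.single k (qwq (U k) t (Wm (Pi.single (k, i, j, c) 1 : Ix L n → ℝ) k))) := by
  refine Prod.ext (ka_pi rfl fun k' h => ?_) (ka_pi rfl fun k' h => ?_)
  · change cop (U k') t (mv (Wm (Pi.single (k, i, j, c) 1 : Ix L n → ℝ) k') (U k' t)) = 0
    rw [ka_Wm_ne h, ka_mv_zero, ka_cop_zero]
  · change qwq (U k') t (Wm (Pi.single (k, i, j, c) 1 : Ix L n → ℝ) k') = 0
    rw [ka_Wm_ne h, ka_qwq_zero]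

private lemma ka_gv_zero : gv (0 : Gx L n → ℝ) = 0 := by
  funext k
  ext i
  simp [gv_apply]

private lemma ka_Wm_zero : Wm (0 : Ix L n → ℝ) = 0 := by
  funext k i j
  simp [Wm]

private lemma ka_LB2 (U : Fin L → ℕ → E n) (t : ℕ) (k : Fin L) (i j : Fin n) (c : Bool) :
    LB U t (0, Pi.single (k, i, j, c) 1) =
      (0, Pi.single k (qwq (U k) t (Wm (Pi.single (k, i, j, c) 1 : Ix L n → ℝ) k))) := by
  refine Prod.ext (funext fun k' => ?_) (ka_pi rfl fun k' h => ?_)
  · change ((‖U k' t‖ : ℝ) : ℂ) • cop (U k') t (gv (0 : Gx L n → ℝ) k') = 0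
    rw [ka_gv_zero, Pi.zero_apply, ka_cop_zero, smul_zero]
  · change qwq (U k') t (Wm (Pi.single (k, i, j, c) 1 : Ix L n → ℝ) k') = 0
    rw [ka_Wm_ne h, ka_qwq_zero]

private lemma ka_gv_ne {k k' : Fin L} (h : k' ≠ k) (i : Fin n) (c : Bool) :
    gv (Pi.single (k, i, c) 1 : Gx L n → ℝ) k' = 0 := by
  ext a
  have e : ∀ (a : Fin n) (c' : Bool), (Pi.single (k, i, c) 1 : Gx L n → ℝ) (k', a, c') = 0 := by
    intro a c'
    rw [Pi.single_apply]
    simp [h]
  rw [gv_apply, e, e]
  simp

private lemma ka_LB1 (U : Fin L → ℕ → E n) (t : ℕ) (k : Fin L) (i : Fin n) (c : Bool) :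
    LB U t (Pi.single (k, i, c) 1, 0) =
      (Pi.single k (((‖U k t‖ : ℝ) : ℂ) • cop (U k) t (gv (Pi.single (k, i, c) 1 : Gx L n → ℝ) k)),
        0) := by
  refine Prod.ext (ka_pi rfl fun k' h => ?_) (funext fun k' => ?_)
  · change ((‖U k' t‖ : ℝ) : ℂ) • cop (U k') t (gv (Pi.single (k, i, c) 1 : Gx L n → ℝ) k') = 0
    rw [ka_gv_ne h, ka_cop_zero, smul_zero]
  · change qwq (U k') t (Wm (0 : Ix L n → ℝ) k') = 0
    rw [ka_Wm_zero, Pi.zero_apply, ka_qwq_zero]

private lemma ka_gvT (k : Fin L) (i : Fin n) (p : Fin n → ℂ) :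
    ∑ a, p a * gv (Pi.single (k, i, true) 1 : Gx L n → ℝ) k a = p i / (Real.sqrt 2 : ℂ) := by
  rw [Finset.sum_eq_single i]
  · rw [gv_apply, Pi.single_eq_same, Pi.single_eq_of_ne (by simp)]
    push_cast
    ring
  · intro a _ ha
    rw [gv_apply, Pi.single_eq_of_ne (by simp [ha]), Pi.single_eq_of_ne (by simp)]
    simp
  · intro h
    exact absurd (Finset.mem_univ i) h

private lemma ka_gvF (k : Fin L) (i : Fin n) (p : Fin n → ℂ) :
    ∑ a, p a * gv (Pi.single (k, i, false) 1 : Gx L n → ℝ) k a =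
      p i * Complex.I / (Real.sqrt 2 : ℂ) := by
  rw [Finset.sum_eq_single i]
  · rw [gv_apply, Pi.single_eq_same, Pi.single_eq_of_ne (by simp)]
    push_cast
    ring
  · intro a _ ha
    rw [gv_apply, Pi.single_eq_of_ne (by simp), Pi.single_eq_of_ne (by simp [ha])]
    simp
  · intro h
    exact absurd (Finset.mem_univ i) h

/-- the cross terms vanish -/
private lemma ka_cross {U : ℕ → E n} (hU : OrtZ U) (t : ℕ) (c : Fin n → ℂ) (r : Fin n → Fin n → ℂ) :
    kaS (fun i j => kaP U t c i * U t j + kaR U t r i j) =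
      (1 / 2) * (‖U t‖ ^ 2 * ∑ i, ‖kaP U t c i‖ ^ 2) + kaS (kaR U t r) := by
  have z1 : ∀ i, ∑ j, kaR U t r i j * conj (U t j) = 0 ∧
      ∑ j, conj (kaR U t r i j) * U t j = 0 := by
    intro i
    have h2 : ∑ j, conj (kaR U t r i j) * U t j = 0 := by
      simp only [kaR, map_sum, map_mul, Finset.sum_mul, ka_herm]
      rw [Finset.sum_comm]
      refine Finset.sum_eq_zero fun a _ => ?_
      rw [Finset.sum_comm]
      refine Finset.sum_eq_zero fun b _ => ?_
      have h3 := ka_zero hU t b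
      calc ∑ j, conj (r a b) * qm U t i a * qm U t b j * U t j
          = conj (r a b) * qm U t i a * ∑ j, qm U t b j * U t j := by
            rw [Finset.mul_sum]
            exact Finset.sum_congr rfl fun j _ => by ring
        _ = 0 := by rw [h3, mul_zero]
    refine ⟨?_, h2⟩
    have h4 := congrArg conj h2
    simpa only [map_sum, map_mul, Complex.conj_conj, map_zero] using h4
  have z2 : ∀ j, ∑ i, kaR U t r i j * U t i = 0 := by
    intro j
    simp only [kaR, Finset.sum_mul]
    rw [Finset.sum_comm]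
    refine Finset.sum_eq_zero fun a _ => ?_
    rw [Finset.sum_comm]
    refine Finset.sum_eq_zero fun b _ => ?_
    have h3 := ka_zero hU t a
    calc ∑ i, r a b * qm U t a i * qm U t j b * U t i
        = r a b * qm U t j b * ∑ i, qm U t a i * U t i := by
          rw [Finset.mul_sum]
          exact Finset.sum_congr rfl fun j _ => by ring
      _ = 0 := by rw [h3, mul_zero]
  have z3 : ∑ i, kaP U t c i * U t i = 0 := by
    simp only [kaP, Finset.sum_mul]
    rw [Finset.sum_comm]
    refine Finset.sum_eq_zero fun a _ => ?_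
    have h3 := ka_zero hU t a
    calc ∑ i, c a * qm U t a i * U t i
        = c a * ∑ i, qm U t a i * U t i := by
          rw [Finset.mul_sum]
          exact Finset.sum_congr rfl fun j _ => by ring
      _ = 0 := by rw [h3, mul_zero]
  generalize kaP U t c = p at z3 ⊢
  generalize kaR U t r = N at z1 z2 ⊢
  have key : ∑ i, ∑ j, ((p i * U t j + N i j) * conj (p i * U t j + N i j) +
      (p i * U t j + N i j) * (p j * U t i + N j i)) =
      (((‖U t‖ ^ 2 * ∑ i, ‖p i‖ ^ 2 : ℝ) : ℂ)) + ∑ i, ∑ j, (N i j * conj (N i j) + N i j * N j i) := by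
    have s1 : ∑ i, ∑ j, (p i * U t j) * conj (p i * U t j) =
        (((‖U t‖ ^ 2 * ∑ i, ‖p i‖ ^ 2 : ℝ) : ℂ)) := by
      rw [nsq_E]
      push_cast
      rw [Finset.sum_mul_sum, Finset.sum_comm]
      refine Finset.sum_congr rfl fun i _ => Finset.sum_congr rfl fun j _ => ?_
      rw [← Complex.mul_conj', ← Complex.mul_conj', map_mul]
      ring
    have s2 : ∑ i, ∑ j, (p i * U t j) * conj (N i j) = 0 := by
      refine Finset.sum_eq_zero fun i _ => ?_
      calc ∑ j, (p i * U t j) * conj (N i j) = p i * ∑ j, conj (N i j) * U t j := by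
            rw [Finset.mul_sum]
            exact Finset.sum_congr rfl fun j _ => by ring
        _ = 0 := by rw [(z1 i).2, mul_zero]
    have s3 : ∑ i, ∑ j, N i j * conj (p i * U t j) = 0 := by
      refine Finset.sum_eq_zero fun i _ => ?_
      calc ∑ j, N i j * conj (p i * U t j) = conj (p i) * ∑ j, N i j * conj (U t j) := by
            rw [Finset.mul_sum]
            exact Finset.sum_congr rfl fun j _ => by rw [map_mul]; ring
        _ = 0 := by rw [(z1 i).1, mul_zero]
    have s4 : ∑ i, ∑ j, (p i * U t j) * (p j * U t i) = 0 := by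
      calc ∑ i, ∑ j, (p i * U t j) * (p j * U t i) = ∑ i, (p i * U t i) * ∑ j, p j * U t j := by
            refine Finset.sum_congr rfl fun i _ => ?_
            rw [Finset.mul_sum]
            exact Finset.sum_congr rfl fun j _ => by ring
        _ = 0 := by rw [z3]; simp
    have s5 : ∑ i, ∑ j, N i j * (p j * U t i) = 0 := by
      rw [Finset.sum_comm]
      refine Finset.sum_eq_zero fun j _ => ?_
      calc ∑ i, N i j * (p j * U t i) = p j * ∑ i, N i j * U t i := by
            rw [Finset.mul_sum]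
            exact Finset.sum_congr rfl fun j _ => by ring
        _ = 0 := by rw [z2 j, mul_zero]
    have s6 : ∑ i, ∑ j, (p i * U t j) * N j i = 0 := by
      rw [Finset.sum_comm]
      rw [Finset.sum_comm]
      refine Finset.sum_eq_zero fun i _ => ?_
      calc ∑ j, (p i * U t j) * N j i = p i * ∑ j, N j i * U t j := by
            rw [Finset.mul_sum]
            exact Finset.sum_congr rfl fun j _ => by ring
        _ = 0 := by rw [z2 i, mul_zero]
    have e : ∀ i j, (p i * U t j + N i j) * conj (p i * U t j + N i j) +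
        (p i * U t j + N i j) * (p j * U t i + N j i) =
        (p i * U t j) * conj (p i * U t j) + (p i * U t j) * conj (N i j) +
          N i j * conj (p i * U t j) + (p i * U t j) * (p j * U t i) + N i j * (p j * U t i) +
          (p i * U t j) * N j i + (N i j * conj (N i j) + N i j * N j i) := by
      intro i j
      rw [map_add]
      ring
    simp only [e]
    simp only [Finset.sum_add_distrib]
    rw [s1, s2, s3, s4, s5, s6]
    ring
  unfold kaS
  rw [key, Complex.add_re, Complex.ofReal_re]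
  ring

theorem key_alg (U : Fin L → ℕ → E n) (t : ℕ) (hU : ∀ k, OrtZ (U k)) (l : (VV L n × MM L n) →L[ℝ] ℝ) :
    ∑ c, (l (LA U t (Pi.single c 1))) ^ 2 =
      ∑ c, (l (LB U t (Pi.single c 1, 0))) ^ 2 + ∑ c, (l (LB U t (0, Pi.single c 1))) ^ 2 := by
  choose c hc using ka_l1 l
  choose r hr using ka_l2 l
  have a1 : ∀ (k : Fin L) (i j : Fin n) (b : Bool), l (LA U t (Pi.single (k, i, j, b) 1)) =
      (∑ x, ∑ y, (kaP (U k) t (c k) x * U k t y + kaR (U k) t (r k) x y) *
        Wm (Pi.single (k, i, j, b) 1 : Ix L n → ℝ) k x y).re := by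
    intro k i j b
    rw [ka_LA, ka_split, hc, hr, ka_vec, ka_mv, ka_mat, ← Complex.add_re]
    simp only [add_mul, Finset.sum_add_distrib]
  have a2 : ∀ (k : Fin L) (i j : Fin n) (b : Bool), l (LB U t (0, Pi.single (k, i, j, b) 1)) =
      (∑ x, ∑ y, kaR (U k) t (r k) x y * Wm (Pi.single (k, i, j, b) 1 : Ix L n → ℝ) k x y).re := by
    intro k i j b
    rw [ka_LB2, hr, ka_mat]
  have a3 : ∀ (k : Fin L) (i : Fin n) (b : Bool), l (LB U t (Pi.single (k, i, b) 1, 0)) =
      ‖U k t‖ * (∑ x, kaP (U k) t (c k) x * gv (Pi.single (k, i, b) 1 : Gx L n → ℝ) k x).re := by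
    intro k i b
    rw [ka_LB1, hc]
    have e : ∀ v : E n, ∑ a, c k a * (((‖U k t‖ : ℝ) : ℂ) • v) a = ((‖U k t‖ : ℝ) : ℂ) * ∑ a, c k a * v a := by
      intro v
      rw [Finset.mul_sum]
      refine Finset.sum_congr rfl fun a _ => ?_
      rw [PiLp.smul_apply, smul_eq_mul]
      ring
    rw [e, Complex.re_ofReal_mul, ka_vec]
  have s1 : ∑ c, (l (LA U t (Pi.single c 1))) ^ 2 =
      ∑ k, kaS (fun i j => kaP (U k) t (c k) i * U k t j + kaR (U k) t (r k) i j) := by
    rw [Fintype.sum_prod_type]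
    refine Finset.sum_congr rfl fun k _ => ?_
    rw [Fintype.sum_prod_type, ← ka_sum]
    refine Finset.sum_congr rfl fun i _ => ?_
    rw [Fintype.sum_prod_type]
    refine Finset.sum_congr rfl fun j _ => ?_
    rw [Fintype.sum_bool, a1, a1, ka_WmT, ka_WmF]
  have s2 : ∑ c, (l (LB U t (0, Pi.single c 1))) ^ 2 = ∑ k, kaS (kaR (U k) t (r k)) := by
    rw [Fintype.sum_prod_type]
    refine Finset.sum_congr rfl fun k _ => ?_
    rw [Fintype.sum_prod_type, ← ka_sum]
    refine Finset.sum_congr rfl fun i _ => ?_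
    rw [Fintype.sum_prod_type]
    refine Finset.sum_congr rfl fun j _ => ?_
    rw [Fintype.sum_bool, a2, a2, ka_WmT, ka_WmF]
  have s3 : ∑ c, (l (LB U t (Pi.single c 1, 0))) ^ 2 =
      ∑ k, (1 / 2) * (‖U k t‖ ^ 2 * ∑ i, ‖kaP (U k) t (c k) i‖ ^ 2) := by
    rw [Fintype.sum_prod_type]
    refine Finset.sum_congr rfl fun k _ => ?_
    rw [Fintype.sum_prod_type, Finset.mul_sum, Finset.mul_sum]
    refine Finset.sum_congr rfl fun i _ => ?_
    rw [Fintype.sum_bool, a3, a3, ka_gvT, ka_gvF]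
    have h2 : Real.sqrt 2 ^ 2 = 2 := Real.sq_sqrt (by norm_num)
    have h0 : Real.sqrt 2 ≠ 0 := by positivity
    rw [Complex.div_ofReal_re, Complex.div_ofReal_re, mul_pow, mul_pow, div_pow, div_pow, h2,
      ← Complex.normSq_eq_norm_sq, Complex.normSq_apply, Complex.mul_re, Complex.I_re, Complex.I_im]
    ring
  rw [s1, s2, s3, ← Finset.sum_add_distrib]
  exact Finset.sum_congr rfl fun k _ => ka_cross (hU k) t (c k) (r k)

end H69.SR
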