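import Pool.Agent.H69.SR.Orth
import Pool.Agent.H69.SR.KeyAlg

/-!
# Module Off: later steps use `W` only through `Q W Q`

* `mv_qwq`: `mv (qwq U m A) v = cop U m (mv A (cop U m v))`, from `cop_qm`.
* `rW_off`: let `U := UU f η' k`. For `r ≤ m`: `U r = UU f η k r` (`UU_loc`, the histories agree before `m`), so `qwq (UU f η k) m = qwq U m` (it depends on `U 0, .., U m` only). `u := U t`, `m < t`:
  `cop U m u = u` (`prj_later`), so `mv (qwq U m A) u = cop U m (mv A u)` and `cop U t (cop U m (mv A u)) = cop U t (mv A u)` (`cop_cop`).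
* `run_off`: induction on `T` (`η'` arbitrary). `Function.update η' m' (rW ..)` agrees with `η` before `m < m'`; the new values agree by `rW_off`.
-/

set_option autoImplicit false

open MeasureTheory ProbabilityTheory
open scoped BigOperators ComplexConjugate InnerProductSpace

namespace H69.SR

variable {L n : ℕ} {f b : ℕ → Hs L n → VV L n}

theorem mv_qwq (U : ℕ → E n) (m : ℕ) (A : Fin n → Fin n → ℂ) (v : E n) :
    mv (qwq U m A) v = cop U m (mv A (cop U m v)) := by
  ext i
  rw [cop_qm]
  show (∑ j, qwq U m A i j * v j) = ∑ a, qm U m i a * (∑ b, A a b * cop U m v b)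
  simp only [cop_qm, qwq, Finset.sum_mul, Finset.mul_sum]
  rw [Finset.sum_comm]
  refine Finset.sum_congr rfl fun a _ => ?_
  rw [Finset.sum_comm]
  refine Finset.sum_congr rfl fun b _ => Finset.sum_congr rfl fun j _ => ?_
  ring

private lemma off_qwq {U U' : ℕ → E n} {m : ℕ} (h : ∀ r ≤ m, U r = U' r) (A : Fin n → Fin n → ℂ) :
    qwq U m A = qwq U' m A := by
  have h1 : qm U m = qm U' m := by
    funext i j
    unfold qm
    congr 1
    refine Finset.sum_congr rfl fun r hr => ?_
    have hr' : r < m + 1 := Finset.mem_range.1 hr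
    rw [h r (by omega)]
  unfold qwq
  rw [h1]

theorem rW_off (hf : Loc f) (W : MM L n) {m t : ℕ} (hmt : m < t) {η η' : Hs L n} (h : ∀ s < m, η' s = η s) :
    rW f b W t η' = rW f b (fun k => qwq (UU f η k) m (W k)) t η' := by
  funext k
  unfold rW
  have hU := ortZ_UU f η' k
  have h1 : qwq (UU f η k) m (W k) = qwq (UU f η' k) m (W k) :=
    off_qwq (fun r hr => UU_loc hf (fun s hs => (h s hs).symm) k hr) _
  have h2 : cop (UU f η' k) m (UU f η' k t) = UU f η' k t := by
    unfold cop
    rw [prj_later hU hmt, sub_zero]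
  beta_reduce
  rw [h1, mv_qwq, h2, cop_cop hU hmt.le]

theorem run_off (hf : Loc f) (W : MM L n) {m : ℕ} (η : Hs L n) : ∀ (T m' : ℕ) (η' : Hs L n), m < m' →
    (∀ s < m, η' s = η s) →
    run (rW f b W) m' T η' = run (rW f b fun k => qwq (UU f η k) m (W k)) m' T η' := by
  intro T
  induction T with
  | zero => intro m' η' _ _; rfl
  | succ T ih =>
    intro m' η' hm h
    show run (rW f b W) (m' + 1) T (Function.update η' m' (rW f b W m' η')) =
      run (rW f b fun k => qwq (UU f η k) m (W k)) (m' + 1) T
        (Function.update η' m' (rW f b (fun k => qwq (UU f η k) m (W k)) m' η'))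
    rw [← rW_off hf W hm h]
    refine ih (m' + 1) _ (by omega) fun s hs => ?_
    rw [Function.update_of_ne (by omega), h s hs]

end H69.SR
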