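import Pool.Agent.H69.SR.Key
import Pool.Agent.H69.SR.Off
import Pool.Agent.H69.SR.Meas

/-!
# Module Adapt: the adaptive lemma for Hermitian Gaussian matrices

Induction on `T`, for all `m`, `η` (`Ψ` fixed). `T = 0`: both sides are `Ψ η` (probability measures). Step `T + 1`: put `U k := UU f η k` (`OrtZ` by `ortZ_UU`), `u k := U k m`.
`run (rW f b (Wm z)) m (T+1) η = run (rW f b (Wm z)) (m+1) T (update η m (rW f b (Wm z) m η))` and `rW f b (Wm z) m η = fun k => b m η k + cop (U k) m (mv (Wm z k) (u k))`.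
By `run_off` (with this `η`, `m' = m+1`, `η' = update η m (..)`, which agrees with `η` before `m`) the run is `run (rW f b (fun k => qwq (U k) m (Wm z k))) (m+1) T (update ..)`. So the left side is `∫⁻ z, Θ (LA-pair z)` with
`Θ (y, A) := Ψ (run (rW f b A) (m+1) T (update η m (fun k => b m η k + y k)))`, measurable by `meas_run`. By `key` it is
`∫⁻ g, ∫⁻ z, Θ (fun k => ‖u k‖ • cop (U k) m (gv g k), fun k => qwq (U k) m (Wm z k))`; by `run_off` backwards the inner integrand is `Ψ (run (rW f b (Wm z)) (m+1) T (update η m (rG f b (gv g) m η)))`;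
by the induction hypothesis the inner integral is `∫⁻ g', Ψ (runG f b (m+1) T (fun s => gv (g' s)) (update η m (rG f b (gv g) m η))) ∂pi`. Finally `Measure.pi` on `Fin (T+1)` is the product
(`measurePreserving_piFinSuccAbove _ 0`, `lintegral_prod`/`lintegral_map_equiv`, measurability: `meas_runG`, `meas_gv`).
-/

set_option autoImplicit false

open MeasureTheory ProbabilityTheory
open scoped BigOperators ComplexConjugate InnerProductSpace

namespace H69.SR

variable {L n : ℕ} {f b : ℕ → Hs L n → VV L n}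

private lemma Adapt_upd (η : Hs L n) (m : ℕ) {α : Type} [MeasurableSpace α] {F : α → VV L n}
    (hF : Measurable F) : Measurable fun a => (Function.update η m (F a) : Hs L n) := by
  refine measurable_pi_iff.2 fun t => ?_
  by_cases ht : t = m
  · subst ht
    have h : (fun a => (Function.update η t (F a) : Hs L n) t) = F := by
      funext a
      exact Function.update_self _ _ _
    rw [h]
    exact hF
  · have h : (fun a => (Function.update η m (F a) : Hs L n) t) = fun _ => η t := by
      funext a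
      exact Function.update_of_ne ht _ _
    rw [h]
    exact measurable_const

private lemma Adapt_gvs (T : ℕ) :
    Measurable fun (g : Fin T → Gx L n → ℝ) (s : Fin T) => (gv (g s) : VV L n) :=
  measurable_pi_iff.2 fun s => meas_gv.comp (measurable_pi_apply s)

/-- the integral over `T + 1` fresh vectors -/
private lemma Adapt_split (T : ℕ) (H : (Gx L n → ℝ) → (Fin T → Gx L n → ℝ) → ENNReal)
    (hH : Measurable fun p : (Gx L n → ℝ) × (Fin T → Gx L n → ℝ) => H p.1 p.2) :
    ∫⁻ g : Fin (T + 1) → Gx L n → ℝ, H (g 0) (fun s => g s.succ) ∂(Measure.pi fun _ => gm (Gx L n)) =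
      ∫⁻ g0, ∫⁻ g, H g0 g ∂(Measure.pi fun _ : Fin T => gm (Gx L n)) ∂gm (Gx L n) := by
  have h1 := measurePreserving_piFinSuccAbove (fun _ : Fin (T + 1) => gm (Gx L n)) 0
  have h2 := h1.lintegral_comp (f := fun p : (Gx L n → ℝ) × (Fin T → Gx L n → ℝ) => H p.1 p.2) hH
  have h3 : ∫⁻ p : (Gx L n → ℝ) × (Fin T → Gx L n → ℝ), H p.1 p.2
      ∂((gm (Gx L n)).prod (Measure.pi fun _ : Fin T => gm (Gx L n))) =
      ∫⁻ g0, ∫⁻ g, H g0 g ∂(Measure.pi fun _ : Fin T => gm (Gx L n)) ∂gm (Gx L n) :=
    lintegral_prod _ hH.aemeasurable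
  rw [← h3]
  refine Eq.trans ?_ h2
  refine lintegral_congr fun g => ?_
  have e : (fun s : Fin T => g s.succ) = fun s : Fin T => g ((0 : Fin (T + 1)).succAbove s) := by
    funext s
    rw [Fin.succAbove_zero]
  rw [e]
  rfl

theorem adapt (hf : Loc f) (hfm : ∀ t, Measurable (f t)) (hbm : ∀ t, Measurable (b t)) (Ψ : Hs L n → ENNReal)
    (hΨ : Measurable Ψ) : ∀ (T m : ℕ) (η : Hs L n),
    ∫⁻ z, Ψ (run (rW f b (Wm z)) m T η) ∂gm (Ix L n) =
      ∫⁻ g : Fin T → Gx L n → ℝ, Ψ (runG f b m T (fun s => gv (g s)) η) ∂Measure.pi fun _ => gm (Gx L n) := by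
  intro T
  induction T with
  | zero =>
    intro m η
    have h1 : ∫⁻ _z : Ix L n → ℝ, Ψ η ∂gm (Ix L n) = Ψ η := by
      rw [lintegral_const, measure_univ, mul_one]
    have h2 : ∫⁻ _g : Fin 0 → Gx L n → ℝ, Ψ η ∂(Measure.pi fun _ => gm (Gx L n)) = Ψ η := by
      rw [lintegral_const, measure_univ, mul_one]
    exact h1.trans h2.symm
  | succ T ih =>
    intro m η
    -- the function of the pair
    let Θ : VV L n × MM L n → ENNReal := fun p =>
      Ψ (run (rW f b p.2) (m + 1) T (Function.update η m fun k => b m η k + p.1 k))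
    have hΘ : Measurable Θ := by
      have h0 : Measurable fun p : VV L n × MM L n => (fun k => b m η k + p.1 k : VV L n) :=
        measurable_pi_iff.2 fun k =>
          measurable_const.add ((measurable_pi_apply k).comp measurable_fst)
      have h1 := (meas_run hfm hbm T (m + 1)).comp
        ((measurable_snd (α := VV L n) (β := MM L n)).prodMk (Adapt_upd η m h0))
      have h2 := hΨ.comp h1
      exact h2
    have hoff : ∀ (z : Ix L n → ℝ) (y : VV L n),
        run (rW f b (Wm z)) (m + 1) T (Function.update η m y) =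
          run (rW f b fun k => qwq (UU f η k) m (Wm z k)) (m + 1) T (Function.update η m y) := by
      intro z y
      exact run_off hf (Wm z) η T (m + 1) _ (Nat.lt_succ_self m) fun s hs =>
        Function.update_of_ne hs.ne _ _
    have hk := key (fun k => UU f η k) m (fun k => ortZ_UU f η k) Θ hΘ
    -- left side
    have e1 : ∫⁻ z, Ψ (run (rW f b (Wm z)) m (T + 1) η) ∂gm (Ix L n) =
        ∫⁻ z, Θ (fun k => cop (UU f η k) m (mv (Wm z k) (UU f η k m)),
          fun k => qwq (UU f η k) m (Wm z k)) ∂gm (Ix L n) := by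
      refine lintegral_congr fun z => ?_
      exact congrArg Ψ (hoff z _)
    -- right side
    have e2 : ∀ g : Gx L n → ℝ,
        ∫⁻ z, Θ (fun k => ((‖UU f η k m‖ : ℝ) : ℂ) • cop (UU f η k) m (gv g k),
          fun k => qwq (UU f η k) m (Wm z k)) ∂gm (Ix L n) =
        ∫⁻ g' : Fin T → Gx L n → ℝ, Ψ (runG f b (m + 1) T (fun s => gv (g' s))
          (Function.update η m (rG f b (gv g) m η))) ∂Measure.pi fun _ => gm (Gx L n) := by
      intro g
      rw [← ih (m + 1) (Function.update η m (rG f b (gv g) m η))]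
      refine lintegral_congr fun z => ?_
      exact congrArg Ψ (hoff z _).symm
    have hH : Measurable fun p : (Gx L n → ℝ) × (Fin T → Gx L n → ℝ) =>
        Ψ (runG f b (m + 1) T (fun s => gv (p.2 s)) (Function.update η m (rG f b (gv p.1) m η))) := by
      have h0 : Measurable fun p : (Gx L n → ℝ) × (Fin T → Gx L n → ℝ) => rG f b (gv p.1) m η := by
        have a1 : Measurable fun p : (Gx L n → ℝ) × (Fin T → Gx L n → ℝ) => (gv p.1 : VV L n) :=
          meas_gv.comp measurable_fst
        have a2 : Measurable fun p : (Gx L n → ℝ) × (Fin T → Gx L n → ℝ) =>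
            ((gv p.1, η) : VV L n × Hs L n) := a1.prodMk measurable_const
        have h := (meas_rG hfm hbm m).comp a2
        exact h
      have a1 : Measurable fun p : (Gx L n → ℝ) × (Fin T → Gx L n → ℝ) =>
          (fun s => gv (p.2 s) : Fin T → VV L n) := (Adapt_gvs (L := L) (n := n) T).comp measurable_snd
      have a2 : Measurable fun p : (Gx L n → ℝ) × (Fin T → Gx L n → ℝ) =>
          (((fun s => gv (p.2 s)), Function.update η m (rG f b (gv p.1) m η)) :
            (Fin T → VV L n) × Hs L n) := a1.prodMk (Adapt_upd η m h0)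
      have h1 := (meas_runG hfm hbm T (m + 1)).comp a2
      have h2 := hΨ.comp h1
      exact h2
    have e3 := Adapt_split T (fun g0 g => Ψ (runG f b (m + 1) T (fun s => gv (g s))
      (Function.update η m (rG f b (gv g0) m η)))) hH
    calc ∫⁻ z, Ψ (run (rW f b (Wm z)) m (T + 1) η) ∂gm (Ix L n)
        = ∫⁻ g, ∫⁻ z, Θ (fun k => ((‖UU f η k m‖ : ℝ) : ℂ) • cop (UU f η k) m (gv g k),
          fun k => qwq (UU f η k) m (Wm z k)) ∂gm (Ix L n) ∂gm (Gx L n) := e1.trans hk
      _ = ∫⁻ g, ∫⁻ g' : Fin T → Gx L n → ℝ, Ψ (runG f b (m + 1) T (fun s => gv (g' s))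
          (Function.update η m (rG f b (gv g) m η))) ∂(Measure.pi fun _ => gm (Gx L n)) ∂gm (Gx L n) :=
        lintegral_congr fun g => e2 g
      _ = ∫⁻ g : Fin (T + 1) → Gx L n → ℝ, Ψ (runG f b m (T + 1) (fun s => gv (g s)) η)
          ∂Measure.pi fun _ => gm (Gx L n) := e3.symm

lemma ind_map {α β : Type} [MeasurableSpace α] [MeasurableSpace β] (μ : Measure α) {F : α → β}
    (hF : Measurable F) {S : Set β} (hS : MeasurableSet S) :
    ∫⁻ z, S.indicator (fun _ => (1 : ENNReal)) (F z) ∂μ = μ {z | F z ∈ S} := by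
  have h : (fun z => S.indicator (fun _ => (1 : ENNReal)) (F z)) =
      ({z | F z ∈ S} : Set α).indicator fun _ => (1 : ENNReal) := by
    funext z
    by_cases hz : F z ∈ S
    · rw [Set.indicator_of_mem hz, Set.indicator_of_mem (show z ∈ {z | F z ∈ S} from hz)]
    · rw [Set.indicator_of_notMem hz, Set.indicator_of_notMem (show z ∉ {z | F z ∈ S} from hz)]
  rw [h]
  exact (lintegral_indicator_const (hF hS) 1).trans (one_mul _)

/-- the version for sets -/
theorem adapt_set (hf : Loc f) (hfm : ∀ t, Measurable (f t)) (hbm : ∀ t, Measurable (b t)) {S : Set (Hs L n)}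
    (hS : MeasurableSet S) (T : ℕ) (η : Hs L n) :
    gm (Ix L n) {z | run (rW f b (Wm z)) 0 T η ∈ S} =
      (Measure.pi fun _ : Fin T => gm (Gx L n)) {g | runG f b 0 T (fun s => gv (g s)) η ∈ S} := by
  have h := adapt hf hfm hbm (S.indicator fun _ => 1) (measurable_const.indicator hS) T 0 η
  have m1 : Measurable fun z : Ix L n → ℝ => run (rW f b (Wm z)) 0 T η := by
    have h1 := (meas_run hfm hbm T 0).comp ((meas_Wm' (L := L) (n := n)).prodMk (measurable_const (a := η)))
    exact h1
  have m2 : Measurable fun g : Fin T → Gx L n → ℝ => runG f b 0 T (fun s => gv (g s)) η := by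
    have h0 : Measurable fun g : Fin T → Gx L n → ℝ => fun s => gv (g s) :=
      measurable_pi_iff.2 fun s => meas_gv.comp (measurable_pi_apply s)
    have h1 := (meas_runG hfm hbm T 0).comp (h0.prodMk (measurable_const (a := η)))
    exact h1
  rw [← ind_map _ m1 hS, ← ind_map _ m2 hS]
  exact h

end H69.SR
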