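import Pool.Agent.H69.SR.Defs

/-!
# Seeds and rounds (MP_634cec): the maps

`FF`: clipped posterior-mean type combination of `v k` and of the products `v p * v q` (`p + q = k`) and
`v p * conj (v q)` (`p - q = k`), on disjoint pairs of frequencies.
-/

set_option autoImplicit false

open MeasureTheory ProbabilityTheory
open scoped BigOperators ComplexConjugate InnerProductSpace

namespace H69.SR

variable {L M n : ℕ}

/-- the point of the disc with radius `R` next to `z` -/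
noncomputable def clip (R : ℝ) (z : ℂ) : ℂ := ((min 1 (R / ‖z‖) : ℝ) : ℂ) * z

/-- conjugation if `c` is true -/
noncomputable def cj (c : Bool) (z : ℂ) : ℂ := if c then conj z else z

/-- Disjoint pairs of frequencies (the index `l` stands for the frequency `l + 1`): for every `k` there are `M`
pairs with sum `k` (`c = false`) or difference `k` (`c = true`). -/
structure Prs (L M : ℕ) where
  p : Fin L → Fin M → Fin L
  q : Fin L → Fin M → Fin L
  c : Fin L → Fin M → Bool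
  sum : ∀ k i, c k i = false → (p k i : ℕ) + (q k i : ℕ) + 1 = k
  diff : ∀ k i, c k i = true → (p k i : ℕ) = k + (q k i : ℕ) + 1
  injp : ∀ k, Function.Injective (p k)
  injq : ∀ k, Function.Injective (q k)
  pq : ∀ k i i', p k i ≠ q k i'
  pk : ∀ k i, p k i ≠ k
  qk : ∀ k i, q k i ≠ k

/-- the weight of a product -/
noncomputable def wt (x y : ℝ) : ℝ := x * y / (1 + x ^ 2 + y ^ 2)

/-- the signal share of a product -/
noncomputable def sh (x y : ℝ) : ℝ := x ^ 2 * y ^ 2 / (1 + x ^ 2 + y ^ 2)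

/-- the total signal share -/
noncomputable def SS (D : Prs L M) (m : Fin L → ℝ) (k : Fin L) : ℝ :=
  m k ^ 2 + ∑ i, sh (m (D.p k i)) (m (D.q k i))

/-- the combination without clipping and without normalisation -/
noncomputable def NU (D : Prs L M) (m : Fin L → ℝ) (k : Fin L) (v : Fin L → ℂ) : ℂ :=
  (m k : ℂ) * v k + ∑ i, (wt (m (D.p k i)) (m (D.q k i)) : ℂ) * (v (D.p k i) * cj (D.c k i) (v (D.q k i)))

/-- the map of one round -/
noncomputable def FF (D : Prs L M) (R : ℝ) (m : Fin L → ℝ) (k : Fin L) (v : Fin L → ℂ) : ℂ :=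
  NU D m k (fun l => clip R (v l)) / ((1 + SS D m k : ℝ) : ℂ)

/-- the standard Gaussian measure on `ℂ^L` -/
noncomputable def stdL (L : ℕ) : Measure (Fin L → ℂ) := Measure.pi fun _ => stdC

/-- norm of `a 0 k, .., a (t-1) k` -/
noncomputable def nr (a : ℕ → Fin L → ℂ) (t : ℕ) (k : Fin L) : ℝ :=
  Real.sqrt (∑ s ∈ Finset.range t, ‖a s k‖ ^ 2)

/-- weight of `y_s` in round `t` -/
noncomputable def ww (a : ℕ → Fin L → ℂ) (t s : ℕ) (k : Fin L) : ℂ := conj (a s k) / (nr a t k : ℂ)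

/-- signal strength in round `t` -/
noncomputable def mm (lam : ℝ) (a : ℕ → Fin L → ℂ) (t : ℕ) (k : Fin L) : ℝ := lam * nr a t k

/-- number of labels -/
def NN (L : ℕ) : ℕ := 100 * L ^ 2 + 1

/-- squared distance of the label `a` to `v` -/
noncomputable def cost (v : Fin L → ℂ) (a : Fin (NN L)) : ℝ :=
  ∑ k : Fin L, ‖root (NN L) a ^ ((k : ℕ) + 1) - v k‖ ^ 2

lemma exists_cost (v : Fin L → ℂ) : ∃ a : Fin (NN L), ∀ b, cost v a ≤ cost v b := by
  obtain ⟨a, -, ha⟩ := Finset.exists_min_image (Finset.univ : Finset (Fin (NN L))) (cost v)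
    ⟨⟨0, by unfold NN; omega⟩, Finset.mem_univ _⟩
  exact ⟨a, fun b => ha b (Finset.mem_univ _)⟩

open Classical in
/-- the first label for which `cost` is minimal -/
noncomputable def dec (v : Fin L → ℂ) : Fin (NN L) :=
  (Finset.univ.filter fun a : Fin (NN L) => ∀ b, cost v a ≤ cost v b).min'
    (by
      obtain ⟨a, ha⟩ := exists_cost v
      exact ⟨a, Finset.mem_filter.2 ⟨Finset.mem_univ _, ha⟩⟩)

/-- the procedure for the guess `a` of the overlaps -/
noncomputable def mkP (D : Prs L M) (R lam : ℝ) (T : ℕ) (a : ℕ → Fin L → ℂ) : Proc L where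
  T := T
  β := fun t r k => (lam : ℂ) * a t k * conj (a r k)
  Φ := fun t k y => FF D R (mm lam a t) k fun l => ∑ s ∈ Finset.range t, ww a t s l * y s l
  N := NN L
  dec := dec

/-- lower bound for the new overlap: `c / (1 + c)`, `c = S + M S^2 / (1 + 2 S)` -/
noncomputable def cS (M : ℕ) (S : ℝ) : ℝ :=
  (S + M * S ^ 2 / (1 + 2 * S)) / (1 + (S + M * S ^ 2 / (1 + 2 * S)))

/-- gain in one round -/
noncomputable def kap (θ : ℝ) (M : ℕ) : ℝ := min (θ / 8) (1 / (4 * (M + 2)))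

/-- the total error in one round -/
noncomputable def err (L M T : ℕ) (R ε δ : ℝ) : ℝ :=
  2 * ε + (1 + 2 * (R + M * R ^ 2)) * ((2 + 4 * R * M) * (L * (4 * T ^ 2 * δ)))

/-- all parameters, and the inequalities between them -/
structure Par (L : ℕ) where
  M : ℕ
  T : ℕ
  lam : ℝ
  R : ℝ
  ε : ℝ
  δ : ℝ
  θ : ℝ
  D : Prs L M
  Γ : Finset ℂ
  hL : 1 ≤ L
  hML : M ≤ L
  hT : 1 ≤ T
  lam0 : 0 < lam
  lam1 : lam < 1
  hR : 0 < R
  hε : 0 < ε
  hδ : 0 < δ
  hθ : 0 < θ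
  hθ1 : θ ≤ 1
  hM : 1152 ≤ M * lam ^ 4
  gr : 24 * (1 - lam ^ 2) ^ 2 ≤ θ * (M * lam ^ 4)
  mom : ∀ m : Fin L → ℝ, (∀ l, 0 ≤ m l ∧ m l ≤ 2) → ∀ k,
    ‖(∫ z, FF D R m k (fun l => m l + z l) ∂stdL L) - ((SS D m k / (1 + SS D m k) : ℝ) : ℂ)‖ ≤ ε ∧
    ∫ z, ‖FF D R m k (fun l => m l + z l)‖ ^ 2 ∂stdL L ≤ SS D m k / (1 + SS D m k) + ε
  zero_mem : (0 : ℂ) ∈ Γ
  le_one : ∀ g ∈ Γ, ‖g‖ ≤ 1
  net : ∀ z : ℂ, ‖z‖ ≤ 1 → ∃ g ∈ Γ, ‖g - z‖ ≤ δ
  small : 3 * err L M T R ε δ + 2 * T * δ ≤ kap θ M / 4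
  rounds : 1 ≤ T * (kap θ M / 2)

namespace Par

variable (A : Par L)

/-- the procedure for the guess `a` -/
noncomputable def pr (a : ℕ → Fin L → ℂ) : Proc L := mkP A.D A.R A.lam A.T a

/-- the admissible guesses -/
def gss : Set (ℕ → Fin L → ℂ) := {a | (∀ t k, a t k ∈ A.Γ) ∧ ∀ t, A.T ≤ t → a t = 0}

end Par

/-- `a` is consistent with the history `ζ` (`f`: the procedure, `x`: the signal) -/
def Cons (δ : ℝ) (x : Fin n → ℂ) (a : ℕ → Fin L → ℂ) (f : ℕ → Hs L n → VV L n) (ζ : Hs L n) (T : ℕ) : Prop :=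
  ∀ t < T, ∀ k, ‖a t k - al x f ζ k t‖ ≤ δ ∧ (UU f ζ k t = 0 → a t k = 0)

/-- the seeds `s` are close to the signal `x` -/
structure Seeds (L : ℕ) {n : ℕ} (x s : Fin n → ℂ) : Prop where
  nx : ∀ j, ‖x j‖ = 1
  ns : ∀ j, ‖s j‖ = 1
  near : ∀ j, ∀ k : Fin L, ‖s j ^ ((k : ℕ) + 1) - x j ^ ((k : ℕ) + 1)‖ ≤ 1 / (30 * L)

end H69.SR
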