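import Pool.Agent.H69.SR.StdC

/-!
# Module Arr: the Gaussian variables at the vertices are independent

`Measure.pi fun _ : Fin T => gm (Gx L n)` is, up to currying, `gm (Fin T × Fin L × Fin n × Bool)` (`Measure.pi` over a product index: `infinitePi_map_curry` with `infinitePi_eq_pi`, or `Measure.pi_eq` on boxes), and the right side is
the image of the same measure under the permuted currying (`measurePreserving_piCongrLeft` for the permutation of the indices) followed by `(x, y) ↦ (x + i y)/√2` in every coordinate (`Measure.pi_map_pi`, `stdL_eq`).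
-/

set_option autoImplicit false

open MeasureTheory ProbabilityTheory
open scoped BigOperators ComplexConjugate InnerProductSpace

namespace H69.SR

private lemma arr_curry (ι κ : Type) [Fintype ι] [Fintype κ] :
    (Measure.pi fun _ : ι => gm κ) = (gm (ι × κ)).map (fun z i k => z (i, k)) := by
  have h2 : (Measure.pi fun _ : ι => Measure.pi fun _ : κ => gaussianReal 0 1) =
      (gm (ι × κ)).map (MeasurableEquiv.curry ι κ ℝ) := by
    unfold gm
    rw [← Measure.infinitePi_eq_pi (μ := fun _ : ι × κ => gaussianReal 0 1),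
      Measure.infinitePi_map_curry (fun (_ : ι) (_ : κ) => gaussianReal 0 1),
      Measure.infinitePi_eq_pi]
    simp only [Measure.infinitePi_eq_pi]
  exact h2

private lemma arr_re {κ ι : Type} [Fintype ι] [Fintype κ] (e : κ ≃ ι) :
    (gm κ).map (fun g i => g (e.symm i)) = gm ι := by
  have h := (measurePreserving_piCongrLeft (fun _ : ι => gaussianReal 0 1) e).map_eq
  have h2 : (MeasurableEquiv.piCongrLeft (fun _ : ι => ℝ) e : (κ → ℝ) → ι → ℝ) =
      fun g i => g (e.symm i) := by
    funext g i
    obtain ⟨k, rfl⟩ := e.surjective i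
    rw [MeasurableEquiv.coe_piCongrLeft, Equiv.piCongrLeft_apply_apply, Equiv.symm_apply_apply]
  rw [h2] at h
  exact h

theorem arr (T L n : ℕ) : (Measure.pi fun _ : Fin T => gm (Gx L n)).map
      (fun ω (j : Fin n) (s : Fin T) (l : Fin L) => gv (ω s) l j) =
    Measure.pi fun _ : Fin n => Measure.pi fun _ : Fin T => stdL L := by
  have hφ : Measurable fun (z : Fin L × Bool → ℝ) (l : Fin L) =>
      ((z (l, true) : ℂ) + (z (l, false) : ℂ) * Complex.I) / (Real.sqrt 2 : ℂ) := by fun_prop
  have hφ' : Measurable fun (z : Fin T × Fin L × Bool → ℝ) (s : Fin T) (l : Fin L) =>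
      ((z (s, l, true) : ℂ) + (z (s, l, false) : ℂ) * Complex.I) / (Real.sqrt 2 : ℂ) := by fun_prop
  have i1 : IsProbabilityMeasure ((gm (Fin L × Bool)).map fun (z : Fin L × Bool → ℝ) (l : Fin L) =>
      ((z (l, true) : ℂ) + (z (l, false) : ℂ) * Complex.I) / (Real.sqrt 2 : ℂ)) :=
    Measure.isProbabilityMeasure_map hφ.aemeasurable
  have i2 : IsProbabilityMeasure ((gm (Fin T × Fin L × Bool)).map
      fun (z : Fin T × Fin L × Bool → ℝ) (s : Fin T) (l : Fin L) =>
      ((z (s, l, true) : ℂ) + (z (s, l, false) : ℂ) * Complex.I) / (Real.sqrt 2 : ℂ)) :=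
    Measure.isProbabilityMeasure_map hφ'.aemeasurable
  have s1 : (Measure.pi fun _ : Fin T => stdL L) = (gm (Fin T × Fin L × Bool)).map
      fun (z : Fin T × Fin L × Bool → ℝ) (s : Fin T) (l : Fin L) =>
      ((z (s, l, true) : ℂ) + (z (s, l, false) : ℂ) * Complex.I) / (Real.sqrt 2 : ℂ) := by
    simp only [stdL_eq]
    rw [← Measure.pi_map_pi (fun _ => hφ.aemeasurable), arr_curry, Measure.map_map]
    · rfl
    · exact measurable_pi_iff.2 fun l => hφ.comp (measurable_pi_apply l)
    · fun_prop
  simp only [s1]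
  rw [← Measure.pi_map_pi (fun _ => hφ'.aemeasurable), arr_curry, arr_curry, Measure.map_map,
    Measure.map_map]
  · let e : (Fin T × Fin L × Fin n × Bool) ≃ (Fin n × Fin T × Fin L × Bool) :=
      { toFun := fun p => (p.2.2.1, p.1, p.2.1, p.2.2.2)
        invFun := fun p => (p.2.1, p.2.2.1, p.1, p.2.2.2)
        left_inv := fun p => rfl
        right_inv := fun p => rfl }
    rw [← arr_re e, Measure.map_map]
    · rfl
    · fun_prop
    · fun_prop
  · exact measurable_pi_iff.2 fun l => hφ'.comp (measurable_pi_apply l)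
  · fun_prop
  · refine measurable_pi_iff.2 fun j => measurable_pi_iff.2 fun s => measurable_pi_iff.2 fun l => ?_
    simp only [gv_apply]
    fun_prop
  · fun_prop

end H69.SR
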