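import Pool.Agent.H69.SR.Alg

/-!
# Seeds and rounds (MP_634cec): first facts (complete)
-/

set_option autoImplicit false

open MeasureTheory ProbabilityTheory
open scoped BigOperators ComplexConjugate InnerProductSpace

namespace H69.SR

variable {L M n : ℕ}

instance (ι : Type) [Fintype ι] : IsProbabilityMeasure (gm ι) := by
  unfold gm; infer_instance

instance : IsProbabilityMeasure stdC := by
  unfold stdC
  exact Measure.isProbabilityMeasure_map (Continuous.aemeasurable (by fun_prop))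

instance (L : ℕ) : IsProbabilityMeasure (stdL L) := by
  unfold stdL; infer_instance

/-- the map from `E n` to the coordinates is measurable -/
lemma meas_coord (j : Fin n) : Measurable fun v : E n => v j :=
  (EuclideanSpace.proj (𝕜 := ℂ) j : E n →L[ℂ] ℂ).continuous.measurable

lemma meas_toLp {α : Type} [MeasurableSpace α] {F : α → Fin n → ℂ} (hF : ∀ j, Measurable fun a => F a j) :
    Measurable fun a => (WithLp.toLp 2 (F a) : E n) :=
  (PiLp.continuous_toLp 2 fun _ : Fin n => ℂ).measurable.comp (measurable_pi_iff.2 hF)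

lemma meas_Wm (k : Fin L) (i j : Fin n) : Measurable fun z : Ix L n → ℝ => Wm z k i j := by
  unfold Wm; fun_prop

lemma meas_Wm' : Measurable (Wm : (Ix L n → ℝ) → MM L n) :=
  measurable_pi_iff.2 fun k => measurable_pi_iff.2 fun i => measurable_pi_iff.2 fun j => meas_Wm k i j

lemma gv_apply (z : Gx L n → ℝ) (k : Fin L) (i : Fin n) :
    gv z k i = ((z (k, i, true) : ℂ) + (z (k, i, false) : ℂ) * Complex.I) / (Real.sqrt 2 : ℂ) := rfl

lemma meas_gv : Measurable (gv : (Gx L n → ℝ) → VV L n) :=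
  measurable_pi_iff.2 fun k => meas_toLp fun j => by fun_prop

lemma xv_apply (x : Fin n → ℂ) (k : Fin L) (j : Fin n) : xv x k j = x j ^ ((k : ℕ) + 1) := rfl

lemma norm_root (N : ℕ) (a : Fin N) : ‖root N a‖ = 1 := by
  unfold root
  rw [Complex.norm_exp]
  simp

lemma dec_le (v : Fin L → ℂ) (a : Fin (NN L)) :
    ∑ k : Fin L, ‖root (NN L) (dec v) ^ ((k : ℕ) + 1) - v k‖ ^ 2 ≤
      ∑ k : Fin L, ‖root (NN L) a ^ ((k : ℕ) + 1) - v k‖ ^ 2 :=
  (Finset.mem_filter.1 (Finset.min'_mem (Finset.univ.filter fun a : Fin (NN L) => ∀ b, cost v a ≤ cost v b)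
    (by
      obtain ⟨a, ha⟩ := exists_cost v
      exact ⟨a, Finset.mem_filter.2 ⟨Finset.mem_univ _, ha⟩⟩))).2 a

lemma f_congr (p : Proc L) {J : Finset (Fin n)} {s s' : Fin n → ℂ} (h : ∀ j ∈ J, s j = s' j) :
    p.f J s = p.f J s' := by
  funext t η k
  unfold Proc.f
  congr 1
  funext j
  by_cases hj : j ∈ J
  · rw [if_pos hj, if_pos hj, h j hj]
  · rw [if_neg hj, if_neg hj]

lemma out_congr (p : Proc L) {J : Finset (Fin n)} {s s' : Fin n → ℂ} (h : ∀ j ∈ J, s j = s' j) (Y : MM L n) :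
    p.out J s Y = p.out J s' Y := by
  unfold Proc.out Proc.resp
  rw [f_congr p h]

lemma nsq_E (v : E n) : ‖v‖ ^ 2 = ∑ j, ‖v j‖ ^ 2 := by
  rw [EuclideanSpace.norm_eq, Real.sq_sqrt (Finset.sum_nonneg fun _ _ => by positivity)]

lemma inner_E (u v : E n) : ⟪u, v⟫_ℂ = ∑ j, conj (u j) * v j := by
  rw [PiLp.inner_apply]
  refine Finset.sum_congr rfl fun j _ => ?_
  rw [RCLike.inner_apply, mul_comm]

lemma norm_xv {x : Fin n → ℂ} (hx : ∀ j, ‖x j‖ = 1) (k : Fin L) : ‖xv x k‖ ^ 2 = n := by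
  rw [nsq_E]
  simp [xv_apply, hx]

lemma sh_nonneg (x y : ℝ) : 0 ≤ sh x y := by unfold sh; positivity

lemma SS_nonneg (D : Prs L M) (m : Fin L → ℝ) (k : Fin L) : 0 ≤ SS D m k :=
  add_nonneg (sq_nonneg _) (Finset.sum_nonneg fun _ _ => sh_nonneg _ _)

lemma nr_nonneg (a : ℕ → Fin L → ℂ) (t : ℕ) (k : Fin L) : 0 ≤ nr a t k := Real.sqrt_nonneg _

lemma nr_sq (a : ℕ → Fin L → ℂ) (t : ℕ) (k : Fin L) : nr a t k ^ 2 = ∑ s ∈ Finset.range t, ‖a s k‖ ^ 2 :=
  Real.sq_sqrt (Finset.sum_nonneg fun _ _ => by positivity)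

end H69.SR
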