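import Pool.Agent.H69.SR.Base

/-!
# Module Clip: the clipped maps

* `clip R z = z` if `‖z‖ ≤ R` (also for `z = 0`), `= (R/‖z‖) z` otherwise. `clip_lip`: both inside: clear; `‖z‖ ≤ R < ‖w‖`: `‖z - R w/‖w‖‖ ≤ ‖z - w‖ + (‖w‖ - R) ≤ 2 ‖z - w‖`; both outside:
  `‖R z/‖z‖ - R w/‖w‖‖ ≤ (R/‖z‖) ‖z - w‖ + R |‖w‖/‖z‖ - 1| ≤ 2 ‖z - w‖`. `clip_sub`: the difference vanishes for `‖z‖ ≤ R`, otherwise it is `‖z‖ - R ≤ ‖z‖ ≤ ‖z‖^2/R`.
* `FF_bd`, `FF_lip`: the denominator is `≥ 1` and `≥ 1 + m k ^ 2`, so `m k / (1 + SS) ≤ 1/2`; `0 ≤ wt x y ≤ 1/2` for `x, y ≥ 0`; `‖a b - a' b'‖ ≤ ‖a‖ ‖b - b'‖ + ‖a - a'‖ ‖b'‖`; every pair contributes at most `2 R (‖v p - v' p‖ + ‖v q - v' q‖) ≤ 4 R ∑ l, ‖v l - v' l‖`.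
* `FF_rot`: `clip (u z) = u clip z` for `‖u‖ = 1`; for `c = false`: `x^(p+1) x^(q+1) = x^(k+1)` (`D.sum`), for `c = true`: `x^(p+1) conj (x^(q+1)) = x^(k+1)` (`D.diff`, `x conj x = 1`).
-/

set_option autoImplicit false

open MeasureTheory ProbabilityTheory
open scoped BigOperators ComplexConjugate InnerProductSpace

namespace H69.SR

variable {L M : ℕ}

private lemma Clip_in {R : ℝ} {z : ℂ} (h : ‖z‖ ≤ R) : clip R z = z := by
  unfold clip
  by_cases hz : z = 0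
  · rw [hz, mul_zero]
  · have h1 : 0 < ‖z‖ := norm_pos_iff.2 hz
    have h2 : 1 ≤ R / ‖z‖ := by rw [le_div_iff₀ h1]; linarith
    rw [min_eq_left h2]
    simp

private lemma Clip_out {R : ℝ} {z : ℂ} (h0 : 0 ≤ R) (h : R < ‖z‖) :
    clip R z = ((R / ‖z‖ : ℝ) : ℂ) * z := by
  unfold clip
  have h1 : 0 < ‖z‖ := lt_of_le_of_lt h0 h
  have h2 : R / ‖z‖ ≤ 1 := by rw [div_le_iff₀ h1]; linarith
  rw [min_eq_right h2]

private lemma Clip_norm {R : ℝ} (h0 : 0 ≤ R) (z : ℂ) : ‖clip R z‖ = min 1 (R / ‖z‖) * ‖z‖ := by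
  unfold clip
  rw [norm_mul, Complex.norm_real, Real.norm_eq_abs,
    abs_of_nonneg (le_min zero_le_one (div_nonneg h0 (norm_nonneg z)))]

theorem clip_le {R : ℝ} (hR : 0 ≤ R) (z : ℂ) : ‖clip R z‖ ≤ R := by
  rcases le_or_gt ‖z‖ R with h | h
  · rw [Clip_in h]; exact h
  · rw [Clip_out hR h, norm_mul, Complex.norm_real, Real.norm_eq_abs,
      abs_of_nonneg (div_nonneg hR (norm_nonneg z))]
    have h1 : 0 < ‖z‖ := lt_of_le_of_lt hR h
    rw [div_mul_cancel₀ _ h1.ne']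

theorem clip_le' {R : ℝ} (hR : 0 ≤ R) (z : ℂ) : ‖clip R z‖ ≤ ‖z‖ := by
  rw [Clip_norm hR]
  exact mul_le_of_le_one_left (norm_nonneg z) (min_le_left _ _)

private lemma Clip_lip1 {R : ℝ} (hR : 0 ≤ R) {z w : ℂ} (hzw : ‖z‖ ≤ ‖w‖) :
    ‖clip R z - clip R w‖ ≤ 2 * ‖z - w‖ := by
  have hd : ‖w‖ - ‖z‖ ≤ ‖z - w‖ := by
    rw [norm_sub_rev]; exact norm_sub_norm_le w z
  have hn := norm_nonneg (z - w)
  rcases le_or_gt ‖w‖ R with h | h
  · rw [Clip_in h, Clip_in (hzw.trans h)]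
    linarith
  · have hw : 0 < ‖w‖ := lt_of_le_of_lt hR h
    rcases le_or_gt ‖z‖ R with h' | h'
    · rw [Clip_in h', Clip_out hR h]
      have e1 : z - ((R / ‖w‖ : ℝ) : ℂ) * w = (z - w) + ((1 - R / ‖w‖ : ℝ) : ℂ) * w := by
        push_cast; ring
      rw [e1]
      refine (norm_add_le _ _).trans ?_
      rw [norm_mul, Complex.norm_real, Real.norm_eq_abs]
      have h2 : R / ‖w‖ ≤ 1 := by rw [div_le_iff₀ hw]; linarith
      rw [abs_of_nonneg (by linarith)]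
      have e2 : (1 - R / ‖w‖) * ‖w‖ = ‖w‖ - R := by field_simp
      rw [e2]
      linarith
    · have hz : 0 < ‖z‖ := lt_of_le_of_lt hR h'
      rw [Clip_out hR h', Clip_out hR h]
      have e1 : ((R / ‖z‖ : ℝ) : ℂ) * z - ((R / ‖w‖ : ℝ) : ℂ) * w =
          ((R / ‖z‖ : ℝ) : ℂ) * (z - w) + ((R / ‖z‖ - R / ‖w‖ : ℝ) : ℂ) * w := by
        push_cast; ring
      rw [e1]
      refine (norm_add_le _ _).trans ?_
      rw [norm_mul, norm_mul, Complex.norm_real, Complex.norm_real, Real.norm_eq_abs, Real.norm_eq_abs]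
      have h2 : R / ‖z‖ ≤ 1 := by rw [div_le_iff₀ hz]; linarith
      have h3 : R / ‖w‖ ≤ R / ‖z‖ := div_le_div_of_nonneg_left hR hz hzw
      have h4 : 0 ≤ R / ‖z‖ := div_nonneg hR hz.le
      rw [abs_of_nonneg h4, abs_of_nonneg (by linarith)]
      have e2 : (R / ‖z‖ - R / ‖w‖) * ‖w‖ = R / ‖z‖ * (‖w‖ - ‖z‖) := by field_simp
      rw [e2]
      have h5 : R / ‖z‖ * ‖z - w‖ ≤ ‖z - w‖ := mul_le_of_le_one_left hn h2
      have h6 : R / ‖z‖ * (‖w‖ - ‖z‖) ≤ ‖w‖ - ‖z‖ := mul_le_of_le_one_left (by linarith) h2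
      linarith

theorem clip_lip {R : ℝ} (hR : 0 ≤ R) (z w : ℂ) : ‖clip R z - clip R w‖ ≤ 2 * ‖z - w‖ := by
  rcases le_total ‖z‖ ‖w‖ with h | h
  · exact Clip_lip1 hR h
  · rw [norm_sub_rev, norm_sub_rev z w]
    exact Clip_lip1 hR h

theorem clip_sub {R : ℝ} (hR : 0 < R) (z : ℂ) : ‖clip R z - z‖ ≤ ‖z‖ ^ 2 / R := by
  rcases le_or_gt ‖z‖ R with h | h
  · rw [Clip_in h, sub_self, norm_zero]
    positivity
  · have hz : 0 < ‖z‖ := hR.trans h
    rw [Clip_out hR.le h]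
    have e1 : ((R / ‖z‖ : ℝ) : ℂ) * z - z = -(((1 - R / ‖z‖ : ℝ) : ℂ) * z) := by
      push_cast; ring
    rw [e1, norm_neg, norm_mul, Complex.norm_real, Real.norm_eq_abs]
    have h2 : R / ‖z‖ ≤ 1 := by rw [div_le_iff₀ hz]; linarith
    rw [abs_of_nonneg (by linarith)]
    have e2 : (1 - R / ‖z‖) * ‖z‖ = ‖z‖ - R := by field_simp
    rw [e2, le_div_iff₀ hR]
    nlinarith

theorem clip_mul {R : ℝ} {u : ℂ} (hu : ‖u‖ = 1) (z : ℂ) : clip R (u * z) = u * clip R z := by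
  unfold clip
  rw [norm_mul, hu, one_mul]
  ring

theorem clip_cont {R : ℝ} (hR : 0 ≤ R) : Continuous (clip R) := by
  have h : LipschitzWith 2 (clip R) := LipschitzWith.of_dist_le_mul fun z w => by
    rw [dist_eq_norm, dist_eq_norm]
    exact clip_lip hR z w
  exact h.continuous

private lemma Clip_cj_cont (c : Bool) : Continuous (cj c) := by
  cases c
  · exact continuous_id
  · exact Complex.continuous_conj

private lemma Clip_cj_norm (c : Bool) (z : ℂ) : ‖cj c z‖ = ‖z‖ := by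
  cases c
  · rfl
  · exact RCLike.norm_conj z

private lemma Clip_cj_sub (c : Bool) (z w : ℂ) : cj c z - cj c w = cj c (z - w) := by
  cases c
  · rfl
  · exact (map_sub (starRingEnd ℂ) z w).symm

theorem FF_cont (D : Prs L M) {R : ℝ} (hR : 0 ≤ R) (m : Fin L → ℝ) (k : Fin L) : Continuous (FF D R m k) := by
  unfold FF NU
  refine Continuous.div_const ?_ _
  have h1 : ∀ l : Fin L, Continuous fun v : Fin L → ℂ => clip R (v l) := fun l =>
    (clip_cont hR).comp (continuous_apply l)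
  refine (continuous_const.mul (h1 k)).add (continuous_finset_sum _ fun i _ => ?_)
  exact continuous_const.mul ((h1 _).mul ((Clip_cj_cont _).comp (h1 _)))

private lemma Clip_wt {x y : ℝ} (hx : 0 ≤ x) (hy : 0 ≤ y) : 0 ≤ wt x y ∧ wt x y ≤ 1 / 2 := by
  unfold wt
  constructor
  · positivity
  · rw [div_le_iff₀ (by positivity)]
    nlinarith [sq_nonneg (x - y)]

private lemma Clip_SS (D : Prs L M) (m : Fin L → ℝ) (k : Fin L) : m k ^ 2 ≤ SS D m k := by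
  unfold SS
  have : 0 ≤ ∑ i, sh (m (D.p k i)) (m (D.q k i)) := Finset.sum_nonneg fun _ _ => sh_nonneg _ _
  linarith

private lemma Clip_ker {ι : Type} (s : Finset ι) {A S : ℝ} {B C : ι → ℝ} {m : ℝ} (hA : 0 ≤ A)
    (hS : m ^ 2 ≤ S) (hC : ∀ i ∈ s, 0 ≤ C i)
    (hB2 : ∀ i ∈ s, B i ≤ 1 / 2) :
    (m * A + ∑ i ∈ s, B i * C i) / (1 + S) ≤ 1 / 2 * A + 1 / 2 * ∑ i ∈ s, C i := by
  have hS0 : 0 ≤ S := (sq_nonneg m).trans hS
  rw [div_le_iff₀ (by linarith)]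
  have h1 : ∑ i ∈ s, B i * C i ≤ 1 / 2 * ∑ i ∈ s, C i := by
    rw [Finset.mul_sum]
    exact Finset.sum_le_sum fun i hi => mul_le_mul_of_nonneg_right (hB2 i hi) (hC i hi)
  have h2 : 0 ≤ ∑ i ∈ s, C i := Finset.sum_nonneg hC
  have h3 : m ≤ 1 / 2 * (1 + S) := by nlinarith [sq_nonneg (m - 1)]
  have h4 : m * A ≤ 1 / 2 * (1 + S) * A := mul_le_mul_of_nonneg_right h3 hA
  have h5 : 0 ≤ S * ∑ i ∈ s, C i := mul_nonneg hS0 h2
  nlinarith

private lemma Clip_div (z : ℂ) {S : ℝ} (hS : 0 ≤ S) : ‖z / ((1 + S : ℝ) : ℂ)‖ = ‖z‖ / (1 + S) := by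
  rw [norm_div, Complex.norm_real, Real.norm_eq_abs, abs_of_nonneg (by linarith)]

theorem FF_bd (D : Prs L M) {R : ℝ} (hR : 0 ≤ R) {m : Fin L → ℝ} (hm : ∀ l, 0 ≤ m l) (k : Fin L)
    (v : Fin L → ℂ) : ‖FF D R m k v‖ ≤ R + M * R ^ 2 := by
  unfold FF
  rw [Clip_div _ (SS_nonneg D m k)]
  have hn : ‖NU D m k fun l => clip R (v l)‖ ≤
      m k * R + ∑ i : Fin M, wt (m (D.p k i)) (m (D.q k i)) * (R * R) := by
    unfold NU
    refine (norm_add_le _ _).trans (add_le_add ?_ ((norm_sum_le _ _).trans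
      (Finset.sum_le_sum fun i _ => ?_)))
    · rw [norm_mul, Complex.norm_real, Real.norm_eq_abs, abs_of_nonneg (hm k)]
      exact mul_le_mul_of_nonneg_left (clip_le hR _) (hm k)
    · have hw := Clip_wt (hm (D.p k i)) (hm (D.q k i))
      rw [norm_mul, Complex.norm_real, Real.norm_eq_abs, abs_of_nonneg hw.1, norm_mul, Clip_cj_norm]
      exact mul_le_mul_of_nonneg_left (mul_le_mul (clip_le hR _) (clip_le hR _) (norm_nonneg _) hR) hw.1
  have hS := SS_nonneg D m k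
  have h1 := Clip_ker (Finset.univ : Finset (Fin M)) (A := R) (S := SS D m k)
    (B := fun i => wt (m (D.p k i)) (m (D.q k i))) (C := fun _ => R * R) hR (Clip_SS D m k)
    (fun i _ => by positivity) (fun i _ => (Clip_wt (hm _) (hm _)).2)
  have h2 : ‖NU D m k fun l => clip R (v l)‖ / (1 + SS D m k) ≤
      (m k * R + ∑ i : Fin M, wt (m (D.p k i)) (m (D.q k i)) * (R * R)) / (1 + SS D m k) :=
    div_le_div_of_nonneg_right hn (by linarith)
  have h3 : ∑ _i : Fin M, R * R = M * R ^ 2 := by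
    rw [Finset.sum_const, Finset.card_univ, Fintype.card_fin, nsmul_eq_mul]
    ring
  rw [h3] at h1
  have h4 : 0 ≤ (M : ℝ) * R ^ 2 := by positivity
  linarith

theorem FF_lip (D : Prs L M) {R : ℝ} (hR : 0 ≤ R) {m : Fin L → ℝ} (hm : ∀ l, 0 ≤ m l) (k : Fin L)
    (v v' : Fin L → ℂ) : ‖FF D R m k v - FF D R m k v'‖ ≤ (2 + 4 * R * M) * ∑ l, ‖v l - v' l‖ := by
  have hS := SS_nonneg D m k
  have hT : ∀ l, ‖v l - v' l‖ ≤ ∑ l, ‖v l - v' l‖ := fun l =>
    Finset.single_le_sum (f := fun l => ‖v l - v' l‖) (fun l _ => norm_nonneg _) (Finset.mem_univ l)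
  obtain ⟨Tt, hTt⟩ : ∃ Tt : ℝ, Tt = ∑ l, ‖v l - v' l‖ := ⟨_, rfl⟩
  rw [← hTt] at hT ⊢
  have hTt0 : 0 ≤ Tt := by rw [hTt]; exact Finset.sum_nonneg fun _ _ => norm_nonneg _
  unfold FF
  rw [← sub_div, Clip_div _ hS]
  have hn : ‖(NU D m k fun l => clip R (v l)) - NU D m k fun l => clip R (v' l)‖ ≤
      m k * (2 * Tt) + ∑ i : Fin M, wt (m (D.p k i)) (m (D.q k i)) * (4 * R * Tt) := by
    unfold NU
    have e1 : ∀ a b c d : ℂ, a + b - (c + d) = (a - c) + (b - d) := fun a b c d => by ring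
    rw [e1, ← Finset.sum_sub_distrib]
    refine (norm_add_le _ _).trans (add_le_add ?_ ((norm_sum_le _ _).trans
      (Finset.sum_le_sum fun i _ => ?_)))
    · rw [← mul_sub, norm_mul, Complex.norm_real, Real.norm_eq_abs, abs_of_nonneg (hm k)]
      exact mul_le_mul_of_nonneg_left ((clip_lip hR _ _).trans
        (mul_le_mul_of_nonneg_left (hT k) (by norm_num))) (hm k)
    · have hw := Clip_wt (hm (D.p k i)) (hm (D.q k i))
      rw [← mul_sub, norm_mul, Complex.norm_real, Real.norm_eq_abs, abs_of_nonneg hw.1]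
      refine mul_le_mul_of_nonneg_left ?_ hw.1
      have e2 : ∀ a b a' b' : ℂ, a * b - a' * b' = a * (b - b') + (a - a') * b' := fun a b a' b' => by ring
      rw [e2, Clip_cj_sub]
      refine (norm_add_le _ _).trans ?_
      rw [norm_mul, norm_mul, Clip_cj_norm, Clip_cj_norm]
      have g1 : ‖clip R (v (D.p k i))‖ * ‖clip R (v (D.q k i)) - clip R (v' (D.q k i))‖ ≤ R * (2 * Tt) :=
        mul_le_mul (clip_le hR _) ((clip_lip hR _ _).trans
          (mul_le_mul_of_nonneg_left (hT _) (by norm_num))) (norm_nonneg _) hR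
      have g2 : ‖clip R (v (D.p k i)) - clip R (v' (D.p k i))‖ * ‖clip R (v' (D.q k i))‖ ≤ (2 * Tt) * R :=
        mul_le_mul ((clip_lip hR _ _).trans
          (mul_le_mul_of_nonneg_left (hT _) (by norm_num))) (clip_le hR _) (norm_nonneg _) (by linarith)
      linarith
  have h1 := Clip_ker (Finset.univ : Finset (Fin M)) (A := 2 * Tt) (S := SS D m k)
    (B := fun i => wt (m (D.p k i)) (m (D.q k i))) (C := fun _ => 4 * R * Tt) (by linarith)
    (Clip_SS D m k) (fun i _ => by positivity) (fun i _ => (Clip_wt (hm _) (hm _)).2)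
  have h2 := div_le_div_of_nonneg_right hn (show (0 : ℝ) ≤ 1 + SS D m k by linarith)
  have h3 : ∑ _i : Fin M, 4 * R * Tt = M * (4 * R * Tt) := by
    rw [Finset.sum_const, Finset.card_univ, Fintype.card_fin, nsmul_eq_mul]
  rw [h3] at h1
  have h4 : 0 ≤ (M : ℝ) * (4 * R * Tt) := by positivity
  nlinarith

theorem FF_rot (D : Prs L M) (R : ℝ) (m : Fin L → ℝ) (k : Fin L) {x : ℂ} (hx : ‖x‖ = 1) (v : Fin L → ℂ) :
    FF D R m k (fun l => x ^ ((l : ℕ) + 1) * v l) = x ^ ((k : ℕ) + 1) * FF D R m k v := by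
  have hp : ∀ n : ℕ, ‖x ^ n‖ = 1 := fun n => by rw [norm_pow, hx, one_pow]
  have hc : x * conj x = 1 := by
    rw [Complex.mul_conj, Complex.normSq_eq_norm_sq, hx]
    norm_num
  unfold FF
  rw [← mul_div_assoc]
  congr 1
  unfold NU
  rw [mul_add, Finset.mul_sum]
  congr 1
  · show (m k : ℂ) * clip R (x ^ ((k : ℕ) + 1) * v k) = x ^ ((k : ℕ) + 1) * ((m k : ℂ) * clip R (v k))
    rw [clip_mul (hp _)]
    ring
  · refine Finset.sum_congr rfl fun i _ => ?_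
    show (wt (m (D.p k i)) (m (D.q k i)) : ℂ) *
      (clip R (x ^ ((D.p k i : ℕ) + 1) * v (D.p k i)) *
        cj (D.c k i) (clip R (x ^ ((D.q k i : ℕ) + 1) * v (D.q k i)))) =
      x ^ ((k : ℕ) + 1) * ((wt (m (D.p k i)) (m (D.q k i)) : ℂ) *
        (clip R (v (D.p k i)) * cj (D.c k i) (clip R (v (D.q k i)))))
    rw [clip_mul (hp _), clip_mul (hp _)]
    cases hcc : D.c k i with
    | false =>
      have hs := D.sum k i hcc
      have e : (k : ℕ) + 1 = ((D.p k i : ℕ) + 1) + ((D.q k i : ℕ) + 1) := by omega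
      rw [e, pow_add]
      simp only [cj, Bool.false_eq_true, if_false]
      ring
    | true =>
      have hs := D.diff k i hcc
      have e : (D.p k i : ℕ) + 1 = ((k : ℕ) + 1) + ((D.q k i : ℕ) + 1) := by omega
      rw [e, pow_add]
      simp only [cj, if_true, map_mul, map_pow]
      have e2 : x ^ ((D.q k i : ℕ) + 1) * (conj x) ^ ((D.q k i : ℕ) + 1) = 1 := by
        rw [← mul_pow, hc, one_pow]
      linear_combination ((wt (m (D.p k i)) (m (D.q k i)) : ℂ) * x ^ ((k : ℕ) + 1) *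
        clip R (v (D.p k i)) * conj (clip R (v (D.q k i)))) * e2

theorem FF_zero (D : Prs L M) (R : ℝ) (k : Fin L) (v : Fin L → ℂ) : FF D R (fun _ => 0) k v = 0 := by
  unfold FF NU wt
  simp

end H69.SR
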