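import Pool.Agent.H69.SR.Orth

/-!
# Module Corr: the new overlap

* `corr`: `⟪x, F⟫ = ⟪x, prj U t F⟫ = ⟪prj U t x, F⟫` (both are `∑ r, conj ⟪U r, x⟫ ⟪U r, F⟫`-type sums), so `|⟪x, F⟫| ≤ ‖prj U t x‖ ‖F‖`. If `A ≤ ε` the claim is trivial (`A - 3 ε ≤ 0`). Otherwise
  `(A - ε)^2 n^2 ≤ ‖prj U t x‖^2 (A + ε) n` and `(A - ε)^2 ≥ (A - 3 ε)(A + ε)`.
* `al_sum`: `nsq_prj`, `al = ⟪x, U⟫/√n`, `‖⟪x, U⟫‖ = ‖⟪U, x⟫‖`. `al_le`: Cauchy-Schwarz, `‖xv x k‖ = √n`, `‖U‖ ≤ 1`.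
* `nr_al`: `|‖a‖^2 - ‖α‖^2| ≤ ‖a - α‖ (‖a‖ + ‖α‖) ≤ 2 δ`.
-/

set_option autoImplicit false

open MeasureTheory ProbabilityTheory
open scoped BigOperators ComplexConjugate InnerProductSpace

namespace H69.SR

variable {L n : ℕ}

private lemma prj_symm (U : ℕ → E n) (t : ℕ) (x y : E n) :
    ⟪x, prj U t y⟫_ℂ = ⟪prj U t x, y⟫_ℂ := by
  unfold prj
  rw [inner_sum, sum_inner]
  refine Finset.sum_congr rfl fun r _ => ?_
  rw [inner_smul_right, inner_smul_left, inner_conj_symm, mul_comm]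

theorem corr {U : ℕ → E n} (hU : OrtZ U) {t : ℕ} {x F : E n} {A ε : ℝ} (hn : 0 < n) (hF : prj U t F = F)
    (hA : 0 ≤ A) (hε : 0 ≤ ε) (h1 : (A - ε) * n ≤ (⟪x, F⟫_ℂ).re) (h2 : ‖F‖ ^ 2 ≤ (A + ε) * n) :
    (A - 3 * ε) * n ≤ ‖prj U t x‖ ^ 2 := by
  have hn' : (0 : ℝ) < n := by exact_mod_cast hn
  have hP : 0 ≤ ‖prj U t x‖ ^ 2 := sq_nonneg _
  rcases le_or_gt A (3 * ε) with h | h
  · have h3 : (A - 3 * ε) * n ≤ 0 := mul_nonpos_of_nonpos_of_nonneg (by linarith) hn'.le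
    linarith
  have h4 : (⟪x, F⟫_ℂ).re ≤ ‖prj U t x‖ * ‖F‖ := by
    have h5 : ⟪x, F⟫_ℂ = ⟪prj U t x, F⟫_ℂ := by
      rw [← prj_symm, hF]
    rw [h5]
    exact (Complex.re_le_norm _).trans (norm_inner_le_norm _ _)
  have h6 : 0 ≤ (A - ε) * n := mul_nonneg (by linarith) hn'.le
  have h7 : ((A - ε) * n) ^ 2 ≤ (‖prj U t x‖ * ‖F‖) ^ 2 := pow_le_pow_left₀ h6 (h1.trans h4) 2
  have h8 : ((A - ε) * n) ^ 2 ≤ ‖prj U t x‖ ^ 2 * ((A + ε) * n) := by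
    rw [mul_pow] at h7
    rw [mul_pow] at h7 ⊢
    exact h7.trans (mul_le_mul_of_nonneg_left h2 hP)
  have h9 : (A - ε) ^ 2 * n ≤ ‖prj U t x‖ ^ 2 * (A + ε) := by
    have : ((A - ε) ^ 2 * n) * n ≤ (‖prj U t x‖ ^ 2 * (A + ε)) * n := by
      calc ((A - ε) ^ 2 * n) * n = ((A - ε) * n) ^ 2 := by ring
        _ ≤ ‖prj U t x‖ ^ 2 * ((A + ε) * n) := h8
        _ = _ := by ring
    exact le_of_mul_le_mul_right this hn'
  have hAε : 0 < A + ε := by linarith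
  have h10 : ((A - 3 * ε) * n) * (A + ε) ≤ ‖prj U t x‖ ^ 2 * (A + ε) := by
    refine le_trans ?_ h9
    have : (A - 3 * ε) * (A + ε) ≤ (A - ε) ^ 2 := by nlinarith [sq_nonneg ε]
    calc ((A - 3 * ε) * n) * (A + ε) = ((A - 3 * ε) * (A + ε)) * n := by ring
      _ ≤ (A - ε) ^ 2 * n := mul_le_mul_of_nonneg_right this hn'.le
  exact le_of_mul_le_mul_right h10 hAε

theorem al_sum (hn : 0 < n) (x : Fin n → ℂ) (f : ℕ → Hs L n → VV L n) (η : Hs L n) (k : Fin L) (t : ℕ) :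
    n * ∑ s ∈ Finset.range (t + 1), ‖al x f η k s‖ ^ 2 = ‖prj (UU f η k) t (xv x k)‖ ^ 2 := by
  have hn' : (0 : ℝ) < n := by exact_mod_cast hn
  rw [nsq_prj (ortZ_UU f η k), Finset.mul_sum]
  refine Finset.sum_congr rfl fun r _ => ?_
  unfold al
  rw [norm_div, div_pow, norm_inner_symm (UU f η k r), Complex.norm_real, Real.norm_eq_abs, sq_abs,
    Real.sq_sqrt hn'.le, mul_div_cancel₀ _ hn'.ne']

theorem al_le (hn : 0 < n) {x : Fin n → ℂ} (hx : ∀ j, ‖x j‖ = 1) (f : ℕ → Hs L n → VV L n) (η : Hs L n)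
    (k : Fin L) (t : ℕ) : ‖al x f η k t‖ ≤ 1 := by
  have hn' : (0 : ℝ) < n := by exact_mod_cast hn
  have hs : 0 < Real.sqrt n := Real.sqrt_pos.2 hn'
  have h1 : ‖xv x k‖ = Real.sqrt n := by
    rw [← norm_xv hx k, Real.sqrt_sq (norm_nonneg _)]
  have h2 : ‖UU f η k t‖ ≤ 1 := by
    rcases (ortZ_UU f η k).1 t with h | h
    · exact h.le
    · rw [h, norm_zero]
      exact zero_le_one
  unfold al
  rw [norm_div, Complex.norm_real, Real.norm_eq_abs, abs_of_pos hs, div_le_one hs]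
  calc ‖⟪xv x k, UU f η k t⟫_ℂ‖ ≤ ‖xv x k‖ * ‖UU f η k t‖ := norm_inner_le_norm _ _
    _ ≤ Real.sqrt n * 1 := by rw [h1]; exact mul_le_mul_of_nonneg_left h2 hs.le
    _ = Real.sqrt n := mul_one _

theorem nr_al (hn : 0 < n) {x : Fin n → ℂ} (hx : ∀ j, ‖x j‖ = 1) {δ : ℝ} {a : ℕ → Fin L → ℂ}
    {f : ℕ → Hs L n → VV L n} {ζ : Hs L n} {T : ℕ} (ha : ∀ t k, ‖a t k‖ ≤ 1) (hC : Cons δ x a f ζ T) {t : ℕ}
    (ht : t ≤ T) (k : Fin L) : |nr a t k ^ 2 - ∑ s ∈ Finset.range t, ‖al x f ζ k s‖ ^ 2| ≤ 2 * T * δ := by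
  rcases Nat.eq_zero_or_pos T with hT | hT
  · subst hT
    obtain rfl : t = 0 := by omega
    rw [nr_sq]
    simp
  have hδ : 0 ≤ δ := (norm_nonneg _).trans (hC 0 hT k).1
  rw [nr_sq, ← Finset.sum_sub_distrib]
  have h1 : ∀ s ∈ Finset.range t, |‖a s k‖ ^ 2 - ‖al x f ζ k s‖ ^ 2| ≤ 2 * δ := by
    intro s hs
    have hs' : s < T := lt_of_lt_of_le (Finset.mem_range.1 hs) ht
    have h2 := (hC s hs' k).1
    have h3 := ha s k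
    have h4 := al_le hn hx f ζ k s
    have h5 : |‖a s k‖ - ‖al x f ζ k s‖| ≤ δ := (abs_norm_sub_norm_le _ _).trans h2
    have h6 : ‖a s k‖ ^ 2 - ‖al x f ζ k s‖ ^ 2 =
        (‖a s k‖ - ‖al x f ζ k s‖) * (‖a s k‖ + ‖al x f ζ k s‖) := by ring
    have h7 : 0 ≤ ‖a s k‖ + ‖al x f ζ k s‖ := add_nonneg (norm_nonneg _) (norm_nonneg _)
    rw [h6, abs_mul, abs_of_nonneg h7]
    calc |‖a s k‖ - ‖al x f ζ k s‖| * (‖a s k‖ + ‖al x f ζ k s‖) ≤ δ * 2 :=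
          mul_le_mul h5 (by linarith) h7 hδ
      _ = 2 * δ := by ring
  calc |∑ s ∈ Finset.range t, (‖a s k‖ ^ 2 - ‖al x f ζ k s‖ ^ 2)|
      ≤ ∑ s ∈ Finset.range t, |‖a s k‖ ^ 2 - ‖al x f ζ k s‖ ^ 2| := Finset.abs_sum_le_sum_abs _ _
    _ ≤ ∑ _s ∈ Finset.range t, 2 * δ := Finset.sum_le_sum h1
    _ = t * (2 * δ) := by rw [Finset.sum_const, Finset.card_range, nsmul_eq_mul]
    _ ≤ T * (2 * δ) := mul_le_mul_of_nonneg_right (by exact_mod_cast ht) (by linarith)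
    _ = 2 * T * δ := by ring

end H69.SR
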