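import Pool.Agent.H69.SR.Meas
import Pool.Agent.H69.SR.KeyAlg
import Pool.Agent.H69.SR.Clip

/-!
# Module Ident: the response of a procedure

* `mv_Yo`: `mv (Yo lam x z k) u = (lam/n * ⟪xv x k, u⟫) • xv x k + (1/√n) • mv (Wm z k) u` (coordinates; `inner_E`).
* `resp_eq`: `cop` is linear (`cop_add`, `cop_smulC`), `√n * (lam/n) * ⟪x, u⟫ = lam * al` and `√n * (1/√n) = 1`.
* `loc_f`: `Proc.f` uses `η r` for `r < t` only. `loc_b`: `UU_loc`, `al` and `cop` use `UU .. r` for `r ≤ t`. `meas_f`: `meas_toLp`, cases `j ∈ J`, `hΦ`, `measurable_pi_iff`. `meas_b`: `meas_UU`, `meas_cop`, inner products of measurable functions.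
* `pr_meas`: `FF_cont`.
-/

set_option autoImplicit false

open MeasureTheory ProbabilityTheory
open scoped BigOperators ComplexConjugate InnerProductSpace

namespace H69.SR

variable {L n : ℕ}

theorem mv_Yo (lam : ℝ) (x : Fin n → ℂ) (z : Ix L n → ℝ) (k : Fin L) (u : E n) :
    mv (Yo lam x z k) u = (((lam / n : ℝ) : ℂ) * ⟪xv x k, u⟫_ℂ) • xv x k +
      ((1 / Real.sqrt n : ℝ) : ℂ) • mv (Wm z k) u := by
  ext i
  have h1 : (mv (Yo lam x z k) u) i = ∑ j, Yo lam x z k i j * u j := rfl
  have h2 : (mv (Wm z k) u) i = ∑ j, Wm z k i j * u j := rfl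
  rw [h1, PiLp.add_apply, PiLp.smul_apply, PiLp.smul_apply, h2, inner_E, xv_apply, smul_eq_mul,
    smul_eq_mul, Finset.mul_sum, Finset.sum_mul, Finset.mul_sum, ← Finset.sum_add_distrib]
  refine Finset.sum_congr rfl fun j _ => ?_
  rw [xv_apply]
  unfold Yo
  ring

theorem resp_eq (p : Proc L) (hn : 0 < n) (J : Finset (Fin n)) (s : Fin n → ℂ) (lam : ℝ) (x : Fin n → ℂ)
    (z : Ix L n → ℝ) : p.resp J s (Yo lam x z) = rW (p.f J s) (p.b J s lam x) (Wm z) := by
  have hs : (0 : ℝ) < Real.sqrt n := Real.sqrt_pos.2 (by exact_mod_cast hn)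
  have hsc : ((Real.sqrt n : ℝ) : ℂ) ≠ 0 := by exact_mod_cast hs.ne'
  have hsq : ((Real.sqrt n : ℝ) : ℂ) * ((Real.sqrt n : ℝ) : ℂ) = (n : ℂ) := by
    rw [← Complex.ofReal_mul, Real.mul_self_sqrt (Nat.cast_nonneg n), Complex.ofReal_natCast]
  funext t η k
  have e1 : ((Real.sqrt n : ℝ) : ℂ) * (((lam / n : ℝ) : ℂ) * ⟪xv x k, UU (p.f J s) η k t⟫_ℂ) =
      (lam : ℂ) * al x (p.f J s) η k t := by
    unfold al
    rw [Complex.ofReal_div, Complex.ofReal_natCast, ← hsq]
    field_simp
  have e2 : ((Real.sqrt n : ℝ) : ℂ) * ((1 / Real.sqrt n : ℝ) : ℂ) = 1 := by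
    rw [Complex.ofReal_div, Complex.ofReal_one]
    field_simp
  unfold Proc.resp rW Proc.b
  rw [mv_Yo, cop_add, cop_smulC, cop_smulC, smul_add, smul_add, smul_smul, smul_smul, e1, e2,
    one_smul]
  abel

theorem loc_f (p : Proc L) (J : Finset (Fin n)) (s : Fin n → ℂ) : Loc (p.f J s) := by
  intro t η η' h
  funext k
  unfold Proc.f
  congr 1
  funext j
  by_cases hj : j ∈ J
  · rw [if_pos hj, if_pos hj]
  · rw [if_neg hj, if_neg hj]
    congr 1
    funext r l
    by_cases hr : r < t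
    · rw [if_pos hr, if_pos hr, h r hr]
    · rw [if_neg hr, if_neg hr]

theorem loc_b (p : Proc L) (J : Finset (Fin n)) (s : Fin n → ℂ) (lam : ℝ) (x : Fin n → ℂ) :
    Loc (p.b J s lam x) := by
  intro t η η' h
  funext k
  have hU : ∀ r, r ≤ t → UU (p.f J s) η k r = UU (p.f J s) η' k r :=
    fun r hr => UU_loc (loc_f p J s) h k hr
  have h1 : al x (p.f J s) η k t = al x (p.f J s) η' k t := by
    unfold al
    rw [hU t le_rfl]
  have h2 : cop (UU (p.f J s) η k) t (xv x k) = cop (UU (p.f J s) η' k) t (xv x k) := by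
    unfold cop
    rw [prj_congr hU]
  have h3 : ∑ r ∈ Finset.range (t + 1), p.β t r k • UU (p.f J s) η k r =
      ∑ r ∈ Finset.range (t + 1), p.β t r k • UU (p.f J s) η' k r :=
    Finset.sum_congr rfl fun r hr => by rw [hU r (Nat.lt_succ_iff.1 (Finset.mem_range.1 hr))]
  unfold Proc.b
  rw [h1, h2, h3]

theorem loc_rW {f b : ℕ → Hs L n → VV L n} (hf : Loc f) (hb : Loc b) (W : MM L n) : Loc (rW f b W) := by
  intro t η η' h
  funext k
  have hU : ∀ r, r ≤ t → UU f η k r = UU f η' k r := fun r hr => UU_loc hf h k hr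
  have h2 : cop (UU f η k) t (mv (W k) (UU f η k t)) = cop (UU f η' k) t (mv (W k) (UU f η' k t)) := by
    unfold cop
    rw [hU t le_rfl, prj_congr hU]
  unfold rW
  rw [h2, hb t η η' h]

theorem meas_f (p : Proc L) (hΦ : ∀ t k, Measurable (p.Φ t k)) (J : Finset (Fin n)) (s : Fin n → ℂ) (t : ℕ) :
    Measurable (p.f J s t) := by
  refine measurable_pi_iff.2 fun k => ?_
  unfold Proc.f
  refine meas_toLp fun j => ?_
  by_cases hj : j ∈ J
  · simp only [if_pos hj]
    exact measurable_const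
  · simp only [if_neg hj]
    refine (hΦ t k).comp (measurable_pi_iff.2 fun r => measurable_pi_iff.2 fun l => ?_)
    by_cases hr : r < t
    · simp only [if_pos hr]
      exact (meas_coord j).comp ((measurable_pi_apply l).comp (measurable_pi_apply r))
    · simp only [if_neg hr]
      exact measurable_const

theorem meas_b (p : Proc L) (hΦ : ∀ t k, Measurable (p.Φ t k)) (J : Finset (Fin n)) (s : Fin n → ℂ) (lam : ℝ)
    (x : Fin n → ℂ) (t : ℕ) : Measurable (p.b J s lam x t) := by
  have hf : ∀ t, Measurable (p.f J s t) := meas_f p hΦ J s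
  refine measurable_pi_iff.2 fun k => ?_
  have hU : ∀ r, Measurable fun η : Hs L n => UU (p.f J s) η k r := fun r => meas_UU hf k r
  have h1 : Measurable fun η : Hs L n => al x (p.f J s) η k t := by
    unfold al
    exact (measurable_const.inner (hU t)).div_const _
  have h2 : Measurable fun η : Hs L n => cop (UU (p.f J s) η k) t (xv x k) :=
    meas_cop hU measurable_const t
  have h3 : Measurable fun η : Hs L n => ∑ r ∈ Finset.range (t + 1), p.β t r k • UU (p.f J s) η k r :=
    Finset.measurable_fun_sum _ fun r _ => (measurable_const (a := p.β t r k)).smul (hU r)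
  unfold Proc.b
  have h4 : Measurable fun η : Hs L n => ((lam : ℂ) * al x (p.f J s) η k t) •
      cop (UU (p.f J s) η k) t (xv x k) := (measurable_const.mul h1).smul h2
  have h5 : Measurable fun η : Hs L n => ((Real.sqrt n : ℝ) : ℂ) •
      ∑ r ∈ Finset.range (t + 1), p.β t r k • UU (p.f J s) η k r :=
    (measurable_const (a := ((Real.sqrt n : ℝ) : ℂ))).smul h3
  exact h4.add h5

theorem pr_cont (A : Par L) (a : ℕ → Fin L → ℂ) (t : ℕ) (k : Fin L) : Continuous ((A.pr a).Φ t k) := by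
  have h1 : Continuous fun y : ℕ → Fin L → ℂ => fun l : Fin L =>
      ∑ s ∈ Finset.range t, ww a t s l * y s l :=
    continuous_pi fun l => continuous_finsetSum _ fun s _ =>
      continuous_const.mul ((continuous_apply l).comp (continuous_apply s))
  exact (FF_cont A.D A.hR.le (mm A.lam a t) k).comp h1

theorem pr_meas (A : Par L) (a : ℕ → Fin L → ℂ) (t : ℕ) (k : Fin L) : Measurable ((A.pr a).Φ t k) :=
  (pr_cont A a t k).measurable

end H69.SR
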