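import Pool.Agent.H69.SR.RunFix
import Pool.Agent.H69.SR.Corr
import Pool.Agent.H69.SR.Ident

/-!
# Module ConsEx: some guess is consistent

Write `f_a := (A.pr a).f J s`, `r_a := (A.pr a).resp J s Y`, `ζ_a := run r_a 0 T 0`, so `ζ_a s = r_a s ζ_a` for `s < T` (`run_fix`, `loc_rW`/`resp_eq` or directly `Loc r_a` from `UU_loc`).
* `agree`: if `a s = a' s` for all `s < t` then, as functions, `f_a r = f_a' r` for `r ≤ t` (`Φ r` uses `ww a r s`, `mm .. a r`, which depend on `a s`, `s < r`) and `r_a s = r_a' s` for `s < t` (`β s r`, `r ≤ s`, and `UU .. s`: `UU_congr`). So (`fix_unique`) `ζ_a s = ζ_a' s` for `s < t`,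
  and `UU f_a ζ_a k r = UU f_a' ζ_a' k r` for `r ≤ t`; hence `al x f_a ζ_a k r = al x f_a' ζ_a' k r` for `r ≤ t`.
* induction on `t ≤ T`: there is `a ∈ gss` with the conditions of `Cons` for all `r < t`. Start: `a = 0`. Step: keep `a`, and put `a' := Function.update a t c`, `c k := 0` if `UU f_a ζ_a k t = 0`, otherwise a point of `Γ` with `‖c k - al x f_a ζ_a k t‖ ≤ δ`
  (`A.net`, `al_le`). If `UU = 0` then `al = 0` (`al_zero`) and `‖0 - 0‖ ≤ δ`. `a'` and `a` agree before `t`, so the quantities for `r ≤ t` are those of `a`.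
-/

set_option autoImplicit false

open MeasureTheory ProbabilityTheory
open scoped BigOperators ComplexConjugate InnerProductSpace

namespace H69.SR

variable {L n : ℕ}

theorem loc_resp (p : Proc L) (J : Finset (Fin n)) (s : Fin n → ℂ) (Y : MM L n) : Loc (p.resp J s Y) := by
  intro t η η' h
  have hU : ∀ (k : Fin L) (r : ℕ), r ≤ t → UU (p.f J s) η k r = UU (p.f J s) η' k r :=
    fun k r hr => UU_loc (loc_f p J s) h k hr
  funext k
  unfold Proc.resp cop
  rw [hU k t le_rfl, prj_congr (t := t) (hU k)]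
  congr 2
  refine Finset.sum_congr rfl fun r hr => ?_
  rw [hU k r (Nat.lt_succ_iff.1 (Finset.mem_range.1 hr))]

private theorem consEx_Phi (A : Par L) {a a' : ℕ → Fin L → ℂ} {t : ℕ} (h : ∀ s < t, a s = a' s) {r : ℕ}
    (hr : r ≤ t) : (A.pr a).Φ r = (A.pr a').Φ r := by
  have hs : ∀ s ∈ Finset.range r, a s = a' s := fun s hs => h s (lt_of_lt_of_le (Finset.mem_range.1 hs) hr)
  have hn : ∀ l : Fin L, nr a r l = nr a' r l := by
    intro l
    unfold nr
    congr 1
    exact Finset.sum_congr rfl fun s hs' => by rw [hs s hs']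
  have hm : mm A.lam a r = mm A.lam a' r := by
    funext l
    unfold mm
    rw [hn l]
  funext k y
  show FF A.D A.R (mm A.lam a r) k (fun l => ∑ s ∈ Finset.range r, ww a r s l * y s l) =
    FF A.D A.R (mm A.lam a' r) k (fun l => ∑ s ∈ Finset.range r, ww a' r s l * y s l)
  rw [hm]
  congr 1
  funext l
  refine Finset.sum_congr rfl fun s hs' => ?_
  unfold ww
  rw [hn l, hs s hs']

private theorem consEx_f (A : Par L) {a a' : ℕ → Fin L → ℂ} {t : ℕ} (h : ∀ s < t, a s = a' s) {r : ℕ}
    (hr : r ≤ t) (J : Finset (Fin n)) (s : Fin n → ℂ) : (A.pr a).f J s r = (A.pr a').f J s r := by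
  funext η k
  unfold Proc.f
  rw [consEx_Phi A h hr]

private theorem consEx_resp (A : Par L) {a a' : ℕ → Fin L → ℂ} {t : ℕ} (h : ∀ s < t, a s = a' s) {r : ℕ}
    (hr : r < t) (J : Finset (Fin n)) (s : Fin n → ℂ) (Y : MM L n) :
    (A.pr a).resp J s Y r = (A.pr a').resp J s Y r := by
  funext η k
  have hU : ∀ u ≤ r, UU ((A.pr a).f J s) η k u = UU ((A.pr a').f J s) η k u := by
    intro u hu
    refine UU_congr k fun v hv => ?_
    rw [consEx_f A h (by omega) J s]
  have hβ : ∀ u ≤ r, (A.pr a).β r u k = (A.pr a').β r u k := by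
    intro u hu
    show (A.lam : ℂ) * a r k * conj (a u k) = (A.lam : ℂ) * a' r k * conj (a' u k)
    rw [h r hr, h u (by omega)]
  unfold Proc.resp cop
  rw [hU r le_rfl, prj_congr (t := r) hU]
  congr 2
  refine Finset.sum_congr rfl fun u hu => ?_
  have hu' := Nat.lt_succ_iff.1 (Finset.mem_range.1 hu)
  rw [hU u hu', hβ u hu']

private theorem consEx_UU (A : Par L) {a a' : ℕ → Fin L → ℂ} {t : ℕ} (h : ∀ s < t, a s = a' s) (ht : t ≤ A.T)
    (J : Finset (Fin n)) (s : Fin n → ℂ) (Y : MM L n) (k : Fin L) {r : ℕ} (hr : r ≤ t) :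
    UU ((A.pr a).f J s) (run ((A.pr a).resp J s Y) 0 A.T 0) k r =
      UU ((A.pr a').f J s) (run ((A.pr a').resp J s Y) 0 A.T 0) k r := by
  have hz : ∀ u < t, run ((A.pr a).resp J s Y) 0 A.T 0 u = run ((A.pr a').resp J s Y) 0 A.T 0 u := by
    refine fix_unique (loc_resp (A.pr a) J s Y) (fun u hu => consEx_resp A h hu J s Y) ?_ ?_
    · exact fun u hu => run_fix (loc_resp (A.pr a) J s Y) A.T 0 0 (Nat.zero_le u) (by omega)
    · exact fun u hu => run_fix (loc_resp (A.pr a') J s Y) A.T 0 0 (Nat.zero_le u) (by omega)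
  refine UU_congr k fun v hv => ?_
  rw [loc_f (A.pr a) J s v _ _ (fun u hu => hz u (by omega)), consEx_f A h (by omega) J s]

theorem cons_ex (A : Par L) (hn : 0 < n) (J : Finset (Fin n)) (s : Fin n → ℂ) {x : Fin n → ℂ}
    (hx : ∀ j, ‖x j‖ = 1) (Y : MM L n) :
    ∃ a ∈ A.gss, Cons A.δ x a ((A.pr a).f J s) (run ((A.pr a).resp J s Y) 0 A.T 0) A.T := by
  have key : ∀ t ≤ A.T, ∃ a ∈ A.gss, Cons A.δ x a ((A.pr a).f J s) (run ((A.pr a).resp J s Y) 0 A.T 0) t := by
    intro t
    induction t with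
    | zero =>
      intro _
      refine ⟨0, ⟨fun t k => A.zero_mem, fun t _ => rfl⟩, fun t ht => absurd ht (Nat.not_lt_zero t)⟩
    | succ t ih =>
      intro ht
      obtain ⟨a, ha, hC⟩ := ih (by omega)
      have hex : ∀ k : Fin L, ∃ g ∈ A.Γ,
          ‖g - al x ((A.pr a).f J s) (run ((A.pr a).resp J s Y) 0 A.T 0) k t‖ ≤ A.δ ∧
          (UU ((A.pr a).f J s) (run ((A.pr a).resp J s Y) 0 A.T 0) k t = 0 → g = 0) := by
        intro k
        by_cases h0 : UU ((A.pr a).f J s) (run ((A.pr a).resp J s Y) 0 A.T 0) k t = 0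
        · refine ⟨0, A.zero_mem, ?_, fun _ => rfl⟩
          unfold al
          rw [h0, inner_zero_right, zero_div, sub_zero, norm_zero]
          exact A.hδ.le
        · obtain ⟨g, hg, hg'⟩ := A.net _ (al_le hn hx ((A.pr a).f J s)
            (run ((A.pr a).resp J s Y) 0 A.T 0) k t)
          exact ⟨g, hg, hg', fun h => absurd h h0⟩
      choose c hc1 hc2 hc3 using hex
      have hag : ∀ u < t, a u = Function.update a t c u := fun u hu => by
        rw [Function.update_of_ne (by omega)]
      have hUU : ∀ (k : Fin L) (r : ℕ), r ≤ t →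
          UU ((A.pr (Function.update a t c)).f J s)
            (run ((A.pr (Function.update a t c)).resp J s Y) 0 A.T 0) k r =
          UU ((A.pr a).f J s) (run ((A.pr a).resp J s Y) 0 A.T 0) k r :=
        fun k r hr => (consEx_UU A hag (by omega) J s Y k hr).symm
      have hal : ∀ (k : Fin L) (r : ℕ), r ≤ t →
          al x ((A.pr (Function.update a t c)).f J s)
            (run ((A.pr (Function.update a t c)).resp J s Y) 0 A.T 0) k r =
          al x ((A.pr a).f J s) (run ((A.pr a).resp J s Y) 0 A.T 0) k r := by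
        intro k r hr
        unfold al
        rw [hUU k r hr]
      refine ⟨Function.update a t c, ⟨?_, ?_⟩, ?_⟩
      · intro u k
        by_cases hu : u = t
        · rw [hu, Function.update_self]
          exact hc1 k
        · rw [Function.update_of_ne hu]
          exact ha.1 u k
      · intro u hu
        rw [Function.update_of_ne (by omega)]
        exact ha.2 u hu
      · intro u hu k
        rw [hal k u (by omega), hUU k u (by omega)]
        by_cases hut : u = t
        · rw [hut, Function.update_self]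
          exact ⟨hc2 k, hc3 k⟩
        · rw [Function.update_of_ne hut]
          exact hC u (by omega) k
  exact key A.T le_rfl

theorem gss_finite (A : Par L) : A.gss.Finite := by
  classical
  have hsub : A.gss ⊆ Set.range (fun (g : Fin A.T → Fin L → A.Γ) (t : ℕ) (k : Fin L) =>
      if h : t < A.T then ((g ⟨t, h⟩ k : A.Γ) : ℂ) else 0) := by
    intro a ha
    refine ⟨fun t k => ⟨a t k, ha.1 t k⟩, ?_⟩
    funext t k
    by_cases h : t < A.T
    · simp only [dif_pos h]
    · simp only [dif_neg h]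
      rw [ha.2 t (by omega)]
      rfl
  exact (Set.finite_range _).subset hsub

theorem gss_le (A : Par L) {a : ℕ → Fin L → ℂ} (ha : a ∈ A.gss) (t : ℕ) (k : Fin L) : ‖a t k‖ ≤ 1 :=
  A.le_one _ (ha.1 t k)

end H69.SR
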