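import Pool.Agent.H69.SR.Base

/-!
# Module Decode: labels

* `near`: `x = exp(i φ)` with `φ ∈ [0, 2π)` (`Complex.arg`, or `toIcoMod`), `N := NN L = 100 L^2 + 1`, `a := round(φ N/(2π))` mod `N`; then `‖root N a - x‖ ≤ π/N` (chord `≤` arc: `‖exp(i s) - exp(i t)‖ ≤ |s - t|`), and `‖r^j - x^j‖ ≤ j ‖r - x‖` (norm one), so `≤ L π/N ≤ 3.15/(100 L) ≤ 1/(30 L)`.
  (`floor` instead of `round` gives `2π/N`, `L * 2π/(100 L^2 + 1) ≤ 6.3/(100 L)`, too large: use the nearest point.)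
* `decode`: `y := root (dec v)`, `r` from `near`. `‖y^k - x^k‖^2 ≤ 2 ‖y^k - v k‖^2 + 2 ‖v k - x^k‖^2`, `∑ ‖y^k - v k‖^2 ≤ ∑ ‖r^k - v k‖^2` (`dec_le`) `≤ 2 ∑ ‖r^k - x^k‖^2 + 2 ∑ ‖x^k - v k‖^2`.
-/

set_option autoImplicit false

open MeasureTheory ProbabilityTheory
open scoped BigOperators ComplexConjugate InnerProductSpace

namespace H69.SR

variable {L n : ℕ}

private lemma chord (α φ : ℝ) : ‖Complex.exp (Complex.I * (α : ℂ)) - Complex.exp (Complex.I * (φ : ℂ))‖ ≤ |α - φ| := by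
  have e : Complex.exp (Complex.I * (α : ℂ)) - Complex.exp (Complex.I * (φ : ℂ)) =
      Complex.exp (Complex.I * (φ : ℂ)) * (Complex.exp (Complex.I * ((α - φ : ℝ) : ℂ)) - 1) := by
    rw [mul_sub, mul_one, ← Complex.exp_add]
    congr 2
    push_cast
    ring
  rw [e, norm_mul]
  have h1 : ‖Complex.exp (Complex.I * (φ : ℂ))‖ = 1 := by
    rw [mul_comm, Complex.norm_exp_ofReal_mul_I]
  rw [h1, one_mul]
  have := Real.norm_exp_I_mul_ofReal_sub_one_le (x := α - φ)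
  simpa [Real.norm_eq_abs] using this

theorem near (hL : 1 ≤ L) {x : ℂ} (hx : ‖x‖ = 1) :
    ∃ a : Fin (NN L), ∀ k : Fin L, ‖root (NN L) a ^ ((k : ℕ) + 1) - x ^ ((k : ℕ) + 1)‖ ≤ 1 / (30 * L) := by
  have hN : 0 < NN L := by unfold NN; omega
  have hNr : (0 : ℝ) < (NN L : ℝ) := by exact_mod_cast hN
  have hNc : ((NN L : ℕ) : ℂ) ≠ 0 := by exact_mod_cast hN.ne'
  have hπ := Real.pi_pos
  obtain ⟨m, hm⟩ : ∃ m : ℤ, m = round (Complex.arg x * (NN L) / (2 * Real.pi)) := ⟨_, rfl⟩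
  have hmod0 : 0 ≤ m % (NN L : ℤ) := Int.emod_nonneg _ (by exact_mod_cast hN.ne')
  have hmod1 : m % (NN L : ℤ) < (NN L : ℤ) := Int.emod_lt_of_pos _ (by exact_mod_cast hN)
  obtain ⟨c, hc⟩ : ∃ c : ℕ, (c : ℤ) = m % (NN L : ℤ) := ⟨(m % (NN L : ℤ)).toNat, by omega⟩
  have hcN : c < NN L := by
    have : (c : ℤ) < (NN L : ℤ) := by rw [hc]; exact hmod1
    exact_mod_cast this
  obtain ⟨α, hα⟩ : ∃ α : ℝ, α = 2 * Real.pi * m / NN L := ⟨_, rfl⟩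
  have hroot : root (NN L) ⟨c, hcN⟩ = Complex.exp (Complex.I * (α : ℂ)) := by
    unfold root
    have hq : (m : ℤ) = (c : ℤ) + (NN L : ℤ) * (m / (NN L : ℤ)) := by
      rw [hc]
      exact (Int.emod_add_mul_ediv m (NN L : ℤ)).symm
    have hmc : (m : ℂ) = (c : ℂ) + (NN L : ℂ) * ((m / (NN L : ℤ) : ℤ) : ℂ) := by
      have := congrArg (fun z : ℤ => (z : ℂ)) hq
      push_cast at this
      exact this
    rw [Complex.exp_eq_exp_iff_exists_int]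
    refine ⟨-(m / (NN L : ℤ)), ?_⟩
    rw [hα]
    push_cast
    rw [hmc]
    field_simp
    ring
  have hxe : x = Complex.exp (Complex.I * ((Complex.arg x : ℝ) : ℂ)) := by
    have h := Complex.norm_mul_exp_arg_mul_I x
    rw [hx] at h
    simp only [Complex.ofReal_one, one_mul] at h
    rw [mul_comm] at h
    exact h.symm
  have hdist : |α - Complex.arg x| ≤ Real.pi / NN L := by
    have h1 := abs_sub_round (Complex.arg x * (NN L) / (2 * Real.pi))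
    rw [← hm] at h1
    have e : α - Complex.arg x = -(2 * Real.pi / NN L) * (Complex.arg x * (NN L) / (2 * Real.pi) - m) := by
      rw [hα]
      field_simp
      ring
    rw [e, abs_mul, abs_neg, abs_of_pos (by positivity : (0 : ℝ) < 2 * Real.pi / NN L)]
    calc 2 * Real.pi / NN L * |Complex.arg x * (NN L) / (2 * Real.pi) - m| ≤
        2 * Real.pi / NN L * (1 / 2) := mul_le_mul_of_nonneg_left h1 (by positivity)
      _ = Real.pi / NN L := by ring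
  refine ⟨⟨c, hcN⟩, fun k => ?_⟩
  rw [hroot]
  have hLr : (1 : ℝ) ≤ L := by exact_mod_cast hL
  have hk : ((k : ℕ) : ℝ) + 1 ≤ L := by
    have := k.2
    exact_mod_cast this
  have e1 : Complex.exp (Complex.I * (α : ℂ)) ^ ((k : ℕ) + 1) =
      Complex.exp (Complex.I * (((((k : ℕ) : ℝ) + 1) * α : ℝ) : ℂ)) := by
    rw [← Complex.exp_nat_mul]
    congr 1
    push_cast
    ring
  have e2 : x ^ ((k : ℕ) + 1) =
      Complex.exp (Complex.I * (((((k : ℕ) : ℝ) + 1) * Complex.arg x : ℝ) : ℂ)) := by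
    have : x ^ ((k : ℕ) + 1) = Complex.exp (Complex.I * ((Complex.arg x : ℝ) : ℂ)) ^ ((k : ℕ) + 1) := by
      rw [← hxe]
    rw [this, ← Complex.exp_nat_mul]
    congr 1
    push_cast
    ring
  rw [e1, e2]
  refine (chord _ _).trans ?_
  have e3 : (((k : ℕ) : ℝ) + 1) * α - (((k : ℕ) : ℝ) + 1) * Complex.arg x =
      (((k : ℕ) : ℝ) + 1) * (α - Complex.arg x) := by ring
  rw [e3, abs_mul, abs_of_nonneg (by positivity)]
  calc (((k : ℕ) : ℝ) + 1) * |α - Complex.arg x| ≤ L * (Real.pi / NN L) :=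
      mul_le_mul hk hdist (abs_nonneg _) (by positivity)
    _ ≤ 1 / (30 * L) := by
      have hNe : (NN L : ℝ) = 100 * (L : ℝ) ^ 2 + 1 := by
        unfold NN
        push_cast
        ring
      rw [← mul_div_assoc, div_le_div_iff₀ hNr (by positivity), hNe]
      have hp := Real.pi_lt_d2
      nlinarith

theorem decode (hL : 1 ≤ L) {x : ℂ} (hx : ‖x‖ = 1) (v : Fin L → ℂ) :
    ∑ k : Fin L, ‖root (NN L) (dec v) ^ ((k : ℕ) + 1) - x ^ ((k : ℕ) + 1)‖ ^ 2 ≤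
      6 * ∑ k : Fin L, ‖v k - x ^ ((k : ℕ) + 1)‖ ^ 2 + 4 * L * (1 / (30 * L)) ^ 2 := by
  obtain ⟨a, ha⟩ := near hL hx
  have hsq : ∀ p q r : ℂ, ‖p - r‖ ^ 2 ≤ 2 * ‖p - q‖ ^ 2 + 2 * ‖q - r‖ ^ 2 := by
    intro p q r
    have h1 : ‖p - r‖ ≤ ‖p - q‖ + ‖q - r‖ := norm_sub_le_norm_sub_add_norm_sub p q r
    have h2 : ‖p - r‖ ^ 2 ≤ (‖p - q‖ + ‖q - r‖) ^ 2 := pow_le_pow_left₀ (norm_nonneg _) h1 2
    nlinarith [sq_nonneg (‖p - q‖ - ‖q - r‖)]
  have s1 : ∑ k : Fin L, ‖root (NN L) (dec v) ^ ((k : ℕ) + 1) - x ^ ((k : ℕ) + 1)‖ ^ 2 ≤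
      2 * (∑ k : Fin L, ‖root (NN L) (dec v) ^ ((k : ℕ) + 1) - v k‖ ^ 2) +
        2 * ∑ k : Fin L, ‖v k - x ^ ((k : ℕ) + 1)‖ ^ 2 := by
    rw [Finset.mul_sum, Finset.mul_sum, ← Finset.sum_add_distrib]
    exact Finset.sum_le_sum fun k _ => hsq _ _ _
  have s2 := dec_le v a
  have s3 : ∑ k : Fin L, ‖root (NN L) a ^ ((k : ℕ) + 1) - v k‖ ^ 2 ≤
      2 * (∑ k : Fin L, ‖root (NN L) a ^ ((k : ℕ) + 1) - x ^ ((k : ℕ) + 1)‖ ^ 2) +
        2 * ∑ k : Fin L, ‖v k - x ^ ((k : ℕ) + 1)‖ ^ 2 := by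
    rw [Finset.mul_sum, Finset.mul_sum, ← Finset.sum_add_distrib]
    refine Finset.sum_le_sum fun k _ => (hsq _ (x ^ ((k : ℕ) + 1)) _).trans (le_of_eq ?_)
    rw [norm_sub_rev (x ^ ((k : ℕ) + 1)) (v k)]
  have s4 : ∑ k : Fin L, ‖root (NN L) a ^ ((k : ℕ) + 1) - x ^ ((k : ℕ) + 1)‖ ^ 2 ≤
      L * (1 / (30 * L)) ^ 2 := by
    calc ∑ k : Fin L, ‖root (NN L) a ^ ((k : ℕ) + 1) - x ^ ((k : ℕ) + 1)‖ ^ 2 ≤
        ∑ _k : Fin L, (1 / (30 * (L : ℝ))) ^ 2 :=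
          Finset.sum_le_sum fun k _ => pow_le_pow_left₀ (norm_nonneg _) (ha k) 2
      _ = L * (1 / (30 * L)) ^ 2 := by
        rw [Finset.sum_const, Finset.card_univ, Fintype.card_fin, nsmul_eq_mul]
  linarith

/-- the seeds next to the signal -/
theorem seeds_ex (hL : 1 ≤ L) {x : Fin n → ℂ} (hx : ∀ j, ‖x j‖ = 1) :
    ∃ a : Fin n → Fin (NN L), Seeds L x fun j => root (NN L) (a j) := by
  choose a ha using fun j => near hL (hx j)
  exact ⟨a, hx, fun j => norm_root _ _, fun j k => ha j k⟩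

end H69.SR
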