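import Pool.Agent.H69.SR.Base

/-!
# Module Growth: the gain in one round

Write `u = 1 - lam^2`, `M3 = M/3`, `B = 1 - 12/(M lam^4) = 1 - 4/(M3 lam^4)`, `c S = S + M S^2/(1 + 2 S)`, so `cS M S = c/(1+c)`, `1 - cS M S = 1/(1+c)`; `c` is increasing.
* `SS_ge`: `sh x y = x^2 y^2/(1 + x^2 + y^2)` is increasing in `x^2` and `y^2`, so `SS D m k ≥ S + M S^2/(1+2S)`; `t/(1+t)` is increasing.
* `growth`. By monotonicity one may replace `b` by `min b B`, so let `0 ≤ b ≤ B` (`B > 0`). `S = lam^2 b ≤ 1`, so `c S ≥ S + M3 S^2`, and with `Dn = 1 + S + M3 S^2`: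
  `θ + (1-θ) cS - b ≥ 1 - b - (1-θ)/Dn`, and `(1-b) Dn - (1-θ) = θ - u b + b^2 (M3 lam^4 (1-b) - lam^2)` (ring). `M3 lam^4 (1-b) ≥ 4 ≥ 4 lam^2`, so the bracket is `≥ (3/4) M3 lam^4 (1-b)`.
  Case `b ≤ 1/2`: `≥ θ - u b + (3/8) M3 lam^4 b^2`; `Dn ≤ 2 + M3 lam^4 b^2`; so `(..) - (θ/8) Dn ≥ (3/4) θ - u b + (1/4) M3 lam^4 b^2 ≥ (3/4) θ - u^2/(M3 lam^4) ≥ (3/4) θ - θ/8` (`u^2 ≤ θ₀ M3 lam^4/8`).
  Case `b ≥ 1/2`: the bracket is `≥ 3`, so `≥ -b + 3 b^2 ≥ 1/4 ≥ (1/(4(M+2))) Dn` (`Dn ≤ 2 + M3`). In both cases `(1-b) Dn - (1-θ) ≥ kap θ M * Dn`.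
  The loss: `3 (θ/(1800 L^2)) = θ/(600 L^2) ≤ kap θ M/4` (`M + 2 ≤ 3 L`), `kap θ₀ M ≤ kap θ M`.
* `final_acc`: `b ≥ B ≥ 1/2`: `1 - cS ≤ 1/(M3 S^2) = 1/(M3 lam^4 b^2) ≤ 4/(M3 lam^4) = 12/(M lam^4)`.
-/

set_option autoImplicit false

open MeasureTheory ProbabilityTheory
open scoped BigOperators ComplexConjugate InnerProductSpace

namespace H69.SR

variable {L M : ℕ}

/-- the function `c` -/
private noncomputable def cc0 (M : ℕ) (S : ℝ) : ℝ := S + M * S ^ 2 / (1 + 2 * S)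

private lemma cc0_nonneg {S : ℝ} (hS : 0 ≤ S) : 0 ≤ cc0 M S := by
  unfold cc0
  have hM : (0 : ℝ) ≤ M := Nat.cast_nonneg M
  positivity

private lemma cS_eq (S : ℝ) : cS M S = cc0 M S / (1 + cc0 M S) := rfl

private lemma div_mono {s t : ℝ} (hs : 0 ≤ s) (hst : s ≤ t) : s / (1 + s) ≤ t / (1 + t) := by
  rw [div_le_div_iff₀ (by linarith) (by linarith)]
  nlinarith

private lemma sq_mono {S X Y : ℝ} (hS : 0 ≤ S) (hX : S ≤ X) (hY : S ≤ Y) :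
    S ^ 2 / (1 + 2 * S) ≤ X * Y / (1 + X + Y) := by
  rw [div_le_div_iff₀ (by linarith) (by linarith)]
  have h1 : S * S ≤ X * Y := mul_le_mul hX hY hS (by linarith)
  have h2 : S * (S * X) ≤ S * (Y * X) :=
    mul_le_mul_of_nonneg_left (mul_le_mul_of_nonneg_right hY (by linarith)) hS
  have h3 : S * (S * Y) ≤ S * (X * Y) :=
    mul_le_mul_of_nonneg_left (mul_le_mul_of_nonneg_right hX (by linarith)) hS
  nlinarith

private lemma cc0_mono {S S' : ℝ} (hS : 0 ≤ S) (h : S ≤ S') : cc0 M S ≤ cc0 M S' := by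
  unfold cc0
  have hM : (0 : ℝ) ≤ M := Nat.cast_nonneg M
  have h1 := sq_mono hS h h
  have h2 : S' * S' / (1 + S' + S') = S' ^ 2 / (1 + 2 * S') := by
    congr 1 <;> ring
  rw [h2] at h1
  have h3 := mul_le_mul_of_nonneg_left h1 hM
  rw [mul_div_assoc, mul_div_assoc]
  linarith

private lemma cS_mono {S S' : ℝ} (hS : 0 ≤ S) (h : S ≤ S') : cS M S ≤ cS M S' := by
  rw [cS_eq, cS_eq]
  exact div_mono (cc0_nonneg hS) (cc0_mono hS h)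

private lemma one_sub_cS {S : ℝ} (hS : 0 ≤ S) : 1 - cS M S = 1 / (1 + cc0 M S) := by
  rw [cS_eq]
  have h : 1 + cc0 M S ≠ 0 := by linarith [cc0_nonneg (M := M) hS]
  field_simp
  ring

private lemma cc0_ge {S : ℝ} (hS : 0 ≤ S) (hS1 : S ≤ 1) : S + M / 3 * S ^ 2 ≤ cc0 M S := by
  unfold cc0
  have hM : (0 : ℝ) ≤ M := Nat.cast_nonneg M
  have h1 : M / 3 * S ^ 2 ≤ M * S ^ 2 / (1 + 2 * S) := by
    rw [le_div_iff₀ (by linarith)]
    have h2 : 0 ≤ M * S ^ 2 := by positivity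
    nlinarith
  linarith

theorem cS_mem {S : ℝ} (hS : 0 ≤ S) : 0 ≤ cS M S ∧ cS M S ≤ 1 := by
  rw [cS_eq]
  have h := cc0_nonneg (M := M) hS
  exact ⟨div_nonneg h (by linarith), (div_le_one (by linarith)).2 (by linarith)⟩

theorem SS_ge (D : Prs L M) {m : Fin L → ℝ} {S : ℝ} (hS : 0 ≤ S) (hm : ∀ l, S ≤ m l ^ 2) (k : Fin L) :
    cS M S ≤ SS D m k / (1 + SS D m k) := by
  rw [cS_eq]
  refine div_mono (cc0_nonneg hS) ?_
  unfold cc0 SS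
  have h1 : ∀ i : Fin M, S ^ 2 / (1 + 2 * S) ≤ sh (m (D.p k i)) (m (D.q k i)) := fun i => by
    unfold sh
    exact sq_mono hS (hm _) (hm _)
  have h2 : ∑ _i : Fin M, S ^ 2 / (1 + 2 * S) ≤ ∑ i : Fin M, sh (m (D.p k i)) (m (D.q k i)) :=
    Finset.sum_le_sum fun i _ => h1 i
  rw [Finset.sum_const, Finset.card_univ, Fintype.card_fin, nsmul_eq_mul, ← mul_div_assoc] at h2
  have h3 := hm k
  linarith

theorem kap_pos {θ : ℝ} (hθ : 0 < θ) (M : ℕ) : 0 < kap θ M := by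
  unfold kap
  have hM : (0 : ℝ) ≤ M := Nat.cast_nonneg M
  exact lt_min (by linarith) (by positivity)

private lemma kap_mono {θ₀ θ : ℝ} (h : θ₀ ≤ θ) (M : ℕ) : kap θ₀ M ≤ kap θ M := by
  unfold kap
  exact min_le_min (by linarith) le_rfl

/-- the main inequality -/
private lemma core {lam θ θ₀ b x : ℝ} (h0 : 0 < lam) (h1 : lam < 1) (hθ₀ : 0 < θ₀) (hθ : θ₀ ≤ θ)
    (hθ1 : θ ≤ 1) (hx : x = M * lam ^ 4) (hM : 1152 ≤ x) (gr : 24 * (1 - lam ^ 2) ^ 2 ≤ θ₀ * x)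
    (hb0 : 0 ≤ b) (hb1 : b ≤ 1 - 12 / x) :
    kap θ M * (1 + lam ^ 2 * b + M / 3 * (lam ^ 2 * b) ^ 2) ≤
      (1 - b) * (1 + lam ^ 2 * b + M / 3 * (lam ^ 2 * b) ^ 2) - (1 - θ) := by
  have hx0 : 0 < x := by linarith
  have hMr : (0 : ℝ) ≤ M := Nat.cast_nonneg M
  have hl2 : lam ^ 2 ≤ 1 := by nlinarith
  have hl20 : 0 ≤ lam ^ 2 := sq_nonneg _
  have hl4 : lam ^ 4 ≤ 1 := pow_le_one₀ h0.le h1.le
  set y := x / 3 with hy
  have hy0 : 0 < y := by linarith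
  have e1 : M / 3 * (lam ^ 2 * b) ^ 2 = y * b ^ 2 := by rw [hy, hx]; ring
  rw [e1]
  have hb12 : b ≤ 1 := by
    have : 0 ≤ 12 / x := by positivity
    linarith
  have e2 : 4 ≤ y * (1 - b) := by
    have h2 : 12 / x ≤ 1 - b := by linarith
    have h3 : x * (12 / x) ≤ x * (1 - b) := mul_le_mul_of_nonneg_left h2 hx0.le
    rw [mul_div_cancel₀ _ hx0.ne'] at h3
    rw [hy]
    linarith
  have e3 : (1 - b) * (1 + lam ^ 2 * b + y * b ^ 2) - (1 - θ) =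
      θ - (1 - lam ^ 2) * b + b ^ 2 * (y * (1 - b) - lam ^ 2) := by ring
  rw [e3]
  have hθ0 : 0 < θ := by linarith
  have hbr : 3 / 4 * (y * (1 - b)) ≤ y * (1 - b) - lam ^ 2 := by linarith
  have hb2 : 0 ≤ b ^ 2 := sq_nonneg _
  have e4 := mul_le_mul_of_nonneg_left hbr hb2
  have hDn : 1 + lam ^ 2 * b + y * b ^ 2 ≤ 2 + y * b ^ 2 := by
    have : lam ^ 2 * b ≤ 1 * 1 := mul_le_mul hl2 hb12 hb0 zero_le_one
    linarith
  have hDn0 : 0 ≤ 1 + lam ^ 2 * b + y * b ^ 2 := by positivity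
  rcases le_total b (1 / 2) with hb | hb
  · have hk : kap θ M ≤ θ / 8 := min_le_left _ _
    have h2 : kap θ M * (1 + lam ^ 2 * b + y * b ^ 2) ≤ θ / 8 * (2 + y * b ^ 2) :=
      mul_le_mul hk hDn hDn0 (by linarith)
    have h3 : 3 / 8 * y * b ^ 2 ≤ b ^ 2 * (3 / 4 * (y * (1 - b))) := by
      have h4 : 0 ≤ b ^ 2 * y := by positivity
      nlinarith
    have h5 : θ * (y * b ^ 2) ≤ 1 * (y * b ^ 2) := mul_le_mul_of_nonneg_right hθ1 (by positivity)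
    have h6 : (1 - lam ^ 2) * b ≤ 1 / 4 * y * b ^ 2 + θ / 8 := by
      have h7 : (1 - lam ^ 2) ^ 2 ≤ θ / 8 * y := by
        have h8 : θ₀ * x ≤ θ * x := mul_le_mul_of_nonneg_right hθ hx0.le
        rw [hy]
        linarith
      have h8 : 0 ≤ (y * b / 2 - (1 - lam ^ 2)) ^ 2 := sq_nonneg _
      have h9 : y * ((1 - lam ^ 2) * b) ≤ y * (1 / 4 * y * b ^ 2 + θ / 8) := by nlinarith
      exact le_of_mul_le_mul_left h9 hy0
    have e5 : θ / 8 * (2 + y * b ^ 2) = θ / 4 + θ * (y * b ^ 2) / 8 := by ring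
    have e6 : 3 / 8 * y * b ^ 2 = 3 * (y * b ^ 2) / 8 := by ring
    have e7 : 1 / 4 * y * b ^ 2 = (y * b ^ 2) / 4 := by ring
    rw [e5] at h2
    rw [e6] at h3
    rw [e7] at h6
    linarith
  · have hk : kap θ M ≤ 1 / (4 * (M + 2)) := min_le_right _ _
    have hyM : y * b ^ 2 ≤ M := by
      have h2 : y ≤ M := by
        rw [hy, hx]
        have : (M : ℝ) * lam ^ 4 ≤ M * 1 := mul_le_mul_of_nonneg_left hl4 hMr
        linarith
      have h3 : b ^ 2 ≤ 1 := by nlinarith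
      calc y * b ^ 2 ≤ M * 1 := mul_le_mul h2 h3 hb2 hMr
        _ = M := mul_one _
    have h2 : kap θ M * (1 + lam ^ 2 * b + y * b ^ 2) ≤ 1 / (4 * (M + 2)) * (M + 2) :=
      mul_le_mul hk (by linarith) hDn0 (by positivity)
    have h3 : 1 / (4 * ((M : ℝ) + 2)) * (M + 2) = 1 / 4 := by
      have : (M : ℝ) + 2 ≠ 0 := by positivity
      field_simp
    rw [h3] at h2
    have h4 : b ^ 2 * 3 ≤ b ^ 2 * (3 / 4 * (y * (1 - b))) := mul_le_mul_of_nonneg_left (by linarith) hb2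
    have h5 : (1 - lam ^ 2) * b ≤ 1 * b := mul_le_mul_of_nonneg_right (by linarith) hb0
    nlinarith

theorem growth {lam θ θ₀ b : ℝ} (h0 : 0 < lam) (h1 : lam < 1) (hθ₀ : 0 < θ₀) (hθ : θ₀ ≤ θ) (hθ1 : θ ≤ 1)
    (hM : 1152 ≤ M * lam ^ 4) (gr : 24 * (1 - lam ^ 2) ^ 2 ≤ θ₀ * (M * lam ^ 4)) (hL : 1 ≤ L) (hML : M ≤ L)
    (hb0 : 0 ≤ b) (hb1 : b ≤ 1) :
    min b (1 - 12 / (M * lam ^ 4)) + 3 / 4 * kap θ₀ M ≤
      θ + (1 - θ) * cS M (lam ^ 2 * b) - 3 * (θ / (1800 * L ^ 2)) := by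
  have _ := hb1
  have hMr : (0 : ℝ) ≤ M := Nat.cast_nonneg M
  have hLr : (1 : ℝ) ≤ L := by exact_mod_cast hL
  have hMLr : (M : ℝ) ≤ L := by exact_mod_cast hML
  obtain ⟨x, hx⟩ : ∃ x : ℝ, x = M * lam ^ 4 := ⟨_, rfl⟩
  rw [← hx] at hM gr ⊢
  have hx0 : 0 < x := by linarith
  have hθ0 : 0 < θ := by linarith
  have hB0 : 0 ≤ 1 - 12 / x := by
    have : 12 / x ≤ 1 := (div_le_one hx0).2 (by linarith)
    linarith
  set b' := min b (1 - 12 / x) with hb'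
  have hb'0 : 0 ≤ b' := le_min hb0 hB0
  have hb'1 : b' ≤ 1 - 12 / x := min_le_right _ _
  have hb'b : b' ≤ b := min_le_left _ _
  have hl20 : 0 ≤ lam ^ 2 := sq_nonneg _
  have hl2 : lam ^ 2 ≤ 1 := by nlinarith
  have hb'2 : b' ≤ 1 := by
    have : 0 ≤ 12 / x := by positivity
    linarith
  have hS0 : 0 ≤ lam ^ 2 * b' := mul_nonneg hl20 hb'0
  have hS1 : lam ^ 2 * b' ≤ 1 := by
    calc lam ^ 2 * b' ≤ 1 * 1 := mul_le_mul hl2 hb'2 hb'0 zero_le_one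
      _ = 1 := one_mul 1
  have hmono : cS M (lam ^ 2 * b') ≤ cS M (lam ^ 2 * b) :=
    cS_mono hS0 (mul_le_mul_of_nonneg_left hb'b hl20)
  have hc := core (M := M) h0 h1 hθ₀ hθ hθ1 hx hM gr hb'0 hb'1
  have hcc := cc0_ge (M := M) hS0 hS1
  set Dn := 1 + lam ^ 2 * b' + M / 3 * (lam ^ 2 * b') ^ 2 with hDn
  have hDn0 : 0 < Dn := by
    have : 0 ≤ (M : ℝ) / 3 * (lam ^ 2 * b') ^ 2 := by positivity
    linarith
  have h2 : 1 - cS M (lam ^ 2 * b') ≤ 1 / Dn := by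
    rw [one_sub_cS hS0]
    exact one_div_le_one_div_of_le hDn0 (by linarith)
  have h3 : (1 - θ) * (1 - cS M (lam ^ 2 * b')) ≤ (1 - θ) * (1 / Dn) :=
    mul_le_mul_of_nonneg_left h2 (by linarith)
  have h4 : kap θ M ≤ (1 - b') - (1 - θ) * (1 / Dn) := by
    have h5 : kap θ M * Dn ≤ ((1 - b') - (1 - θ) * (1 / Dn)) * Dn := by
      have h6 : ((1 - b') - (1 - θ) * (1 / Dn)) * Dn = (1 - b') * Dn - (1 - θ) := by
        have : 1 / Dn * Dn = 1 := one_div_mul_cancel hDn0.ne'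
        calc ((1 - b') - (1 - θ) * (1 / Dn)) * Dn = (1 - b') * Dn - (1 - θ) * (1 / Dn * Dn) := by ring
          _ = (1 - b') * Dn - (1 - θ) := by rw [this, mul_one]
      rw [h6]
      exact hc
    exact le_of_mul_le_mul_right h5 hDn0
  have h5 : (1 - θ) * cS M (lam ^ 2 * b') ≤ (1 - θ) * cS M (lam ^ 2 * b) :=
    mul_le_mul_of_nonneg_left hmono (by linarith)
  have h6 : 3 * (θ / (1800 * (L : ℝ) ^ 2)) ≤ kap θ M / 4 := by
    have hL2 : (1 : ℝ) ≤ (L : ℝ) ^ 2 := one_le_pow₀ hLr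
    have e1 : 3 * (θ / (1800 * (L : ℝ) ^ 2)) = θ / (600 * (L : ℝ) ^ 2) := by
      have : (L : ℝ) ^ 2 ≠ 0 := by positivity
      field_simp
      norm_num
    rw [e1, le_div_iff₀ (by norm_num : (0 : ℝ) < 4)]
    unfold kap
    refine le_min ?_ ?_
    · rw [div_mul_eq_mul_div, div_le_div_iff₀ (by positivity) (by norm_num)]
      nlinarith
    · rw [div_mul_eq_mul_div, div_le_div_iff₀ (by positivity) (by positivity)]
      have e2 : θ * 4 * (4 * ((M : ℝ) + 2)) ≤ 1 * 4 * (4 * ((L : ℝ) + 2)) :=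
        mul_le_mul (by linarith) (by linarith) (by positivity) (by norm_num)
      nlinarith
  have h7 := kap_mono hθ M
  have h8 := kap_pos hθ0 M
  linarith

theorem final_acc {lam b : ℝ} (h0 : 0 < lam) (h1 : lam < 1) (hM : 1152 ≤ M * lam ^ 4)
    (hb : 1 - 12 / (M * lam ^ 4) ≤ b) (hb1 : b ≤ 1) : 1 - cS M (lam ^ 2 * b) ≤ 12 / (M * lam ^ 4) := by
  have hMr : (0 : ℝ) ≤ M := Nat.cast_nonneg M
  obtain ⟨x, hx⟩ : ∃ x : ℝ, x = M * lam ^ 4 := ⟨_, rfl⟩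
  rw [← hx] at hM hb ⊢
  have hx0 : 0 < x := by linarith
  have hb2 : 1 / 2 ≤ b := by
    have : 12 / x ≤ 1 / 2 := by
      rw [div_le_iff₀ hx0]
      linarith
    linarith
  have hl20 : 0 ≤ lam ^ 2 := sq_nonneg _
  have hl2 : lam ^ 2 ≤ 1 := by nlinarith
  have hS0 : 0 ≤ lam ^ 2 * b := mul_nonneg hl20 (by linarith)
  have hS1 : lam ^ 2 * b ≤ 1 := by
    calc lam ^ 2 * b ≤ 1 * 1 := mul_le_mul hl2 hb1 (by linarith) zero_le_one
      _ = 1 := one_mul 1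
  have hcc := cc0_ge (M := M) hS0 hS1
  have e1 : M / 3 * (lam ^ 2 * b) ^ 2 = x / 3 * b ^ 2 := by rw [hx]; ring
  rw [e1] at hcc
  have hb4 : 1 / 4 ≤ b ^ 2 := by nlinarith
  have h2 : x / 12 ≤ x / 3 * b ^ 2 := by
    have := mul_le_mul_of_nonneg_left hb4 (by linarith : (0 : ℝ) ≤ x / 3)
    linarith
  rw [one_sub_cS hS0, div_le_div_iff₀ (by linarith [cc0_nonneg (M := M) hS0]) hx0]
  linarith

end H69.SR
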