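import Pool.Agent.H69.SR.StepT
import Pool.Agent.H69.SR.Growth

/-!
# Module Good: a good run ends close to the signal

`θ := thJ J ∈ [A.θ, 1]`, `κ := kap A.θ A.M / 2`, `B := 1 - 12/(M lam^4)`, `f := (A.pr a).f J s`.
* `start`: `step0` and `corr` (with `t = 0`, `A = θ`, `ε = θ/(1800 L^2)`, `prj_f`): `n ‖al 0‖^2 = ‖prj (UU f ζ k) 0 (xv x k)‖^2 ≥ (θ - 3θ/(1800 L^2)) n ≥ (θ/2) n` (`al_sum`). `A.small` gives `2 T δ ≤ kap/4 ≤ A.θ/32`, so
  `δ ≤ θ/64` and `δ^2 < θ/2`; `‖a 0 k - al‖ ≤ δ` (`hC` at `0 < T`), so `a 0 k ≠ 0`.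
* growth, by induction on `t ≤ T`: `∀ k, min B (t * κ) ≤ nr a t k ^ 2`. `t = 0`: `nr a 0 k = 0`. Step: `b := max 0 (min B (t κ))` (`= min B (t κ)` as `B ≥ 0`). In round `t`: `step0` (`t = 0`: `cc = 0 = ...`, use `growth` with `b = 0`; `cS M 0 = 0`) or `stepT`
  (`t ≥ 1`: `nr a t l ≥ ‖a 0 l‖ > 0` by `start`; `lam * nr a t l ≤ 2`: see below). `SS_ge` with `S = lam^2 b` (`mm^2 = lam^2 nr^2 ≥ lam^2 b`): `cc ≥ cS M (lam^2 b)`. `corr` with `A := θ + (1-θ) cc`, `ε := eJ A J` (for `t = 0` the bounds of `step0` are stronger):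
  `∑_(s<t+1) ‖al s‖^2 ≥ A - 3 eJ` (`al_sum`, `prj_f`), `nr a (t+1) k ^ 2 ≥ A - 3 eJ - 2 T δ` (`nr_al`) `≥ θ + (1-θ) cS M (lam^2 b) - 3 (θ/(1800 L^2)) - (3 err + 2 T δ) ≥ min b B + (3/4) kap - kap/4` (`growth`, `A.small`) `= b + κ`.
* `lam * nr a t l ≤ 2`: `∑_(s<t) ‖al s‖^2 ≤ 1` (`al_sum` for `t ≥ 1`, `‖prj x‖ ≤ ‖x‖`: `nsq_cop`, `norm_xv`), so `nr^2 ≤ 1 + 2 T δ ≤ 2`.
* `good`: `t = T`: `T κ ≥ 1` (`A.rounds`), so `nr a T k ^ 2 ≥ B`. `stepT` at `t = T`: `‖f T ζ k - xv x k‖^2 = ‖F‖^2 - 2 Re ⟪x, F⟫ + n ≤ n (1 - (θ + (1-θ) cc) + 3 eJ)`, `1 - θ - (1-θ) cc ≤ 1 - cc ≤ 1 - cS M (lam^2 b) ≤ 12/(M lam^4) ≤ 1/96`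
  with `b := min 1 (nr^2)` (`final_acc`), `3 eJ ≤ kap/4 + 3/1800`, `kap ≤ 1/(4 (M+2)) ≤ 1/4616` (`M ≥ 1152`).
-/

set_option autoImplicit false

open MeasureTheory ProbabilityTheory
open scoped BigOperators ComplexConjugate InnerProductSpace

namespace H69.SR

variable {L n : ℕ}

private lemma good_err_nonneg (A : Par L) : 0 ≤ err L A.M A.T A.R A.ε A.δ := by
  unfold err
  have h1 := A.hR
  have h2 := A.hε
  have h3 := A.hδ
  positivity

private lemma good_thJ (hn : 0 < n) (J : Finset (Fin n)) : 0 ≤ thJ J ∧ thJ J ≤ 1 := by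
  unfold thJ
  have hn' : (0 : ℝ) < n := by exact_mod_cast hn
  refine ⟨by positivity, ?_⟩
  rw [div_le_one hn']
  have h := Finset.card_le_univ J
  rw [Fintype.card_fin] at h
  exact_mod_cast h

private lemma good_small (A : Par L) : 2 * A.T * A.δ ≤ kap A.θ A.M / 4 := by
  have h1 := A.small
  have h2 := good_err_nonneg A
  linarith

private lemma good_kap (A : Par L) : kap A.θ A.M ≤ A.θ / 8 := min_le_left _ _

private lemma good_kap' (A : Par L) : kap A.θ A.M ≤ 1 / (4 * (A.M + 2)) := min_le_right _ _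

private lemma good_eps (A : Par L) {θ : ℝ} (h : 0 ≤ θ) :
    0 ≤ θ / (1800 * (L : ℝ) ^ 2) ∧ θ / (1800 * (L : ℝ) ^ 2) ≤ θ / 1800 := by
  have hLr : (1 : ℝ) ≤ L := by exact_mod_cast A.hL
  have hL2 : (1 : ℝ) ≤ (L : ℝ) ^ 2 := by nlinarith
  refine ⟨by positivity, ?_⟩
  apply div_le_div_of_nonneg_left h (by norm_num)
  linarith

/-- The overlap after round `0`. -/
private lemma good_zero (A : Par L) (hn : 0 < n) {J : Finset (Fin n)} {x s : Fin n → ℂ}
    (hs : Seeds L x s) (a : ℕ → Fin L → ℂ) (ζ : Hs L n) (k : Fin L) :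
    thJ J - 3 * (thJ J / (1800 * (L : ℝ) ^ 2)) ≤
      ∑ r ∈ Finset.range (0 + 1), ‖al x ((A.pr a).f J s) ζ k r‖ ^ 2 := by
  have hn' : (0 : ℝ) < n := by exact_mod_cast hn
  obtain ⟨hJ0, hJ1⟩ := good_thJ hn J
  obtain ⟨he0, he1⟩ := good_eps A hJ0
  obtain ⟨s1, s2⟩ := step0 A hn (J := J) hs a ζ k
  have c := corr (ortZ_UU ((A.pr a).f J s) ζ k) hn (prj_f ((A.pr a).f J s) ζ k (le_refl 0)) hJ0 he0 s1
    (by rw [s2]; exact mul_le_mul_of_nonneg_right (by linarith) hn'.le)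
  rw [← al_sum hn x ((A.pr a).f J s) ζ k 0, mul_comm] at c
  exact le_of_mul_le_mul_left c hn'

theorem start (A : Par L) (hn : 0 < n) {J : Finset (Fin n)} (hJ : A.θ ≤ thJ J) {x s : Fin n → ℂ}
    (hs : Seeds L x s) {a : ℕ → Fin L → ℂ} {ζ : Hs L n} (hC : Cons A.δ x a ((A.pr a).f J s) ζ A.T) (k : Fin L) :
    a 0 k ≠ 0 := by
  intro h
  obtain ⟨hJ0, hJ1⟩ := good_thJ hn J
  obtain ⟨he0, he1⟩ := good_eps A hJ0
  have hθ := A.hθ
  have hθ1 := A.hθ1
  have c := good_zero A hn (J := J) hs a ζ k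
  rw [zero_add, Finset.sum_range_one] at c
  have hT := A.hT
  have hd := (hC 0 (by omega) k).1
  rw [h, zero_sub, norm_neg] at hd
  have hTr : (1 : ℝ) ≤ A.T := by exact_mod_cast hT
  have hδ := A.hδ
  have h1 := good_small A
  have h2 := good_kap A
  have h3 : 2 * A.δ ≤ 2 * A.T * A.δ := by nlinarith
  have h4 : A.δ ≤ A.θ / 64 := by linarith
  have h5 : ‖al x ((A.pr a).f J s) ζ k 0‖ ^ 2 ≤ A.δ ^ 2 := pow_le_pow_left₀ (norm_nonneg _) hd 2
  have h6 : A.δ ^ 2 ≤ A.δ := by nlinarith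
  linarith

/-- The norms of the first overlaps are at most `√2`. -/
private lemma good_nr (A : Par L) (hn : 0 < n) {J : Finset (Fin n)} {x s : Fin n → ℂ}
    (hs : Seeds L x s) {a : ℕ → Fin L → ℂ} (ha : a ∈ A.gss) {ζ : Hs L n}
    (hC : Cons A.δ x a ((A.pr a).f J s) ζ A.T) {t : ℕ} (h1t : 1 ≤ t) (ht : t ≤ A.T) (k : Fin L) :
    A.lam * nr a t k ≤ 2 := by
  have hn' : (0 : ℝ) < n := by exact_mod_cast hn
  have ha1 : ∀ t k, ‖a t k‖ ≤ 1 := fun t k => A.le_one _ (ha.1 t k)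
  have hθ1 := A.hθ1
  have h1 := nr_al hn hs.nx ha1 hC ht k
  have h2 : ∑ r ∈ Finset.range t, ‖al x ((A.pr a).f J s) ζ k r‖ ^ 2 ≤ 1 := by
    obtain ⟨u, rfl⟩ : ∃ u, t = u + 1 := ⟨t - 1, by omega⟩
    have h3 := al_sum hn x ((A.pr a).f J s) ζ k u
    have h4 := nsq_cop (ortZ_UU ((A.pr a).f J s) ζ k) u (xv x k)
    rw [norm_xv hs.nx] at h4
    have h5 : (n : ℝ) * ∑ r ∈ Finset.range (u + 1), ‖al x ((A.pr a).f J s) ζ k r‖ ^ 2 ≤ n * 1 := by
      rw [h3, h4, mul_one]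
      have := sq_nonneg ‖cop (UU ((A.pr a).f J s) ζ k) u (xv x k)‖
      linarith
    exact le_of_mul_le_mul_left h5 hn'
  have h3 := (abs_le.1 h1).2
  have h4 := good_small A
  have h5 := good_kap A
  have h6 : nr a t k ^ 2 ≤ 2 := by linarith
  have h7 := nr_nonneg a t k
  have h8 : nr a t k ≤ 2 := by nlinarith
  have h9 := A.lam0
  have h10 := A.lam1
  nlinarith

/-- The overlaps are not zero. -/
private lemma good_ne (A : Par L) (hn : 0 < n) {J : Finset (Fin n)} (hJ : A.θ ≤ thJ J) {x s : Fin n → ℂ}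
    (hs : Seeds L x s) {a : ℕ → Fin L → ℂ} {ζ : Hs L n}
    (hC : Cons A.δ x a ((A.pr a).f J s) ζ A.T) {t : ℕ} (h1t : 1 ≤ t) (k : Fin L) : nr a t k ≠ 0 := by
  intro h
  have h0 := start A hn hJ hs hC k
  have h1 := nr_sq a t k
  rw [h] at h1
  have h2 : ‖a 0 k‖ ^ 2 ≤ ∑ r ∈ Finset.range t, ‖a r k‖ ^ 2 :=
    Finset.single_le_sum (f := fun r => ‖a r k‖ ^ 2) (fun r _ => by positivity)
      (Finset.mem_range.2 (by omega))
  have h3 : 0 < ‖a 0 k‖ ^ 2 := by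
    have := norm_pos_iff.2 h0
    positivity
  rw [← h1] at h2
  norm_num at h2
  rw [h2] at h3
  simp at h3

private lemma good_cc (A : Par L) (a : ℕ → Fin L → ℂ) {t : ℕ} {b : ℝ} (hb : 0 ≤ b)
    (h : ∀ l, b ≤ nr a t l ^ 2) (k : Fin L) : cS A.M (A.lam ^ 2 * b) ≤ cc A a t k := by
  unfold cc
  apply SS_ge A.D (by positivity)
  intro l
  unfold mm
  rw [mul_pow]
  exact mul_le_mul_of_nonneg_left (h l) (sq_nonneg _)

private lemma good_cc1 (A : Par L) (a : ℕ → Fin L → ℂ) (t : ℕ) (k : Fin L) :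
    0 ≤ cc A a t k ∧ cc A a t k ≤ 1 := by
  unfold cc
  have h := SS_nonneg A.D (mm A.lam a t) k
  refine ⟨by positivity, ?_⟩
  rw [div_le_one (by linarith)]
  linarith

private lemma good_B (A : Par L) :
    12 / (A.M * A.lam ^ 4) ≤ 1 / 96 ∧ 0 < 12 / (A.M * A.lam ^ 4) := by
  have h := A.hM
  have hp : (0 : ℝ) < A.M * A.lam ^ 4 := by linarith
  refine ⟨?_, by positivity⟩
  rw [div_le_div_iff₀ hp (by norm_num)]
  linarith

/-- The lower bound of the overlaps after `t` rounds. -/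
private lemma good_main (A : Par L) (hn : 0 < n) {J : Finset (Fin n)} (hJ : A.θ ≤ thJ J) {x s : Fin n → ℂ}
    (hs : Seeds L x s) {a : ℕ → Fin L → ℂ} (ha : a ∈ A.gss) {ζ : Hs L n} {g : ℕ → VV L n}
    (hζ : ∀ t < A.T, ζ t = rG ((A.pr a).f J s) ((A.pr a).b J s A.lam x) (g t) t ζ)
    (hC : Cons A.δ x a ((A.pr a).f J s) ζ A.T) (hP : GoodP A ((A.pr a).f J s) g ζ) (hG : GoodL A J x a g)
    (t : ℕ) (ht : t ≤ A.T) (k : Fin L) :
    min (1 - 12 / (A.M * A.lam ^ 4)) (t * (kap A.θ A.M / 2)) ≤ nr a t k ^ 2 := by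
  have hn' : (0 : ℝ) < n := by exact_mod_cast hn
  have ha1 : ∀ t k, ‖a t k‖ ≤ 1 := fun t k => A.le_one _ (ha.1 t k)
  obtain ⟨hJ0, hJ1⟩ := good_thJ hn J
  obtain ⟨he0, he1⟩ := good_eps A hJ0
  have hkap := kap_pos A.hθ A.M
  obtain ⟨hB1, hB0⟩ := good_B A
  have herr := good_err_nonneg A
  have hsm := A.small
  have hsm2 := good_small A
  induction t generalizing k with
  | zero =>
    have h := nr_nonneg a 0 k
    refine (min_le_right _ _).trans ?_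
    rw [Nat.cast_zero, zero_mul]
    positivity
  | succ t ih =>
    have iht := fun l => ih (by omega) l
    have htr : (0 : ℝ) ≤ t * (kap A.θ A.M / 2) := by positivity
    generalize hb : min (1 - 12 / (A.M * A.lam ^ 4)) (t * (kap A.θ A.M / 2)) = b at iht
    have hb0 : 0 ≤ b := by
      rw [← hb]
      exact le_min (by linarith) htr
    have hbB : b ≤ 1 - 12 / (A.M * A.lam ^ 4) := by
      rw [← hb]
      exact min_le_left _ _
    have hgr := growth A.lam0 A.lam1 A.hθ hJ hJ1 A.hM A.gr A.hL A.hML hb0 (by linarith : b ≤ 1)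
    rw [min_eq_left hbB] at hgr
    have hgoal : b + kap A.θ A.M / 2 ≤ nr a (t + 1) k ^ 2 := by
      have hal := (abs_le.1 (nr_al hn hs.nx ha1 hC ht k)).1
      rcases Nat.eq_zero_or_pos t with h0 | h0
      · subst h0
        have hz := good_zero A hn (J := J) hs a ζ k
        have hb00 : b = 0 := by
          rw [← hb, Nat.cast_zero, zero_mul]
          exact min_eq_right (by linarith)
        have hcs : cS A.M (A.lam ^ 2 * b) = 0 := by
          rw [hb00]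
          unfold cS
          simp
        rw [hcs] at hgr
        rw [hb00] at hgr ⊢
        linarith
      · obtain ⟨s1, s2⟩ := stepT A hn hs ha hζ hC hP hG h0 (by omega : t ≤ A.T)
          (fun l => good_ne A hn hJ hs hC h0 l)
          (fun l => good_nr A hn hs ha hC h0 (by omega) l) k
        have hcc := good_cc A a hb0 iht k
        obtain ⟨hc0, hc1⟩ := good_cc1 A a t k
        have hA : 0 ≤ thJ J + (1 - thJ J) * cc A a t k :=
          add_nonneg hJ0 (mul_nonneg (by linarith) hc0)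
        have heJ : 0 ≤ eJ A J := by
          unfold eJ
          linarith
        have c := corr (ortZ_UU ((A.pr a).f J s) ζ k) hn (prj_f ((A.pr a).f J s) ζ k (le_refl t)) hA heJ s1 s2
        rw [← al_sum hn x ((A.pr a).f J s) ζ k t, mul_comm] at c
        have c' := le_of_mul_le_mul_left c hn'
        have hmul : (1 - thJ J) * cS A.M (A.lam ^ 2 * b) ≤ (1 - thJ J) * cc A a t k :=
          mul_le_mul_of_nonneg_left hcc (by linarith)
        unfold eJ at c'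
        linarith
    refine le_trans ?_ hgoal
    rw [← hb]
    rcases le_total (1 - 12 / (A.M * A.lam ^ 4)) (t * (kap A.θ A.M / 2)) with h | h
    · rw [min_eq_left h]
      refine (min_le_left _ _).trans ?_
      linarith
    · rw [min_eq_right h]
      refine (min_le_right _ _).trans ?_
      push_cast
      linarith

theorem good (A : Par L) (hn : 0 < n) {J : Finset (Fin n)} (hJ : A.θ ≤ thJ J) {x s : Fin n → ℂ}
    (hs : Seeds L x s) {a : ℕ → Fin L → ℂ} (ha : a ∈ A.gss) {ζ : Hs L n} {g : ℕ → VV L n}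
    (hζ : ∀ t < A.T, ζ t = rG ((A.pr a).f J s) ((A.pr a).b J s A.lam x) (g t) t ζ)
    (hC : Cons A.δ x a ((A.pr a).f J s) ζ A.T) (hP : GoodP A ((A.pr a).f J s) g ζ) (hG : GoodL A J x a g)
    (k : Fin L) : ‖(A.pr a).f J s A.T ζ k - xv x k‖ ^ 2 ≤ n / 64 := by
  have hn' : (0 : ℝ) < n := by exact_mod_cast hn
  obtain ⟨hJ0, hJ1⟩ := good_thJ hn J
  obtain ⟨he0, he1⟩ := good_eps A hJ0
  obtain ⟨hB1, hB0⟩ := good_B A
  have herr := good_err_nonneg A
  have hsm := A.small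
  have hr := A.rounds
  have hδ := A.hδ
  have hTd : 0 ≤ 2 * (A.T : ℝ) * A.δ := by positivity
  have hm : ∀ l, 1 - 12 / (A.M * A.lam ^ 4) ≤ nr a A.T l ^ 2 := by
    intro l
    have h := good_main A hn hJ hs ha hζ hC hP hG A.T (le_refl _) l
    rwa [min_eq_left (by linarith)] at h
  obtain ⟨s1, s2⟩ := stepT A hn hs ha hζ hC hP hG A.hT (le_refl _)
    (fun l => good_ne A hn hJ hs hC A.hT l)
    (fun l => good_nr A hn hs ha hC A.hT (le_refl _) l) k
  have hcc := good_cc A a (by linarith) hm k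
  obtain ⟨hc0, hc1⟩ := good_cc1 A a A.T k
  have hfin := final_acc A.lam0 A.lam1 A.hM (le_refl _) (by linarith : 1 - 12 / (A.M * A.lam ^ 4) ≤ 1)
  have hM : (1152 : ℝ) ≤ A.M := by
    have h1 := A.hM
    have h2 : A.lam ^ 4 ≤ 1 := pow_le_one₀ A.lam0.le A.lam1.le
    have h3 : (A.M : ℝ) * A.lam ^ 4 ≤ A.M * 1 := mul_le_mul_of_nonneg_left h2 (Nat.cast_nonneg _)
    linarith
  have hk : kap A.θ A.M ≤ 1 / 4616 := by
    refine (good_kap' A).trans ?_
    apply one_div_le_one_div_of_le (by norm_num)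
    linarith
  have hexp : ‖(A.pr a).f J s A.T ζ k - xv x k‖ ^ 2 =
      ‖(A.pr a).f J s A.T ζ k‖ ^ 2 - 2 * (⟪xv x k, (A.pr a).f J s A.T ζ k⟫_ℂ).re + n := by
    have hsym : (⟪(A.pr a).f J s A.T ζ k, xv x k⟫_ℂ).re = (⟪xv x k, (A.pr a).f J s A.T ζ k⟫_ℂ).re := by
      rw [← inner_conj_symm, Complex.conj_re]
    rw [← norm_xv hs.nx k, norm_sub_sq (𝕜 := ℂ), ← hsym]
    rfl
  have hprod : (1 - thJ J) * (1 - cc A a A.T k) ≤ 1 * (1 - cc A a A.T k) :=
    mul_le_mul_of_nonneg_right (by linarith) (by linarith)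
  have hall : ‖(A.pr a).f J s A.T ζ k - xv x k‖ ^ 2 ≤
      (1 - (thJ J + (1 - thJ J) * cc A a A.T k) + 3 * eJ A J) * n := by
    rw [hexp]
    linarith
  refine hall.trans ?_
  rw [div_eq_inv_mul]
  apply mul_le_mul_of_nonneg_right _ hn'.le
  unfold eJ
  linarith

end H69.SR
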