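import Pool.Agent.H69.SR.Mix
import Pool.Agent.H69.SR.Clip

/-!
# Module Ev: the mean of the map at a vertex does not depend on the label

`w' s l := conj (x^(l+1)) * w s l`, `∑ s, ‖w' s l‖^2 = 1`. `m l x^(l+1) + ∑_s w s l z s l = x^(l+1) (m l + ∑_s w' s l z s l)` (`x conj x = 1`), so by `FF_rot` `FF (..) = x^(k+1) FF (fun l => m l + ∑_s w' s l z s l)`; multiply with `conj (x^(k+1))`,
respectively take norms. `integral_map` with `mix` for `w'` (`FF_cont` gives measurability).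
-/

set_option autoImplicit false

open MeasureTheory ProbabilityTheory
open scoped BigOperators ComplexConjugate InnerProductSpace

namespace H69.SR

variable {L M : ℕ}

private lemma Ev_conj_pow {x : ℂ} (hx : ‖x‖ = 1) (j : ℕ) : conj (x ^ j) * x ^ j = 1 := by
  rw [mul_comm, Complex.mul_conj, Complex.normSq_eq_norm_sq, norm_pow, hx]
  simp

private lemma Ev_arg {x : ℂ} (hx : ‖x‖ = 1) (m : Fin L → ℝ) {T : ℕ} (w : Fin T → Fin L → ℂ)
    (z : Fin T → Fin L → ℂ) :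
    (fun l : Fin L => (m l : ℂ) * x ^ ((l : ℕ) + 1) + ∑ s, w s l * z s l) =
      fun l : Fin L => x ^ ((l : ℕ) + 1) *
        ((m l : ℂ) + ∑ s, (conj (x ^ ((l : ℕ) + 1)) * w s l) * z s l) := by
  funext l
  have h := Ev_conj_pow hx ((l : ℕ) + 1)
  have h2 : ∀ s, x ^ ((l : ℕ) + 1) * (conj (x ^ ((l : ℕ) + 1)) * w s l * z s l) = w s l * z s l := by
    intro s
    calc x ^ ((l : ℕ) + 1) * (conj (x ^ ((l : ℕ) + 1)) * w s l * z s l)
        = (conj (x ^ ((l : ℕ) + 1)) * x ^ ((l : ℕ) + 1)) * (w s l * z s l) := by ring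
      _ = w s l * z s l := by rw [h, one_mul]
  rw [mul_add, Finset.mul_sum, Finset.sum_congr rfl fun s _ => h2 s]
  ring

private lemma Ev_FF (D : Prs L M) (R : ℝ) (m : Fin L → ℝ) (k : Fin L) {x : ℂ} (hx : ‖x‖ = 1) {T : ℕ}
    (w : Fin T → Fin L → ℂ) (z : Fin T → Fin L → ℂ) :
    FF D R m k (fun l => m l * x ^ ((l : ℕ) + 1) + ∑ s, w s l * z s l) =
      x ^ ((k : ℕ) + 1) *
        FF D R m k (fun l => (m l : ℂ) + ∑ s, (conj (x ^ ((l : ℕ) + 1)) * w s l) * z s l) := by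
  rw [Ev_arg hx m w z]
  exact FF_rot D R m k hx _

private lemma Ev_w {x : ℂ} (hx : ‖x‖ = 1) {T : ℕ} (w : Fin T → Fin L → ℂ)
    (hw : ∀ l, ∑ s, ‖w s l‖ ^ 2 = 1) (l : Fin L) :
    ∑ s, ‖conj (x ^ ((l : ℕ) + 1)) * w s l‖ ^ 2 = 1 := by
  rw [← hw l]
  refine Finset.sum_congr rfl fun s _ => ?_
  rw [norm_mul, RCLike.norm_conj, norm_pow, hx, one_pow, one_mul]

private lemma Ev_meas {T : ℕ} (w : Fin T → Fin L → ℂ) :
    Measurable fun (z : Fin T → Fin L → ℂ) (l : Fin L) => ∑ s, w s l * z s l := by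
  refine measurable_pi_iff.2 fun l => Finset.measurable_sum _ fun s _ => ?_
  have h1 : Measurable fun z : Fin T → Fin L → ℂ => z s := measurable_pi_apply s
  have h2 : Measurable fun z : Fin T → Fin L → ℂ => z s l := (measurable_pi_iff.1 h1) l
  exact h2.const_mul (w s l)

private lemma Ev_cont (D : Prs L M) {R : ℝ} (hR : 0 ≤ R) (m : Fin L → ℝ) (k : Fin L) :
    Continuous fun v : Fin L → ℂ => FF D R m k (fun l => (m l : ℂ) + v l) := by
  refine (FF_cont D hR m k).comp (continuous_pi fun l => ?_)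
  exact continuous_const.add (continuous_apply l)

private lemma Ev_int {T : ℕ} (w : Fin T → Fin L → ℂ) (hw : ∀ l, ∑ s, ‖w s l‖ ^ 2 = 1)
    {F : Type} [NormedAddCommGroup F] [NormedSpace ℝ F] [SecondCountableTopology F]
    {g : (Fin L → ℂ) → F} (hg : Continuous g) :
    ∫ z : Fin T → Fin L → ℂ, g (fun l => ∑ s, w s l * z s l) ∂(Measure.pi fun _ => stdL L) =
      ∫ v, g v ∂stdL L := by
  have h1 := integral_map (μ := Measure.pi fun _ : Fin T => stdL L) (f := g)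
    (Ev_meas w).aemeasurable hg.aestronglyMeasurable
  rw [mix T L w hw] at h1
  exact h1.symm

theorem ev1 (D : Prs L M) {R : ℝ} (hR : 0 ≤ R) (m : Fin L → ℝ) (k : Fin L) {x : ℂ} (hx : ‖x‖ = 1) {T : ℕ}
    (w : Fin T → Fin L → ℂ) (hw : ∀ l, ∑ s, ‖w s l‖ ^ 2 = 1) :
    ∫ z : Fin T → Fin L → ℂ, conj (x ^ ((k : ℕ) + 1)) *
        FF D R m k (fun l => m l * x ^ ((l : ℕ) + 1) + ∑ s, w s l * z s l) ∂(Measure.pi fun _ => stdL L) =
      ∫ z, FF D R m k (fun l => m l + z l) ∂stdL L := by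
  have h := Ev_int (fun s l => conj (x ^ ((l : ℕ) + 1)) * w s l) (Ev_w hx w hw) (Ev_cont D hR m k)
  rw [← h]
  congr 1
  funext z
  rw [Ev_FF D R m k hx w z, ← mul_assoc, Ev_conj_pow hx, one_mul]

theorem ev2 (D : Prs L M) {R : ℝ} (hR : 0 ≤ R) (m : Fin L → ℝ) (k : Fin L) {x : ℂ} (hx : ‖x‖ = 1) {T : ℕ}
    (w : Fin T → Fin L → ℂ) (hw : ∀ l, ∑ s, ‖w s l‖ ^ 2 = 1) :
    ∫ z : Fin T → Fin L → ℂ, (((‖FF D R m k (fun l => m l * x ^ ((l : ℕ) + 1) + ∑ s, w s l * z s l)‖ ^ 2 : ℝ)) : ℂ)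
        ∂(Measure.pi fun _ => stdL L) =
      ((∫ z, ‖FF D R m k (fun l => m l + z l)‖ ^ 2 ∂stdL L : ℝ) : ℂ) := by
  have hc : Continuous fun v : Fin L → ℂ => ((‖FF D R m k (fun l => (m l : ℂ) + v l)‖ ^ 2 : ℝ) : ℂ) :=
    Complex.continuous_ofReal.comp ((Ev_cont D hR m k).norm.pow 2)
  have h := Ev_int (fun s l => conj (x ^ ((l : ℕ) + 1)) * w s l) (Ev_w hx w hw) hc
  rw [← integral_complex_ofReal, ← h]
  congr 1
  funext z
  rw [Ev_FF D R m k hx w z, norm_mul, norm_pow, hx, one_pow, one_mul]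

end H69.SR
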