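import Pool.Agent.H69.SR.Arr

/-!
# Module Lln: weak law of large numbers at the vertices

`X j ω := H j (fun s l => gv (ω s) l j)`. By `arr` the variables `Z j := fun s l => gv (ω s) l j` are independent with law `Measure.pi fun _ : Fin T => stdL L`. So `∫ X j = e`, `∫ ‖X j - e‖^2 ≤ 4 K^2` (`‖e‖ ≤ K`), and
`∫ ⟪X j - e, X j' - e⟫ = 0` for `j ≠ j'`. Hence `∫ ‖∑ j ∈ S, (X j - e)‖^2 ≤ 4 K^2 n`, Chebyshev. (Work on the product space `Fin n → (Fin T → Fin L → ℂ)` after `lintegral_map`/`map_apply`; for the cross terms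
`integral_fintype_prod_eq_prod` with all other factors `1`, or `variance_sum` of the real and the imaginary part: `IndepFun.variance_sum` with `iIndepFun_pi`; then the bound is `2 * (K^2 n)/(..)`-like; the constant 4 leaves room.)
-/

set_option autoImplicit false

open MeasureTheory ProbabilityTheory
open scoped BigOperators ComplexConjugate InnerProductSpace

namespace H69.SR

private lemma lln_int {Ω : Type} [MeasurableSpace Ω] {μ : Measure Ω} [IsProbabilityMeasure μ] {f : Ω → ℂ}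
    (hf : Measurable f) {C : ℝ} (h : ∀ x, ‖f x‖ ≤ C) : Integrable f μ :=
  (integrable_const C).mono' hf.aestronglyMeasurable (Filter.Eventually.of_forall h)

private lemma lln_gen {α : Type} [MeasurableSpace α] (ν : Measure α) [IsProbabilityMeasure ν] {n : ℕ}
    (hn : 0 < n) (S : Finset (Fin n)) (H : Fin n → α → ℂ) (hH : ∀ j, Measurable (H j)) {K : ℝ}
    (hK : ∀ j z, ‖H j z‖ ≤ K) {e : ℂ} (he : ∀ j, ∫ z, H j z ∂ν = e) {ε : ℝ} (hε : 0 < ε) :
    (Measure.pi fun _ : Fin n => ν) {x | ε * n < ‖∑ j ∈ S, (H j (x j) - e)‖} ≤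
      ENNReal.ofReal (4 * K ^ 2 / (ε ^ 2 * n)) := by
  set μ : Measure (Fin n → α) := Measure.pi fun _ : Fin n => ν with hμ
  have heK : ‖e‖ ≤ K := by
    rw [← he ⟨0, hn⟩]
    refine (norm_integral_le_of_norm_le_const (Filter.Eventually.of_forall (hK ⟨0, hn⟩))).trans ?_
    simp
  set W : Fin n → (Fin n → α) → ℂ := fun j x => H j (x j) - e with hW
  have mW : ∀ j, Measurable (W j) := fun j => ((hH j).comp (measurable_pi_apply j)).sub_const e
  have bW : ∀ j x, ‖W j x‖ ≤ 2 * K := by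
    intro j x
    have h1 := norm_sub_le (H j (x j)) e
    have h2 := hK j (x j)
    simp only [hW]
    linarith
  have hK0 : 0 ≤ K := (norm_nonneg e).trans heK
  have iW : ∀ j, ∫ x, W j x ∂μ = 0 := by
    intro j
    simp only [hW]
    have h0 : Integrable (fun x : Fin n → α => H j (x j)) μ :=
      lln_int ((hH j).comp (measurable_pi_apply j)) fun x => hK j (x j)
    rw [integral_sub h0 (integrable_const e)]
    have h1 : ∫ x : Fin n → α, H j (x j) ∂μ = ∫ z, H j z ∂ν := by
      have hmp : MeasurePreserving (Function.eval j) μ ν :=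
        measurePreserving_eval (fun _ : Fin n => ν) j
      rw [← hmp.map_eq, integral_map hmp.measurable.aemeasurable (hH j).aestronglyMeasurable]
    rw [h1, he j]
    simp
  have cW : ∀ i j, i ≠ j → ∫ x, W i x * conj (W j x) ∂μ = 0 := by
    intro i j hij
    have hI : iIndepFun (fun k (x : Fin n → α) => H k (x k) - e) μ :=
      iIndepFun_pi (μ := fun _ : Fin n => ν) (X := fun k z => H k z - e)
        fun k => ((hH k).sub_const e).aemeasurable
    have hp := hI.indepFun hij
    have hp2 := hp.comp (φ := fun z : ℂ => z) (ψ := fun z : ℂ => conj z) measurable_id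
      Complex.continuous_conj.measurable
    have h3 := hp2.integral_fun_mul_eq_mul_integral (mW i).aestronglyMeasurable
      (Complex.continuous_conj.measurable.comp (mW j)).aestronglyMeasurable
    have h4 : ∫ x, W i x * conj (W j x) ∂μ = (∫ x, W i x ∂μ) * ∫ x, conj (W j x) ∂μ := h3
    rw [h4, iW i, zero_mul]
  have main : ∫ x, ‖∑ j ∈ S, W j x‖ ^ 2 ∂μ ≤ 4 * K ^ 2 * n := by
    have e1 : ∀ x, ‖∑ j ∈ S, W j x‖ ^ 2 = (∑ i ∈ S, ∑ j ∈ S, W i x * conj (W j x)).re := by
      intro x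
      have : ∑ i ∈ S, ∑ j ∈ S, W i x * conj (W j x) = (∑ i ∈ S, W i x) * conj (∑ j ∈ S, W j x) := by
        rw [map_sum, Finset.sum_mul_sum]
      rw [this, Complex.mul_conj, Complex.normSq_eq_norm_sq]
      exact (Complex.ofReal_re _).symm
    have ib : ∀ i j, Integrable (fun x => W i x * conj (W j x)) μ := by
      intro i j
      refine lln_int ((mW i).mul (Complex.continuous_conj.measurable.comp (mW j))) (C := (2 * K) * (2 * K))
        fun x => ?_
      rw [norm_mul, Complex.norm_conj]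
      exact mul_le_mul (bW i x) (bW j x) (norm_nonneg _) (by linarith)
    have is : Integrable (fun x => ∑ i ∈ S, ∑ j ∈ S, W i x * conj (W j x)) μ :=
      integrable_finsetSum _ fun i _ => integrable_finsetSum _ fun j _ => ib i j
    have e2 : ∫ x, ‖∑ j ∈ S, W j x‖ ^ 2 ∂μ = (∫ x, ∑ i ∈ S, ∑ j ∈ S, W i x * conj (W j x) ∂μ).re := by
      rw [show (∫ x, ∑ i ∈ S, ∑ j ∈ S, W i x * conj (W j x) ∂μ).re =
        ∫ x, (∑ i ∈ S, ∑ j ∈ S, W i x * conj (W j x)).re ∂μ from (integral_re is).symm]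
      exact integral_congr_ae (Filter.Eventually.of_forall e1)
    have e3 : ∫ x, ∑ i ∈ S, ∑ j ∈ S, W i x * conj (W j x) ∂μ = ∑ i ∈ S, ∫ x, W i x * conj (W i x) ∂μ := by
      rw [integral_finsetSum _ fun i _ => integrable_finsetSum _ fun j _ => ib i j]
      refine Finset.sum_congr rfl fun i hi => ?_
      rw [integral_finsetSum _ fun j _ => ib i j]
      exact Finset.sum_eq_single i (fun j _ hj => cW i j hj.symm) fun h => absurd hi h
    rw [e2, e3, Complex.re_sum]
    have e4 : ∀ i, (∫ x, W i x * conj (W i x) ∂μ).re ≤ 4 * K ^ 2 := by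
      intro i
      refine (Complex.re_le_norm _).trans ?_
      refine (norm_integral_le_of_norm_le_const (C := 4 * K ^ 2) (Filter.Eventually.of_forall fun x => ?_)).trans ?_
      · rw [norm_mul, Complex.norm_conj]
        nlinarith [bW i x, norm_nonneg (W i x)]
      · simp
    calc ∑ i ∈ S, (∫ x, W i x * conj (W i x) ∂μ).re ≤ ∑ i ∈ S, 4 * K ^ 2 := Finset.sum_le_sum fun i _ => e4 i
      _ = (S.card : ℝ) * (4 * K ^ 2) := by rw [Finset.sum_const, nsmul_eq_mul]
      _ ≤ (n : ℝ) * (4 * K ^ 2) := by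
        refine mul_le_mul_of_nonneg_right ?_ (by positivity)
        have := Finset.card_le_univ S
        simp only [Fintype.card_fin] at this
        exact_mod_cast this
      _ = 4 * K ^ 2 * n := by ring
  have hn' : (0 : ℝ) < n := by exact_mod_cast hn
  have mS : Measurable fun x => ∑ j ∈ S, W j x := Finset.measurable_sum S fun j _ => mW j
  have bS : ∀ x, ‖∑ j ∈ S, W j x‖ ≤ (S.card : ℝ) * (2 * K) := by
    intro x
    refine (norm_sum_le _ _).trans ?_
    refine (Finset.sum_le_card_nsmul S _ (2 * K) fun j _ => bW j x).trans ?_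
    rw [nsmul_eq_mul]
  have iS : Integrable (fun x => ‖∑ j ∈ S, W j x‖ ^ 2) μ := by
    refine (integrable_const (((S.card : ℝ) * (2 * K)) ^ 2)).mono' (mS.norm.pow_const 2).aestronglyMeasurable
      (Filter.Eventually.of_forall fun x => ?_)
    rw [Real.norm_eq_abs, abs_of_nonneg (by positivity)]
    exact pow_le_pow_left₀ (norm_nonneg _) (bS x) 2
  have hm := mul_meas_ge_le_integral_of_nonneg (μ := μ) (f := fun x => ‖∑ j ∈ S, W j x‖ ^ 2)
    (Filter.Eventually.of_forall fun x => by positivity) iS ((ε * n) ^ 2)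
  have hpos : 0 < (ε * n) ^ 2 := by positivity
  have h5 : μ.real {x | (ε * n) ^ 2 ≤ ‖∑ j ∈ S, W j x‖ ^ 2} ≤ 4 * K ^ 2 / (ε ^ 2 * n) := by
    rw [le_div_iff₀ (by positivity)]
    have h6 := hm.trans main
    have h7 : μ.real {x | (ε * n) ^ 2 ≤ ‖∑ j ∈ S, W j x‖ ^ 2} * (ε ^ 2 * n) * n ≤ 4 * K ^ 2 * n := by
      calc _ = (ε * n) ^ 2 * μ.real {x | (ε * n) ^ 2 ≤ ‖∑ j ∈ S, W j x‖ ^ 2} := by ring
        _ ≤ _ := h6
    exact le_of_mul_le_mul_right h7 hn'
  calc μ {x | ε * n < ‖∑ j ∈ S, (H j (x j) - e)‖}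
      ≤ μ {x | (ε * n) ^ 2 ≤ ‖∑ j ∈ S, W j x‖ ^ 2} := by
        refine measure_mono fun x hx => ?_
        have hx' : ε * n < ‖∑ j ∈ S, W j x‖ := hx
        exact pow_le_pow_left₀ (by positivity) hx'.le 2
    _ = ENNReal.ofReal (μ.real {x | (ε * n) ^ 2 ≤ ‖∑ j ∈ S, W j x‖ ^ 2}) := by
        rw [Measure.real, ENNReal.ofReal_toReal (measure_ne_top _ _)]
    _ ≤ _ := ENNReal.ofReal_le_ofReal h5

theorem lln (T L n : ℕ) (hn : 0 < n) (S : Finset (Fin n)) (H : Fin n → (Fin T → Fin L → ℂ) → ℂ)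
    (hH : ∀ j, Measurable (H j)) {K : ℝ} (hK : ∀ j z, ‖H j z‖ ≤ K) {e : ℂ}
    (he : ∀ j, ∫ z, H j z ∂(Measure.pi fun _ : Fin T => stdL L) = e) {ε : ℝ} (hε : 0 < ε) :
    (Measure.pi fun _ : Fin T => gm (Gx L n))
      {ω | ε * n < ‖∑ j ∈ S, (H j (fun s l => gv (ω s) l j) - e)‖} ≤ ENNReal.ofReal (4 * K ^ 2 / (ε ^ 2 * n)) := by
  have h := lln_gen (Measure.pi fun _ : Fin T => stdL L) hn S H hH hK he hε
  have hae : AEMeasurable (fun (ω : Fin T → (Gx L n → ℝ)) (j : Fin n) (s : Fin T) (l : Fin L) => gv (ω s) l j)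
      (Measure.pi fun _ : Fin T => gm (Gx L n)) := by
    by_contra hc
    have h0 := arr T L n
    rw [Measure.map_of_not_aemeasurable hc] at h0
    exact (IsProbabilityMeasure.ne_zero (Measure.pi fun _ : Fin n => Measure.pi fun _ : Fin T => stdL L)) h0.symm
  rw [← arr T L n, Measure.map_apply_of_aemeasurable hae] at h
  · exact h
  · refine measurableSet_lt measurable_const (Measurable.norm ?_)
    exact Finset.measurable_sum S fun j _ => ((hH j).comp (measurable_pi_apply j)).sub_const e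

end H69.SR
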