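import Pool.Agent.H69.SR.Orth

/-!
# Module Nrm: the projection of a standard Gaussian vector

`‖prj U t g‖ ^ 2 = ∑ r ≤ t, |⟪U r, g⟫| ^ 2` (`nsq_prj`), and `⟪U r, gv z k⟫ = ∑ j, conj (U r j) * (z (k,j,true) + i z (k,j,false)) / √2`, whose real and imaginary part are linear in `z`; with `∫ z_c z_c' = δ` (`gm` is a product of standard normal laws)
`∫ |⟪U r, gv z k⟫| ^ 2 ∂gm = ‖U r‖ ^ 2 ≤ 1`. So `∫ ‖prj (U k) t (gv z k)‖ ^ 2 ≤ t + 1`. Chebyshev (`mul_meas_ge_le_integral_of_nonneg` or `meas_ge_le_lintegral_div`) and a union bound over `k : Fin L`.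
-/

set_option autoImplicit false

open MeasureTheory ProbabilityTheory
open scoped BigOperators ComplexConjugate InnerProductSpace

namespace H69.SR

variable {L n : ℕ}

/-! ### real linear forms of a standard Gaussian vector -/

private lemma nrm_memLp {ι : Type} [Fintype ι] (i : ι) (p : ENNReal) (hp : p ≠ ⊤) :
    MemLp (fun z : ι → ℝ => z i) p (gm ι) :=
  (memLp_id_gaussianReal' (μ := 0) (v := 1) p hp).comp_measurePreserving
    (measurePreserving_eval (fun _ : ι => gaussianReal 0 1) i)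

private lemma nrm_mem {ι : Type} [Fintype ι] (a : ι → ℝ) :
    MemLp (fun z : ι → ℝ => ∑ i, a i * z i) 2 (gm ι) :=
  memLp_finset_sum _ fun i _ => (nrm_memLp i 2 (by simp)).const_mul (a i)

private lemma nrm_mean {ι : Type} [Fintype ι] (a : ι → ℝ) :
    ∫ z : ι → ℝ, ∑ i, a i * z i ∂gm ι = 0 := by
  rw [integral_finset_sum _ fun i _ =>
    ((nrm_memLp i 1 (by simp)).integrable le_rfl).const_mul (a i)]
  refine Finset.sum_eq_zero fun i _ => ?_
  rw [integral_const_mul]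
  have h : ∫ z : ι → ℝ, z i ∂gm ι = ∫ x, x ∂gaussianReal 0 1 :=
    integral_comp_eval (μ := fun _ : ι => gaussianReal 0 1) (i := i) (f := fun x : ℝ => x)
      measurable_id.aestronglyMeasurable
  rw [h, integral_id_gaussianReal, mul_zero]

private lemma nrm_sq {ι : Type} [Fintype ι] (a : ι → ℝ) :
    Integrable (fun z : ι → ℝ => (∑ i, a i * z i) ^ 2) (gm ι) ∧
    ∫ z : ι → ℝ, (∑ i, a i * z i) ^ 2 ∂gm ι = ∑ i, a i ^ 2 := by
  refine ⟨(nrm_mem a).integrable_sq, ?_⟩
  have h1 := variance_of_integral_eq_zero (nrm_mem a).aestronglyMeasurable.aemeasurable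
    (nrm_mean a)
  have h2 := variance_sum_pi (μ := fun _ : ι => gaussianReal 0 1) (X := fun i (x : ℝ) => a i * x)
    fun i => (memLp_id_gaussianReal' (μ := 0) (v := 1) 2 (by simp)).const_mul (a i)
  have h3 : (∑ i, fun z : ι → ℝ => a i * z i) = fun z : ι → ℝ => ∑ i, a i * z i := by
    funext z
    simp
  rw [h3] at h2
  rw [← h1]
  refine h2.trans (Finset.sum_congr rfl fun i _ => ?_)
  rw [variance_const_mul, variance_fun_id_gaussianReal]
  simp

/-! ### the inner product with a Gaussian vector -/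

private noncomputable def nrmA (u : E n) (k : Fin L) (c : Gx L n) : ℝ :=
  if c.1 = k then (if c.2.2 then (u c.2.1).re else (u c.2.1).im) / Real.sqrt 2 else 0

private noncomputable def nrmB (u : E n) (k : Fin L) (c : Gx L n) : ℝ :=
  if c.1 = k then (if c.2.2 then -(u c.2.1).im else (u c.2.1).re) / Real.sqrt 2 else 0

private lemma nrm_sum {α : Type} [AddCommMonoid α] (F : Gx L n → α) (k : Fin L)
    (h : ∀ c : Gx L n, c.1 ≠ k → F c = 0) :
    ∑ c, F c = ∑ j, (F (k, j, true) + F (k, j, false)) := by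
  rw [Fintype.sum_prod_type, Finset.sum_eq_single k]
  · rw [Fintype.sum_prod_type]
    refine Finset.sum_congr rfl fun j _ => ?_
    rw [Fintype.sum_bool]
  · intro b _ hb
    exact Finset.sum_eq_zero fun c _ => h (b, c) hb
  · intro hk
    exact absurd (Finset.mem_univ k) hk

private lemma nrm_inner (u : E n) (k : Fin L) (z : Gx L n → ℝ) :
    ‖⟪u, gv z k⟫_ℂ‖ ^ 2 = (∑ c, nrmA u k c * z c) ^ 2 + (∑ c, nrmB u k c * z c) ^ 2 := by
  have eA : ∑ c, nrmA u k c * z c =
      ∑ j, ((u j).re * z (k, j, true) + (u j).im * z (k, j, false)) / Real.sqrt 2 := by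
    rw [nrm_sum _ k]
    · refine Finset.sum_congr rfl fun j _ => ?_
      simp only [nrmA, if_true, Bool.false_eq_true, if_false]
      ring
    · intro c hc
      simp only [nrmA, if_neg hc, zero_mul]
  have eB : ∑ c, nrmB u k c * z c =
      ∑ j, ((u j).re * z (k, j, false) - (u j).im * z (k, j, true)) / Real.sqrt 2 := by
    rw [nrm_sum _ k]
    · refine Finset.sum_congr rfl fun j _ => ?_
      simp only [nrmB, if_true, Bool.false_eq_true, if_false]
      ring
    · intro c hc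
      simp only [nrmB, if_neg hc, zero_mul]
  have hz : ⟪u, gv z k⟫_ℂ = ((∑ c, nrmA u k c * z c : ℝ) : ℂ) +
      ((∑ c, nrmB u k c * z c : ℝ) : ℂ) * Complex.I := by
    rw [inner_E, eA, eB]
    push_cast
    rw [Finset.sum_mul, ← Finset.sum_add_distrib]
    refine Finset.sum_congr rfl fun j _ => ?_
    rw [gv_apply]
    have hc : conj (u j) = ((u j).re : ℂ) - ((u j).im : ℂ) * Complex.I := by
      apply Complex.ext <;> simp
    rw [hc]
    have hs : ((Real.sqrt 2 : ℝ) : ℂ) ≠ 0 := by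
      have : Real.sqrt 2 ≠ 0 := by positivity
      exact_mod_cast this
    field_simp
    ring_nf
    rw [Complex.I_sq]
    ring
  rw [hz, Complex.sq_norm, Complex.normSq_add_mul_I]

private lemma nrm_coef (u : E n) (k : Fin L) :
    ∑ c : Gx L n, nrmA u k c ^ 2 + ∑ c : Gx L n, nrmB u k c ^ 2 = ‖u‖ ^ 2 := by
  have h2 : Real.sqrt 2 ^ 2 = 2 := Real.sq_sqrt (by norm_num)
  rw [nrm_sum (fun c => nrmA u k c ^ 2) k, nrm_sum (fun c => nrmB u k c ^ 2) k,
    ← Finset.sum_add_distrib, nsq_E]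
  · refine Finset.sum_congr rfl fun j _ => ?_
    simp only [nrmA, nrmB, if_true, Bool.false_eq_true, if_false, div_pow, h2]
    rw [Complex.sq_norm, Complex.normSq_apply]
    ring
  · intro c hc
    simp only [nrmB, if_neg hc]
    norm_num
  · intro c hc
    simp only [nrmA, if_neg hc]
    norm_num

private lemma nrm_int (u : E n) (k : Fin L) :
    Integrable (fun z : Gx L n → ℝ => ‖⟪u, gv z k⟫_ℂ‖ ^ 2) (gm (Gx L n)) ∧
    ∫ z, ‖⟪u, gv z k⟫_ℂ‖ ^ 2 ∂gm (Gx L n) = ‖u‖ ^ 2 := by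
  obtain ⟨i1, e1⟩ := nrm_sq (nrmA (L := L) u k)
  obtain ⟨i2, e2⟩ := nrm_sq (nrmB (L := L) u k)
  have he : (fun z : Gx L n → ℝ => ‖⟪u, gv z k⟫_ℂ‖ ^ 2) = fun z =>
      (∑ c, nrmA u k c * z c) ^ 2 + (∑ c, nrmB u k c * z c) ^ 2 := by
    funext z
    exact nrm_inner u k z
  rw [he]
  refine ⟨i1.add i2, ?_⟩
  rw [integral_add i1 i2, e1, e2, nrm_coef]

theorem prj_int (U : ℕ → E n) (hU : OrtZ U) (t : ℕ) (k : Fin L) :
    Integrable (fun z : Gx L n → ℝ => ‖prj U t (gv z k)‖ ^ 2) (gm (Gx L n)) ∧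
    ∫ z, ‖prj U t (gv z k)‖ ^ 2 ∂gm (Gx L n) ≤ t + 1 := by
  have he : (fun z : Gx L n → ℝ => ‖prj U t (gv z k)‖ ^ 2) = fun z =>
      ∑ r ∈ Finset.range (t + 1), ‖⟪U r, gv z k⟫_ℂ‖ ^ 2 := by
    funext z
    exact nsq_prj hU t _
  rw [he]
  refine ⟨integrable_finset_sum _ fun r _ => (nrm_int (U r) k).1, ?_⟩
  rw [integral_finset_sum _ fun r _ => (nrm_int (U r) k).1]
  calc ∑ r ∈ Finset.range (t + 1), ∫ z, ‖⟪U r, gv z k⟫_ℂ‖ ^ 2 ∂gm (Gx L n)
      ≤ ∑ r ∈ Finset.range (t + 1), (1 : ℝ) := by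
        refine Finset.sum_le_sum fun r _ => ?_
        rw [(nrm_int (U r) k).2]
        rcases hU.1 r with h | h
        · rw [h]; norm_num
        · rw [h]; simp
    _ = t + 1 := by simp

theorem prj_tail (U : Fin L → ℕ → E n) (hU : ∀ k, OrtZ (U k)) (t : ℕ) {c : ℝ} (hc : 0 < c) :
    gm (Gx L n) {g | ∃ k, c < ‖prj (U k) t (gv g k)‖} ≤ ENNReal.ofReal (L * (t + 1) / c ^ 2) := by
  have h1 : ∀ k : Fin L, gm (Gx L n) {g | c < ‖prj (U k) t (gv g k)‖} ≤
      ENNReal.ofReal ((t + 1) / c ^ 2) := by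
    intro k
    obtain ⟨hi, hb⟩ := prj_int (U k) (hU k) t k
    have hm := mul_meas_ge_le_integral_of_nonneg (μ := gm (Gx L n))
      (f := fun z => ‖prj (U k) t (gv z k)‖ ^ 2) (Filter.Eventually.of_forall fun z => sq_nonneg _)
      hi (c ^ 2)
    have hsub : {g : Gx L n → ℝ | c < ‖prj (U k) t (gv g k)‖} ⊆
        {z | c ^ 2 ≤ ‖prj (U k) t (gv z k)‖ ^ 2} := by
      intro g hg
      have hg' : c < ‖prj (U k) t (gv g k)‖ := hg
      exact pow_le_pow_left₀ hc.le hg'.le 2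
    have h2 : (gm (Gx L n)).real {g | c < ‖prj (U k) t (gv g k)‖} ≤ (t + 1) / c ^ 2 := by
      refine (measureReal_mono hsub).trans ?_
      rw [le_div_iff₀ (by positivity), mul_comm]
      exact hm.trans hb
    rw [← ENNReal.ofReal_toReal (measure_ne_top (gm (Gx L n)) _)]
    exact ENNReal.ofReal_le_ofReal h2
  have h2 : {g : Gx L n → ℝ | ∃ k, c < ‖prj (U k) t (gv g k)‖} =
      ⋃ k : Fin L, {g | c < ‖prj (U k) t (gv g k)‖} := by
    ext g
    simp
  rw [h2]
  refine (measure_iUnion_fintype_le _ _).trans ?_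
  refine (Finset.sum_le_sum fun k _ => h1 k).trans ?_
  rw [Finset.sum_const, Finset.card_univ, Fintype.card_fin, nsmul_eq_mul,
    ← ENNReal.ofReal_natCast, ← ENNReal.ofReal_mul (Nat.cast_nonneg _)]
  refine le_of_eq ?_
  congr 1
  ring

end H69.SR
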