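import Pool.Agent.H69.SR.Meas

/-!
# Module Seq: union bound along a run

Induction on `T`, for all `m`, `η`. `T = 0`: the set is empty. Step: `{g | ∃ s : Fin (T+1), ..} ⊆ {g | Bd m η (gv (g 0))} ∪ {g | ∃ s : Fin T, Bd (m+1+s) (runG f b (m+1) T (fun s => gv (g s.succ)) η₁) (gv (g s.succ))}`
with `η₁ := update η m (rG f b (gv (g 0)) m η)`: for `s = 0` the final history agrees with `η` before `m` (`runG_old`), so `hloc` applies. `Measure.pi` on `Fin (T+1)` is the product of
`gm` and `Measure.pi` on `Fin T` (`measurePreserving_piFinSuccAbove _ 0`): the first set has measure `≤ ε` (`hε`), the second one `≤ T ε` by Fubini (`Measure.prod_apply`, measurability from `hmeas`, `meas_runG`, `meas_rG`, `meas_gv`)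
and the induction hypothesis for `η₁`.
-/

set_option autoImplicit false

open MeasureTheory ProbabilityTheory
open scoped BigOperators ComplexConjugate InnerProductSpace

namespace H69.SR

variable {L n : ℕ} {f b : ℕ → Hs L n → VV L n}

theorem runG_old (f b : ℕ → Hs L n → VV L n) : ∀ (T m : ℕ) (g : Fin T → VV L n) (η : Hs L n) {s : ℕ}, s < m →
    runG f b m T g η s = η s := by
  intro T
  induction T with
  | zero =>
    intro m g η s _
    rfl
  | succ T ih =>
    intro m g η s hs
    have h1 := ih (m + 1) (fun s => g s.succ) (Function.update η m (rG f b (g 0) m η))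
      (show s < m + 1 by omega)
    rw [Function.update_of_ne (by omega)] at h1
    exact h1

private lemma sq_incl {Bd : ℕ → Hs L n → VV L n → Prop}
    (hloc : ∀ t (η η' : Hs L n) v, (∀ s < t, η s = η' s) → (Bd t η v ↔ Bd t η' v)) (T m : ℕ)
    (η : Hs L n) (g : Fin (T + 1) → Gx L n → ℝ)
    (h : ∃ s : Fin (T + 1), Bd (m + s) (runG f b m (T + 1) (fun s => gv (g s)) η) (gv (g s))) :
    Bd m η (gv (g 0)) ∨ ∃ i : Fin T, Bd (m + 1 + i)
      (runG f b (m + 1) T (fun s => gv (g s.succ)) (Function.update η m (rG f b (gv (g 0)) m η)))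
      (gv (g i.succ)) := by
  obtain ⟨s, hs⟩ := h
  rcases Fin.eq_zero_or_eq_succ s with rfl | ⟨i, rfl⟩
  · left
    have h1 : m + ((0 : Fin (T + 1)) : ℕ) = m := by simp
    rw [h1] at hs
    refine (hloc m _ _ _ fun s hs' => ?_).1 hs
    exact runG_old f b (T + 1) m _ η hs'
  · right
    refine ⟨i, ?_⟩
    have h1 : m + ((i.succ : Fin (T + 1)) : ℕ) = m + 1 + i := by
      rw [Fin.val_succ]
      omega
    rw [h1] at hs
    exact hs

private lemma sq_meas (hfm : ∀ t, Measurable (f t)) (hbm : ∀ t, Measurable (b t))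
    {Bd : ℕ → Hs L n → VV L n → Prop}
    (hmeas : ∀ t, MeasurableSet {p : Hs L n × VV L n | Bd t p.1 p.2}) (T m : ℕ) (η : Hs L n) :
    MeasurableSet {p : (Gx L n → ℝ) × (Fin T → Gx L n → ℝ) | ∃ i : Fin T, Bd (m + 1 + i)
      (runG f b (m + 1) T (fun s => gv (p.2 s)) (Function.update η m (rG f b (gv p.1) m η)))
      (gv (p.2 i))} := by
  have h0 : Measurable fun p : (Gx L n → ℝ) × (Fin T → Gx L n → ℝ) =>
      Function.update η m (rG f b (gv p.1) m η) := by
    have h1 : Measurable fun p : (Gx L n → ℝ) × (Fin T → Gx L n → ℝ) =>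
        rG f b (gv p.1) m η :=
      (meas_rG hfm hbm m).comp ((meas_gv.comp measurable_fst).prodMk measurable_const)
    exact (measurable_update η).comp h1
  have h2 : Measurable fun p : (Gx L n → ℝ) × (Fin T → Gx L n → ℝ) =>
      fun s : Fin T => (gv (p.2 s) : VV L n) :=
    measurable_pi_iff.2 fun s => meas_gv.comp ((measurable_pi_apply s).comp measurable_snd)
  have h3 : Measurable fun p : (Gx L n → ℝ) × (Fin T → Gx L n → ℝ) =>
      runG f b (m + 1) T (fun s => gv (p.2 s)) (Function.update η m (rG f b (gv p.1) m η)) :=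
    (meas_runG hfm hbm T (m + 1)).comp (h2.prodMk h0)
  have e : {p : (Gx L n → ℝ) × (Fin T → Gx L n → ℝ) | ∃ i : Fin T, Bd (m + 1 + i)
      (runG f b (m + 1) T (fun s => gv (p.2 s)) (Function.update η m (rG f b (gv p.1) m η)))
      (gv (p.2 i))} = ⋃ i : Fin T, {p | Bd (m + 1 + i)
      (runG f b (m + 1) T (fun s => gv (p.2 s)) (Function.update η m (rG f b (gv p.1) m η)))
      (gv (p.2 i))} := by
    ext p
    simp
  rw [e]
  refine MeasurableSet.iUnion fun i => ?_
  have h4 : Measurable fun p : (Gx L n → ℝ) × (Fin T → Gx L n → ℝ) => (gv (p.2 i) : VV L n) :=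
    meas_gv.comp ((measurable_pi_apply i).comp measurable_snd)
  exact (h3.prodMk h4) (hmeas (m + 1 + i))

theorem seq_bad (hfm : ∀ t, Measurable (f t)) (hbm : ∀ t, Measurable (b t))
    (Bd : ℕ → Hs L n → VV L n → Prop)
    (hloc : ∀ t (η η' : Hs L n) v, (∀ s < t, η s = η' s) → (Bd t η v ↔ Bd t η' v))
    (hmeas : ∀ t, MeasurableSet {p : Hs L n × VV L n | Bd t p.1 p.2}) {ε : ENNReal} {T₀ : ℕ}
    (hε : ∀ t < T₀, ∀ η, gm (Gx L n) {g | Bd t η (gv g)} ≤ ε) : ∀ (T m : ℕ) (η : Hs L n), m + T ≤ T₀ →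
    (Measure.pi fun _ : Fin T => gm (Gx L n))
      {g | ∃ s : Fin T, Bd (m + s) (runG f b m T (fun s => gv (g s)) η) (gv (g s))} ≤ T * ε := by
  intro T
  induction T with
  | zero =>
    intro m η _
    have e : {g : Fin 0 → Gx L n → ℝ | ∃ s : Fin 0,
        Bd (m + s) (runG f b m 0 (fun s => gv (g s)) η) (gv (g s))} = ∅ := by
      ext g
      constructor
      · rintro ⟨s, -⟩
        exact s.elim0
      · intro h
        exact absurd h (Set.notMem_empty g)
    rw [e, measure_empty]
    exact bot_le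
  | succ T ih =>
    intro m η hm
    set S0 : Set (Fin (T + 1) → Gx L n → ℝ) := {g | Bd m η (gv (g 0))} with hS0
    set S1' : Set ((Gx L n → ℝ) × (Fin T → Gx L n → ℝ)) := {p | ∃ i : Fin T, Bd (m + 1 + i)
      (runG f b (m + 1) T (fun s => gv (p.2 s)) (Function.update η m (rG f b (gv p.1) m η)))
      (gv (p.2 i))} with hS1
    have hmp := measurePreserving_piFinSuccAbove (fun _ : Fin (T + 1) => gm (Gx L n)) 0
    have hsub : {g : Fin (T + 1) → Gx L n → ℝ | ∃ s : Fin (T + 1),
        Bd (m + s) (runG f b m (T + 1) (fun s => gv (g s)) η) (gv (g s))} ⊆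
        S0 ∪ (MeasurableEquiv.piFinSuccAbove (fun _ : Fin (T + 1) => Gx L n → ℝ) 0) ⁻¹' S1' := by
      intro g hg
      rcases sq_incl hloc T m η g hg with h | ⟨i, hi⟩
      · exact Or.inl h
      · exact Or.inr ⟨i, hi⟩
    have hS0m : MeasurableSet {z : Gx L n → ℝ | Bd m η (gv z)} := by
      have h1 : Measurable fun z : Gx L n → ℝ => (η, (gv z : VV L n)) :=
        measurable_const.prodMk meas_gv
      exact h1 (hmeas m)
    have h0 : (Measure.pi fun _ : Fin (T + 1) => gm (Gx L n)) S0 ≤ ε := by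
      have h1 := (measurePreserving_eval (fun _ : Fin (T + 1) => gm (Gx L n)) 0).measure_preimage
        hS0m.nullMeasurableSet
      have h2 : S0 = Function.eval 0 ⁻¹' {z : Gx L n → ℝ | Bd m η (gv z)} := rfl
      rw [h2, h1]
      exact hε m (by omega) η
    have hS1m : MeasurableSet S1' := sq_meas hfm hbm hmeas T m η
    have h1 : (Measure.pi fun _ : Fin (T + 1) => gm (Gx L n))
        ((MeasurableEquiv.piFinSuccAbove (fun _ : Fin (T + 1) => Gx L n → ℝ) 0) ⁻¹' S1') ≤
        T * ε := by
      rw [hmp.measure_preimage hS1m.nullMeasurableSet, Measure.prod_apply hS1m]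
      calc ∫⁻ z, (Measure.pi fun _ : Fin T => gm (Gx L n)) (Prod.mk z ⁻¹' S1') ∂(gm (Gx L n))
          ≤ ∫⁻ _, (T : ENNReal) * ε ∂(gm (Gx L n)) :=
            lintegral_mono fun z => ih (m + 1)
              (Function.update η m (rG f b (gv z) m η)) (by omega)
        _ = T * ε := by rw [lintegral_const, measure_univ, mul_one]
    refine (measure_mono hsub).trans ((measure_union_le _ _).trans
      ((add_le_add h0 h1).trans (le_of_eq ?_)))
    push_cast
    ring

end H69.SR
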