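import Pool.Agent.H69.SR.Step
import Pool.Agent.H69.SR.Ev
import Pool.Agent.H69.SR.Lln
import Pool.Agent.H69.SR.Seq
import Pool.Agent.H69.SR.Nrm

/-!
# Module Prob: the probability of the bad events

`ext g s := g s` for `s < T`, `0` otherwise (`exg`). `K := R + M R^2`.
* `prob_P`: `seq_bad` with `m = 0`, `T₀ = T`, `Bd t η v := ∃ k, δ √n < ‖prj (UU f η k) t (v k)‖` (`hloc`: `UU_loc`, `prj_congr`; `hmeas`: `meas_UU`, `meas_prj`), `ε := ofReal (L (T+1)/(δ √n)^2)` (`prj_tail`, `t + 1 ≤ T + 1`, `ortZ_UU`).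
* `prob_L`: for fixed `t`, `k` (`1 ≤ t ≤ T`) apply `lln` with `S := Jᶜ` twice: `H j z := conj (x j ^ (k+1)) * FF D R m k (fun l => m l * x j ^ (l+1) + ∑_(s : Fin T) w s l * z s l)`, `w s l := if s < t then ww a t s l else 0`
  (`∑_s ‖w s l‖^2 = ∑_(s<t) ‖a s l‖^2/(nr a t l)^2 = 1`, as `nr a t l ≥ ‖a 0 l‖ > 0`), bound `K` (`FF_bd`), mean `e1 A a t k` (`ev1`); and with `‖FF ..‖^2`, bound `K^2`, mean `e2` (`ev2`). `∑_(s ∈ range t) ww a t s l * exg g s l j = ∑_(s : Fin T) w s l * g s l j`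
  (`Finset.sum_range`, `Fin.sum_univ_eq_sum_range`-type manipulation). Union bound over `t ∈ [1,T]`, `k`.
-/

set_option autoImplicit false

open MeasureTheory ProbabilityTheory
open scoped BigOperators ComplexConjugate InnerProductSpace

namespace H69.SR

variable {L n : ℕ}

/-- extension by zero -/
noncomputable def exg {T : ℕ} (g : Fin T → Gx L n → ℝ) (s : ℕ) : VV L n := if h : s < T then gv (g ⟨s, h⟩) else 0

/-- bound for the projections -/
noncomputable def cP (A : Par L) : ℝ := A.T * (L * (A.T + 1) / A.δ ^ 2)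

/-- bound for the averages -/
noncomputable def cL (A : Par L) : ℝ :=
  A.T * L * (4 * (A.R + A.M * A.R ^ 2) ^ 2 / A.ε ^ 2 + 4 * (A.R + A.M * A.R ^ 2) ^ 4 / A.ε ^ 2)

theorem prob_P (A : Par L) (hn : 0 < n) {f b : ℕ → Hs L n → VV L n} (hf : Loc f)
    (hfm : ∀ t, Measurable (f t)) (hbm : ∀ t, Measurable (b t)) :
    (Measure.pi fun _ : Fin A.T => gm (Gx L n))
      {g | ¬ GoodP A f (exg g) (runG f b 0 A.T (fun s => gv (g s)) 0)} ≤ ENNReal.ofReal (cP A / n) := by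
  have hn' : (0 : ℝ) < n := Nat.cast_pos.2 hn
  have hc : 0 < A.δ * Real.sqrt n := mul_pos A.hδ (Real.sqrt_pos.2 hn')
  have hloc : ∀ t (η η' : Hs L n) (v : VV L n), (∀ s < t, η s = η' s) →
      ((∃ k, A.δ * Real.sqrt n < ‖prj (UU f η k) t (v k)‖) ↔
        ∃ k, A.δ * Real.sqrt n < ‖prj (UU f η' k) t (v k)‖) := by
    intro t η η' v h
    have h1 : ∀ k, prj (UU f η k) t (v k) = prj (UU f η' k) t (v k) := fun k =>
      prj_congr (fun r hr => UU_loc hf h k hr) (v k)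
    simp only [h1]
  have hmeas : ∀ t, MeasurableSet {p : Hs L n × VV L n |
      ∃ k, A.δ * Real.sqrt n < ‖prj (UU f p.1 k) t (p.2 k)‖} := by
    intro t
    have h1 : {p : Hs L n × VV L n | ∃ k, A.δ * Real.sqrt n < ‖prj (UU f p.1 k) t (p.2 k)‖} =
        ⋃ k : Fin L, {p : Hs L n × VV L n | A.δ * Real.sqrt n < ‖prj (UU f p.1 k) t (p.2 k)‖} := by
      ext p
      simp only [Set.mem_setOf_eq, Set.mem_iUnion]
    rw [h1]
    refine MeasurableSet.iUnion fun k => ?_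
    have h2 : Measurable fun p : Hs L n × VV L n => prj (UU f p.1 k) t (p.2 k) :=
      meas_prj (U := fun p : Hs L n × VV L n => UU f p.1 k) (v := fun p => p.2 k)
        (fun r => (meas_UU hfm k r).comp measurable_fst)
        ((measurable_pi_apply k).comp measurable_snd) t
    exact measurableSet_lt measurable_const h2.norm
  have hε : ∀ t < A.T, ∀ η : Hs L n, gm (Gx L n)
      {g | ∃ k, A.δ * Real.sqrt n < ‖prj (UU f η k) t (gv g k)‖} ≤
        ENNReal.ofReal (L * (A.T + 1) / (A.δ * Real.sqrt n) ^ 2) := by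
    intro t ht η
    refine (prj_tail (fun k => UU f η k) (fun k => ortZ_UU f η k) t hc).trans
      (ENNReal.ofReal_le_ofReal ?_)
    have h3 : (t : ℝ) + 1 ≤ A.T + 1 := by
      have : (t : ℝ) ≤ A.T := by exact_mod_cast ht.le
      linarith
    have h4 : (0 : ℝ) ≤ L := Nat.cast_nonneg _
    gcongr
  have h := seq_bad hfm hbm (fun t η v => ∃ k, A.δ * Real.sqrt n < ‖prj (UU f η k) t (v k)‖)
    hloc hmeas (T₀ := A.T) hε A.T 0 0 (by omega)
  refine (measure_mono ?_).trans (h.trans (le_of_eq ?_))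
  · intro g hg
    rw [Set.mem_setOf_eq] at hg ⊢
    unfold GoodP at hg
    push Not at hg
    obtain ⟨t, ht, k, hk⟩ := hg
    refine ⟨⟨t, ht⟩, k, ?_⟩
    have h5 : exg g t = gv (g ⟨t, ht⟩) := by
      unfold exg
      rw [dif_pos ht]
    rw [h5] at hk
    simpa using hk
  · have h6 : ((A.T : ℕ) : ENNReal) = ENNReal.ofReal (A.T : ℝ) := (ENNReal.ofReal_natCast _).symm
    rw [h6, ← ENNReal.ofReal_mul (Nat.cast_nonneg _)]
    congr 1
    unfold cP
    rw [mul_pow, Real.sq_sqrt hn'.le]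
    have h7 := A.hδ
    field_simp

/-- the weights -/
private noncomputable def wp (a : ℕ → Fin L → ℂ) (T t : ℕ) (s : Fin T) (l : Fin L) : ℂ :=
  if (s : ℕ) < t then ww a t s l else 0

private theorem sum_fin_range {A : Type*} [AddCommMonoid A] {T t : ℕ} (ht : t ≤ T) (F : ℕ → A) :
    ∑ s : Fin T, (if (s : ℕ) < t then F s else 0) = ∑ s ∈ Finset.range t, F s := by
  rw [Fin.sum_univ_eq_sum_range (fun s => if s < t then F s else 0) T, ← Finset.sum_filter]
  refine Finset.sum_congr ?_ fun _ _ => rfl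
  ext s
  simp only [Finset.mem_filter, Finset.mem_range]
  omega

private theorem wp_sum {a : ℕ → Fin L → ℂ} (h0 : ∀ k, a 0 k ≠ 0) {T t : ℕ} (h1 : 1 ≤ t)
    (ht : t ≤ T) (l : Fin L) : ∑ s, ‖wp a T t s l‖ ^ 2 = 1 := by
  have e1 : ∀ s : Fin T, ‖wp a T t s l‖ ^ 2 =
      if (s : ℕ) < t then ‖ww a t s l‖ ^ 2 else 0 := by
    intro s
    unfold wp
    by_cases h : (s : ℕ) < t
    · rw [if_pos h, if_pos h]
    · rw [if_neg h, if_neg h]
      simp
  simp only [e1]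
  rw [sum_fin_range ht (fun s => ‖ww a t s l‖ ^ 2)]
  have hpos : 0 < ∑ s ∈ Finset.range t, ‖a s l‖ ^ 2 := by
    refine Finset.sum_pos' (fun _ _ => by positivity) ⟨0, Finset.mem_range.2 (by omega), ?_⟩
    have := norm_pos_iff.2 (h0 l)
    positivity
  have hnr := nr_sq a t l
  have e2 : ∀ s, ‖ww a t s l‖ ^ 2 = ‖a s l‖ ^ 2 / (∑ s ∈ Finset.range t, ‖a s l‖ ^ 2) := by
    intro s
    unfold ww
    rw [norm_div, RCLike.norm_conj, div_pow, Complex.norm_real, Real.norm_eq_abs, sq_abs, hnr]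
  simp only [e2]
  rw [← Finset.sum_div, div_self hpos.ne']

private theorem Ft_eq (A : Par L) (x : Fin n → ℂ) (a : ℕ → Fin L → ℂ) (g : Fin A.T → Gx L n → ℝ)
    {t : ℕ} (ht : t ≤ A.T) (k : Fin L) (j : Fin n) : Ft A x a (exg g) t k j =
      FF A.D A.R (mm A.lam a t) k fun l => mm A.lam a t l * x j ^ ((l : ℕ) + 1) +
        ∑ s : Fin A.T, wp a A.T t s l * gv (g s) l j := by
  unfold Ft
  congr 1
  funext l
  congr 1
  rw [← sum_fin_range ht (fun s => ww a t s l * exg g s l j)]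
  refine Finset.sum_congr rfl fun s _ => ?_
  unfold wp
  by_cases h : (s : ℕ) < t
  · rw [if_pos h, if_pos h]
    have h5 : exg g (s : ℕ) = gv (g s) := by
      unfold exg
      rw [dif_pos s.2]
    rw [h5]
  · rw [if_neg h, if_neg h, zero_mul]

private theorem meas_arg (A : Par L) (x : Fin n → ℂ) (a : ℕ → Fin L → ℂ) (t : ℕ) (k : Fin L)
    (j : Fin n) : Measurable fun z : Fin A.T → Fin L → ℂ =>
      FF A.D A.R (mm A.lam a t) k fun l => mm A.lam a t l * x j ^ ((l : ℕ) + 1) +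
        ∑ s : Fin A.T, wp a A.T t s l * z s l := by
  refine (FF_cont A.D A.hR.le (mm A.lam a t) k).measurable.comp ?_
  refine measurable_pi_iff.2 fun l => ?_
  refine Measurable.const_add (Finset.measurable_sum _ fun s _ => ?_) _
  have h1 : Measurable fun z : Fin A.T → Fin L → ℂ => z s l := by fun_prop
  exact h1.const_mul _

private theorem bd_arg (A : Par L) (a : ℕ → Fin L → ℂ) (t : ℕ) (k : Fin L) (v : Fin L → ℂ) :
    ‖FF A.D A.R (mm A.lam a t) k v‖ ≤ A.R + A.M * A.R ^ 2 :=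
  FF_bd A.D A.hR.le (fun l => mul_nonneg A.lam0.le (nr_nonneg a t l)) k v

private theorem prob_1 (A : Par L) (hn : 0 < n) (J : Finset (Fin n)) {x : Fin n → ℂ}
    (hx : ∀ j, ‖x j‖ = 1) {a : ℕ → Fin L → ℂ} (h0 : ∀ k, a 0 k ≠ 0) {t : ℕ} (h1 : 1 ≤ t)
    (ht : t ≤ A.T) (k : Fin L) :
    (Measure.pi fun _ : Fin A.T => gm (Gx L n)) {g | A.ε * n <
      ‖∑ j ∈ Jᶜ, (conj (x j ^ ((k : ℕ) + 1)) * Ft A x a (exg g) t k j - e1 A a t k)‖} ≤
      ENNReal.ofReal (4 * (A.R + A.M * A.R ^ 2) ^ 2 / (A.ε ^ 2 * n)) := by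
  have h := lln A.T L n hn Jᶜ (fun j z => conj (x j ^ ((k : ℕ) + 1)) *
      FF A.D A.R (mm A.lam a t) k fun l => mm A.lam a t l * x j ^ ((l : ℕ) + 1) +
        ∑ s : Fin A.T, wp a A.T t s l * z s l)
    (fun j => (meas_arg A x a t k j).const_mul _) (K := A.R + A.M * A.R ^ 2)
    (fun j z => by
      rw [norm_mul, RCLike.norm_conj, norm_pow, hx j, one_pow, one_mul]
      exact bd_arg A a t k _)
    (e := e1 A a t k)
    (fun j => ev1 A.D A.hR.le (mm A.lam a t) k (hx j) (wp a A.T t)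
      (fun l => wp_sum h0 h1 ht l)) A.hε
  refine le_trans (le_of_eq ?_) h
  congr 1
  ext g
  simp only [Set.mem_setOf_eq]
  have e : ∀ j, Ft A x a (exg g) t k j =
      FF A.D A.R (mm A.lam a t) k fun l => mm A.lam a t l * x j ^ ((l : ℕ) + 1) +
        ∑ s : Fin A.T, wp a A.T t s l * gv (g s) l j := fun j => Ft_eq A x a g ht k j
  simp only [e]

private theorem prob_2 (A : Par L) (hn : 0 < n) (J : Finset (Fin n)) {x : Fin n → ℂ}
    (hx : ∀ j, ‖x j‖ = 1) {a : ℕ → Fin L → ℂ} (h0 : ∀ k, a 0 k ≠ 0) {t : ℕ} (h1 : 1 ≤ t)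
    (ht : t ≤ A.T) (k : Fin L) :
    (Measure.pi fun _ : Fin A.T => gm (Gx L n)) {g | A.ε * n <
      ‖∑ j ∈ Jᶜ, (((‖Ft A x a (exg g) t k j‖ ^ 2 : ℝ) : ℂ) - ((e2 A a t k : ℝ) : ℂ))‖} ≤
      ENNReal.ofReal (4 * (A.R + A.M * A.R ^ 2) ^ 4 / (A.ε ^ 2 * n)) := by
  have h := lln A.T L n hn Jᶜ (fun j z =>
      (((‖FF A.D A.R (mm A.lam a t) k fun l => mm A.lam a t l * x j ^ ((l : ℕ) + 1) +
        ∑ s : Fin A.T, wp a A.T t s l * z s l‖ ^ 2 : ℝ)) : ℂ))
    (fun j => Complex.measurable_ofReal.comp ((meas_arg A x a t k j).norm.pow_const 2))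
    (K := (A.R + A.M * A.R ^ 2) ^ 2)
    (fun j z => by
      rw [Complex.norm_real, Real.norm_eq_abs, abs_of_nonneg (by positivity)]
      exact pow_le_pow_left₀ (norm_nonneg _) (bd_arg A a t k _) 2)
    (e := ((e2 A a t k : ℝ) : ℂ))
    (fun j => ev2 A.D A.hR.le (mm A.lam a t) k (hx j) (wp a A.T t)
      (fun l => wp_sum h0 h1 ht l)) A.hε
  refine le_trans (le_of_eq ?_) (h.trans (le_of_eq ?_))
  · congr 1
    ext g
    simp only [Set.mem_setOf_eq]
    have e : ∀ j, Ft A x a (exg g) t k j =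
        FF A.D A.R (mm A.lam a t) k fun l => mm A.lam a t l * x j ^ ((l : ℕ) + 1) +
          ∑ s : Fin A.T, wp a A.T t s l * gv (g s) l j := fun j => Ft_eq A x a g ht k j
    simp only [e]
  · rw [← pow_mul]

theorem prob_L (A : Par L) (hn : 0 < n) (J : Finset (Fin n)) {x : Fin n → ℂ} (hx : ∀ j, ‖x j‖ = 1)
    {a : ℕ → Fin L → ℂ} (h0 : ∀ k, a 0 k ≠ 0) :
    (Measure.pi fun _ : Fin A.T => gm (Gx L n)) {g | ¬ GoodL A J x a (exg g)} ≤ ENNReal.ofReal (cL A / n) := by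
  set μ := (Measure.pi fun _ : Fin A.T => gm (Gx L n)) with hμ
  have hn' : (0 : ℝ) < n := Nat.cast_pos.2 hn
  set B1 : Fin A.T × Fin L → Set (Fin A.T → Gx L n → ℝ) := fun i => {g | A.ε * n <
      ‖∑ j ∈ Jᶜ, (conj (x j ^ ((i.2 : ℕ) + 1)) * Ft A x a (exg g) (i.1 + 1) i.2 j -
        e1 A a (i.1 + 1) i.2)‖} with hB1
  set B2 : Fin A.T × Fin L → Set (Fin A.T → Gx L n → ℝ) := fun i => {g | A.ε * n <
      ‖∑ j ∈ Jᶜ, (((‖Ft A x a (exg g) (i.1 + 1) i.2 j‖ ^ 2 : ℝ) : ℂ) -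
        ((e2 A a (i.1 + 1) i.2 : ℝ) : ℂ))‖} with hB2
  have hsub : {g | ¬ GoodL A J x a (exg g)} ⊆ ⋃ i : Fin A.T × Fin L, (B1 i ∪ B2 i) := by
    intro g hg
    rw [Set.mem_setOf_eq] at hg
    unfold GoodL at hg
    push Not at hg
    obtain ⟨t, ht1, ht2, k, hk⟩ := hg
    rw [Set.mem_iUnion]
    refine ⟨(⟨t - 1, by omega⟩, k), ?_⟩
    have ht3 : t - 1 + 1 = t := by omega
    by_cases h : A.ε * n <
        ‖∑ j ∈ Jᶜ, (conj (x j ^ ((k : ℕ) + 1)) * Ft A x a (exg g) t k j - e1 A a t k)‖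
    · left
      simp only [hB1, Set.mem_setOf_eq, ht3]
      exact h
    · right
      simp only [hB2, Set.mem_setOf_eq, ht3]
      exact hk (not_lt.1 h)
  have hb : ∀ i : Fin A.T × Fin L, μ (B1 i ∪ B2 i) ≤
      ENNReal.ofReal (4 * (A.R + A.M * A.R ^ 2) ^ 2 / (A.ε ^ 2 * n) +
        4 * (A.R + A.M * A.R ^ 2) ^ 4 / (A.ε ^ 2 * n)) := by
    intro i
    have hR := A.hR
    have hε := A.hε
    rw [ENNReal.ofReal_add (by positivity) (by positivity)]
    refine (measure_union_le _ _).trans (add_le_add ?_ ?_)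
    · exact prob_1 A hn J hx h0 (by omega) (by have := i.1.2; omega) i.2
    · exact prob_2 A hn J hx h0 (by omega) (by have := i.1.2; omega) i.2
  refine (measure_mono hsub).trans ((measure_iUnion_fintype_le μ _).trans
    ((Finset.sum_le_sum fun i _ => hb i).trans (le_of_eq ?_)))
  rw [Finset.sum_const, Finset.card_univ, Fintype.card_prod, Fintype.card_fin, Fintype.card_fin,
    nsmul_eq_mul]
  have h6 : ((A.T * L : ℕ) : ENNReal) = ENNReal.ofReal ((A.T * L : ℕ) : ℝ) :=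
    (ENNReal.ofReal_natCast _).symm
  rw [h6, ← ENNReal.ofReal_mul (Nat.cast_nonneg _)]
  congr 1
  unfold cL
  have hε := A.hε
  push_cast
  field_simp

end H69.SR
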