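import Pool.Agent.H69.SR.Base

/-!
# Module Quad: the quadratic form

`quad (Yo lam x z) y = (lam/n) ∑_k |⟪xv y k, xv x k⟫|^2 + quad (Wm z) y/√n` (expand; `∑_i ∑_j conj(y_i) x_i conj(x_j) y_j = (∑_i conj(y_i) x_i) * conj(..)`). With `D_k := ∑_j ‖y_j^(k+1) - x_j^(k+1)‖^2`: `Re ⟪xv y k, xv x k⟫ = n - D_k/2`, so
`|⟪..⟫|^2 ≥ n^2 - n D_k` (if `n - D_k/2 ≥ 0` square it, otherwise the right side is negative). Sum over `k`, times `lam/n`. `quad_null`: `lam = 0`.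
-/

set_option autoImplicit false

open MeasureTheory ProbabilityTheory
open scoped BigOperators ComplexConjugate InnerProductSpace

namespace H69.SR

variable {L n : ℕ}

/-- one frequency: expansion of the quadratic form -/
private lemma quad_one (lam : ℝ) (a b : Fin n → ℂ) (W : Fin n → Fin n → ℂ) :
    (∑ i, ∑ j, conj (a i) * (((lam / n : ℝ) : ℂ) * (b i * conj (b j)) +
      ((1 / Real.sqrt n : ℝ) : ℂ) * W i j) * a j).re =
      lam / n * ‖∑ i, conj (a i) * b i‖ ^ 2 + (∑ i, ∑ j, conj (a i) * W i j * a j).re / Real.sqrt n := by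
  have h1 : ∑ i, ∑ j, conj (a i) * (((lam / n : ℝ) : ℂ) * (b i * conj (b j)) +
      ((1 / Real.sqrt n : ℝ) : ℂ) * W i j) * a j =
      ((lam / n : ℝ) : ℂ) * ((∑ i, conj (a i) * b i) * conj (∑ i, conj (a i) * b i)) +
      ((1 / Real.sqrt n : ℝ) : ℂ) * ∑ i, ∑ j, conj (a i) * W i j * a j := by
    rw [map_sum, Finset.sum_mul_sum, Finset.mul_sum, Finset.mul_sum, ← Finset.sum_add_distrib]
    refine Finset.sum_congr rfl fun i _ => ?_
    rw [Finset.mul_sum, Finset.mul_sum, ← Finset.sum_add_distrib]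
    refine Finset.sum_congr rfl fun j _ => ?_
    rw [map_mul, Complex.conj_conj]
    ring
  rw [h1, Complex.mul_conj, Complex.add_re, Complex.re_ofReal_mul, Complex.re_ofReal_mul,
    Complex.ofReal_re, Complex.normSq_eq_norm_sq]
  ring

private lemma quad_eq (lam : ℝ) (x y : Fin n → ℂ) (z : Ix L n → ℝ) :
    quad (Yo lam x z) y =
      (∑ k : Fin L, lam / n * ‖∑ i, conj (y i ^ ((k : ℕ) + 1)) * x i ^ ((k : ℕ) + 1)‖ ^ 2) +
        quad (Wm z) y / Real.sqrt n := by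
  unfold quad
  rw [Finset.sum_div, ← Finset.sum_add_distrib]
  refine Finset.sum_congr rfl fun k _ => ?_
  exact quad_one lam (fun i => y i ^ ((k : ℕ) + 1)) (fun i => x i ^ ((k : ℕ) + 1)) (Wm z k)

/-- one frequency: lower bound for the overlap -/
private lemma quad_overlap (a b : Fin n → ℂ) (ha : ∀ j, ‖a j‖ = 1) (hb : ∀ j, ‖b j‖ = 1) :
    (n : ℝ) * (n - ∑ j, ‖a j - b j‖ ^ 2) ≤ ‖∑ i, conj (a i) * b i‖ ^ 2 := by
  have h1 : ∀ j, ‖a j - b j‖ ^ 2 = 2 - 2 * (conj (a j) * b j).re := by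
    intro j
    have h2 := ha j
    have h3 := hb j
    have h4 : Complex.normSq (a j) = 1 := by rw [Complex.normSq_eq_norm_sq, h2]; norm_num
    have h5 : Complex.normSq (b j) = 1 := by rw [Complex.normSq_eq_norm_sq, h3]; norm_num
    rw [← Complex.normSq_eq_norm_sq]
    simp only [Complex.normSq_apply] at h4 h5 ⊢
    simp only [Complex.sub_re, Complex.sub_im, Complex.mul_re, Complex.conj_re, Complex.conj_im]
    linarith
  have h2 : ∑ j, ‖a j - b j‖ ^ 2 = 2 * n - 2 * (∑ i, conj (a i) * b i).re := by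
    rw [Complex.re_sum, Finset.sum_congr rfl fun j _ => h1 j, Finset.sum_sub_distrib, Finset.mul_sum]
    simp
    ring
  have h3 : (∑ i, conj (a i) * b i).re ^ 2 ≤ ‖∑ i, conj (a i) * b i‖ ^ 2 := by
    rw [← Complex.normSq_eq_norm_sq, Complex.normSq_apply]
    nlinarith [mul_self_nonneg (∑ i, conj (a i) * b i).im]
  rw [h2]
  nlinarith [sq_nonneg ((n : ℝ) - (∑ i, conj (a i) * b i).re)]

theorem quad_lower (hn : 0 < n) {lam : ℝ} (h0 : 0 ≤ lam) {x y : Fin n → ℂ} (hx : ∀ j, ‖x j‖ = 1)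
    (hy : ∀ j, ‖y j‖ = 1) (z : Ix L n → ℝ) :
    lam * (L * n - ∑ k : Fin L, ∑ j, ‖y j ^ ((k : ℕ) + 1) - x j ^ ((k : ℕ) + 1)‖ ^ 2) +
      quad (Wm z) y / Real.sqrt n ≤ quad (Yo lam x z) y := by
  rw [quad_eq]
  have hn' : (0 : ℝ) < n := by exact_mod_cast hn
  refine add_le_add_left ?_ _ |>.trans_eq rfl
  have h1 : lam * (L * n - ∑ k : Fin L, ∑ j, ‖y j ^ ((k : ℕ) + 1) - x j ^ ((k : ℕ) + 1)‖ ^ 2) =
      ∑ k : Fin L, lam * (n - ∑ j, ‖y j ^ ((k : ℕ) + 1) - x j ^ ((k : ℕ) + 1)‖ ^ 2) := by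
    rw [← Finset.mul_sum, Finset.sum_sub_distrib]
    simp
  rw [h1]
  refine Finset.sum_le_sum fun k _ => ?_
  have h2 := quad_overlap (fun j => y j ^ ((k : ℕ) + 1)) (fun j => x j ^ ((k : ℕ) + 1))
    (fun j => by rw [norm_pow, hy, one_pow]) (fun j => by rw [norm_pow, hx, one_pow])
  calc lam * (n - ∑ j, ‖y j ^ ((k : ℕ) + 1) - x j ^ ((k : ℕ) + 1)‖ ^ 2)
      = lam / n * ((n : ℝ) * (n - ∑ j, ‖y j ^ ((k : ℕ) + 1) - x j ^ ((k : ℕ) + 1)‖ ^ 2)) := by
        field_simp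
    _ ≤ _ := mul_le_mul_of_nonneg_left h2 (by positivity)

theorem quad_null (x y : Fin n → ℂ) (z : Ix L n → ℝ) : quad (Yo 0 x z) y = quad (Wm z) y / Real.sqrt n := by
  rw [quad_eq]
  simp

end H69.SR
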