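import Pool.Agent.H69.SR.Base

/-!
# Module Union: the noise part of the quadratic form, for all labellings at once

For fixed `y` with `‖y j‖ = 1`: `quad (Wm z) y = ∑_k ∑_i ∑_j (z(k,i,j,true) Re(conj(y_i^(k+1)) y_j^(k+1)) - z(k,i,j,false) Im(conj(y_i^(k+1)) y_j^(k+1)))` (collect the coefficient of every `z`), a linear form with sum of squares of the coefficients
`∑_k ∑_ij |conj(y_i) y_j|^2 = L n^2`. Chernoff: `∫ exp(s ∑ c_i z_i) ∂gm = exp(s^2 ∑ c_i^2/2)` (`integral_fintype_prod_eq_prod`, `mgf_gaussianReal`; or `HasSubgaussianMGF`), so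
`gm {z | τ ≤ |∑ c_i z_i|} ≤ 2 exp(-τ^2/(2 ∑ c_i^2))`; with `τ = c n √n`: `2 exp(-c^2 n^3/(2 L n^2)) = 2 exp(-c^2 n/(2 L))`. Union bound over the `N^n` labellings (`measure_iUnion_le`, finite).
-/

set_option autoImplicit false

open MeasureTheory ProbabilityTheory
open scoped BigOperators ComplexConjugate InnerProductSpace

namespace H69.SR

variable {L n : ℕ}

private lemma union_id : HasSubgaussianMGF (fun x : ℝ => x) 1 (gaussianReal 0 1) where
  integrable_exp_mul t := integrable_exp_mul_gaussianReal t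
  mgf_le t := by
    rw [mgf_fun_id_gaussianReal]
    simp

private lemma union_sub {ι : Type} [Fintype ι] (c : ι → ℝ) :
    HasSubgaussianMGF (fun z : ι → ℝ => ∑ i, c i * z i)
      (∑ i, Real.toNNReal (c i ^ 2)) (gm ι) := by
  have h1 : iIndepFun (fun (i : ι) (z : ι → ℝ) => c i * z i) (gm ι) :=
    iIndepFun_pi (μ := fun _ : ι => gaussianReal 0 1) (X := fun (i : ι) (x : ℝ) => c i * x)
      (fun i => by fun_prop)
  refine HasSubgaussianMGF.sum_of_iIndepFun h1 fun i _ => ?_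
  have h2 : HasSubgaussianMGF (fun x : ℝ => c i * x) (Real.toNNReal (c i ^ 2)) (gaussianReal 0 1) := by
    have h := union_id.const_mul (c i)
    refine ⟨h.integrable_exp_mul, fun t => ?_⟩
    have h' : mgf (fun x : ℝ => c i * x) (gaussianReal 0 1) t ≤ Real.exp ((c i ^ 2 * 1) * t ^ 2 / 2) :=
      h.mgf_le t
    rw [Real.coe_toNNReal _ (sq_nonneg _)]
    rwa [mul_one] at h'
  have h3 : (gm ι).map (Function.eval i) = gaussianReal 0 1 :=
    (measurePreserving_eval (fun _ : ι => gaussianReal 0 1) i).map_eq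
  rw [← h3] at h2
  exact HasSubgaussianMGF.of_map (measurable_pi_apply i).aemeasurable h2

theorem tail_lin {ι : Type} [Fintype ι] (c : ι → ℝ) {τ V : ℝ} (hτ : 0 ≤ τ) (hV : ∑ i, c i ^ 2 = V) (hV0 : 0 < V) :
    gm ι {z | τ ≤ |∑ i, c i * z i|} ≤ ENNReal.ofReal (2 * Real.exp (-τ ^ 2 / (2 * V))) := by
  have hsum : ((∑ i, Real.toNNReal (c i ^ 2) : NNReal) : ℝ) = V := by
    rw [← hV, NNReal.coe_sum]
    exact Finset.sum_congr rfl fun i _ => Real.coe_toNNReal _ (sq_nonneg _)
  have h1 := (union_sub c).measure_ge_le hτ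
  have h2 := (union_sub c).neg.measure_ge_le hτ
  rw [hsum] at h1 h2
  have h3 : {z : ι → ℝ | τ ≤ |∑ i, c i * z i|} ⊆ {z | τ ≤ ∑ i, c i * z i} ∪
      {z | τ ≤ (-fun z : ι → ℝ => ∑ i, c i * z i) z} := by
    intro z hz
    rcases le_abs.1 (show τ ≤ |∑ i, c i * z i| from hz) with h | h
    · exact Or.inl h
    · exact Or.inr h
  have key : ∀ A : Set (ι → ℝ), (gm ι).real A ≤ Real.exp (-τ ^ 2 / (2 * V)) →
      gm ι A ≤ ENNReal.ofReal (Real.exp (-τ ^ 2 / (2 * V))) := by
    intro A hA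
    rw [← ENNReal.ofReal_toReal (measure_ne_top (gm ι) A)]
    exact ENNReal.ofReal_le_ofReal hA
  refine (measure_mono h3).trans ((measure_union_le _ _).trans ?_)
  rw [two_mul, ENNReal.ofReal_add (Real.exp_pos _).le (Real.exp_pos _).le]
  exact add_le_add (key _ h1) (key _ h2)

/-- the coefficients of the quadratic form -/
private noncomputable def unionC (x : Fin n → ℂ) : Ix L n → ℝ := fun p =>
  if p.2.2.2 then (conj (x p.2.1 ^ ((p.1 : ℕ) + 1)) * x p.2.2.1 ^ ((p.1 : ℕ) + 1)).re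
  else -(conj (x p.2.1 ^ ((p.1 : ℕ) + 1)) * x p.2.2.1 ^ ((p.1 : ℕ) + 1)).im

private lemma union_conj (c : Fin n → Fin n → ℂ) (hc : ∀ i j, c j i = conj (c i j))
    (A B : Fin n → Fin n → ℝ) :
    (∑ i, ∑ j, c i j * ((((A i j + A j i : ℝ) : ℂ) + ((B i j - B j i : ℝ) : ℂ) * Complex.I) / 2)).re =
      ∑ i, ∑ j, ((c i j).re * A i j + -(c i j).im * B i j) := by
  have h1 : ∀ i j, (c i j * ((((A i j + A j i : ℝ) : ℂ) + ((B i j - B j i : ℝ) : ℂ) * Complex.I) / 2)).re =
      ((c i j).re * A i j + -(c i j).im * B i j) / 2 + ((c i j).re * A j i + (c i j).im * B j i) / 2 := by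
    intro i j
    have e : ((((A i j + A j i : ℝ) : ℂ) + ((B i j - B j i : ℝ) : ℂ) * Complex.I) / 2) =
        ⟨(A i j + A j i) / 2, (B i j - B j i) / 2⟩ := by
      apply Complex.ext <;> simp
    rw [e, Complex.mul_re]
    ring
  have h2 : ∑ i, ∑ j, ((c i j).re * A j i + (c i j).im * B j i) / 2 =
      ∑ i, ∑ j, ((c i j).re * A i j + -(c i j).im * B i j) / 2 := by
    rw [Finset.sum_comm]
    refine Finset.sum_congr rfl fun i _ => Finset.sum_congr rfl fun j _ => ?_
    rw [hc i j, Complex.conj_re, Complex.conj_im]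
  have h3 : ∀ F : Fin n → Fin n → ℝ, ∑ i, ∑ j, F i j = ∑ i, ∑ j, F i j / 2 + ∑ i, ∑ j, F i j / 2 := by
    intro F
    simp_rw [← Finset.sum_div]
    ring
  rw [h3 fun i j => (c i j).re * A i j + -(c i j).im * B i j]
  nth_rewrite 2 [← h2]
  rw [Complex.re_sum, ← Finset.sum_add_distrib]
  refine Finset.sum_congr rfl fun i _ => ?_
  rw [Complex.re_sum, ← Finset.sum_add_distrib]
  exact Finset.sum_congr rfl fun j _ => h1 i j

private lemma union_quad (z : Ix L n → ℝ) (x : Fin n → ℂ) :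
    quad (Wm z) x = ∑ p, unionC x p * z p := by
  unfold quad
  have h1 : ∀ k : Fin L, (∑ i, ∑ j, conj (x i ^ ((k : ℕ) + 1)) * Wm z k i j * x j ^ ((k : ℕ) + 1)).re =
      ∑ i, ∑ j, ((conj (x i ^ ((k : ℕ) + 1)) * x j ^ ((k : ℕ) + 1)).re * z (k, i, j, true) +
        -(conj (x i ^ ((k : ℕ) + 1)) * x j ^ ((k : ℕ) + 1)).im * z (k, i, j, false)) := by
    intro k
    rw [← union_conj (fun i j => conj (x i ^ ((k : ℕ) + 1)) * x j ^ ((k : ℕ) + 1))
      (fun i j => by rw [map_mul, Complex.conj_conj, mul_comm])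
      (fun i j => z (k, i, j, true)) (fun i j => z (k, i, j, false))]
    congr 1
    refine Finset.sum_congr rfl fun i _ => Finset.sum_congr rfl fun j _ => ?_
    unfold Wm
    ring
  simp_rw [h1]
  rw [Fintype.sum_prod_type]
  refine Finset.sum_congr rfl fun k _ => ?_
  rw [Fintype.sum_prod_type]
  refine Finset.sum_congr rfl fun i _ => ?_
  rw [Fintype.sum_prod_type]
  refine Finset.sum_congr rfl fun j _ => ?_
  rw [Fintype.sum_bool]
  unfold unionC
  simp

private lemma union_sq {x : Fin n → ℂ} (hx : ∀ j, ‖x j‖ = 1) :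
    ∑ p : Ix L n, unionC x p ^ 2 = L * (n : ℝ) ^ 2 := by
  rw [Fintype.sum_prod_type]
  have h : ∀ k : Fin L, ∑ q : Fin n × Fin n × Bool, unionC x (k, q) ^ 2 = (n : ℝ) ^ 2 := by
    intro k
    rw [Fintype.sum_prod_type]
    have h1 : ∀ i : Fin n, ∑ q : Fin n × Bool, unionC (L := L) x (k, i, q) ^ 2 = (n : ℝ) := by
      intro i
      rw [Fintype.sum_prod_type]
      have h2 : ∀ j : Fin n, ∑ b : Bool, unionC (L := L) x (k, i, j, b) ^ 2 = 1 := by
        intro j
        rw [Fintype.sum_bool]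
        unfold unionC
        simp only [if_true, Bool.false_eq_true, if_false]
        have h3 : ‖conj (x i ^ ((k : ℕ) + 1)) * x j ^ ((k : ℕ) + 1)‖ = 1 := by
          rw [norm_mul, RCLike.norm_conj, norm_pow, norm_pow, hx, hx]
          simp
        have h4 := Complex.sq_norm (conj (x i ^ ((k : ℕ) + 1)) * x j ^ ((k : ℕ) + 1))
        rw [h3, Complex.normSq_apply] at h4
        rw [neg_sq]
        nlinarith
      simp_rw [h2]
      simp
    simp_rw [h1]
    simp [sq]
  simp_rw [h]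
  simp

theorem union (N : ℕ) {c : ℝ} (hc : 0 < c) (hL : 1 ≤ L) (hn : 0 < n) :
    gm (Ix L n) {z | ∃ a : Fin n → Fin N, c * n ≤ |quad (Wm z) (fun j => root N (a j))| / Real.sqrt n} ≤
      ENNReal.ofReal (2 * (N : ℝ) ^ n * Real.exp (-(c ^ 2 * n / (2 * L)))) := by
  have hn' : (0 : ℝ) < n := by exact_mod_cast hn
  have hL' : (0 : ℝ) < L := by exact_mod_cast hL
  have hs : 0 < Real.sqrt n := Real.sqrt_pos.2 hn'
  have hs2 : Real.sqrt n ^ 2 = n := Real.sq_sqrt hn'.le
  have h1 : ∀ a : Fin n → Fin N, gm (Ix L n) {z | c * n ≤ |quad (Wm z) (fun j => root N (a j))| / Real.sqrt n} ≤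
      ENNReal.ofReal (2 * Real.exp (-(c ^ 2 * n / (2 * L)))) := by
    intro a
    have h2 := tail_lin (τ := c * n * Real.sqrt n) (unionC (L := L) (fun j => root N (a j))) (by positivity)
      (union_sq fun j => norm_root N (a j)) (by positivity)
    have h3 : {z : Ix L n → ℝ | c * n ≤ |quad (Wm z) (fun j => root N (a j))| / Real.sqrt n} =
        {z | c * n * Real.sqrt n ≤ |∑ p, unionC (fun j => root N (a j)) p * z p|} := by
      ext z
      show c * n ≤ |quad (Wm z) (fun j => root N (a j))| / Real.sqrt n ↔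
        c * n * Real.sqrt n ≤ |∑ p, unionC (fun j => root N (a j)) p * z p|
      rw [union_quad, le_div_iff₀ hs]
    rw [h3]
    refine h2.trans (le_of_eq ?_)
    congr 3
    have h4 : (c * n * Real.sqrt n) ^ 2 = c ^ 2 * n ^ 2 * n := by
      rw [mul_pow, mul_pow, hs2]
    rw [h4]
    field_simp
  have h2 : {z : Ix L n → ℝ | ∃ a : Fin n → Fin N, c * n ≤ |quad (Wm z) (fun j => root N (a j))| / Real.sqrt n} =
      ⋃ a : Fin n → Fin N, {z | c * n ≤ |quad (Wm z) (fun j => root N (a j))| / Real.sqrt n} := by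
    ext z
    simp
  rw [h2]
  refine (measure_iUnion_le _).trans ?_
  rw [tsum_fintype]
  refine (Finset.sum_le_sum fun a _ => h1 a).trans ?_
  rw [Finset.sum_const, Finset.card_univ, Fintype.card_fun, Fintype.card_fin, Fintype.card_fin,
    nsmul_eq_mul, ← ENNReal.ofReal_natCast, ← ENNReal.ofReal_mul (Nat.cast_nonneg _)]
  refine le_of_eq (congrArg _ ?_)
  push_cast
  ring

end H69.SR
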