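import Pool.Agent.H69.SR.Adapt
import Pool.Agent.H69.SR.Good
import Pool.Agent.H69.SR.Prob
import Pool.Agent.H69.SR.ConsEx
import Pool.Agent.H69.SR.Decode
import Pool.Agent.H69.SR.Quad
import Pool.Agent.H69.SR.Union

/-!
# Seeds and rounds (MP_634cec): both error probabilities (complete over the modules)
-/

set_option autoImplicit false

open MeasureTheory ProbabilityTheory
open scoped BigOperators ComplexConjugate InnerProductSpace

namespace H69.SR

variable {L n : ℕ}

/-- the procedures -/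
def PS (A : Par L) : Set (Proc L) := A.pr '' A.gss

/-- the histories which are consistent but do not end close to the signal -/
def BadH (A : Par L) (J : Finset (Fin n)) (x s : Fin n → ℂ) (a : ℕ → Fin L → ℂ) : Set (Hs L n) :=
  {ζ | Cons A.δ x a ((A.pr a).f J s) ζ A.T ∧ ¬ ∀ k, ‖(A.pr a).f J s A.T ζ k - xv x k‖ ^ 2 ≤ n / 64}

lemma meas_al {f : ℕ → Hs L n → VV L n} (hfm : ∀ t, Measurable (f t)) (x : Fin n → ℂ) (k : Fin L) (t : ℕ) :
    Measurable fun ζ => al x f ζ k t := by
  unfold al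
  exact (measurable_const.inner (meas_UU hfm k t)).div_const _

lemma meas_BadH (A : Par L) (J : Finset (Fin n)) (x s : Fin n → ℂ) (a : ℕ → Fin L → ℂ) :
    MeasurableSet (BadH A J x s a) := by
  have hfm : ∀ t, Measurable ((A.pr a).f J s t) := meas_f _ (pr_meas A a) J s
  have h1 : MeasurableSet {ζ : Hs L n | Cons A.δ x a ((A.pr a).f J s) ζ A.T} := by
    have e : {ζ : Hs L n | Cons A.δ x a ((A.pr a).f J s) ζ A.T} =
        ⋂ (t : ℕ) (_ : t < A.T) (k : Fin L), ({ζ | ‖a t k - al x ((A.pr a).f J s) ζ k t‖ ≤ A.δ} ∩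
          {ζ | UU ((A.pr a).f J s) ζ k t = 0 → a t k = 0}) := by
      ext ζ
      simp only [Cons, Set.mem_ofPred_eq, Set.mem_iInter, Set.mem_inter_iff]
    rw [e]
    refine MeasurableSet.iInter fun t => MeasurableSet.iInter fun _ => MeasurableSet.iInter fun k => ?_
    refine MeasurableSet.inter ?_ ?_
    · exact measurableSet_le ((measurable_const.sub (meas_al hfm x k t)).norm) measurable_const
    · by_cases h : a t k = 0
      · simp [h]
      · have e2 : {ζ : Hs L n | UU ((A.pr a).f J s) ζ k t = 0 → a t k = 0} =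
            {ζ | UU ((A.pr a).f J s) ζ k t ∈ ({0} : Set (E n))}ᶜ := by
          ext ζ; simp [h]
        rw [e2]
        exact ((meas_UU hfm k t) (measurableSet_singleton 0)).compl
  have h2 : MeasurableSet {ζ : Hs L n | ∀ k, ‖(A.pr a).f J s A.T ζ k - xv x k‖ ^ 2 ≤ (n : ℝ) / 64} := by
    have e : {ζ : Hs L n | ∀ k, ‖(A.pr a).f J s A.T ζ k - xv x k‖ ^ 2 ≤ (n : ℝ) / 64} =
        ⋂ k : Fin L, {ζ | ‖(A.pr a).f J s A.T ζ k - xv x k‖ ^ 2 ≤ (n : ℝ) / 64} := by
      ext ζ; simp
    rw [e]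
    refine MeasurableSet.iInter fun k => measurableSet_le ?_ measurable_const
    exact (((measurable_pi_iff.1 (hfm A.T) k).sub measurable_const).norm).pow_const 2
  exact h1.inter h2.compl

lemma prob_bad (A : Par L) (hn : 0 < n) {J : Finset (Fin n)} (hJ : A.θ ≤ thJ J) {x s : Fin n → ℂ}
    (hs : Seeds L x s) {a : ℕ → Fin L → ℂ} (ha : a ∈ A.gss) :
    gm (Ix L n) {z | run ((A.pr a).resp J s (Yo A.lam x z)) 0 A.T 0 ∈ BadH A J x s a} ≤
      ENNReal.ofReal ((cP A + cL A) / n) := by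
  set f := (A.pr a).f J s with hf
  set b := (A.pr a).b J s A.lam x with hb
  have hfl : Loc f := loc_f _ _ _
  have hbl : Loc b := loc_b _ _ _ _ _
  have hfm : ∀ t, Measurable (f t) := meas_f _ (pr_meas A a) J s
  have hbm : ∀ t, Measurable (b t) := meas_b _ (pr_meas A a) J s A.lam x
  have e1 : {z : Ix L n → ℝ | run ((A.pr a).resp J s (Yo A.lam x z)) 0 A.T 0 ∈ BadH A J x s a} =
      {z | run (rW f b (Wm z)) 0 A.T 0 ∈ BadH A J x s a} := by
    ext z
    simp only [Set.mem_ofPred_eq, resp_eq _ hn, hf, hb]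
  rw [e1, adapt_set hfl hfm hbm (meas_BadH A J x s a)]
  have hcP : 0 ≤ cP A := by
    have := A.hδ
    unfold cP; positivity
  have hcL : 0 ≤ cL A := by
    have := A.hε
    have := A.hR
    unfold cL; positivity
  by_cases h0 : ∀ k, a 0 k ≠ 0
  · have hsub : {g : Fin A.T → Gx L n → ℝ | runG f b 0 A.T (fun s => gv (g s)) 0 ∈ BadH A J x s a} ⊆
        {g | ¬ GoodP A f (exg g) (runG f b 0 A.T (fun s => gv (g s)) 0)} ∪ {g | ¬ GoodL A J x a (exg g)} := by
      intro g hg
      by_contra hcon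
      simp only [Set.mem_union, Set.mem_ofPred_eq, not_or, not_not] at hcon
      obtain ⟨hC, hbad⟩ := hg
      refine hbad fun k => ?_
      refine good A hn hJ hs ha (g := exg g) ?_ hC hcon.1 hcon.2 k
      intro t ht
      have h1 := runG_fix hfl hbl A.T 0 (fun s => gv (g s)) 0 ⟨t, ht⟩
      simp only [zero_add] at h1
      have h2 : exg g t = gv (g ⟨t, ht⟩) := by unfold exg; rw [dif_pos ht]
      rw [h2]
      exact h1
    refine (measure_mono hsub).trans ((measure_union_le _ _).trans ?_)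
    have p1 := prob_P A hn hfl hfm hbm
    have p2 := prob_L A hn J hs.nx h0
    refine (add_le_add p1 p2).trans ?_
    rw [← ENNReal.ofReal_add (by positivity) (by positivity), add_div]
  · push Not at h0
    obtain ⟨k, hk⟩ := h0
    have hemp : {g : Fin A.T → Gx L n → ℝ | runG f b 0 A.T (fun s => gv (g s)) 0 ∈ BadH A J x s a} = ∅ := by
      ext g
      simp only [Set.mem_ofPred_eq, Set.mem_empty_iff_false, iff_false]
      rintro ⟨hC, -⟩
      exact start A hn hJ hs hC k hk
    rw [hemp, measure_empty]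
    exact bot_le

theorem core_planted (A : Par L) (hn : 0 < n) {J : Finset (Fin n)} (hJ : A.θ ≤ thJ J) {x : Fin n → ℂ}
    (hx : ∀ j, ‖x j‖ = 1) :
    gm (Ix L n) {z | ¬ Accepts (PS A) (A.lam * L * n / 2) J (Yo A.lam x z)} ≤
      ENNReal.ofReal (((gss_finite A).toFinset.card : ℝ) * ((cP A + cL A) / n)) +
        ENNReal.ofReal (2 * (NN L : ℝ) ^ n * Real.exp (-((A.lam * L / 4) ^ 2 * n / (2 * L)))) := by
  obtain ⟨a₀, hs⟩ := seeds_ex A.hL hx
  set s : Fin n → ℂ := fun j => root (NN L) (a₀ j) with hsdef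
  have hL0 : (0 : ℝ) < L := by exact_mod_cast A.hL
  have hn0 : (0 : ℝ) < n := by exact_mod_cast hn
  have hsub : {z : Ix L n → ℝ | ¬ Accepts (PS A) (A.lam * L * n / 2) J (Yo A.lam x z)} ⊆
      (⋃ a ∈ (gss_finite A).toFinset,
        {z | run ((A.pr a).resp J s (Yo A.lam x z)) 0 A.T 0 ∈ BadH A J x s a}) ∪
      {z | ∃ a : Fin n → Fin (NN L), (A.lam * L / 4) * n ≤
        |quad (Wm z) (fun j => root (NN L) (a j))| / Real.sqrt n} := by
    intro z hz
    by_contra hcon
    simp only [Set.mem_union, Set.mem_iUnion, Set.mem_ofPred_eq, not_or, not_exists, not_le,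
      Set.Finite.mem_toFinset] at hcon
    obtain ⟨hc1, hc2⟩ := hcon
    apply hz
    obtain ⟨a, ha, hC⟩ := cons_ex A hn J s hx (Yo A.lam x z)
    refine ⟨A.pr a, ⟨a, ha, rfl⟩, fun i => a₀ i, ?_⟩
    have hout : (A.pr a).out J (seed J fun i : J => a₀ i) (Yo A.lam x z) = (A.pr a).out J s (Yo A.lam x z) :=
      out_congr _ (fun j hj => by unfold seed; rw [dif_pos hj]) _
    have hgoal : A.lam * L * n / 2 ≤ quad (Yo A.lam x z) fun j =>
        root (A.pr a).N ((A.pr a).out J (seed J fun i : J => a₀ i) (Yo A.lam x z) j) := by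
      rw [hout]
      change A.lam * L * n / 2 ≤ quad (Yo A.lam x z) fun j => root (NN L) ((A.pr a).out J s (Yo A.lam x z) j)
      set ζ := run ((A.pr a).resp J s (Yo A.lam x z)) 0 A.T 0 with hζ
      have hgood : ∀ k, ‖(A.pr a).f J s A.T ζ k - xv x k‖ ^ 2 ≤ (n : ℝ) / 64 := by
        by_contra hno
        exact hc1 a ha ⟨hC, hno⟩
      set y : Fin n → ℂ := fun j => root (NN L) ((A.pr a).out J s (Yo A.lam x z) j) with hy
      have hyd : ∀ j, y j = root (NN L) (dec fun k => (A.pr a).f J s A.T ζ k j) := fun j => rfl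
      have hy1 : ∀ j, ‖y j‖ = 1 := fun j => norm_root _ _
      have hdist : ∑ k : Fin L, ∑ j, ‖y j ^ ((k : ℕ) + 1) - x j ^ ((k : ℕ) + 1)‖ ^ 2 ≤ L * n / 4 := by
        rw [Finset.sum_comm]
        have h1 : ∀ j, ∑ k : Fin L, ‖y j ^ ((k : ℕ) + 1) - x j ^ ((k : ℕ) + 1)‖ ^ 2 ≤
            6 * ∑ k : Fin L, ‖(A.pr a).f J s A.T ζ k j - x j ^ ((k : ℕ) + 1)‖ ^ 2 +
              4 * L * (1 / (30 * L)) ^ 2 := by
          intro j
          rw [hyd j]
          exact decode A.hL (hx j) _
        refine (Finset.sum_le_sum fun j _ => h1 j).trans ?_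
        rw [Finset.sum_add_distrib, ← Finset.mul_sum, Finset.sum_comm]
        have h2 : ∀ k : Fin L, ∑ j, ‖(A.pr a).f J s A.T ζ k j - x j ^ ((k : ℕ) + 1)‖ ^ 2 ≤ (n : ℝ) / 64 := by
          intro k
          have h3 := hgood k
          rw [nsq_E] at h3
          exact h3
        have h4 : ∑ k : Fin L, ∑ j, ‖(A.pr a).f J s A.T ζ k j - x j ^ ((k : ℕ) + 1)‖ ^ 2 ≤ L * ((n : ℝ) / 64) := by
          refine (Finset.sum_le_sum fun k _ => h2 k).trans ?_
          simp
        have h5 : ∑ _j : Fin n, ((4 : ℝ) * L * (1 / (30 * L)) ^ 2) = (n : ℝ) * (4 * L * (1 / (30 * L)) ^ 2) := by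
          rw [Finset.sum_const, Finset.card_univ, Fintype.card_fin, nsmul_eq_mul]
        rw [h5]
        have hL1 : (1 : ℝ) ≤ L := by exact_mod_cast A.hL
        have h6 : (4 : ℝ) * L * (1 / (30 * L)) ^ 2 ≤ L / 225 := by
          have : (4 : ℝ) * L * (1 / (30 * L)) ^ 2 = 1 / (225 * L) := by field_simp; ring
          rw [this, div_le_div_iff₀ (by positivity) (by norm_num)]
          nlinarith
        nlinarith [mul_le_mul_of_nonneg_left h6 hn0.le, mul_pos hL0 hn0]
      have hq := quad_lower hn A.lam0.le hx hy1 z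
      have hnoise := hc2 fun j => (A.pr a).out J s (Yo A.lam x z) j
      have hno : -(A.lam * L / 4 * n) ≤ quad (Wm z) y / Real.sqrt n := by
        have h1 : |quad (Wm z) y| / Real.sqrt n < A.lam * L / 4 * n := hnoise
        have h2 : |quad (Wm z) y / Real.sqrt n| < A.lam * L / 4 * n := by
          rw [abs_div, abs_of_nonneg (Real.sqrt_nonneg _)]; exact h1
        exact (abs_lt.1 h2).1.le
      have hfin : A.lam * L * n / 2 ≤ quad (Yo A.lam x z) y := by
        nlinarith [mul_le_mul_of_nonneg_left hdist A.lam0.le]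
      exact hfin
    exact hgoal
  refine (measure_mono hsub).trans ((measure_union_le _ _).trans (add_le_add ?_ ?_))
  · refine (measure_biUnion_finset_le _ _).trans ?_
    have h1 : ∀ a ∈ (gss_finite A).toFinset,
        gm (Ix L n) {z | run ((A.pr a).resp J s (Yo A.lam x z)) 0 A.T 0 ∈ BadH A J x s a} ≤
          ENNReal.ofReal ((cP A + cL A) / n) := by
      intro a ha
      rw [Set.Finite.mem_toFinset] at ha
      exact prob_bad A hn hJ hs ha
    refine (Finset.sum_le_sum h1).trans ?_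
    rw [Finset.sum_const, nsmul_eq_mul, ENNReal.ofReal_mul (Nat.cast_nonneg _), ENNReal.ofReal_natCast]
  · have hlam := A.lam0
    exact union (NN L) (c := A.lam * L / 4) (by positivity) A.hL hn

theorem core_null (A : Par L) (hn : 0 < n) (J : Finset (Fin n)) (x : Fin n → ℂ) :
    gm (Ix L n) {z | Accepts (PS A) (A.lam * L * n / 2) J (Yo 0 x z)} ≤
      ENNReal.ofReal (2 * (NN L : ℝ) ^ n * Real.exp (-((A.lam * L / 4) ^ 2 * n / (2 * L)))) := by
  have hL0 : (0 : ℝ) < L := by exact_mod_cast A.hL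
  have hn0 : (0 : ℝ) < n := by exact_mod_cast hn
  have hlam := A.lam0
  refine (measure_mono ?_).trans (union (NN L) (c := A.lam * L / 4) (by positivity) A.hL hn)
  rintro z ⟨p, ⟨a, ha, rfl⟩, a₁, hthr⟩
  refine ⟨fun j => (A.pr a).out J (seed J a₁) (Yo 0 x z) j, ?_⟩
  rw [quad_null] at hthr
  have h1 : quad (Wm z) (fun j => root (A.pr a).N ((A.pr a).out J (seed J a₁) (Yo 0 x z) j)) /
      Real.sqrt n ≤ |quad (Wm z) (fun j => root (A.pr a).N
        ((A.pr a).out J (seed J a₁) (Yo 0 x z) j))| / Real.sqrt n :=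
    div_le_div_of_nonneg_right (le_abs_self _) (Real.sqrt_nonneg _)
  have h2 : A.lam * L / 4 * n ≤ A.lam * L * n / 2 := by
    have : 0 ≤ A.lam * L * n := by positivity
    linarith
  exact h2.trans (hthr.trans h1)

end H69.SR
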