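import Mathlib

/-!
# Seeds and rounds (MP_634cec): definitions

`Proc`: a procedure with `T` rounds. In every round there is one product of each observed matrix with one
vector, Gram-Schmidt, and a fixed map in every coordinate. `Accepts`: exhaustive search over the seeds.
`UU`, `cop`, `run`, `rW`, `rG`, `runG`: the abstract form of a procedure, with a history of vectors; `rW` uses a
Hermitian Gaussian matrix, `rG` fresh Gaussian vectors.
-/

set_option autoImplicit false

open MeasureTheory ProbabilityTheory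
open scoped BigOperators ComplexConjugate InnerProductSpace

namespace H69.SR

/-- complex vectors with `n` coordinates, Euclidean norm -/
abbrev E (n : ℕ) : Type := EuclideanSpace ℂ (Fin n)

/-- families of vectors, one for every frequency -/
abbrev VV (L n : ℕ) : Type := Fin L → E n

/-- families of matrices, one for every frequency -/
abbrev MM (L n : ℕ) : Type := Fin L → Fin n → Fin n → ℂ

/-- matrix times vector -/
noncomputable def mv {n : ℕ} (A : Fin n → Fin n → ℂ) (v : E n) : E n :=
  WithLp.toLp 2 fun i => ∑ j, A i j * v j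

/-- projection onto the span of the orthonormal (or zero) vectors `U 0, .., U t` -/
noncomputable def prj {n : ℕ} (U : ℕ → E n) (t : ℕ) (v : E n) : E n :=
  ∑ r ∈ Finset.range (t + 1), ⟪U r, v⟫_ℂ • U r

/-- complementary projection -/
noncomputable def cop {n : ℕ} (U : ℕ → E n) (t : ℕ) (v : E n) : E n := v - prj U t v

/-- the matrix of `cop U t` -/
noncomputable def qm {n : ℕ} (U : ℕ → E n) (t : ℕ) (i j : Fin n) : ℂ :=
  (if i = j then 1 else 0) - ∑ r ∈ Finset.range (t + 1), U r i * conj (U r j)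

/-- the matrix `Q A Q`, `Q` the matrix of `cop U t` -/
noncomputable def qwq {n : ℕ} (U : ℕ → E n) (t : ℕ) (A : Fin n → Fin n → ℂ) : Fin n → Fin n → ℂ :=
  fun i j => ∑ a, ∑ b, qm U t i a * A a b * qm U t b j

/-- every vector has norm `1` or is zero, and they are orthogonal -/
def OrtZ {n : ℕ} (U : ℕ → E n) : Prop :=
  (∀ r, ‖U r‖ = 1 ∨ U r = 0) ∧ ∀ r s, r ≠ s → ⟪U r, U s⟫_ℂ = 0

/-- histories -/
abbrev Hs (L n : ℕ) : Type := ℕ → VV L n

/-- the orthonormal vectors obtained by Gram-Schmidt from `f 0 η k, f 1 η k, ..` -/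
noncomputable def UU {L n : ℕ} (f : ℕ → Hs L n → VV L n) (η : Hs L n) (k : Fin L) (t : ℕ) : E n :=
  InnerProductSpace.gramSchmidtNormed ℂ (fun r => f r η k) t

/-- `f t` depends on the history before `t` only -/
def Loc {L n : ℕ} (f : ℕ → Hs L n → VV L n) : Prop :=
  ∀ t (η η' : Hs L n), (∀ s < t, η s = η' s) → f t η = f t η'

/-- the new vectors of the history, with the matrices `W` -/
noncomputable def rW {L n : ℕ} (f b : ℕ → Hs L n → VV L n) (W : MM L n) (t : ℕ) (η : Hs L n) :
    VV L n := fun k => b t η k + cop (UU f η k) t (mv (W k) (UU f η k t))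

/-- the new vectors of the history, with fresh vectors `g` -/
noncomputable def rG {L n : ℕ} (f b : ℕ → Hs L n → VV L n) (g : VV L n) (t : ℕ) (η : Hs L n) :
    VV L n := fun k => b t η k + ((‖UU f η k t‖ : ℝ) : ℂ) • cop (UU f η k) t (g k)

/-- run from time `m` for `T` steps -/
noncomputable def run {L n : ℕ} (r : ℕ → Hs L n → VV L n) : ℕ → ℕ → Hs L n → Hs L n
  | _, 0, η => η
  | m, T + 1, η => run r (m + 1) T (Function.update η m (r m η))

/-- run from time `m` for `T` steps with fresh vectors -/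
noncomputable def runG {L n : ℕ} (f b : ℕ → Hs L n → VV L n) :
    ℕ → (T : ℕ) → (Fin T → VV L n) → Hs L n → Hs L n
  | _, 0, _, η => η
  | m, T + 1, g, η => runG f b (m + 1) T (fun s => g s.succ) (Function.update η m (rG f b (g 0) m η))

/-- standard Gaussian measure -/
noncomputable def gm (ι : Type) [Fintype ι] : Measure (ι → ℝ) := Measure.pi fun _ => gaussianReal 0 1

/-- coordinates of the matrices -/
abbrev Ix (L n : ℕ) : Type := Fin L × Fin n × Fin n × Bool

/-- coordinates of the vectors -/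
abbrev Gx (L n : ℕ) : Type := Fin L × Fin n × Bool

/-- GUE matrices (off-diagonal entries with `E |W i j| ^ 2 = 1`) -/
noncomputable def Wm {L n : ℕ} (z : Ix L n → ℝ) : MM L n := fun k i j =>
  (((z (k, i, j, true) + z (k, j, i, true) : ℝ) : ℂ) +
    ((z (k, i, j, false) - z (k, j, i, false) : ℝ) : ℂ) * Complex.I) / 2

/-- standard complex Gaussian vectors -/
noncomputable def gv {L n : ℕ} (z : Gx L n → ℝ) : VV L n := fun k =>
  WithLp.toLp 2 fun i => ((z (k, i, true) : ℂ) + (z (k, i, false) : ℂ) * Complex.I) / (Real.sqrt 2 : ℂ)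

/-- standard complex Gaussian variable -/
noncomputable def stdC : Measure ℂ :=
  ((gaussianReal 0 1).prod (gaussianReal 0 1)).map
    fun p : ℝ × ℝ => ((p.1 : ℂ) + (p.2 : ℂ) * Complex.I) / (Real.sqrt 2 : ℂ)

/-! ### Procedures -/

/-- A procedure with `T` rounds for `L` frequencies. `β`: constants. `Φ t k`: map applied in every coordinate in
round `t`; its argument are the entries (in this coordinate) of the vectors `y_(s,l)` of the earlier rounds
`s < t` (entries with `s ≥ t` are set to zero). `dec`: map applied in every coordinate to the last vectors. -/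
structure Proc (L : ℕ) where
  T : ℕ
  β : ℕ → ℕ → Fin L → ℂ
  Φ : ℕ → Fin L → (ℕ → Fin L → ℂ) → ℂ
  N : ℕ
  dec : (Fin L → ℂ) → Fin N

variable {L n : ℕ}

/-- the vector multiplied with the matrix in round `t` (before Gram-Schmidt): on the seed vertices `J` the powers
of the seeds `s`, elsewhere the map `Φ` -/
noncomputable def Proc.f (p : Proc L) (J : Finset (Fin n)) (s : Fin n → ℂ) (t : ℕ) (η : Hs L n) : VV L n :=
  fun k => WithLp.toLp 2 fun j => if j ∈ J then s j ^ ((k : ℕ) + 1)
    else p.Φ t k fun r l => if r < t then η r l j else 0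

/-- the new vectors of round `t`: `y_t = √n (Y u_t - Σ_(r ≤ t) ⟨u_r, Y u_t⟩ u_r + Σ_(r ≤ t) β_(t,r) u_r)` -/
noncomputable def Proc.resp (p : Proc L) (J : Finset (Fin n)) (s : Fin n → ℂ) (Y : MM L n) (t : ℕ)
    (η : Hs L n) : VV L n := fun k =>
  ((Real.sqrt n : ℝ) : ℂ) • (cop (UU (p.f J s) η k) t (mv (Y k) (UU (p.f J s) η k t)) +
    ∑ r ∈ Finset.range (t + 1), p.β t r k • UU (p.f J s) η k r)

/-- the candidate for the signal (exponents of `N`-th roots of unity) -/
noncomputable def Proc.out (p : Proc L) (J : Finset (Fin n)) (s : Fin n → ℂ) (Y : MM L n) : Fin n → Fin p.N :=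
  fun j => p.dec fun k => p.f J s p.T (run (p.resp J s Y) 0 p.T 0) k j

/-- `N`-th roots of unity -/
noncomputable def root (N : ℕ) (a : Fin N) : ℂ := Complex.exp (2 * Real.pi * Complex.I * ((a : ℕ) : ℂ) / N)

/-- `Σ_k x^(k) * Y_k x^(k)` (real part) -/
noncomputable def quad (Y : MM L n) (x : Fin n → ℂ) : ℝ :=
  ∑ k : Fin L, (∑ i, ∑ j, conj (x i ^ ((k : ℕ) + 1)) * Y k i j * x j ^ ((k : ℕ) + 1)).re

/-- the seeds given by labels on `J` -/
noncomputable def seed {N : ℕ} (J : Finset (Fin n)) (a : J → Fin N) (i : Fin n) : ℂ :=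
  if h : i ∈ J then root N (a ⟨i, h⟩) else 1

/-- exhaustive search over the procedures in the finite set `P` and the seeds (`N`-th roots of unity on `J`) -/
def Accepts (P : Set (Proc L)) (thr : ℝ) (J : Finset (Fin n)) (Y : MM L n) : Prop :=
  ∃ p ∈ P, ∃ a : J → Fin p.N, thr ≤ quad Y fun j => root p.N (p.out J (seed J a) Y j)

/-- the observations for the signal `x` and the noise `z`:
`Y_k = (lam/n) x^(k) x^(k)* + n^(-1/2) W_k`, `x^(k)` the vector of the `(k+1)`-st powers -/
noncomputable def Yo (lam : ℝ) (x : Fin n → ℂ) (z : Ix L n → ℝ) : MM L n := fun k i j =>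
  ((lam / n : ℝ) : ℂ) * (x i ^ ((k : ℕ) + 1) * conj (x j ^ ((k : ℕ) + 1))) +
    ((1 / Real.sqrt n : ℝ) : ℂ) * Wm z k i j

/-- the vector `x^(k)` -/
noncomputable def xv (x : Fin n → ℂ) (k : Fin L) : E n := WithLp.toLp 2 fun j => x j ^ ((k : ℕ) + 1)

/-- the overlap of `x^(k)` with the unit vector of round `t` -/
noncomputable def al (x : Fin n → ℂ) (f : ℕ → Hs L n → VV L n) (η : Hs L n) (k : Fin L) (t : ℕ) : ℂ :=
  ⟪xv x k, UU f η k t⟫_ℂ / ((Real.sqrt n : ℝ) : ℂ)

/-- the deterministic part of the new vectors of round `t`, for the signal `x` -/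
noncomputable def Proc.b (p : Proc L) (J : Finset (Fin n)) (s : Fin n → ℂ) (lam : ℝ) (x : Fin n → ℂ) (t : ℕ)
    (η : Hs L n) : VV L n := fun k =>
  ((lam : ℂ) * al x (p.f J s) η k t) • cop (UU (p.f J s) η k) t (xv x k) +
    ((Real.sqrt n : ℝ) : ℂ) • ∑ r ∈ Finset.range (t + 1), p.β t r k • UU (p.f J s) η k r

end H69.SR
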