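import Pool.Agent.H69.SR.Step

/-!
# Module Err: the new vectors are signal plus noise plus a small error

* `err_one`. Put `U := UU f ζ k`, `α r := al x f ζ k r`, `v := xv x k`. `a t k ≠ 0`, so `U t ≠ 0` (`hC`), `‖U t‖ = 1`. By `hζ` and the definition of `Proc.b` (`β t r k = lam * a t k * conj (a r k)`):
  `ζ t k = (lam α t) • (v - prj U t v) + √n • ∑_(r ≤ t) (lam a_t conj a_r) • U r + (g - prj U t g)`, and `prj U t v = ∑ r, ⟪U r, v⟫ • U r = √n • ∑ r, conj (α r) • U r`. So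
  `ζ t k - ((lam a_t) • v + g) = (lam (α t - a t)) • v + √n • ∑_(r ≤ t) (lam (a_t conj a_r - α_t conj α_r)) • U r - prj U t g`. Norms: `√n δ`, `√n (t+1) 2 δ`
  (`|a_t conj a_r - α_t conj α_r| ≤ |a_t| |a_r - α_r| + |a_t - α_t| |α_r| ≤ 2 δ`, `‖a‖ ≤ 1`, `‖α‖ ≤ 1`: `al_le`), `δ √n`; sum `≤ √n δ (2 T + 2) ≤ 4 T δ √n`.
* `err_sum`: `v j - w j = ∑_(s < t) ww a t s l * (ζ s l j - (lam a_s x^(l) + g s l) j)` because `∑_s ww a t s l * lam * a s l = lam * nr a t l = mm lam a t l` (`nr_sq`, `nr ≠ 0`); terms with `a s l = 0` vanish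
  (`ww = 0`); `‖ww‖ ≤ 1`. So the Euclidean norm of `v - w` is `≤ T * (4 T δ √n)`.
-/

set_option autoImplicit false

open MeasureTheory ProbabilityTheory
open scoped BigOperators ComplexConjugate InnerProductSpace

namespace H69.SR

variable {L n : ℕ}

theorem err_one (A : Par L) (hn : 0 < n) {J : Finset (Fin n)} {x s : Fin n → ℂ} (hx : ∀ j, ‖x j‖ = 1)
    {a : ℕ → Fin L → ℂ} (ha : a ∈ A.gss) {ζ : Hs L n} {g : ℕ → VV L n} {t : ℕ} (ht : t < A.T)
    (hζ : ζ t = rG ((A.pr a).f J s) ((A.pr a).b J s A.lam x) (g t) t ζ)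
    (hC : Cons A.δ x a ((A.pr a).f J s) ζ A.T) {k : Fin L}
    (hP : ‖prj (UU ((A.pr a).f J s) ζ k) t (g t k)‖ ≤ A.δ * Real.sqrt n) (h0 : a t k ≠ 0) :
    ‖ζ t k - (((A.lam : ℂ) * a t k) • xv x k + g t k)‖ ≤ 4 * A.T * A.δ * Real.sqrt n := by
  set f := (A.pr a).f J s with hf
  set U := UU f ζ k with hU
  have hO : OrtZ U := ortZ_UU f ζ k
  have hU1 : ∀ r, ‖U r‖ ≤ 1 := fun r => by
    rcases hO.1 r with h | h
    · exact h.le
    · rw [h, norm_zero]
      exact zero_le_one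
  have hUt : ‖U t‖ = 1 := by
    rcases hO.1 t with h | h
    · exact h
    · exact absurd ((hC t ht k).2 h) h0
  have ha1 : ∀ t k, ‖a t k‖ ≤ 1 := fun t k => A.le_one _ (ha.1 t k)
  have hn0 : (0 : ℝ) < n := by exact_mod_cast hn
  have hsn : 0 < Real.sqrt n := Real.sqrt_pos.2 hn0
  have hsC : ((Real.sqrt n : ℝ) : ℂ) ≠ 0 := by exact_mod_cast hsn.ne'
  have hz : ζ t k = ((A.lam : ℂ) * al x f ζ k t) • cop U t (xv x k) +
      ((Real.sqrt n : ℝ) : ℂ) • ∑ r ∈ Finset.range (t + 1),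
        ((A.lam : ℂ) * a t k * conj (a r k)) • U r + cop U t (g t k) := by
    have h1 := congrFun hζ k
    have h2 : rG f ((A.pr a).b J s A.lam x) (g t) t ζ k =
        ((A.lam : ℂ) * al x f ζ k t) • cop U t (xv x k) +
        ((Real.sqrt n : ℝ) : ℂ) • ∑ r ∈ Finset.range (t + 1),
          ((A.lam : ℂ) * a t k * conj (a r k)) • U r +
        ((‖U t‖ : ℝ) : ℂ) • cop U t (g t k) := rfl
    refine h1.trans (h2.trans ?_)
    rw [hUt, Complex.ofReal_one, one_smul]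
  have hpx : prj U t (xv x k) = ((Real.sqrt n : ℝ) : ℂ) •
      ∑ r ∈ Finset.range (t + 1), conj (al x f ζ k r) • U r := by
    unfold prj
    rw [Finset.smul_sum]
    refine Finset.sum_congr rfl fun r _ => ?_
    rw [smul_smul]
    congr 1
    unfold al
    rw [map_div₀, Complex.conj_ofReal, inner_conj_symm, mul_div_cancel₀ _ hsC]
  have hdec : ζ t k - (((A.lam : ℂ) * a t k) • xv x k + g t k) =
      ((A.lam : ℂ) * (al x f ζ k t - a t k)) • xv x k +
      ((Real.sqrt n : ℝ) : ℂ) • ∑ r ∈ Finset.range (t + 1),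
        ((A.lam : ℂ) * (a t k * conj (a r k) - al x f ζ k t * conj (al x f ζ k r))) • U r -
      prj U t (g t k) := by
    have e1 : ∑ r ∈ Finset.range (t + 1),
        ((A.lam : ℂ) * (a t k * conj (a r k) - al x f ζ k t * conj (al x f ζ k r))) • U r =
        ∑ r ∈ Finset.range (t + 1), ((A.lam : ℂ) * a t k * conj (a r k)) • U r -
        ((A.lam : ℂ) * al x f ζ k t) • ∑ r ∈ Finset.range (t + 1), conj (al x f ζ k r) • U r := by
      rw [Finset.smul_sum, ← Finset.sum_sub_distrib]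
      refine Finset.sum_congr rfl fun r _ => ?_
      rw [smul_smul, ← sub_smul]
      congr 1
      ring
    rw [hz, e1]
    simp only [cop]
    rw [hpx]
    module
  have hxv : ‖xv x k‖ = Real.sqrt n := by
    rw [← Real.sqrt_sq (norm_nonneg (xv x k)), norm_xv hx k]
  have hlam : ‖(A.lam : ℂ)‖ ≤ 1 := by
    rw [Complex.norm_real, Real.norm_eq_abs, abs_of_pos A.lam0]
    exact A.lam1.le
  have hδ := A.hδ
  have hd : ∀ r ≤ t, ‖a r k - al x f ζ k r‖ ≤ A.δ := fun r hr => (hC r (by omega) k).1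
  have n1 : ‖((A.lam : ℂ) * (al x f ζ k t - a t k)) • xv x k‖ ≤ A.δ * Real.sqrt n := by
    rw [norm_smul, norm_mul, hxv, norm_sub_rev]
    refine mul_le_mul_of_nonneg_right ?_ hsn.le
    calc ‖(A.lam : ℂ)‖ * ‖a t k - al x f ζ k t‖ ≤ 1 * A.δ :=
          mul_le_mul hlam (hd t le_rfl) (norm_nonneg _) zero_le_one
      _ = A.δ := one_mul _
  have n2 : ‖((Real.sqrt n : ℝ) : ℂ) • ∑ r ∈ Finset.range (t + 1),
      ((A.lam : ℂ) * (a t k * conj (a r k) - al x f ζ k t * conj (al x f ζ k r))) • U r‖ ≤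
      Real.sqrt n * (A.T * (2 * A.δ)) := by
    rw [norm_smul, Complex.norm_real, Real.norm_eq_abs, abs_of_pos hsn]
    refine mul_le_mul_of_nonneg_left ?_ hsn.le
    refine (norm_sum_le _ _).trans ?_
    have hterm : ∀ r ∈ Finset.range (t + 1),
        ‖((A.lam : ℂ) * (a t k * conj (a r k) - al x f ζ k t * conj (al x f ζ k r))) • U r‖ ≤
        2 * A.δ := by
      intro r hr
      have hr' : r ≤ t := by
        rw [Finset.mem_range] at hr
        omega
      have e2 : a t k * conj (a r k) - al x f ζ k t * conj (al x f ζ k r) =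
          a t k * conj (a r k - al x f ζ k r) + (a t k - al x f ζ k t) * conj (al x f ζ k r) := by
        rw [map_sub]
        ring
      have e3 : ‖a t k * conj (a r k) - al x f ζ k t * conj (al x f ζ k r)‖ ≤ 2 * A.δ := by
        rw [e2]
        refine (norm_add_le _ _).trans ?_
        rw [norm_mul, norm_mul, RCLike.norm_conj, RCLike.norm_conj]
        have h1 : ‖a t k‖ * ‖a r k - al x f ζ k r‖ ≤ 1 * A.δ :=
          mul_le_mul (ha1 t k) (hd r hr') (norm_nonneg _) zero_le_one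
        have h2 : ‖a t k - al x f ζ k t‖ * ‖al x f ζ k r‖ ≤ A.δ * 1 :=
          mul_le_mul (hd t le_rfl) (al_le hn hx f ζ k r) (norm_nonneg _) hδ.le
        linarith
      rw [norm_smul, norm_mul]
      calc ‖(A.lam : ℂ)‖ * ‖a t k * conj (a r k) - al x f ζ k t * conj (al x f ζ k r)‖ * ‖U r‖
          ≤ 1 * (2 * A.δ) * 1 := by
            refine mul_le_mul (mul_le_mul hlam e3 (norm_nonneg _) zero_le_one) (hU1 r)
              (norm_nonneg _) (by linarith)
        _ = 2 * A.δ := by ring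
    refine (Finset.sum_le_card_nsmul _ _ _ hterm).trans ?_
    rw [Finset.card_range, nsmul_eq_mul]
    have h3 : ((t + 1 : ℕ) : ℝ) ≤ A.T := by exact_mod_cast ht
    exact mul_le_mul_of_nonneg_right h3 (by linarith)
  rw [hdec]
  refine (norm_sub_le _ _).trans ?_
  have n12 := norm_add_le (((A.lam : ℂ) * (al x f ζ k t - a t k)) • xv x k)
    (((Real.sqrt n : ℝ) : ℂ) • ∑ r ∈ Finset.range (t + 1),
        ((A.lam : ℂ) * (a t k * conj (a r k) - al x f ζ k t * conj (al x f ζ k r))) • U r)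
  have hT : (1 : ℝ) ≤ A.T := by exact_mod_cast A.hT
  have hds : 0 < A.δ * Real.sqrt n := mul_pos hδ hsn
  have h5 : 0 ≤ (A.T - 1 : ℝ) * (A.δ * Real.sqrt n) := mul_nonneg (by linarith) hds.le
  have h6 : Real.sqrt n * (A.T * (2 * A.δ)) = 2 * (A.T * (A.δ * Real.sqrt n)) := by ring
  have h7 : 4 * A.T * A.δ * Real.sqrt n = 4 * (A.T * (A.δ * Real.sqrt n)) := by ring
  rw [h6] at n2
  rw [h7]
  linarith

theorem err_sum (A : Par L) (hn : 0 < n) {J : Finset (Fin n)} {x s : Fin n → ℂ} (hx : ∀ j, ‖x j‖ = 1)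
    {a : ℕ → Fin L → ℂ} (ha : a ∈ A.gss) {ζ : Hs L n} {g : ℕ → VV L n}
    (hζ : ∀ t < A.T, ζ t = rG ((A.pr a).f J s) ((A.pr a).b J s A.lam x) (g t) t ζ)
    (hC : Cons A.δ x a ((A.pr a).f J s) ζ A.T) (hP : GoodP A ((A.pr a).f J s) g ζ) {t : ℕ} (ht : t ≤ A.T)
    {l : Fin L} (hl : nr a t l ≠ 0) :
    ∑ j : Fin n, ‖(∑ s ∈ Finset.range t, ww a t s l * ζ s l j) -
      ((mm A.lam a t l : ℂ) * x j ^ ((l : ℕ) + 1) + ∑ s ∈ Finset.range t, ww a t s l * g s l j)‖ ^ 2 ≤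
      (4 * A.T ^ 2 * A.δ) ^ 2 * n := by
  set f := (A.pr a).f J s with hf
  have ha1 : ∀ t k, ‖a t k‖ ≤ 1 := fun t k => A.le_one _ (ha.1 t k)
  have hn0 : (0 : ℝ) < n := by exact_mod_cast hn
  have hsn : 0 < Real.sqrt n := Real.sqrt_pos.2 hn0
  have hδ := A.hδ
  have hT : (1 : ℝ) ≤ A.T := by exact_mod_cast A.hT
  have hnr : 0 < nr a t l := lt_of_le_of_ne (nr_nonneg a t l) (Ne.symm hl)
  have hnrC : ((nr a t l : ℝ) : ℂ) ≠ 0 := by exact_mod_cast hl
  have hD : ∀ r < t, a r l ≠ 0 →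
      ‖ζ r l - (((A.lam : ℂ) * a r l) • xv x l + g r l)‖ ≤ 4 * A.T * A.δ * Real.sqrt n :=
    fun r hr h0 => err_one A hn hx ha (by omega) (hζ r (by omega)) hC (hP r (by omega) l) h0
  have hB : 0 ≤ 4 * A.T * A.δ * Real.sqrt n := by positivity
  set V : E n := ∑ r ∈ Finset.range t, ww a t r l • (ζ r l - (((A.lam : ℂ) * a r l) • xv x l + g r l))
    with hV
  have hVj : ∀ j : Fin n, V j = ∑ r ∈ Finset.range t,
      ww a t r l * (ζ r l j - ((A.lam : ℂ) * a r l * x j ^ ((l : ℕ) + 1) + g r l j)) := by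
    intro j
    have h1 := map_sum (EuclideanSpace.proj (𝕜 := ℂ) j : E n →L[ℂ] ℂ)
      (fun r => ww a t r l • (ζ r l - (((A.lam : ℂ) * a r l) • xv x l + g r l))) (Finset.range t)
    exact h1
  have hsum : ∑ r ∈ Finset.range t, ww a t r l * ((A.lam : ℂ) * a r l) = (mm A.lam a t l : ℂ) := by
    have h1 : ∀ r ∈ Finset.range t, ww a t r l * ((A.lam : ℂ) * a r l) =
        ((A.lam : ℂ) / (nr a t l : ℂ)) * ((‖a r l‖ ^ 2 : ℝ) : ℂ) := by
      intro r _
      unfold ww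
      have h2 : conj (a r l) * a r l = ((‖a r l‖ ^ 2 : ℝ) : ℂ) := by
        rw [Complex.conj_mul', Complex.ofReal_pow]
      rw [← h2]
      field_simp
    rw [Finset.sum_congr rfl h1, ← Finset.mul_sum, ← Complex.ofReal_sum, ← nr_sq]
    unfold mm
    push_cast
    field_simp
  have hEq : ∀ j : Fin n, (∑ r ∈ Finset.range t, ww a t r l * ζ r l j) -
      ((mm A.lam a t l : ℂ) * x j ^ ((l : ℕ) + 1) + ∑ r ∈ Finset.range t, ww a t r l * g r l j) =
      V j := by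
    intro j
    rw [hVj, ← hsum, Finset.sum_mul, ← Finset.sum_add_distrib, ← Finset.sum_sub_distrib]
    refine Finset.sum_congr rfl fun r _ => ?_
    ring
  have hww : ∀ r < t, ‖ww a t r l‖ ≤ 1 := by
    intro r hr
    unfold ww
    rw [norm_div, RCLike.norm_conj, Complex.norm_real, Real.norm_eq_abs, abs_of_pos hnr,
      div_le_one hnr]
    refine Real.le_sqrt_of_sq_le ?_
    exact Finset.single_le_sum (f := fun s => ‖a s l‖ ^ 2) (fun s _ => sq_nonneg _)
      (Finset.mem_range.2 hr)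
  have hterm : ∀ r ∈ Finset.range t,
      ‖ww a t r l • (ζ r l - (((A.lam : ℂ) * a r l) • xv x l + g r l))‖ ≤
      4 * A.T * A.δ * Real.sqrt n := by
    intro r hr
    rw [Finset.mem_range] at hr
    by_cases h0 : a r l = 0
    · have h1 : ww a t r l = 0 := by
        unfold ww
        rw [h0, map_zero, zero_div]
      rw [h1, zero_smul, norm_zero]
      exact hB
    · rw [norm_smul]
      calc ‖ww a t r l‖ * ‖ζ r l - (((A.lam : ℂ) * a r l) • xv x l + g r l)‖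
          ≤ 1 * (4 * A.T * A.δ * Real.sqrt n) :=
            mul_le_mul (hww r hr) (hD r hr h0) (norm_nonneg _) zero_le_one
        _ = _ := one_mul _
  have hVn : ‖V‖ ≤ A.T * (4 * A.T * A.δ * Real.sqrt n) := by
    refine (norm_sum_le _ _).trans ((Finset.sum_le_card_nsmul _ _ _ hterm).trans ?_)
    rw [Finset.card_range, nsmul_eq_mul]
    have h3 : ((t : ℕ) : ℝ) ≤ A.T := by exact_mod_cast ht
    exact mul_le_mul_of_nonneg_right h3 hB
  rw [Finset.sum_congr rfl fun j _ => by rw [hEq j], ← nsq_E]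
  calc ‖V‖ ^ 2 ≤ (A.T * (4 * A.T * A.δ * Real.sqrt n)) ^ 2 :=
        pow_le_pow_left₀ (norm_nonneg _) hVn 2
    _ = (4 * A.T ^ 2 * A.δ) ^ 2 * (Real.sqrt n) ^ 2 := by ring
    _ = _ := by rw [Real.sq_sqrt hn0.le]

end H69.SR
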