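import Pool.Agent.H69.SR.Base

/-!
# Module GLaw: equality of two linear images of standard Gaussian measures

Proof. Both sides are probability measures; `Measure.ext_of_charFunDual` (Mathlib/MeasureTheory/Measure/CharacteristicFunction/Basic.lean); `F` is complete and
second countable (`FiniteDimensional.complete`, `FiniteDimensional.proper_real`). For `l : StrongDual ℝ F`: `charFunDual (μ.map A) l = ∫ exp(i l(A z)) dμ(z)` and
`l (A z) = ∑ i, z i * l (A (Pi.single i 1))`, so it is `∏ i, charFun (gaussianReal 0 1) (l (A e_i)) = exp(-(1/2) ∑ i, (l (A e_i))^2)`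
(`integral_fintype_prod_eq_prod`, `charFun_gaussianReal`), or use that `l ∘ A` has law `gaussianReal 0 (∑ ..)` (the same computation). For the product measure `B (g, z) = B (g, 0) + B (0, z)` and
`integral_prod_mul` (or `charFunDual_prod`): the exponent is `-(1/2)` times the right hand side of `h`. Model proof: Pool/Agent/H55/ML/Rot.lean
(`git archive origin/main Pool/Agent/H55`), Mathlib/Probability/Distributions/Gaussian/Multivariate.lean.
-/

set_option autoImplicit false

open MeasureTheory ProbabilityTheory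
open scoped BigOperators ComplexConjugate InnerProductSpace

namespace H69.SR

private lemma glaw_cfd_gauss (l : StrongDual ℝ ℝ) :
    charFunDual (gaussianReal 0 1) l = Complex.exp (-((l 1 : ℝ) : ℂ) ^ 2 / 2) := by
  have h1 : charFunDual (gaussianReal 0 1) l = charFun (gaussianReal 0 1) (l 1) := by
    rw [charFunDual_apply, charFun_apply_real]
    congr 1
    ext v
    have : l v = l 1 * v := by
      have := l.map_smul v 1
      simp only [smul_eq_mul, mul_one] at this
      rw [this, mul_comm]
    rw [this]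
    push_cast
    rfl
  rw [h1, charFun_gaussianReal]
  congr 1
  push_cast
  ring

private lemma glaw_cfd {ι : Type} [Fintype ι] [DecidableEq ι] (l : StrongDual ℝ (ι → ℝ)) :
    charFunDual (gm ι) l =
      Complex.exp (-((∑ i, (l (Pi.single i 1)) ^ 2 : ℝ) : ℂ) / 2) := by
  unfold gm
  rw [charFunDual_pi]
  have h1 : ∀ i : ι, charFunDual (gaussianReal 0 1)
      (l.comp (ContinuousLinearMap.single ℝ (fun _ : ι => ℝ) i)) =
      Complex.exp (-((l (Pi.single i 1) : ℝ) : ℂ) ^ 2 / 2) := by
    intro i
    rw [glaw_cfd_gauss]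
    rfl
  rw [Finset.prod_congr rfl fun i _ => h1 i, ← Complex.exp_sum]
  congr 1
  push_cast
  rw [← Finset.sum_div, ← Finset.sum_neg_distrib]

theorem glaw {ι κ κ' F : Type} [Fintype ι] [Fintype κ] [Fintype κ'] [DecidableEq ι] [DecidableEq κ]
    [DecidableEq κ'] [NormedAddCommGroup F] [NormedSpace ℝ F] [FiniteDimensional ℝ F] [MeasurableSpace F]
    [BorelSpace F] (A : (ι → ℝ) →ₗ[ℝ] F) (B : ((κ → ℝ) × (κ' → ℝ)) →ₗ[ℝ] F)
    (h : ∀ l : F →L[ℝ] ℝ, ∑ i, (l (A (Pi.single i 1))) ^ 2 =
      ∑ j, (l (B (Pi.single j 1, 0))) ^ 2 + ∑ j, (l (B (0, Pi.single j 1))) ^ 2) :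
    (gm ι).map A = ((gm κ).prod (gm κ')).map B := by
  have hc : CompleteSpace F := FiniteDimensional.complete ℝ F
  have hp : ProperSpace F := FiniteDimensional.proper_real F
  have h1 : (gm ι).map A = (gm ι).map (LinearMap.toContinuousLinearMap A) := rfl
  have h2 : ((gm κ).prod (gm κ')).map B =
      ((gm κ).prod (gm κ')).map (LinearMap.toContinuousLinearMap B) := rfl
  rw [h1, h2]
  have i1 : IsProbabilityMeasure ((gm ι).map (LinearMap.toContinuousLinearMap A)) :=
    Measure.isProbabilityMeasure_map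
      (LinearMap.toContinuousLinearMap A).continuous.measurable.aemeasurable
  have i2 : IsProbabilityMeasure
      (((gm κ).prod (gm κ')).map (LinearMap.toContinuousLinearMap B)) :=
    Measure.isProbabilityMeasure_map
      (LinearMap.toContinuousLinearMap B).continuous.measurable.aemeasurable
  refine Measure.ext_of_charFunDual (funext fun l => ?_)
  rw [charFunDual_map, charFunDual_map, charFunDual_prod, glaw_cfd, glaw_cfd, glaw_cfd,
    ← Complex.exp_add]
  congr 1
  have h3 := h l
  have e1 : ∑ i, ((l.comp (LinearMap.toContinuousLinearMap A)) (Pi.single i 1)) ^ 2 =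
      ∑ i, (l (A (Pi.single i 1))) ^ 2 := rfl
  have e2 : ∑ j, (((l.comp (LinearMap.toContinuousLinearMap B)).comp
      (ContinuousLinearMap.inl ℝ (κ → ℝ) (κ' → ℝ))) (Pi.single j 1)) ^ 2 =
      ∑ j, (l (B (Pi.single j 1, 0))) ^ 2 := rfl
  have e3 : ∑ j, (((l.comp (LinearMap.toContinuousLinearMap B)).comp
      (ContinuousLinearMap.inr ℝ (κ → ℝ) (κ' → ℝ))) (Pi.single j 1)) ^ 2 =
      ∑ j, (l (B (0, Pi.single j 1))) ^ 2 := rfl
  rw [e1, e2, e3, h3]
  push_cast
  ring

theorem glaw' {ι κ F : Type} [Fintype ι] [Fintype κ] [DecidableEq ι] [DecidableEq κ]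
    [NormedAddCommGroup F] [NormedSpace ℝ F] [FiniteDimensional ℝ F] [MeasurableSpace F]
    [BorelSpace F] (A : (ι → ℝ) →ₗ[ℝ] F) (B : (κ → ℝ) →ₗ[ℝ] F)
    (h : ∀ l : F →L[ℝ] ℝ, ∑ i, (l (A (Pi.single i 1))) ^ 2 = ∑ j, (l (B (Pi.single j 1))) ^ 2) :
    (gm ι).map A = (gm κ).map B := by
  have hc : CompleteSpace F := FiniteDimensional.complete ℝ F
  have hp : ProperSpace F := FiniteDimensional.proper_real F
  have h1 : (gm ι).map A = (gm ι).map (LinearMap.toContinuousLinearMap A) := rfl
  have h2 : (gm κ).map B = (gm κ).map (LinearMap.toContinuousLinearMap B) := rfl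
  rw [h1, h2]
  have i1 : IsProbabilityMeasure ((gm ι).map (LinearMap.toContinuousLinearMap A)) :=
    Measure.isProbabilityMeasure_map
      (LinearMap.toContinuousLinearMap A).continuous.measurable.aemeasurable
  have i2 : IsProbabilityMeasure ((gm κ).map (LinearMap.toContinuousLinearMap B)) :=
    Measure.isProbabilityMeasure_map
      (LinearMap.toContinuousLinearMap B).continuous.measurable.aemeasurable
  refine Measure.ext_of_charFunDual (funext fun l => ?_)
  rw [charFunDual_map, charFunDual_map, glaw_cfd, glaw_cfd]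
  congr 1
  have h3 := h l
  have e1 : ∑ i, ((l.comp (LinearMap.toContinuousLinearMap A)) (Pi.single i 1)) ^ 2 =
      ∑ i, (l (A (Pi.single i 1))) ^ 2 := rfl
  have e2 : ∑ i, ((l.comp (LinearMap.toContinuousLinearMap B)) (Pi.single i 1)) ^ 2 =
      ∑ i, (l (B (Pi.single i 1))) ^ 2 := rfl
  rw [e1, e2, h3]

end H69.SR
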