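import Pool.Agent.H69.SR.GLaw
import Pool.Agent.H69.SR.KeyAlg

/-!
# Module Key: the law of `(Q W u, Q W Q)` for fixed `u`, `Q` (complete over GLaw, KeyAlg)
-/

set_option autoImplicit false

open MeasureTheory ProbabilityTheory
open scoped BigOperators ComplexConjugate InnerProductSpace

namespace H69.SR

variable {L n : ℕ}

theorem key (U : Fin L → ℕ → E n) (t : ℕ) (hU : ∀ k, OrtZ (U k)) (Ψ : VV L n × MM L n → ENNReal)
    (hΨ : Measurable Ψ) :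
    ∫⁻ z, Ψ (fun k => cop (U k) t (mv (Wm z k) (U k t)), fun k => qwq (U k) t (Wm z k)) ∂gm (Ix L n) =
      ∫⁻ g, ∫⁻ z, Ψ (fun k => ((‖U k t‖ : ℝ) : ℂ) • cop (U k) t (gv g k), fun k => qwq (U k) t (Wm z k))
        ∂gm (Ix L n) ∂gm (Gx L n) := by
  classical
  have hA : Measurable (LA U t) := (LinearMap.continuous_of_finiteDimensional (LA U t)).measurable
  have hB : Measurable (LB U t) := (LinearMap.continuous_of_finiteDimensional (LB U t)).measurable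
  have h := glaw (LA U t) (LB U t) (key_alg U t hU)
  have h1 : ∫⁻ z, Ψ (LA U t z) ∂gm (Ix L n) = ∫⁻ p, Ψ p ∂((gm (Ix L n)).map (LA U t)) :=
    (lintegral_map hΨ hA).symm
  have h2 : ∫⁻ p, Ψ p ∂(((gm (Gx L n)).prod (gm (Ix L n))).map (LB U t)) =
      ∫⁻ p, Ψ (LB U t p) ∂((gm (Gx L n)).prod (gm (Ix L n))) := lintegral_map hΨ hB
  have h3 : ∫⁻ p, Ψ (LB U t p) ∂((gm (Gx L n)).prod (gm (Ix L n))) =
      ∫⁻ g, ∫⁻ z, Ψ (LB U t (g, z)) ∂gm (Ix L n) ∂gm (Gx L n) :=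
    lintegral_prod _ (hΨ.comp hB).aemeasurable
  have h4 : ∫⁻ z, Ψ (LA U t z) ∂gm (Ix L n) =
      ∫⁻ g, ∫⁻ z, Ψ (LB U t (g, z)) ∂gm (Ix L n) ∂gm (Gx L n) := by
    rw [h1, h, h2, h3]
  exact h4

end H69.SR
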