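import Pool.Agent.H69.SR.Alg

/-!
# Module PairsEx: disjoint pairs of frequencies

`K := k + 1` (the frequency), `M := L / 20`. Case `3 L < 8 K`: `c = false`, `p k i = i`, `q k i = k - i - 1` (frequencies `i + 1`, `K - i - 1`): `i < M ≤ L/20`, `k - i - 1 ≥ K - M - 1 ≥ M` (so `p ≠ q`), both `< k`.
Case `8 K ≤ 3 L`: `c = true`, `q k i = K + (i / K) * (2 K) + i % K` and `p k i = q k i + K` (frequencies one larger): `p = k + q + 1`. `2 K (i/K) + i % K = 2 i - i % K ≤ 2 i`, so
`p ≤ 2 K + 2 (M - 1) < L`. `q k i` lies in `[K + 2 K B, 2 K + 2 K B)`, `p k i` in `[2 K + 2 K B, 3 K + 2 K B)`, `B = i / K`: so all are different (`i` is determined by `B` and `i % K`), and all are `≥ K > k`.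
(`Nat.div_add_mod`, `Nat.mod_lt`; injectivity: from `2 K B + r = 2 K B' + r'`, `r, r' < K` follows `B = B'`, `r = r'`.)
-/

set_option autoImplicit false

namespace H69.SR

private def qn (L k i : ℕ) : ℕ :=
  if 3 * L < 8 * (k + 1) then k - i - 1 else (k + 1) + ((k + 1) * (i / (k + 1)) * 2 + i % (k + 1))

private def pn (L k i : ℕ) : ℕ := if 3 * L < 8 * (k + 1) then i else k + qn L k i + 1

private theorem nl1 {K B r B' r' : ℕ} (hr : r < K) (hr' : r' < K)
    (h : K * B * 2 + r = K * B' * 2 + r') : B = B' ∧ r = r' := by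
  have hB : B = B' := by
    rcases lt_trichotomy B B' with hlt | heq | hgt
    · have h1 := Nat.mul_le_mul_left K (Nat.succ_le_of_lt hlt)
      rw [Nat.mul_succ] at h1
      omega
    · exact heq
    · have h1 := Nat.mul_le_mul_left K (Nat.succ_le_of_lt hgt)
      rw [Nat.mul_succ] at h1
      omega
  subst hB
  exact ⟨rfl, by omega⟩

private theorem nl2 {K B r B' r' : ℕ} (hr : r < K) (hr' : r' < K) :
    K + (K * B * 2 + r) ≠ K * B' * 2 + r' := by
  intro h
  rcases lt_or_ge B B' with hlt | hge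
  · have h1 := Nat.mul_le_mul_left K (Nat.succ_le_of_lt hlt)
    rw [Nat.mul_succ] at h1
    omega
  · have h1 := Nat.mul_le_mul_left K hge
    omega

private theorem bound {L k i : ℕ} (hi : i < L / 20) (h : ¬ 3 * L < 8 * (k + 1)) :
    k + qn L k i + 1 < L := by
  unfold qn
  rw [if_neg h]
  have h1 := Nat.div_add_mod i (k + 1)
  omega

private theorem hq {L k i : ℕ} (hk : k < L) (hi : i < L / 20) : qn L k i < L := by
  by_cases h : 3 * L < 8 * (k + 1)
  · unfold qn
    rw [if_pos h]
    omega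
  · have := bound hi h
    omega

private theorem hp {L k i : ℕ} (hi : i < L / 20) : pn L k i < L := by
  unfold pn
  split_ifs with h
  · omega
  · exact bound hi h

theorem prs_ex (L : ℕ) : Nonempty (Prs L (L / 20)) := by
  refine ⟨⟨fun k i => ⟨pn L k i, hp i.2⟩, fun k i => ⟨qn L k i, hq k.2 i.2⟩,
    fun k _ => decide (¬ 3 * L < 8 * ((k : ℕ) + 1)), ?_, ?_, ?_, ?_, ?_, ?_, ?_⟩⟩
  · intro k i hc
    have h : 3 * L < 8 * ((k : ℕ) + 1) := by simpa using hc
    have hi := i.2
    simp only [pn, qn, if_pos h]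
    omega
  · intro k i hc
    have h : ¬ 3 * L < 8 * ((k : ℕ) + 1) := by simpa using hc
    simp only [pn, if_neg h]
  · intro k i i' hii
    have hii' : pn L k i = pn L k i' := congrArg Fin.val hii
    have hi := i.2
    have hi' := i'.2
    apply Fin.ext
    by_cases h : 3 * L < 8 * ((k : ℕ) + 1)
    · simpa only [pn, if_pos h] using hii'
    · simp only [pn, qn, if_neg h] at hii'
      have h1 := nl1 (Nat.mod_lt (i : ℕ) (Nat.succ_pos (k : ℕ)))
        (Nat.mod_lt (i' : ℕ) (Nat.succ_pos (k : ℕ)))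
        (B := (i : ℕ) / ((k : ℕ) + 1)) (B' := (i' : ℕ) / ((k : ℕ) + 1)) (by
          simp only [Nat.succ_eq_add_one]
          omega)
      have h2 := Nat.div_add_mod (i : ℕ) ((k : ℕ) + 1)
      have h3 := Nat.div_add_mod (i' : ℕ) ((k : ℕ) + 1)
      rw [← h2, ← h3, h1.1]
      have h4 := h1.2
      simp only [Nat.succ_eq_add_one] at h4
      rw [h4]
  · intro k i i' hii
    have hii' : qn L k i = qn L k i' := congrArg Fin.val hii
    have hi := i.2
    have hi' := i'.2
    apply Fin.ext
    by_cases h : 3 * L < 8 * ((k : ℕ) + 1)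
    · simp only [qn, if_pos h] at hii'
      omega
    · simp only [qn, if_neg h] at hii'
      have h1 := nl1 (Nat.mod_lt (i : ℕ) (Nat.succ_pos (k : ℕ)))
        (Nat.mod_lt (i' : ℕ) (Nat.succ_pos (k : ℕ)))
        (B := (i : ℕ) / ((k : ℕ) + 1)) (B' := (i' : ℕ) / ((k : ℕ) + 1)) (by
          simp only [Nat.succ_eq_add_one]
          omega)
      have h2 := Nat.div_add_mod (i : ℕ) ((k : ℕ) + 1)
      have h3 := Nat.div_add_mod (i' : ℕ) ((k : ℕ) + 1)
      rw [← h2, ← h3, h1.1]
      have h4 := h1.2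
      simp only [Nat.succ_eq_add_one] at h4
      rw [h4]
  · intro k i i' hii
    have hii' : pn L k i = qn L k i' := congrArg Fin.val hii
    have hi := i.2
    have hi' := i'.2
    by_cases h : 3 * L < 8 * ((k : ℕ) + 1)
    · simp only [pn, qn, if_pos h] at hii'
      omega
    · simp only [pn, qn, if_neg h] at hii'
      refine nl2 (Nat.mod_lt (i : ℕ) (Nat.succ_pos (k : ℕ)))
        (Nat.mod_lt (i' : ℕ) (Nat.succ_pos (k : ℕ)))
        (B := (i : ℕ) / ((k : ℕ) + 1)) (B' := (i' : ℕ) / ((k : ℕ) + 1)) ?_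
      simp only [Nat.succ_eq_add_one]
      omega
  · intro k i hki
    have hki' : pn L k i = k := congrArg Fin.val hki
    have hi := i.2
    by_cases h : 3 * L < 8 * ((k : ℕ) + 1)
    · simp only [pn, if_pos h] at hki'
      omega
    · simp only [pn, if_neg h] at hki'
      omega
  · intro k i hki
    have hki' : qn L k i = k := congrArg Fin.val hki
    have hi := i.2
    by_cases h : 3 * L < 8 * ((k : ℕ) + 1)
    · simp only [qn, if_pos h] at hki'
      omega
    · simp only [qn, if_neg h] at hki'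
      omega

end H69.SR
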