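import Pool.Agent.H69.SR.ParEx
import Pool.Agent.H69.SR.PairsEx

/-!
# Module Param: the choice of the parameters

`C := 3840/lam0^4`, `M := L/20` (natural division) `≥ L/40` for `L ≥ 20`, `θ := min (C (1-lam)^2/L) 1`. For `L ≥ L0`: `M lam^4 ≥ (L/40) lam0^4 ≥ 1152`. `gr`: `(1 - lam^2)^2 ≤ 4 (1-lam)^2`; if `θ = C (1-lam)^2/L`:
`θ M lam^4 ≥ C (1-lam)^2/L * (L/40) * lam0^4 = 96 (1-lam)^2`; if `θ = 1`: `24 ≤ 1152`. `D` from `prs_ex L`. Last clause: `(lam L/4)^2 n/(2L) = lam^2 L n/32 ≥ lam0^2 L n/32` and `log (100 L^2 + 1) + 1 ≤ lam0^2 L/32` for large `L`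
(`isLittleO_log_id_atTop` or `Real.add_one_le_exp`-type estimate: `log (100 L^2+1) ≤ log 101 + 2 log L ≤ 5 + 4 √L`); `NN^n = exp(n log NN)`.
-/

set_option autoImplicit false

open MeasureTheory ProbabilityTheory
open scoped BigOperators ComplexConjugate InnerProductSpace

namespace H69.SR

private lemma Param_log {lam0 : ℝ} (h0 : 0 < lam0) {L : ℕ} (hL : 1 ≤ L) (h1 : (1024 / lam0 ^ 2) ^ 2 ≤ L) :
    Real.log (NN L) + 1 ≤ lam0 ^ 2 * L / 32 := by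
  have hL' : (1 : ℝ) ≤ L := by exact_mod_cast hL
  obtain ⟨u, hu⟩ : ∃ u, u = Real.sqrt L := ⟨_, rfl⟩
  have hu2 : u ^ 2 = L := by rw [hu]; exact Real.sq_sqrt (by linarith)
  have hu1 : 1 ≤ u := by rw [hu]; exact Real.one_le_sqrt.2 hL'
  have hu3 : 1024 / lam0 ^ 2 ≤ u := by rw [hu]; exact Real.le_sqrt_of_sq_le h1
  have h2 : (1024 : ℝ) ≤ lam0 ^ 2 * u := by
    rw [div_le_iff₀ (by positivity)] at hu3
    linarith
  have h3 : ((NN L : ℕ) : ℝ) ≤ (4 * u) ^ 4 := by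
    have e : (4 * u) ^ 4 = 256 * (L : ℝ) ^ 2 := by rw [← hu2]; ring
    rw [e]
    unfold NN
    push_cast
    nlinarith
  have hN : (0 : ℝ) < (NN L : ℕ) := by
    unfold NN
    push_cast
    positivity
  have h4 : Real.log (NN L) ≤ 16 * u := by
    calc Real.log (NN L) ≤ Real.log ((4 * u) ^ 4) := Real.log_le_log hN h3
      _ = 4 * Real.log (4 * u) := by rw [Real.log_pow]; norm_num
      _ ≤ 4 * (4 * u - 1) := by
        have := Real.log_le_sub_one_of_pos (show (0 : ℝ) < 4 * u by linarith)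
        linarith
      _ ≤ 16 * u := by linarith
  rw [← hu2]
  nlinarith

theorem param {lam0 : ℝ} (h0 : 0 < lam0) : ∃ (L0 : ℕ) (C : ℝ), 0 < C ∧ ∀ L ≥ L0, ∀ lam : ℝ, lam0 ≤ lam → lam < 1 →
    ∃ A : Par L, A.lam = lam ∧ A.θ ≤ C * (1 - lam) ^ 2 / L ∧ ∀ n : ℕ,
      2 * (NN L : ℝ) ^ n * Real.exp (-((lam * L / 4) ^ 2 * n / (2 * L))) ≤ 2 * Real.exp (-n) := by
  refine ⟨⌈46080 / lam0 ^ 4 + (1024 / lam0 ^ 2) ^ 2⌉₊ + 40, 3840 / lam0 ^ 4, by positivity, ?_⟩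
  intro L hL lam hl hl1
  have hlam : 0 < lam := h0.trans_le hl
  have hL40 : 40 ≤ L := (Nat.le_add_left _ _).trans hL
  have hLr : (40 : ℝ) ≤ L := by exact_mod_cast hL40
  have hceil : 46080 / lam0 ^ 4 + (1024 / lam0 ^ 2) ^ 2 ≤ (L : ℝ) := by
    have h1 := Nat.le_ceil (46080 / lam0 ^ 4 + (1024 / lam0 ^ 2) ^ 2)
    have h2 : ((⌈46080 / lam0 ^ 4 + (1024 / lam0 ^ 2) ^ 2⌉₊ : ℕ) : ℝ) ≤ L := by
      exact_mod_cast (Nat.le_add_right _ _).trans hL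
    linarith
  have hp1 : 0 ≤ 46080 / lam0 ^ 4 := by positivity
  have hp2 : 0 ≤ (1024 / lam0 ^ 2) ^ 2 := by positivity
  have hM0 : (L : ℝ) / 40 ≤ ((L / 20 : ℕ) : ℝ) := by
    have h1 : L ≤ 20 * (L / 20) + 19 := by omega
    have h2 : (L : ℝ) ≤ 20 * ((L / 20 : ℕ) : ℝ) + 19 := by exact_mod_cast h1
    linarith
  have hl4 : lam0 ^ 4 ≤ lam ^ 4 := pow_le_pow_left₀ h0.le hl 4
  have h04 : 0 < lam0 ^ 4 := by positivity
  have hML : (L : ℝ) / 40 * lam0 ^ 4 ≤ ((L / 20 : ℕ) : ℝ) * lam ^ 4 :=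
    mul_le_mul hM0 hl4 h04.le (Nat.cast_nonneg _)
  have hM : (1152 : ℝ) ≤ ((L / 20 : ℕ) : ℝ) * lam ^ 4 := by
    refine le_trans ?_ hML
    have h3 : 46080 / lam0 ^ 4 ≤ (L : ℝ) := by linarith
    rw [div_le_iff₀ h04] at h3
    linarith
  obtain ⟨D⟩ := prs_ex L
  have hLpos : (0 : ℝ) < L := by linarith
  have h1l : 0 < (1 - lam) ^ 2 := by
    have : 0 < 1 - lam := by linarith
    positivity
  have hθ0 : 0 < 3840 / lam0 ^ 4 * (1 - lam) ^ 2 / L := by positivity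
  have hsq : (1 - lam ^ 2) ^ 2 ≤ 4 * (1 - lam) ^ 2 := by
    have e : (1 - lam ^ 2) ^ 2 = (1 + lam) ^ 2 * (1 - lam) ^ 2 := by ring
    rw [e]
    refine mul_le_mul_of_nonneg_right ?_ h1l.le
    nlinarith
  have hsq1 : (1 - lam ^ 2) ^ 2 ≤ 1 := by
    have h5 : 0 ≤ 1 - lam ^ 2 := by nlinarith
    have h6 : 1 - lam ^ 2 ≤ 1 := by nlinarith [sq_nonneg lam]
    exact pow_le_one₀ h5 h6
  have hgr : 24 * (1 - lam ^ 2) ^ 2 ≤
      min (3840 / lam0 ^ 4 * (1 - lam) ^ 2 / L) 1 * (((L / 20 : ℕ) : ℝ) * lam ^ 4) := by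
    rcases min_choice (3840 / lam0 ^ 4 * (1 - lam) ^ 2 / (L : ℝ)) 1 with h | h
    · rw [h]
      calc 24 * (1 - lam ^ 2) ^ 2 ≤ 24 * (4 * (1 - lam) ^ 2) := by linarith
        _ = 3840 / lam0 ^ 4 * (1 - lam) ^ 2 / L * ((L : ℝ) / 40 * lam0 ^ 4) := by
          field_simp
          ring
        _ ≤ _ := mul_le_mul_of_nonneg_left hML hθ0.le
    · rw [h]
      linarith
  obtain ⟨A, hA1, hA2⟩ := par_ex D (by omega) (Nat.div_le_self L 20) hlam hl1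
    (lt_min hθ0 one_pos) (min_le_right _ _) hM hgr
  refine ⟨A, hA1, ?_, ?_⟩
  · rw [hA2]
    exact min_le_left _ _
  · intro n
    have hlog := Param_log h0 (L := L) (by omega) (by linarith)
    have hN : (0 : ℝ) < (NN L : ℕ) := by
      unfold NN
      push_cast
      positivity
    have hl2 : lam0 ^ 2 ≤ lam ^ 2 := pow_le_pow_left₀ h0.le hl 2
    have e1 : ((NN L : ℕ) : ℝ) ^ n = Real.exp (n * Real.log (NN L)) := by
      rw [Real.exp_nat_mul, Real.exp_log hN]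
    rw [e1, mul_assoc, ← Real.exp_add]
    refine mul_le_mul_of_nonneg_left (Real.exp_le_exp.2 ?_) zero_le_two
    have e2 : (lam * L / 4) ^ 2 * n / (2 * L) = n * (lam ^ 2 * L / 32) := by
      field_simp
      ring
    rw [e2]
    have hn : (0 : ℝ) ≤ n := Nat.cast_nonneg _
    have h7 : Real.log (NN L) + 1 ≤ lam ^ 2 * L / 32 := by
      refine hlog.trans ?_
      have := mul_le_mul_of_nonneg_right hl2 hLpos.le
      linarith
    nlinarith [mul_le_mul_of_nonneg_left h7 hn]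

end H69.SR
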