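import Pool.Agent.H28.LinearDegreeModel
import Pool.Agent.H69.SR.Core
import Pool.Agent.H69.SR.Param

/-!
# Seeds and rounds (MP_634cec): the theorem for the model of the problem (complete over the modules)
-/

set_option autoImplicit false

open MeasureTheory ProbabilityTheory
open scoped BigOperators ComplexConjugate

namespace H69.SR

open Pool.Agent.Results.MP_634cec_lc.LinearDegree
open Pool.Agent.H28.Schur (inv_entry mul_entry)

/-- the observed matrices (blocks of size one) as families of plain matrices -/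
noncomputable def mat {L n : ℕ}
    (Y : ∀ _ : Fin L, Matrix (Fin n × Fin 1) (Fin n × Fin 1) ℂ) : Fin L → Fin n → Fin n → ℂ :=
  fun k i j => Y k (i, 0) (j, 0)

/-- reindexing of the noise coordinates -/
def eIx (L n : ℕ) : Coord n (fun _ : Fin L => 1) ≃ Ix L n where
  toFun c := (c.1, c.2.1.1, c.2.2.1.1, c.2.2.2)
  invFun c := ⟨c.1, ((c.2.1, 0), (c.2.2.1, 0), c.2.2.2)⟩
  left_inv := by
    rintro ⟨k, ⟨i, a⟩, ⟨j, b⟩, c⟩
    have ha : a = 0 := Subsingleton.elim _ _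
    have hb : b = 0 := Subsingleton.elim _ _
    subst ha hb
    rfl
  right_inv := fun _ => rfl

/-- the reindexed noise -/
def nz {L n : ℕ} (z : Coord n (fun _ : Fin L => 1) → ℝ) : Ix L n → ℝ := fun c => z ((eIx L n).symm c)

lemma nz_mp (L n : ℕ) : MeasurePreserving (nz : (Coord n (fun _ : Fin L => 1) → ℝ) → Ix L n → ℝ)
    (Measure.pi fun _ => gaussianReal 0 1) (gm (Ix L n)) := by
  have h := measurePreserving_piCongrLeft (fun _ : Ix L n => gaussianReal 0 1) (eIx L n)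
  exact h

lemma norm_chi {L : ℕ} {G : Type} [Group G] (ρ : ∀ _ : Fin L, G →* Matrix.unitaryGroup (Fin 1) ℂ) {χ : G → ℂ}
    (hL : 1 ≤ L) (hχ : ∀ k g, (ρ k g : Matrix (Fin 1) (Fin 1) ℂ) 0 0 = χ g ^ ((k : ℕ) + 1)) (g : G) :
    ‖χ g‖ = 1 := by
  have h0 := hχ ⟨0, hL⟩ g
  simp only [zero_add, pow_one] at h0
  have h2 := (Matrix.mem_unitaryGroup_iff.1 (ρ ⟨0, hL⟩ g).2)
  have h3 := congrFun (congrFun h2 0) 0
  rw [Matrix.mul_apply] at h3
  simp only [Finset.univ_unique, Fin.default_eq_zero, Finset.sum_singleton, Matrix.star_apply,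
    Matrix.one_apply_eq] at h3
  have h4 : (ρ ⟨0, hL⟩ g : Matrix (Fin 1) (Fin 1) ℂ) 0 0 * conj ((ρ ⟨0, hL⟩ g : Matrix (Fin 1) (Fin 1) ℂ) 0 0) = 1 := h3
  rw [h0, Complex.mul_conj, Complex.normSq_eq_norm_sq] at h4
  have h5 : ‖χ g‖ ^ 2 = 1 := by exact_mod_cast h4
  nlinarith [norm_nonneg (χ g)]

lemma mat_obs {L n : ℕ} {G : Type} [Group G] (ρ : ∀ _ : Fin L, G →* Matrix.unitaryGroup (Fin 1) ℂ) {χ : G → ℂ}
    (hχ : ∀ k g, (ρ k g : Matrix (Fin 1) (Fin 1) ℂ) 0 0 = χ g ^ ((k : ℕ) + 1)) (lam : ℝ) (g : Fin n → G)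
    (z : Coord n (fun _ : Fin L => 1) → ℝ) :
    mat (obs (d := fun _ : Fin L => 1) ρ lam g z) = Yo lam (fun j => χ (g j)) (nz z) := by
  funext k i j
  have h1 : (ρ k (g i * (g j)⁻¹) : Matrix (Fin 1) (Fin 1) ℂ) 0 0 =
      χ (g i) ^ ((k : ℕ) + 1) * conj (χ (g j) ^ ((k : ℕ) + 1)) := by
    rw [mul_entry]
    simp only [Finset.univ_unique, Fin.default_eq_zero, Finset.sum_singleton]
    rw [inv_entry, hχ, hχ]
  have h2 : (1 / Real.sqrt ((n : ℝ) * ((1 : ℕ) : ℝ))) = 1 / Real.sqrt n := by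
    rw [Nat.cast_one, mul_one]
  simp only [mat, obs, Matrix.add_apply, Matrix.smul_apply, smul_eq_mul, signal, gue, Matrix.of_apply, Yo]
  rw [h1, h2]
  rfl

theorem seeds_rounds (lam0 : ℝ) (h0 : 0 < lam0) : ∃ (L0 : ℕ) (C : ℝ), 0 < C ∧ ∀ L ≥ L0, ∀ lam : ℝ,
    lam0 ≤ lam → lam < 1 → ∃ P : Set (Proc L), P.Finite ∧
      (∀ p ∈ P, p.N = 100 * L ^ 2 + 1 ∧ ∀ t k, Continuous (p.Φ t k)) ∧ ∃ K : ℝ, ∀ n : ℕ, 1 ≤ n →
      ∀ J : Finset (Fin n), C * (1 - lam) ^ 2 / L * n ≤ J.card →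
      ∀ (G : Type) [Group G] (ρ : ∀ _ : Fin L, G →* Matrix.unitaryGroup (Fin 1) ℂ) (χ : G → ℂ),
        (∀ k g, (ρ k g : Matrix (Fin 1) (Fin 1) ℂ) 0 0 = χ g ^ ((k : ℕ) + 1)) → ∀ g : Fin n → G,
        (Measure.pi fun _ : Coord n (fun _ : Fin L => 1) => gaussianReal 0 1)
          {z | Accepts P (lam * L * n / 2) J (mat (obs (d := fun _ : Fin L => 1) ρ 0 g z))} ≤
            ENNReal.ofReal (K / n) ∧
        (Measure.pi fun _ : Coord n (fun _ : Fin L => 1) => gaussianReal 0 1)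
          {z | ¬ Accepts P (lam * L * n / 2) J (mat (obs (d := fun _ : Fin L => 1) ρ lam g z))} ≤
            ENNReal.ofReal (K / n) := by
  obtain ⟨L0, C, hC, hpar⟩ := param h0
  refine ⟨L0, C, hC, fun L hL lam hl0 hl1 => ?_⟩
  obtain ⟨A, hAl, hAθ, hexp⟩ := hpar L hL lam hl0 hl1
  refine ⟨PS A, (gss_finite A).image _, ?_, ((gss_finite A).toFinset.card : ℝ) * (cP A + cL A) + 2, ?_⟩
  · rintro p ⟨a, -, rfl⟩
    exact ⟨rfl, pr_cont A a⟩
  intro n hn J hJ G _ ρ χ hχ g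
  have hn0 : (0 : ℝ) < n := by exact_mod_cast hn
  have hcP : 0 ≤ cP A := by
    have := A.hδ
    unfold cP; positivity
  have hcL : 0 ≤ cL A := by
    have := A.hε
    have := A.hR
    unfold cL; positivity
  have hJ' : A.θ ≤ thJ J := by
    unfold thJ
    rw [le_div_iff₀ hn0]
    exact (mul_le_mul_of_nonneg_right hAθ hn0.le).trans hJ
  have hx : ∀ j, ‖χ (g j)‖ = 1 := fun j => norm_chi ρ A.hL hχ (g j)
  have he : Real.exp (-(n : ℝ)) ≤ 1 / n := by
    rw [le_div_iff₀ hn0]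
    have h1 : (n : ℝ) ≤ Real.exp n := (by linarith [Real.add_one_le_exp (n : ℝ)])
    calc Real.exp (-(n : ℝ)) * n ≤ Real.exp (-(n : ℝ)) * Real.exp n :=
          mul_le_mul_of_nonneg_left h1 (Real.exp_pos _).le
      _ = 1 := by rw [← Real.exp_add]; simp
  have hE : 2 * (NN L : ℝ) ^ n * Real.exp (-((A.lam * L / 4) ^ 2 * n / (2 * L))) ≤ 2 / n := by
    have h1 := hexp n
    rw [← hAl] at h1
    refine h1.trans ?_
    have : 2 / (n : ℝ) = 2 * (1 / n) := by ring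
    rw [this]
    linarith
  have hmp := nz_mp L n
  have hle : ∀ S : Set (Ix L n → ℝ), (Measure.pi fun _ : Coord n (fun _ : Fin L => 1) => gaussianReal 0 1)
      (nz ⁻¹' S) ≤ gm (Ix L n) S := by
    intro S
    rw [← hmp.map_eq]
    exact Measure.le_map_apply hmp.measurable.aemeasurable S
  constructor
  · have hset : {z : Coord n (fun _ : Fin L => 1) → ℝ |
        Accepts (PS A) (lam * L * n / 2) J (mat (obs (d := fun _ : Fin L => 1) ρ 0 g z))} =
        nz ⁻¹' {z | Accepts (PS A) (A.lam * L * n / 2) J (Yo 0 (fun j => χ (g j)) z)} := by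
      ext z
      rw [Set.mem_ofPred_eq, mat_obs ρ hχ, Set.mem_preimage, Set.mem_ofPred_eq, hAl]
    rw [hset]
    refine ((hle _).trans (core_null A (by omega) J _)).trans (ENNReal.ofReal_le_ofReal ?_)
    refine hE.trans (div_le_div_of_nonneg_right ?_ hn0.le)
    have : (0 : ℝ) ≤ ((gss_finite A).toFinset.card : ℝ) * (cP A + cL A) := by positivity
    linarith
  · have hset : {z : Coord n (fun _ : Fin L => 1) → ℝ |
        ¬ Accepts (PS A) (lam * L * n / 2) J (mat (obs (d := fun _ : Fin L => 1) ρ lam g z))} =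
        nz ⁻¹' {z | ¬ Accepts (PS A) (A.lam * L * n / 2) J (Yo A.lam (fun j => χ (g j)) z)} := by
      ext z
      rw [Set.mem_ofPred_eq, mat_obs ρ hχ, Set.mem_preimage, Set.mem_ofPred_eq, hAl]
    rw [hset]
    refine ((hle _).trans (core_planted A (by omega) hJ' hx)).trans ?_
    rw [← ENNReal.ofReal_add (by positivity) (by positivity)]
    refine ENNReal.ofReal_le_ofReal ?_
    have h3 : ((gss_finite A).toFinset.card : ℝ) * ((cP A + cL A) / n) + 2 / n =
        (((gss_finite A).toFinset.card : ℝ) * (cP A + cL A) + 2) / n := by ring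
    rw [← h3]
    linarith

end H69.SR
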