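import Pool.Agent.H69.SR.StdC
import Pool.Agent.H69.SR.GLaw

/-!
# Module Mix: a unit combination of independent standard Gaussian variables

Both sides are images of standard Gaussian measures under linear maps into `Fin L → ℂ` (`stdL_eq`, currying, `Measure.map_map`): `A : (Fin T × Fin L × Bool → ℝ) → (Fin L → ℂ)`,
`A z l = ∑ s, w s l * (z (s,l,true) + i z (s,l,false))/√2`, and `B : (Fin L × Bool → ℝ) → (Fin L → ℂ)`. `glaw'`: for a real functional `φ` of `Fin L → ℂ`, with `c l := φ(e_l) - i φ(i e_l)`, `φ v = Re ∑ c l v l`: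
`∑_(s,l,b) φ(A e_(s,l,b))^2 = (1/2) ∑_(s,l) (Re (c_l w_sl)^2 + Re (i c_l w_sl)^2) = (1/2) ∑_l |c_l|^2 ∑_s |w_sl|^2 = (1/2) ∑_l |c_l|^2`, the value for `B`.
Other proof: characteristic functions; `l` by `l` (the coordinates `l` are independent on both sides) and induction on `T`.
-/

set_option autoImplicit false

open MeasureTheory ProbabilityTheory
open scoped BigOperators ComplexConjugate InnerProductSpace

namespace H69.SR

/-- the linear map behind `stdL_eq` -/
private noncomputable def mixZ (L : ℕ) : ((Fin L × Bool) → ℝ) →ₗ[ℝ] (Fin L → ℂ) where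
  toFun z l := ((z (l, true) : ℂ) + (z (l, false) : ℂ) * Complex.I) / (Real.sqrt 2 : ℂ)
  map_add' x y := by
    funext l
    simp only [Pi.add_apply, Complex.ofReal_add]
    ring
  map_smul' c x := by
    funext l
    simp only [Pi.smul_apply, smul_eq_mul, Complex.ofReal_mul, RingHom.id_apply, Complex.real_smul]
    ring

private lemma mixZ_apply (L : ℕ) (z : (Fin L × Bool) → ℝ) (l : Fin L) :
    mixZ L z l = ((z (l, true) : ℂ) + (z (l, false) : ℂ) * Complex.I) / (Real.sqrt 2 : ℂ) := rfl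

/-- the linear map on the left hand side -/
private noncomputable def mixA (T L : ℕ) (w : Fin T → Fin L → ℂ) :
    ((Fin T × (Fin L × Bool)) → ℝ) →ₗ[ℝ] (Fin L → ℂ) where
  toFun z l := ∑ s, w s l * mixZ L (fun p => z (s, p)) l
  map_add' x y := by
    funext l
    simp only [mixZ_apply, Pi.add_apply, Complex.ofReal_add]
    rw [← Finset.sum_add_distrib]
    refine Finset.sum_congr rfl fun s _ => ?_
    ring
  map_smul' c x := by
    funext l
    simp only [mixZ_apply, Pi.smul_apply, smul_eq_mul, Complex.ofReal_mul, RingHom.id_apply,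
      Complex.real_smul]
    rw [Finset.mul_sum]
    refine Finset.sum_congr rfl fun s _ => ?_
    ring

private lemma mixA_apply (T L : ℕ) (w : Fin T → Fin L → ℂ) (z : (Fin T × (Fin L × Bool)) → ℝ)
    (l : Fin L) : mixA T L w z l = ∑ s, w s l * mixZ L (fun p => z (s, p)) l := rfl

private lemma mix_re (φ : ℂ →ₗ[ℝ] ℝ) (z : ℂ) : φ z = z.re * φ 1 + z.im * φ Complex.I := by
  have h : z = z.re • (1 : ℂ) + z.im • Complex.I := by
    rw [Complex.real_smul, Complex.real_smul, mul_one]
    exact (Complex.re_add_im z).symm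
  conv_lhs => rw [h]
  rw [map_add, map_smul, map_smul, smul_eq_mul, smul_eq_mul]

private lemma mix_psi (φ : ℂ →ₗ[ℝ] ℝ) (w : ℂ) :
    φ (w * (1 / (Real.sqrt 2 : ℂ))) ^ 2 + φ (w * (Complex.I / (Real.sqrt 2 : ℂ))) ^ 2 =
      ‖w‖ ^ 2 * (φ (1 / (Real.sqrt 2 : ℂ)) ^ 2 + φ (Complex.I / (Real.sqrt 2 : ℂ)) ^ 2) := by
  have h1 : w * (1 / (Real.sqrt 2 : ℂ)) = w / (Real.sqrt 2 : ℂ) := by ring
  have h2 : w * (Complex.I / (Real.sqrt 2 : ℂ)) = (w * Complex.I) / (Real.sqrt 2 : ℂ) := by ring
  have h3 : ‖w‖ ^ 2 = w.re ^ 2 + w.im ^ 2 := by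
    rw [← Complex.normSq_eq_norm_sq, Complex.normSq_apply]
    ring
  rw [h1, h2, mix_re φ (w / (Real.sqrt 2 : ℂ)), mix_re φ ((w * Complex.I) / (Real.sqrt 2 : ℂ)),
    mix_re φ (1 / (Real.sqrt 2 : ℂ)), mix_re φ (Complex.I / (Real.sqrt 2 : ℂ)), h3]
  simp only [Complex.div_ofReal_re, Complex.div_ofReal_im, Complex.one_re, Complex.one_im,
    Complex.I_re, Complex.I_im, Complex.mul_re, Complex.mul_im]
  ring

private lemma mix_Ze (L : ℕ) (l : Fin L) :
    mixZ L (Pi.single (l, true) 1) = Pi.single l (1 / (Real.sqrt 2 : ℂ)) ∧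
      mixZ L (Pi.single (l, false) 1) = Pi.single l (Complex.I / (Real.sqrt 2 : ℂ)) := by
  constructor
  · funext m
    rw [mixZ_apply]
    by_cases h : m = l
    · subst h
      simp
    · simp [h]
  · funext m
    rw [mixZ_apply]
    by_cases h : m = l
    · subst h
      simp
    · simp [h]

private lemma mix_Ae (T L : ℕ) (w : Fin T → Fin L → ℂ) (s : Fin T) (q : Fin L × Bool) :
    mixA T L w (Pi.single (s, q) 1) = fun l => w s l * mixZ L (Pi.single q 1) l := by
  funext l
  rw [mixA_apply, Finset.sum_eq_single s]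
  · have h0 : (fun p => (Pi.single (s, q) (1 : ℝ) : Fin T × (Fin L × Bool) → ℝ) (s, p)) =
        Pi.single q 1 := by
      funext p
      by_cases h : p = q
      · subst h
        simp
      · simp [h]
    rw [h0]
  · intro t _ ht
    have : (fun p => (Pi.single (s, q) (1 : ℝ) : Fin T × (Fin L × Bool) → ℝ) (t, p)) = 0 := by
      funext p
      simp [ht]
    rw [this, map_zero]
    simp
  · intro h
    exact absurd (Finset.mem_univ s) h

private lemma mix_Ae' (T L : ℕ) (w : Fin T → Fin L → ℂ) (s : Fin T) (l : Fin L) :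
    mixA T L w (Pi.single (s, (l, true)) 1) = Pi.single l (w s l * (1 / (Real.sqrt 2 : ℂ))) ∧
      mixA T L w (Pi.single (s, (l, false)) 1) =
        Pi.single l (w s l * (Complex.I / (Real.sqrt 2 : ℂ))) := by
  constructor
  · rw [mix_Ae, (mix_Ze L l).1]
    funext m
    by_cases h : m = l
    · subst h
      simp
    · simp [h]
  · rw [mix_Ae, (mix_Ze L l).2]
    funext m
    by_cases h : m = l
    · subst h
      simp
    · simp [h]

private lemma mix_curry (T : ℕ) (κ : Type) [Fintype κ] :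
    (gm (Fin T × κ)).map (fun z s p => z (s, p)) = Measure.pi fun _ : Fin T => gm κ := by
  have h := Measure.infinitePi_map_curry (ι := Fin T) (κ := κ) (X := ℝ)
    (μ := fun _ _ => gaussianReal 0 1)
  rw [Measure.infinitePi_eq_pi, Measure.infinitePi_eq_pi] at h
  have h2 : (fun _ : Fin T => Measure.infinitePi fun _ : κ => gaussianReal 0 1) =
      fun _ : Fin T => gm κ := by
    funext _
    rw [Measure.infinitePi_eq_pi]
    rfl
  rw [h2] at h
  exact h

theorem mix (T L : ℕ) (w : Fin T → Fin L → ℂ) (hw : ∀ l, ∑ s, ‖w s l‖ ^ 2 = 1) :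
    (Measure.pi fun _ : Fin T => stdL L).map (fun z l => ∑ s, w s l * z s l) = stdL L := by
  have hZ : stdL L = (gm (Fin L × Bool)).map (mixZ L) := stdL_eq L
  have hZm : Measurable (mixZ L) := by
    refine measurable_pi_iff.2 fun l => ?_
    simp only [mixZ_apply]
    fun_prop
  have h1 : (Measure.pi fun _ : Fin T => stdL L) =
      (Measure.pi fun _ : Fin T => gm (Fin L × Bool)).map (fun x s => mixZ L (x s)) := by
    rw [hZ]
    have : ∀ i : Fin T, SigmaFinite ((gm (Fin L × Bool)).map (mixZ L)) := by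
      intro _
      rw [← hZ]
      infer_instance
    exact (Measure.pi_map_pi (μ := fun _ : Fin T => gm (Fin L × Bool))
      (f := fun _ : Fin T => mixZ L) fun _ => hZm.aemeasurable).symm
  have hm1 : Measurable fun (x : Fin T → (Fin L × Bool) → ℝ) (s : Fin T) => mixZ L (x s) :=
    measurable_pi_iff.2 fun s => hZm.comp (measurable_pi_apply s)
  have hm2 : Measurable fun (z : Fin T → Fin L → ℂ) (l : Fin L) => ∑ s, w s l * z s l := by
    fun_prop
  have hm3 : Measurable fun (z : Fin T × (Fin L × Bool) → ℝ) (s : Fin T) (p : Fin L × Bool) =>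
      z (s, p) := by
    fun_prop
  rw [h1, ← mix_curry T (Fin L × Bool), Measure.map_map hm1 hm3, Measure.map_map hm2 (hm1.comp hm3)]
  have hA : ((fun (z : Fin T → Fin L → ℂ) (l : Fin L) => ∑ s, w s l * z s l) ∘
      ((fun (x : Fin T → (Fin L × Bool) → ℝ) (s : Fin T) => mixZ L (x s)) ∘
        fun (z : Fin T × (Fin L × Bool) → ℝ) (s : Fin T) (p : Fin L × Bool) => z (s, p))) =
      mixA T L w := rfl
  rw [hA, hZ]
  refine glaw' _ _ fun φ => ?_
  have hφ : ∀ (l : Fin L) (z : ℂ), φ (Pi.single l z) =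
      ((φ : (Fin L → ℂ) →ₗ[ℝ] ℝ).comp (LinearMap.single ℝ (fun _ : Fin L => ℂ) l)) z := fun l z => rfl
  rw [Fintype.sum_prod_type, Finset.sum_congr rfl fun s _ => Fintype.sum_prod_type _,
    Finset.sum_comm, Fintype.sum_prod_type]
  refine Finset.sum_congr rfl fun l _ => ?_
  rw [Finset.sum_congr rfl fun s _ => Fintype.sum_bool _, Fintype.sum_bool, (mix_Ze L l).1,
    (mix_Ze L l).2]
  rw [Finset.sum_congr rfl fun s _ => by rw [(mix_Ae' T L w s l).1, (mix_Ae' T L w s l).2, hφ, hφ,
    mix_psi]]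
  rw [← Finset.sum_mul, hw l, one_mul, hφ, hφ]

end H69.SR
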