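import Pool.Agent.H69.SR.Onb

/-!
# Module Mom: first and second moment of the combination without clipping

`v l = m l + z l`. With `p = D.p k i`, `q = D.q k i`, `w = wt (m p) (m q)`: `v p * cj c (v q) = m p m q + m p cj c (z q) + m q z p + z p cj c (z q)`, so
`NU D m k v = SS D m k + m k z k + ∑ i, w (m p cj c (z q) + m q z p + z p cj c (z q))` (`w m p m q = sh`, and `SS = m k ^ 2 + ∑ sh`).
In terms of `ee`: `z l = ee (Pi.single l 1) z`, `conj (z l) = ee (Pi.single l 2) z`, `z p cj c (z q) = ee (Pi.single p 1 + Pi.single q (1 or 2)) z` (`p ≠ q`), `1 = ee 0 z`. Index type `ι = Unit ⊕ Unit ⊕ (Fin M × Fin 3)`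
(constant, `z k`, the three monomials of the pair `i`); the multi-indices are pairwise different because all `p k i`, `q k i'`, `k` are different (`D.injp`, `D.injq`, `D.pq`, `D.pk`, `D.qk`). So `ee_mean` gives the mean `SS`, and `ee_sum`
`E |NU|^2 = SS^2 + m k ^ 2 + ∑ i, w^2 (m p ^ 2 + m q ^ 2 + 1) = SS^2 + SS`, because `w^2 (1 + m p ^ 2 + m q ^ 2) = sh (m p) (m q)`.
-/

set_option autoImplicit false

open MeasureTheory ProbabilityTheory
open scoped BigOperators ComplexConjugate InnerProductSpace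

namespace H69.SR

variable {L M : ℕ}

/-- exponent of the conjugated variable -/
private def momE (D : Prs L M) (k : Fin L) (i : Fin M) : Fin 3 := if D.c k i then 2 else 1

/-- multi-indices of the monomials of a pair -/
private def momP (D : Prs L M) (k : Fin L) (j : Fin M × Fin 3) (l : Fin L) : Fin 3 :=
  if j.2 ≠ 0 ∧ l = D.p k j.1 then 1 else if j.2 ≠ 1 ∧ l = D.q k j.1 then momE D k j.1 else 0

/-- multi-indices without the constant -/
private def momA (D : Prs L M) (k : Fin L) : Option (Fin M × Fin 3) → Fin L → Fin 3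
  | none => fun l => if l = k then 1 else 0
  | some j => momP D k j

/-- all multi-indices -/
private def momB (D : Prs L M) (k : Fin L) : Option (Option (Fin M × Fin 3)) → Fin L → Fin 3
  | none => 0
  | some j => momA D k j

private lemma mom_E_ne (D : Prs L M) (k : Fin L) (i : Fin M) : momE D k i ≠ 0 := by
  unfold momE
  split_ifs <;> decide

private lemma mom_P_k (D : Prs L M) (k : Fin L) (j : Fin M × Fin 3) : momP D k j k = 0 := by
  unfold momP
  rw [if_neg, if_neg]
  · rintro ⟨-, h⟩
    exact D.qk k j.1 h.symm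
  · rintro ⟨-, h⟩
    exact D.pk k j.1 h.symm

private lemma mom_P_p (D : Prs L M) (k : Fin L) (i i' : Fin M) (a : Fin 3) :
    momP D k (i, a) (D.p k i') = if a ≠ 0 ∧ i' = i then 1 else 0 := by
  unfold momP
  have h1 : ¬ (a ≠ 1 ∧ D.p k i' = D.q k i) := by
    rintro ⟨-, h⟩
    exact D.pq k i' i h
  simp only [(D.injp k).eq_iff]
  rw [if_neg h1]

private lemma mom_P_q (D : Prs L M) (k : Fin L) (i i' : Fin M) (a : Fin 3) :
    momP D k (i, a) (D.q k i') = if a ≠ 1 ∧ i' = i then momE D k i else 0 := by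
  unfold momP
  have h1 : ¬ (a ≠ 0 ∧ D.q k i' = D.p k i) := by
    rintro ⟨-, h⟩
    exact D.pq k i i' h.symm
  simp only [(D.injq k).eq_iff]
  rw [if_neg h1]

private lemma mom_P_ne (D : Prs L M) (k : Fin L) (j : Fin M × Fin 3) : momP D k j ≠ 0 := by
  obtain ⟨i, a⟩ := j
  intro h
  by_cases ha : a = 1
  · have h1 := congrFun h (D.p k i)
    rw [mom_P_p, if_pos ⟨by rw [ha]; decide, rfl⟩] at h1
    exact absurd h1 (by simp)
  · have h1 := congrFun h (D.q k i)
    rw [mom_P_q, if_pos ⟨ha, rfl⟩] at h1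
    exact mom_E_ne D k i h1

private lemma mom_P_inj (D : Prs L M) (k : Fin L) : Function.Injective (momP D k) := by
  rintro ⟨i, a⟩ ⟨i', a'⟩ h
  have hp : ∀ i0, (if a ≠ 0 ∧ i0 = i then (1 : Fin 3) else 0) = if a' ≠ 0 ∧ i0 = i' then 1 else 0 := by
    intro i0
    rw [← mom_P_p, ← mom_P_p, h]
  have hq : ∀ i0, (if a ≠ 1 ∧ i0 = i then momE D k i else 0) =
      if a' ≠ 1 ∧ i0 = i' then momE D k i' else 0 := by
    intro i0
    rw [← mom_P_q, ← mom_P_q, h]
  by_cases ha : a = 0
  · subst ha
    have h1 := hq i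
    rw [if_pos ⟨by decide, rfl⟩] at h1
    by_cases h2 : a' ≠ 1 ∧ i = i'
    · obtain ⟨h3, rfl⟩ := h2
      have h4 := hp i
      rw [if_neg (by simp)] at h4
      by_cases h5 : a' = 0
      · rw [h5]
      · rw [if_pos ⟨h5, rfl⟩] at h4
        exact absurd h4 (by decide)
    · rw [if_neg h2] at h1
      exact absurd h1 (mom_E_ne D k i)
  · have h1 := hp i
    rw [if_pos ⟨ha, rfl⟩] at h1
    by_cases h2 : a' ≠ 0 ∧ i = i'
    · obtain ⟨h3, rfl⟩ := h2
      have h4 := hq i
      by_cases h5 : a = 1
      · rw [if_neg (by simp [h5])] at h4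
        by_cases h6 : a' = 1
        · rw [h5, h6]
        · rw [if_pos ⟨h6, rfl⟩] at h4
          exact absurd h4.symm (mom_E_ne D k i)
      · rw [if_pos ⟨h5, rfl⟩] at h4
        by_cases h6 : a' = 1
        · rw [if_neg (by simp [h6])] at h4
          exact absurd h4 (mom_E_ne D k i)
        · have h7 : a = a' := by
            revert ha h5 h3 h6
            fin_cases a <;> fin_cases a' <;> simp
          rw [h7]
    · rw [if_neg h2] at h1
      exact absurd h1 (by decide)

private lemma mom_A_ne (D : Prs L M) (k : Fin L) (j : Option (Fin M × Fin 3)) : momA D k j ≠ 0 := by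
  cases j with
  | none =>
    intro h
    have h1 := congrFun h k
    simp [momA] at h1
  | some j => exact mom_P_ne D k j

private lemma mom_A_inj (D : Prs L M) (k : Fin L) : Function.Injective (momA D k) := by
  intro j j' h
  cases j with
  | none =>
    cases j' with
    | none => rfl
    | some j' =>
      have h1 := congrFun h k
      simp only [momA, if_true, mom_P_k] at h1
      exact absurd h1 (by decide)
  | some j =>
    cases j' with
    | none =>
      have h1 := congrFun h k
      simp only [momA, if_true, mom_P_k] at h1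
      exact absurd h1 (by decide)
    | some j' => rw [mom_P_inj D k h]

private lemma mom_B_inj (D : Prs L M) (k : Fin L) : Function.Injective (momB D k) := by
  intro j j' h
  cases j with
  | none =>
    cases j' with
    | none => rfl
    | some j' => exact absurd h.symm (mom_A_ne D k j')
  | some j =>
    cases j' with
    | none => exact absurd h (mom_A_ne D k j)
    | some j' => rw [mom_A_inj D k h]

private lemma mom_ph0 (z : ℂ) : ph 0 z = 1 := by simp [ph]

private lemma mom_ph1 (z : ℂ) : ph 1 z = z := by simp [ph]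

private lemma mom_phE (D : Prs L M) (k : Fin L) (i : Fin M) (z : ℂ) :
    ph (momE D k i) z = cj (D.c k i) z := by
  unfold momE cj ph
  cases D.c k i <;> simp

private lemma mom_ee0 (z : Fin L → ℂ) : ee 0 z = 1 := by
  unfold ee
  exact Finset.prod_eq_one fun l _ => mom_ph0 _

private lemma mom_eek (D : Prs L M) (k : Fin L) (z : Fin L → ℂ) : ee (momA D k none) z = z k := by
  unfold ee
  rw [Finset.prod_eq_single k]
  · simp [momA, mom_ph1]
  · intro l _ hl
    simp [momA, hl, mom_ph0]
  · intro h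
    exact absurd (Finset.mem_univ k) h

private lemma mom_ee_pq (D : Prs L M) (k : Fin L) (i : Fin M) (a : Fin 3) (z : Fin L → ℂ) :
    ee (momP D k (i, a)) z = (if a ≠ 0 then z (D.p k i) else 1) *
      (if a ≠ 1 then cj (D.c k i) (z (D.q k i)) else 1) := by
  unfold ee
  rw [Finset.prod_eq_mul (D.p k i) (D.q k i) (D.pq k i i)]
  · rw [mom_P_p, mom_P_q]
    simp only [and_true]
    congr 1
    · split_ifs
      · exact mom_ph1 _
      · exact mom_ph0 _
    · split_ifs
      · exact mom_phE D k i _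
      · exact mom_ph0 _
  · intro l _ hl
    have h1 : momP D k (i, a) l = 0 := by
      unfold momP
      rw [if_neg (fun h => hl.1 h.2), if_neg (fun h => hl.2 h.2)]
    rw [h1, mom_ph0]
  · intro h
    exact absurd (Finset.mem_univ _) h
  · intro h
    exact absurd (Finset.mem_univ _) h

/-- the coefficients -/
private noncomputable def momC (D : Prs L M) (m : Fin L → ℝ) (k : Fin L) : Option (Fin M × Fin 3) → ℝ
  | none => m k
  | some j => wt (m (D.p k j.1)) (m (D.q k j.1)) *
      (if j.2 = 0 then m (D.p k j.1) else if j.2 = 1 then m (D.q k j.1) else 1)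

private lemma mom_cj (c : Bool) (x : ℝ) (z : ℂ) : cj c ((x : ℂ) + z) = x + cj c z := by
  unfold cj
  cases c <;> simp

private lemma mom_wt (x y : ℝ) : wt x y * (x * y) = sh x y := by
  unfold wt sh
  ring

private lemma mom_wt_sq (x y : ℝ) : wt x y ^ 2 * (x ^ 2 + y ^ 2 + 1) = sh x y := by
  unfold wt sh
  have h : (1 + x ^ 2 + y ^ 2) ≠ 0 := by positivity
  field_simp
  ring

private lemma mom_NU (D : Prs L M) (m : Fin L → ℝ) (k : Fin L) (z : Fin L → ℂ) :
    NU D m k (fun l => m l + z l) =
      ((SS D m k : ℝ) : ℂ) + ∑ j, ((momC D m k j : ℝ) : ℂ) * ee (momA D k j) z := by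
  rw [Fintype.sum_option, mom_eek]
  simp only [momA, Fintype.sum_prod_type, Fin.sum_univ_three, mom_ee_pq, momC]
  unfold NU SS
  push_cast
  rw [mul_add, add_assoc]
  have h1 : ∀ i : Fin M, (wt (m (D.p k i)) (m (D.q k i)) : ℂ) *
      (((m (D.p k i) : ℂ) + z (D.p k i)) * cj (D.c k i) ((m (D.q k i) : ℂ) + z (D.q k i))) =
      ((sh (m (D.p k i)) (m (D.q k i)) : ℝ) : ℂ) +
      ((wt (m (D.p k i)) (m (D.q k i)) : ℂ) * m (D.p k i) * cj (D.c k i) (z (D.q k i)) +
      (wt (m (D.p k i)) (m (D.q k i)) : ℂ) * m (D.q k i) * z (D.p k i) +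
      (wt (m (D.p k i)) (m (D.q k i)) : ℂ) * (z (D.p k i) * cj (D.c k i) (z (D.q k i)))) := by
    intro i
    rw [mom_cj, ← mom_wt]
    push_cast
    ring
  simp only [h1, Finset.sum_add_distrib]
  simp
  ring

theorem NU_mean (D : Prs L M) (m : Fin L → ℝ) (k : Fin L) :
    Integrable (fun z => NU D m k (fun l => m l + z l)) (stdL L) ∧
      ∫ z, NU D m k (fun l => m l + z l) ∂stdL L = ((SS D m k : ℝ) : ℂ) := by
  simp only [mom_NU]
  exact ee_mean (momA D k) (fun j => ((momC D m k j : ℝ) : ℂ)) _ (mom_A_ne D k)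

theorem NU_sq (D : Prs L M) (m : Fin L → ℝ) (k : Fin L) :
    Integrable (fun z => ‖NU D m k (fun l => m l + z l)‖ ^ 2) (stdL L) ∧
      ∫ z, ‖NU D m k (fun l => m l + z l)‖ ^ 2 ∂stdL L = SS D m k ^ 2 + SS D m k := by
  have h1 : ∀ z : Fin L → ℂ, NU D m k (fun l => m l + z l) =
      ∑ j, (Option.elim j ((SS D m k : ℝ) : ℂ) fun j => ((momC D m k j : ℝ) : ℂ)) * ee (momB D k j) z := by
    intro z
    have h0 := Fintype.sum_option (fun j : Option (Option (Fin M × Fin 3)) =>
      (Option.elim j ((SS D m k : ℝ) : ℂ) fun j => ((momC D m k j : ℝ) : ℂ)) * ee (momB D k j) z)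
    rw [h0, mom_NU]
    simp only [Option.elim_none, Option.elim_some, momB, mom_ee0, mul_one]
  simp only [h1]
  obtain ⟨h2, h3⟩ := ee_sum (momB D k) (mom_B_inj D k)
    (fun j => Option.elim j ((SS D m k : ℝ) : ℂ) fun j => ((momC D m k j : ℝ) : ℂ))
  refine ⟨h2, h3.trans ?_⟩
  rw [Fintype.sum_option, Fintype.sum_option]
  simp only [Option.elim_none, Option.elim_some, Complex.norm_real, Real.norm_eq_abs, sq_abs,
    Fintype.sum_prod_type, Fin.sum_univ_three, momC]
  congr 1
  unfold SS
  congr 1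
  refine Finset.sum_congr rfl fun i _ => ?_
  rw [← mom_wt_sq]
  have e1 : ((1 : Fin 3) = 0) = False := by simp
  have e2 : ((2 : Fin 3) = 0) = False := by simp
  have e3 : ((2 : Fin 3) = 1) = False := by simp
  simp only [e1, e2, e3, if_true, if_false]
  ring

end H69.SR
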