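import Pool.Agent.H69.SR.Mom
import Pool.Agent.H69.SR.Clip

/-!
# Module MomC: the moments of the clipped map

Let `Δ z := NU D m k (clip R ∘ v) - NU D m k v`, `v l = m l + z l`, `0 ≤ m l ≤ 2`, `0 ≤ wt ≤ 1`. By `clip_sub`, `clip_le'`: `‖Δ z‖ ≤ (1/R) (2 ‖v k‖^2 + ∑ i, (‖v p‖^2 ‖v q‖ + ‖v p‖ ‖v q‖^2)) ≤ (2 M + 2)/R * (1 + ∑ l, ‖v l‖)^3`
and `‖v l‖ ≤ 2 + ‖z l‖`. So `∫ ‖Δ‖^2 ≤ C/R^2` with `C := (2 M + 2)^2 ∫ (1 + ∑ l, (2 + ‖z l‖))^6 ∂stdL L` (finite, independent of `m`; integrability from `stdL_int`: `(1 + ∑ ..)^6 ≤ (2 L + 1)^5 (1 + ∑ ..^6)` or similar).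
`FF = (NU + Δ)/(1 + SS)`: `‖∫ FF - SS/(1+SS)‖ ≤ ∫ ‖Δ‖ ≤ √C/R`; `∫ ‖FF‖^2 ≤ (√(∫‖NU‖^2) + √(∫‖Δ‖^2))^2/(1+SS)^2 ≤ SS/(1+SS) + 2 √(C)/R + C/R^2`
because `∫ ‖NU‖^2 = SS (1 + SS)` and `√(SS (1+SS)) ≤ 1 + SS` (or `‖a + b‖^2 ≤ (1 + η) ‖a‖^2 + (1 + 1/η) ‖b‖^2`). Choose `R` large.
-/

set_option autoImplicit false

open MeasureTheory ProbabilityTheory
open scoped BigOperators ComplexConjugate InnerProductSpace

namespace H69.SR

variable {L M : ℕ}

private lemma momC_int (L : ℕ) :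
    Integrable (fun z : Fin L → ℂ => (1 + ∑ l, (2 + ‖z l‖)) ^ 6) (stdL L) := by
  have h2 : ∀ l : Fin L, MemLp (fun z : Fin L → ℂ => z l) 6 (stdL L) := by
    intro l
    have hm : AEStronglyMeasurable (fun z : Fin L → ℂ => z l) (stdL L) :=
      (continuous_apply l).aestronglyMeasurable
    refine (integrable_norm_rpow_iff hm (by norm_num) (by norm_num)).1 ?_
    have h6 : (6 : ENNReal).toReal = ((6 : ℕ) : ℝ) := by simp
    rw [h6]
    simp only [Real.rpow_natCast]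
    exact stdL_int L 6 l
  have h3 : MemLp (fun z : Fin L → ℂ => 1 + ∑ l, (2 + ‖z l‖)) 6 (stdL L) := by
    refine (memLp_const (1 : ℝ)).add ?_
    refine memLp_finsetSum _ fun l _ => ?_
    exact (memLp_const (2 : ℝ)).add (h2 l).norm
  have h4 := (integrable_norm_rpow_iff h3.1 (by norm_num) (by norm_num)).2 h3
  have h6 : (6 : ENNReal).toReal = ((6 : ℕ) : ℝ) := by simp
  rw [h6] at h4
  simp only [Real.rpow_natCast] at h4
  refine h4.congr (Filter.Eventually.of_forall fun z => ?_)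
  have : (0 : ℝ) ≤ 1 + ∑ l, (2 + ‖z l‖) := by positivity
  simp only [Real.norm_eq_abs, abs_of_nonneg this]

private lemma momC_wt {x y : ℝ} (hx : 0 ≤ x) (hy : 0 ≤ y) : 0 ≤ wt x y ∧ wt x y ≤ 1 := by
  unfold wt
  refine ⟨by positivity, ?_⟩
  rw [div_le_one (by positivity)]
  nlinarith [sq_nonneg (x - y)]

private lemma momC_sh (x y : ℝ) : 0 ≤ sh x y := by
  unfold sh
  positivity

private lemma momC_cj_norm (c : Bool) (z : ℂ) : ‖cj c z‖ = ‖z‖ := by
  unfold cj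
  split <;> simp

private lemma momC_cj_sub (c : Bool) (z w : ℂ) : cj c z - cj c w = cj c (z - w) := by
  unfold cj
  split <;> simp

private lemma momC_delta (D : Prs L M) {R : ℝ} (hR : 0 < R) {m : Fin L → ℝ}
    (hm : ∀ l, 0 ≤ m l ∧ m l ≤ 2) (k : Fin L) (v : Fin L → ℂ) :
    ‖NU D m k (fun l => clip R (v l)) - NU D m k v‖ ≤
      (2 * M + 2) / R * (1 + ∑ l, ‖v l‖) ^ 3 := by
  set X : ℝ := 1 + ∑ l, ‖v l‖ with hX
  have X1 : 1 ≤ X := by
    have : 0 ≤ ∑ l, ‖v l‖ := Finset.sum_nonneg fun l _ => norm_nonneg _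
    linarith
  have hv : ∀ l, ‖v l‖ ≤ X := by
    intro l
    have := Finset.single_le_sum (f := fun l => ‖v l‖) (fun l _ => norm_nonneg (v l))
      (Finset.mem_univ l)
    have h2 : ‖v l‖ ≤ ∑ l, ‖v l‖ := this
    linarith
  have X0 : 0 ≤ X := by linarith
  have e1 : NU D m k (fun l => clip R (v l)) - NU D m k v =
      (m k : ℂ) * (clip R (v k) - v k) + ∑ i, (wt (m (D.p k i)) (m (D.q k i)) : ℂ) *
        (clip R (v (D.p k i)) * cj (D.c k i) (clip R (v (D.q k i))) -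
          v (D.p k i) * cj (D.c k i) (v (D.q k i))) := by
    unfold NU
    simp only [mul_sub, Finset.sum_sub_distrib]
    ring
  rw [e1]
  have b1 : ‖(m k : ℂ) * (clip R (v k) - v k)‖ ≤ 2 * (X ^ 3 / R) := by
    rw [norm_mul, Complex.norm_real, Real.norm_eq_abs, abs_of_nonneg (hm k).1]
    have h1 : ‖clip R (v k) - v k‖ ≤ X ^ 3 / R := by
      refine (clip_sub hR (v k)).trans ?_
      refine div_le_div_of_nonneg_right ?_ hR.le
      have h2 : ‖v k‖ ^ 2 ≤ X ^ 2 := pow_le_pow_left₀ (norm_nonneg _) (hv k) 2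
      nlinarith [sq_nonneg X]
    exact mul_le_mul (hm k).2 h1 (norm_nonneg _) (by norm_num)
  have b2 : ∀ i : Fin M, ‖(wt (m (D.p k i)) (m (D.q k i)) : ℂ) *
        (clip R (v (D.p k i)) * cj (D.c k i) (clip R (v (D.q k i))) -
          v (D.p k i) * cj (D.c k i) (v (D.q k i)))‖ ≤ 2 * (X ^ 3 / R) := by
    intro i
    obtain ⟨w0, w1⟩ := momC_wt (hm (D.p k i)).1 (hm (D.q k i)).1
    rw [norm_mul, Complex.norm_real, Real.norm_eq_abs, abs_of_nonneg w0]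
    have h1 : ‖clip R (v (D.p k i)) * cj (D.c k i) (clip R (v (D.q k i))) -
          v (D.p k i) * cj (D.c k i) (v (D.q k i))‖ ≤ 2 * (X ^ 3 / R) := by
      have e2 : clip R (v (D.p k i)) * cj (D.c k i) (clip R (v (D.q k i))) -
          v (D.p k i) * cj (D.c k i) (v (D.q k i)) =
          (clip R (v (D.p k i)) - v (D.p k i)) * cj (D.c k i) (clip R (v (D.q k i))) +
          v (D.p k i) * cj (D.c k i) (clip R (v (D.q k i)) - v (D.q k i)) := by
        rw [← momC_cj_sub]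
        ring
      rw [e2]
      refine (norm_add_le _ _).trans ?_
      rw [norm_mul, norm_mul, momC_cj_norm, momC_cj_norm]
      have c1 := clip_sub hR (v (D.p k i))
      have c2 := clip_sub hR (v (D.q k i))
      have c3 : ‖clip R (v (D.q k i))‖ ≤ X := (clip_le' hR.le _).trans (hv _)
      have c4 : ‖v (D.p k i)‖ ^ 2 / R ≤ X ^ 2 / R :=
        div_le_div_of_nonneg_right (pow_le_pow_left₀ (norm_nonneg _) (hv _) 2) hR.le
      have c5 : ‖v (D.q k i)‖ ^ 2 / R ≤ X ^ 2 / R :=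
        div_le_div_of_nonneg_right (pow_le_pow_left₀ (norm_nonneg _) (hv _) 2) hR.le
      have c6 := mul_le_mul (c1.trans c4) c3 (norm_nonneg _) (by positivity)
      have c7 := mul_le_mul (hv (D.p k i)) (c2.trans c5) (norm_nonneg _) X0
      have c8 : X ^ 2 / R * X + X * (X ^ 2 / R) = 2 * (X ^ 3 / R) := by ring
      linarith
    calc wt (m (D.p k i)) (m (D.q k i)) * _ ≤ 1 * (2 * (X ^ 3 / R)) :=
          mul_le_mul w1 h1 (norm_nonneg _) (by norm_num)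
      _ = 2 * (X ^ 3 / R) := one_mul _
  refine (norm_add_le _ _).trans ?_
  have b3 : ‖∑ i, (wt (m (D.p k i)) (m (D.q k i)) : ℂ) *
        (clip R (v (D.p k i)) * cj (D.c k i) (clip R (v (D.q k i))) -
          v (D.p k i) * cj (D.c k i) (v (D.q k i)))‖ ≤ M * (2 * (X ^ 3 / R)) := by
    refine (norm_sum_le _ _).trans ?_
    refine (Finset.sum_le_sum fun i _ => b2 i).trans ?_
    simp
  have e3 : (2 * (M : ℝ) + 2) / R * X ^ 3 = 2 * (X ^ 3 / R) + M * (2 * (X ^ 3 / R)) := by ring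
  rw [e3]
  linarith

theorem momC (D : Prs L M) {ε : ℝ} (hε : 0 < ε) : ∃ R > 0, ∀ m : Fin L → ℝ, (∀ l, 0 ≤ m l ∧ m l ≤ 2) → ∀ k,
    ‖(∫ z, FF D R m k (fun l => m l + z l) ∂stdL L) - ((SS D m k / (1 + SS D m k) : ℝ) : ℂ)‖ ≤ ε ∧
    ∫ z, ‖FF D R m k (fun l => m l + z l)‖ ^ 2 ∂stdL L ≤ SS D m k / (1 + SS D m k) + ε := by
  have hYi := momC_int L
  set Y : (Fin L → ℂ) → ℝ := fun z => 1 + ∑ l, (2 + ‖z l‖) with hY
  have Y1 : ∀ z, 1 ≤ Y z := fun z => by
    have : 0 ≤ ∑ l, (2 + ‖z l‖) := Finset.sum_nonneg fun l _ => by positivity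
    show 1 ≤ 1 + ∑ l, (2 + ‖z l‖)
    linarith
  obtain ⟨I, hI⟩ : ∃ I : ℝ, I = ∫ z, Y z ^ 6 ∂stdL L := ⟨_, rfl⟩
  have I0 : 0 ≤ I := by
    rw [hI]
    exact integral_nonneg fun z => pow_nonneg (by linarith [Y1 z]) 6
  obtain ⟨K, hK⟩ : ∃ K : ℝ, K = 2 * M + 2 := ⟨_, rfl⟩
  have K0 : 0 ≤ K := by rw [hK]; positivity
  obtain ⟨R, hRd⟩ : ∃ R : ℝ, R = 1 + K * I / ε + (1 + 2 / ε) * K ^ 2 * I * (2 / ε) := ⟨_, rfl⟩
  have t1 : 0 ≤ K * I / ε := by positivity
  have t2 : 0 ≤ (1 + 2 / ε) * K ^ 2 * I * (2 / ε) := by positivity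
  have R1 : 1 ≤ R := by linarith
  have R0 : 0 < R := by linarith
  have r1 : K * I / R ≤ ε := by
    rw [div_le_iff₀ R0]
    have : ε * (K * I / ε) = K * I := by field_simp
    have h2 : ε * (K * I / ε) ≤ ε * R := mul_le_mul_of_nonneg_left (by linarith) hε.le
    linarith
  have r2 : (1 + 2 / ε) * (K ^ 2 * I / R ^ 2) ≤ ε / 2 := by
    have h1 : (1 + 2 / ε) * (K ^ 2 * I / R ^ 2) = ((1 + 2 / ε) * K ^ 2 * I) / R ^ 2 := by ring
    rw [h1, div_le_iff₀ (by positivity)]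
    have h2 : ε / 2 * ((1 + 2 / ε) * K ^ 2 * I * (2 / ε)) = (1 + 2 / ε) * K ^ 2 * I := by
      field_simp
    have h3 : ε / 2 * ((1 + 2 / ε) * K ^ 2 * I * (2 / ε)) ≤ ε / 2 * R :=
      mul_le_mul_of_nonneg_left (by linarith) (by positivity)
    have h4 : R ≤ R ^ 2 := by nlinarith
    have h5 : ε / 2 * R ≤ ε / 2 * R ^ 2 := mul_le_mul_of_nonneg_left h4 (by positivity)
    linarith
  refine ⟨R, R0, fun m hm k => ?_⟩
  obtain ⟨S, hS⟩ : ∃ S : ℝ, S = SS D m k := ⟨_, rfl⟩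
  have S0 : 0 ≤ S := by
    rw [hS]
    unfold SS
    have : 0 ≤ ∑ i, sh (m (D.p k i)) (m (D.q k i)) := Finset.sum_nonneg fun i _ => momC_sh _ _
    positivity
  obtain ⟨n1, n2⟩ := NU_mean D m k
  obtain ⟨n3, n4⟩ := NU_sq D m k
  rw [← hS] at n2 n4
  rw [← hS]
  -- the difference
  have hv : ∀ z : Fin L → ℂ, ∀ l, ‖(m l : ℂ) + z l‖ ≤ 2 + ‖z l‖ := by
    intro z l
    refine (norm_add_le _ _).trans ?_
    rw [Complex.norm_real, Real.norm_eq_abs, abs_of_nonneg (hm l).1]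
    linarith [(hm l).2]
  have dl : ∀ z : Fin L → ℂ, ‖NU D m k (fun l => clip R ((m l : ℂ) + z l)) -
      NU D m k (fun l => (m l : ℂ) + z l)‖ ≤ K / R * Y z ^ 3 := by
    intro z
    refine (momC_delta D R0 hm k (fun l => (m l : ℂ) + z l)).trans ?_
    rw [← hK]
    refine mul_le_mul_of_nonneg_left ?_ (by positivity)
    refine pow_le_pow_left₀ (by positivity) ?_ 3
    have : ∑ l, ‖(m l : ℂ) + z l‖ ≤ ∑ l, (2 + ‖z l‖) := Finset.sum_le_sum fun l _ => hv z l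
    show 1 + ∑ l, ‖(m l : ℂ) + z l‖ ≤ 1 + ∑ l, (2 + ‖z l‖)
    linarith
  have hFF : ∀ z : Fin L → ℂ, FF D R m k (fun l => (m l : ℂ) + z l) =
      (NU D m k (fun l => (m l : ℂ) + z l) + (NU D m k (fun l => clip R ((m l : ℂ) + z l)) -
        NU D m k (fun l => (m l : ℂ) + z l))) / ((1 + S : ℝ) : ℂ) := by
    intro z
    unfold FF
    rw [← hS]
    congr 1
    ring
  have cont : Continuous fun z : Fin L → ℂ => (fun l => (m l : ℂ) + z l : Fin L → ℂ) := by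
    fun_prop
  have mF : AEStronglyMeasurable (fun z : Fin L → ℂ => FF D R m k (fun l => (m l : ℂ) + z l))
      (stdL L) := ((FF_cont D R0.le m k).comp cont).aestronglyMeasurable
  have iF : Integrable (fun z : Fin L → ℂ => FF D R m k (fun l => (m l : ℂ) + z l)) (stdL L) :=
    Integrable.of_bound mF (R + M * R ^ 2)
      (Filter.Eventually.of_forall fun z => FF_bd D R0.le (fun l => (hm l).1) k _)
  have s1 : 0 < 1 + S := by linarith
  have s1c : ((1 + S : ℝ) : ℂ) ≠ 0 := by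
    exact_mod_cast s1.ne'
  have iD : Integrable (fun z : Fin L → ℂ => NU D m k (fun l => clip R ((m l : ℂ) + z l)) -
      NU D m k (fun l => (m l : ℂ) + z l)) (stdL L) := by
    have h1 := (iF.const_mul ((1 + S : ℝ) : ℂ)).sub n1
    refine h1.congr (Filter.Eventually.of_forall fun z => ?_)
    show ((1 + S : ℝ) : ℂ) * FF D R m k (fun l => (m l : ℂ) + z l) -
      NU D m k (fun l => (m l : ℂ) + z l) = _
    rw [hFF z, mul_div_cancel₀ _ s1c]
    ring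
  constructor
  · have e1 : (∫ z, FF D R m k (fun l => (m l : ℂ) + z l) ∂stdL L) =
        (((S : ℝ) : ℂ) + ∫ z, (NU D m k (fun l => clip R ((m l : ℂ) + z l)) -
        NU D m k (fun l => (m l : ℂ) + z l)) ∂stdL L) / ((1 + S : ℝ) : ℂ) := by
      rw [← n2, ← integral_add n1 iD, ← integral_div]
      exact integral_congr_ae (Filter.Eventually.of_forall fun z => hFF z)
    have e2 : (((S : ℝ) : ℂ) + ∫ z, (NU D m k (fun l => clip R ((m l : ℂ) + z l)) -
        NU D m k (fun l => (m l : ℂ) + z l)) ∂stdL L) / ((1 + S : ℝ) : ℂ) -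
        ((S / (1 + S) : ℝ) : ℂ) = (∫ z, (NU D m k (fun l => clip R ((m l : ℂ) + z l)) -
        NU D m k (fun l => (m l : ℂ) + z l)) ∂stdL L) / ((1 + S : ℝ) : ℂ) := by
      push_cast
      ring
    rw [e1, e2, norm_div, Complex.norm_real, Real.norm_eq_abs, abs_of_pos s1]
    have h1 : ‖∫ z, (NU D m k (fun l => clip R ((m l : ℂ) + z l)) -
        NU D m k (fun l => (m l : ℂ) + z l)) ∂stdL L‖ ≤ ε := by
      refine (norm_integral_le_integral_norm _).trans ?_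
      have h2 : ∫ z, ‖NU D m k (fun l => clip R ((m l : ℂ) + z l)) -
          NU D m k (fun l => (m l : ℂ) + z l)‖ ∂stdL L ≤ ∫ z, K / R * Y z ^ 6 ∂stdL L := by
        refine integral_mono iD.norm (hYi.const_mul _) fun z => ?_
        refine (dl z).trans ?_
        refine mul_le_mul_of_nonneg_left ?_ (by positivity)
        exact pow_le_pow_right₀ (Y1 z) (by norm_num)
      rw [integral_const_mul, ← hI] at h2
      have h3 : K / R * I = K * I / R := by ring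
      linarith
    rw [div_le_iff₀ s1]
    nlinarith
  · have p1 : ∀ z : Fin L → ℂ, ‖FF D R m k (fun l => (m l : ℂ) + z l)‖ ^ 2 ≤
        (1 + ε / 2) / (1 + S) ^ 2 * ‖NU D m k (fun l => (m l : ℂ) + z l)‖ ^ 2 +
        (1 + 2 / ε) / (1 + S) ^ 2 * (K ^ 2 / R ^ 2) * Y z ^ 6 := by
      intro z
      rw [hFF z, norm_div, Complex.norm_real, Real.norm_eq_abs, abs_of_pos s1, div_pow]
      obtain ⟨a, ha⟩ : ∃ a : ℝ, a = ‖NU D m k (fun l => (m l : ℂ) + z l)‖ := ⟨_, rfl⟩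
      obtain ⟨b, hb⟩ : ∃ b : ℝ, b = ‖NU D m k (fun l => clip R ((m l : ℂ) + z l)) -
        NU D m k (fun l => (m l : ℂ) + z l)‖ := ⟨_, rfl⟩
      have h1 := norm_add_le (NU D m k (fun l => (m l : ℂ) + z l))
        (NU D m k (fun l => clip R ((m l : ℂ) + z l)) - NU D m k (fun l => (m l : ℂ) + z l))
      have h2 := dl z
      rw [← ha, ← hb] at h1
      rw [← hb] at h2
      rw [← ha]
      have b0 : 0 ≤ b := by rw [hb]; exact norm_nonneg _
      have h3 : ‖NU D m k (fun l => (m l : ℂ) + z l) +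
        (NU D m k (fun l => clip R ((m l : ℂ) + z l)) - NU D m k (fun l => (m l : ℂ) + z l))‖ ^ 2 ≤
        (a + b) ^ 2 := pow_le_pow_left₀ (norm_nonneg _) h1 2
      have h4 : (a + b) ^ 2 ≤ (1 + ε / 2) * a ^ 2 + (1 + 2 / ε) * b ^ 2 := by
        have h5 : 0 ≤ (ε / 2) * (a - (2 / ε) * b) ^ 2 := by positivity
        have h6 : (ε / 2) * (a - (2 / ε) * b) ^ 2 = (ε / 2) * a ^ 2 - 2 * a * b + (2 / ε) * b ^ 2 := by
          field_simp
          ring
        nlinarith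
      have h5 : b ^ 2 ≤ K ^ 2 / R ^ 2 * Y z ^ 6 := by
        have := pow_le_pow_left₀ b0 h2 2
        have e : (K / R * Y z ^ 3) ^ 2 = K ^ 2 / R ^ 2 * Y z ^ 6 := by ring
        linarith
      have h6 : (1 + 2 / ε) * b ^ 2 ≤ (1 + 2 / ε) * (K ^ 2 / R ^ 2 * Y z ^ 6) :=
        mul_le_mul_of_nonneg_left h5 (by positivity)
      have h7 : ‖NU D m k (fun l => (m l : ℂ) + z l) +
        (NU D m k (fun l => clip R ((m l : ℂ) + z l)) - NU D m k (fun l => (m l : ℂ) + z l))‖ ^ 2 /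
          (1 + S) ^ 2 ≤ ((1 + ε / 2) * a ^ 2 + (1 + 2 / ε) * (K ^ 2 / R ^ 2 * Y z ^ 6)) /
          (1 + S) ^ 2 := div_le_div_of_nonneg_right (by linarith) (by positivity)
      refine h7.trans (le_of_eq ?_)
      ring
    have p2 : ∫ z, ‖FF D R m k (fun l => (m l : ℂ) + z l)‖ ^ 2 ∂stdL L ≤
        ∫ z, ((1 + ε / 2) / (1 + S) ^ 2 * ‖NU D m k (fun l => (m l : ℂ) + z l)‖ ^ 2 +
        (1 + 2 / ε) / (1 + S) ^ 2 * (K ^ 2 / R ^ 2) * Y z ^ 6) ∂stdL L := by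
      refine integral_mono_of_nonneg (Filter.Eventually.of_forall fun z => by positivity)
        ((n3.const_mul _).add (hYi.const_mul _)) (Filter.Eventually.of_forall p1)
    rw [integral_add (n3.const_mul _) (hYi.const_mul _), integral_const_mul, integral_const_mul,
      n4, ← hI] at p2
    refine p2.trans ?_
    have q1 : (1 + ε / 2) / (1 + S) ^ 2 * (S ^ 2 + S) = S / (1 + S) + ε / 2 * (S / (1 + S)) := by
      field_simp
      ring
    have q2 : S / (1 + S) ≤ 1 := by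
      rw [div_le_one s1]
      linarith
    have q3 : (1 + 2 / ε) / (1 + S) ^ 2 * (K ^ 2 / R ^ 2) * I ≤
        (1 + 2 / ε) * (K ^ 2 * I / R ^ 2) := by
      have h1 : (1 + 2 / ε) / (1 + S) ^ 2 ≤ (1 + 2 / ε) := by
        refine div_le_self (by positivity) ?_
        nlinarith
      have h2 : 0 ≤ K ^ 2 / R ^ 2 * I := by positivity
      have h3 := mul_le_mul_of_nonneg_right h1 h2
      have e3 : (1 + 2 / ε) * (K ^ 2 / R ^ 2 * I) = (1 + 2 / ε) * (K ^ 2 * I / R ^ 2) := by ring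
      have e4 : (1 + 2 / ε) / (1 + S) ^ 2 * (K ^ 2 / R ^ 2 * I) =
        (1 + 2 / ε) / (1 + S) ^ 2 * (K ^ 2 / R ^ 2) * I := by ring
      linarith
    have q4 : ε / 2 * (S / (1 + S)) ≤ ε / 2 * 1 := mul_le_mul_of_nonneg_left q2 (by positivity)
    rw [q1]
    linarith

end H69.SR
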