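import Pool.Agent.H69.SR.StdC

/-!
# Module Onb: an orthonormal system of monomials

`ph : Fin 3 → ℂ → ℂ` is `1, z, conj z`; `ee α z = ∏ l, ph (α l) (z l)`.
* `ph_on`: the nine integrals: `stdC_one`, `stdC_conj`, `stdC_sq` (and its conjugate, `integral_conj`), `stdC_nsq`, total mass one.
* `ee_on`: `ee α z * conj (ee β z) = ∏ l, ph (α l) (z l) * conj (ph (β l) (z l))`, `integral_fintype_prod_eq_prod` for `stdL L = Measure.pi`, so the integral is `∏ l, (if α l = β l then 1 else 0)`.
* `ee_sum`: expand `‖∑ c j ee‖ ^ 2 = ∑ j j', c j conj (c j') ee conj ee`; integrability of a product of coordinate functions: `Integrable.fintype_prod`; injectivity of `α`.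
-/

set_option autoImplicit false

open MeasureTheory ProbabilityTheory
open scoped BigOperators ComplexConjugate InnerProductSpace

namespace H69.SR

variable {L : ℕ}

/-- `1, z, conj z` -/
noncomputable def ph (i : Fin 3) (z : ℂ) : ℂ := if i = 0 then 1 else if i = 1 then z else conj z

/-- products -/
noncomputable def ee (α : Fin L → Fin 3) (z : Fin L → ℂ) : ℂ := ∏ l, ph (α l) (z l)

private lemma onb_ph0 (z : ℂ) : ph 0 z = 1 := rfl

private lemma onb_ph1 (z : ℂ) : ph 1 z = z := rfl

private lemma onb_ph2 (z : ℂ) : ph 2 z = conj z := rfl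

theorem ph_on (i j : Fin 3) : ∫ z, ph i z * conj (ph j z) ∂stdC = if i = j then 1 else 0 := by
  fin_cases i <;> fin_cases j
  · change ∫ z, ph 0 z * conj (ph 0 z) ∂stdC = 1
    simp [onb_ph0]
  · change ∫ z, ph 0 z * conj (ph 1 z) ∂stdC = 0
    simp only [onb_ph0, onb_ph1, one_mul]
    exact stdC_conj
  · change ∫ z, ph 0 z * conj (ph 2 z) ∂stdC = 0
    simp only [onb_ph0, onb_ph2, one_mul, Complex.conj_conj]
    exact stdC_one
  · change ∫ z, ph 1 z * conj (ph 0 z) ∂stdC = 0
    simp only [onb_ph0, onb_ph1, map_one, mul_one]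
    exact stdC_one
  · change ∫ z, ph 1 z * conj (ph 1 z) ∂stdC = 1
    simp only [onb_ph1]
    exact stdC_nsq
  · change ∫ z, ph 1 z * conj (ph 2 z) ∂stdC = 0
    simp only [onb_ph1, onb_ph2, Complex.conj_conj]
    exact stdC_sq
  · change ∫ z, ph 2 z * conj (ph 0 z) ∂stdC = 0
    simp only [onb_ph0, onb_ph2, map_one, mul_one]
    exact stdC_conj
  · change ∫ z, ph 2 z * conj (ph 1 z) ∂stdC = 0
    simp only [onb_ph1, onb_ph2]
    have h : ∫ z, conj (z * z) ∂stdC = 0 := by rw [integral_conj, stdC_sq, map_zero]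
    rw [← h]
    exact integral_congr_ae (Filter.Eventually.of_forall fun z => by
      change conj z * conj z = conj (z * z)
      rw [map_mul])
  · change ∫ z, ph 2 z * conj (ph 2 z) ∂stdC = 1
    simp only [onb_ph2, Complex.conj_conj]
    rw [← stdC_nsq]
    exact integral_congr_ae (Filter.Eventually.of_forall fun z => mul_comm _ _)

private lemma onb_phn (i : Fin 3) (z : ℂ) : ‖ph i z‖ ≤ 1 + ‖z‖ := by
  have := norm_nonneg z
  unfold ph
  split_ifs
  · rw [norm_one]
    linarith
  · linarith
  · rw [Complex.norm_conj]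
    linarith

private lemma onb_phc (i : Fin 3) : Continuous (ph i) := by
  unfold ph
  split_ifs
  · exact continuous_const
  · exact continuous_id
  · exact Complex.continuous_conj

private lemma onb_int (i j : Fin 3) : Integrable (fun z => ph i z * conj (ph j z)) stdC := by
  have h := (stdC_int 0).add (((stdC_int 1).const_mul 2).add (stdC_int 2))
  refine h.mono' ((onb_phc i).mul (Complex.continuous_conj.comp (onb_phc j))).aestronglyMeasurable
    (Filter.Eventually.of_forall fun z => ?_)
  simp only [Pi.add_apply]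
  rw [norm_mul, Complex.norm_conj]
  have h1 := mul_le_mul (onb_phn i z) (onb_phn j z) (norm_nonneg _) (by positivity)
  refine h1.trans (le_of_eq ?_)
  ring

private lemma onb_ee (α β : Fin L → Fin 3) (z : Fin L → ℂ) :
    ee α z * conj (ee β z) = ∏ l, (ph (α l) (z l) * conj (ph (β l) (z l))) := by
  unfold ee
  rw [map_prod, Finset.prod_mul_distrib]

theorem ee_int (α β : Fin L → Fin 3) : Integrable (fun z => ee α z * conj (ee β z)) (stdL L) := by
  simp only [onb_ee]
  unfold stdL
  exact Integrable.fintype_prod (f := fun l z => ph (α l) z * conj (ph (β l) z))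
    fun l => onb_int (α l) (β l)

theorem ee_on (α β : Fin L → Fin 3) : ∫ z, ee α z * conj (ee β z) ∂stdL L = if α = β then 1 else 0 := by
  simp only [onb_ee]
  unfold stdL
  rw [integral_fintype_prod_eq_prod (fun l z => ph (α l) z * conj (ph (β l) z))]
  simp only [ph_on]
  by_cases h : α = β
  · subst h
    simp
  · rw [if_neg h]
    obtain ⟨l, hl⟩ := Function.ne_iff.1 h
    exact Finset.prod_eq_zero (Finset.mem_univ l) (if_neg hl)

theorem ee_sum {ι : Type} [Fintype ι] (α : ι → Fin L → Fin 3) (hα : Function.Injective α) (c : ι → ℂ) :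
    Integrable (fun z => ‖∑ j, c j * ee (α j) z‖ ^ 2) (stdL L) ∧
      ∫ z, ‖∑ j, c j * ee (α j) z‖ ^ 2 ∂stdL L = ∑ j, ‖c j‖ ^ 2 := by
  classical
  have e : ∀ z : Fin L → ℂ, ((‖∑ j, c j * ee (α j) z‖ ^ 2 : ℝ) : ℂ) =
      ∑ j, ∑ j', (c j * conj (c j')) * (ee (α j) z * conj (ee (α j') z)) := by
    intro z
    rw [← Complex.normSq_eq_norm_sq, ← Complex.mul_conj, map_sum, Finset.sum_mul_sum]
    refine Finset.sum_congr rfl fun j _ => Finset.sum_congr rfl fun j' _ => ?_
    rw [map_mul]
    ring
  have hI : Integrable (fun z => ∑ j, ∑ j', (c j * conj (c j')) * (ee (α j) z * conj (ee (α j') z)))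
      (stdL L) :=
    integrable_finsetSum _ fun j _ => integrable_finsetSum _ fun j' _ => (ee_int _ _).const_mul _
  have hI2 : Integrable (fun z => ((‖∑ j, c j * ee (α j) z‖ ^ 2 : ℝ) : ℂ)) (stdL L) := by
    simp only [e]
    exact hI
  have hI3 : Integrable (fun z => ‖∑ j, c j * ee (α j) z‖ ^ 2) (stdL L) := by
    have := hI2.re
    simpa only [RCLike.re_to_complex, Complex.ofReal_re] using this
  refine ⟨hI3, ?_⟩
  have h4 : ((∫ z, ‖∑ j, c j * ee (α j) z‖ ^ 2 ∂stdL L : ℝ) : ℂ) = ((∑ j, ‖c j‖ ^ 2 : ℝ) : ℂ) := by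
    rw [← integral_complex_ofReal]
    simp only [e]
    rw [integral_finsetSum _ fun j _ => integrable_finsetSum _ fun j' _ => (ee_int _ _).const_mul _]
    rw [Complex.ofReal_sum]
    refine Finset.sum_congr rfl fun j _ => ?_
    rw [integral_finsetSum _ fun j' _ => (ee_int _ _).const_mul _, Finset.sum_eq_single j]
    · rw [integral_const_mul, ee_on, if_pos rfl, mul_one, Complex.mul_conj, Complex.normSq_eq_norm_sq]
    · intro j' _ hj
      rw [integral_const_mul, ee_on, if_neg (fun h => hj (hα h).symm), mul_zero]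
    · intro h
      exact absurd (Finset.mem_univ j) h
  exact_mod_cast h4

/-- the mean -/
theorem ee_mean {ι : Type} [Fintype ι] (α : ι → Fin L → Fin 3) (c : ι → ℂ) (c₀ : ℂ) (hα : ∀ j, α j ≠ 0) :
    Integrable (fun z => c₀ + ∑ j, c j * ee (α j) z) (stdL L) ∧
      ∫ z, (c₀ + ∑ j, c j * ee (α j) z) ∂stdL L = c₀ := by
  have e0 : ∀ z : Fin L → ℂ, ee 0 z = 1 := by
    intro z
    unfold ee
    refine Finset.prod_eq_one fun l _ => ?_
    rw [Pi.zero_apply, onb_ph0]
  have e1 : ∀ (β : Fin L → Fin 3) (z : Fin L → ℂ), ee β z = ee β z * conj (ee 0 z) := by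
    intro β z
    rw [e0, map_one, mul_one]
  have hJ : ∀ β : Fin L → Fin 3, Integrable (fun z => ee β z) (stdL L) := by
    intro β
    have h := ee_int β 0
    refine h.congr (Filter.Eventually.of_forall fun z => ?_)
    exact (e1 β z).symm
  have hS : Integrable (fun z => ∑ j, c j * ee (α j) z) (stdL L) :=
    integrable_finsetSum _ fun j _ => (hJ _).const_mul _
  have h1 : Integrable (fun _ : Fin L → ℂ => c₀) (stdL L) := by
    have h := (hJ 0).const_mul c₀
    refine h.congr (Filter.Eventually.of_forall fun z => ?_)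
    change c₀ * ee 0 z = c₀
    rw [e0, mul_one]
  have h0 : ∫ _ : Fin L → ℂ, c₀ ∂stdL L = c₀ := by
    have h : ∫ z, c₀ * (ee 0 z * conj (ee 0 z)) ∂stdL L = c₀ := by
      rw [integral_const_mul, ee_on, if_pos rfl, mul_one]
    refine Eq.trans ?_ h
    exact integral_congr_ae (Filter.Eventually.of_forall fun z => by
      change c₀ = c₀ * (ee 0 z * conj (ee 0 z))
      rw [e0, map_one, mul_one, mul_one])
  refine ⟨h1.add hS, ?_⟩
  rw [integral_add h1 hS, integral_finsetSum _ fun j _ => (hJ _).const_mul _]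
  rw [Finset.sum_eq_zero, add_zero]
  · exact h0
  · intro j _
    rw [integral_const_mul]
    have h : ∫ z, ee (α j) z ∂stdL L = 0 := by
      rw [integral_congr_ae (Filter.Eventually.of_forall (e1 (α j))), ee_on, if_neg (hα j)]
    rw [h, mul_zero]

end H69.SR
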