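import Pool.Agent.H69.SR.Base

/-!
# Module Orth: Gram-Schmidt vectors and projections

`UU f η k t = gramSchmidtNormed ℂ (fun r => f r η k) t`, `gramSchmidtNormed 𝕜 f n = (‖gramSchmidt 𝕜 f n‖ : 𝕜)⁻¹ • gramSchmidt 𝕜 f n`.
* `ortZ_UU`: `gramSchmidtNormed_unit_length'` and `gramSchmidt_orthogonal`.
* `prj_f`: `f r` lies in the span of `gramSchmidt f 0, .., gramSchmidt f r` (`mem_span_gramSchmidt`, `span_gramSchmidt`, `span_gramSchmidtNormed`), and `prj U t v = v` for `v = U r`, `r ≤ t`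
  (`inner (U r) (U s) = 0` for `s ≠ r`; `‖U r‖ = 1` or `U r = 0`), hence for `v` in the span (`Submodule.span_induction`, `prj` is linear).
* `UU_loc`: by strong induction `gramSchmidt ℂ F t` depends on `F 0, .., F t` only (`gramSchmidt_def`, sum over `Finset.Iio t`).
* the others: expand `prj`, `OrtZ`.
-/

set_option autoImplicit false

open MeasureTheory ProbabilityTheory
open scoped BigOperators ComplexConjugate InnerProductSpace

namespace H69.SR

variable {L n : ℕ}

private theorem orth_gs_congr {F F' : ℕ → E n} (t : ℕ) (h : ∀ s ≤ t, F s = F' s) :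
    InnerProductSpace.gramSchmidt ℂ F t = InnerProductSpace.gramSchmidt ℂ F' t := by
  induction t using Nat.strong_induction_on with
  | _ t ih =>
    rw [InnerProductSpace.gramSchmidt_def, InnerProductSpace.gramSchmidt_def, h t le_rfl]
    congr 1
    refine Finset.sum_congr rfl fun i hi => ?_
    have hi' : i < t := Finset.mem_Iio.1 hi
    rw [ih i hi' fun s hs => h s (hs.trans hi'.le)]

private theorem orth_gsn_congr {F F' : ℕ → E n} (t : ℕ) (h : ∀ s ≤ t, F s = F' s) :
    InnerProductSpace.gramSchmidtNormed ℂ F t = InnerProductSpace.gramSchmidtNormed ℂ F' t := by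
  unfold InnerProductSpace.gramSchmidtNormed
  rw [orth_gs_congr t h]

/-- `prj` as a linear map -/
private noncomputable def orthL (U : ℕ → E n) (t : ℕ) : E n →ₗ[ℂ] E n where
  toFun v := prj U t v
  map_add' v w := by
    simp only [prj, inner_add_right, add_smul, Finset.sum_add_distrib]
  map_smul' c v := by
    simp only [prj, inner_smul_right, RingHom.id_apply, Finset.smul_sum, smul_smul]

private theorem orthL_apply (U : ℕ → E n) (t : ℕ) (v : E n) : orthL U t v = prj U t v := rfl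

theorem ortZ_UU (f : ℕ → Hs L n → VV L n) (η : Hs L n) (k : Fin L) : OrtZ (UU f η k) := by
  constructor
  · intro r
    by_cases h : UU f η k r = 0
    · exact Or.inr h
    · exact Or.inl (InnerProductSpace.gramSchmidtNormed_unit_length' h)
  · intro r s hrs
    unfold UU InnerProductSpace.gramSchmidtNormed
    rw [inner_smul_left, inner_smul_right, InnerProductSpace.gramSchmidt_orthogonal ℂ _ hrs]
    simp

theorem UU_loc {f : ℕ → Hs L n → VV L n} (hf : Loc f) {t : ℕ} {η η' : Hs L n} (h : ∀ s < t, η s = η' s)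
    (k : Fin L) {r : ℕ} (hr : r ≤ t) : UU f η k r = UU f η' k r := by
  unfold UU
  refine orth_gsn_congr r fun s hs => ?_
  have h1 : f s η = f s η' := hf s η η' fun u hu => h u (hu.trans_le (hs.trans hr))
  rw [h1]

/-- two different families: the vectors of Gram-Schmidt agree if the inputs agree -/
theorem UU_congr {f f' : ℕ → Hs L n → VV L n} {η η' : Hs L n} (k : Fin L) {t : ℕ}
    (h : ∀ s ≤ t, f s η k = f' s η' k) : UU f η k t = UU f' η' k t := by
  unfold UU
  exact orth_gsn_congr t h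

private theorem orth_self {U : ℕ → E n} (hU : OrtZ U) (r : ℕ) : ⟪U r, U r⟫_ℂ • U r = U r := by
  rcases hU.1 r with h | h
  · rw [inner_self_eq_norm_sq_to_K, h]
    simp
  · rw [h]
    simp

private theorem orth_norm_sq {U : ℕ → E n} (hU : OrtZ U) (r : ℕ) (v : E n) :
    ⟪U r, v⟫_ℂ * ⟪U r, U r⟫_ℂ = ⟪U r, v⟫_ℂ := by
  rcases hU.1 r with h | h
  · rw [inner_self_eq_norm_sq_to_K, h]
    simp
  · rw [h]
    simp

theorem inner_prj {U : ℕ → E n} (hU : OrtZ U) {r t : ℕ} (hr : r ≤ t) (v : E n) :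
    ⟪U r, prj U t v⟫_ℂ = ⟪U r, v⟫_ℂ := by
  unfold prj
  rw [inner_sum, Finset.sum_eq_single_of_mem r (Finset.mem_range.2 (Nat.lt_succ_of_le hr))]
  · rw [inner_smul_right]
    exact orth_norm_sq hU r v
  · intro s _ hs
    rw [inner_smul_right, hU.2 r s (Ne.symm hs), mul_zero]

theorem inner_cop {U : ℕ → E n} (hU : OrtZ U) {r t : ℕ} (hr : r ≤ t) (v : E n) :
    ⟪U r, cop U t v⟫_ℂ = 0 := by
  unfold cop
  rw [inner_sub_right, inner_prj hU hr, sub_self]

theorem prj_self {U : ℕ → E n} (hU : OrtZ U) {r t : ℕ} (hr : r ≤ t) : prj U t (U r) = U r := by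
  unfold prj
  rw [Finset.sum_eq_single_of_mem r (Finset.mem_range.2 (Nat.lt_succ_of_le hr))]
  · exact orth_self hU r
  · intro s _ hs
    rw [hU.2 s r hs, zero_smul]

theorem prj_later {U : ℕ → E n} (hU : OrtZ U) {r t : ℕ} (hr : t < r) : prj U t (U r) = 0 := by
  unfold prj
  refine Finset.sum_eq_zero fun s hs => ?_
  have hs' : s < t + 1 := Finset.mem_range.1 hs
  rw [hU.2 s r (by omega), zero_smul]

theorem prj_f (f : ℕ → Hs L n → VV L n) (η : Hs L n) (k : Fin L) {r t : ℕ} (hr : r ≤ t) :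
    prj (UU f η k) t (f r η k) = f r η k := by
  have h1 : f r η k ∈ Submodule.span ℂ (UU f η k '' Set.Iic t) := by
    have h2 := InnerProductSpace.mem_span_gramSchmidt ℂ (fun s => f s η k) hr
    rw [← InnerProductSpace.span_gramSchmidtNormed] at h2
    exact h2
  have h3 : ∀ v ∈ Submodule.span ℂ (UU f η k '' Set.Iic t), prj (UU f η k) t v = v := by
    intro v hv
    induction hv using Submodule.span_induction with
    | mem x hx =>
      obtain ⟨s, hs, rfl⟩ := hx
      exact prj_self (ortZ_UU f η k) hs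
    | zero => exact (orthL (UU f η k) t).map_zero
    | add x y _ _ hx hy =>
      have h4 := (orthL (UU f η k) t).map_add x y
      simp only [orthL_apply] at h4
      rw [h4, hx, hy]
    | smul a x _ hx =>
      have h4 := (orthL (UU f η k) t).map_smul a x
      simp only [orthL_apply] at h4
      rw [h4, hx]
  exact h3 _ h1

private theorem orth_prj_prj {U : ℕ → E n} (hU : OrtZ U) {m t : ℕ} (h : m ≤ t) (v : E n) :
    prj U t (prj U m v) = prj U m v := by
  have h1 : prj U t (prj U m v) = orthL U t (∑ r ∈ Finset.range (m + 1), ⟪U r, v⟫_ℂ • U r) := rfl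
  rw [h1, map_sum]
  refine Finset.sum_congr rfl fun r hr => ?_
  have hr' : r < m + 1 := Finset.mem_range.1 hr
  rw [map_smul, orthL_apply, prj_self hU (by omega : r ≤ t)]

theorem cop_cop {U : ℕ → E n} (hU : OrtZ U) {m t : ℕ} (h : m ≤ t) (v : E n) :
    cop U t (cop U m v) = cop U t v := by
  have h1 : prj U t (v - prj U m v) = prj U t v - prj U t (prj U m v) := (orthL U t).map_sub _ _
  unfold cop
  rw [h1, orth_prj_prj hU h]
  abel

theorem nsq_prj {U : ℕ → E n} (hU : OrtZ U) (t : ℕ) (v : E n) :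
    ‖prj U t v‖ ^ 2 = ∑ r ∈ Finset.range (t + 1), ‖⟪U r, v⟫_ℂ‖ ^ 2 := by
  have h1 : ((‖prj U t v‖ ^ 2 : ℝ) : ℂ) = ((∑ r ∈ Finset.range (t + 1), ‖⟪U r, v⟫_ℂ‖ ^ 2 : ℝ) : ℂ) := by
    have h2 : ((‖prj U t v‖ ^ 2 : ℝ) : ℂ) = ⟪prj U t v, prj U t v⟫_ℂ := by
      rw [inner_self_eq_norm_sq_to_K]
      push_cast
      rfl
    have h3 : ⟪prj U t v, prj U t v⟫_ℂ =
        ∑ r ∈ Finset.range (t + 1), conj ⟪U r, v⟫_ℂ * ⟪U r, prj U t v⟫_ℂ := by
      conv_lhs => rw [show ⟪prj U t v, prj U t v⟫_ℂ =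
        ⟪∑ r ∈ Finset.range (t + 1), ⟪U r, v⟫_ℂ • U r, prj U t v⟫_ℂ from rfl]
      rw [sum_inner]
      exact Finset.sum_congr rfl fun r _ => by rw [inner_smul_left]
    rw [h2, h3, Complex.ofReal_sum]
    refine Finset.sum_congr rfl fun r hr => ?_
    have hr' : r < t + 1 := Finset.mem_range.1 hr
    rw [inner_prj hU (by omega : r ≤ t), Complex.conj_mul']
    push_cast
    rfl
  exact_mod_cast h1

theorem nsq_cop {U : ℕ → E n} (hU : OrtZ U) (t : ℕ) (v : E n) :
    ‖v‖ ^ 2 = ‖prj U t v‖ ^ 2 + ‖cop U t v‖ ^ 2 := by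
  have h1 : ⟪prj U t v, cop U t v⟫_ℂ = 0 := by
    rw [show ⟪prj U t v, cop U t v⟫_ℂ =
      ⟪∑ r ∈ Finset.range (t + 1), ⟪U r, v⟫_ℂ • U r, cop U t v⟫_ℂ from rfl, sum_inner]
    refine Finset.sum_eq_zero fun r hr => ?_
    have hr' : r < t + 1 := Finset.mem_range.1 hr
    rw [inner_smul_left, inner_cop hU (by omega : r ≤ t), mul_zero]
  have h2 : v = prj U t v + cop U t v := by
    unfold cop
    abel
  have h3 := norm_add_sq_eq_norm_sq_add_norm_sq_of_inner_eq_zero (prj U t v) (cop U t v) h1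
  rw [← h2] at h3
  rw [pow_two, pow_two, pow_two]
  exact h3

/-- `cop` and `prj` depend on `U 0, .., U t` only -/
theorem prj_congr {U U' : ℕ → E n} {t : ℕ} (h : ∀ r ≤ t, U r = U' r) (v : E n) : prj U t v = prj U' t v := by
  unfold prj
  refine Finset.sum_congr rfl fun r hr => ?_
  have hr' : r < t + 1 := Finset.mem_range.1 hr
  rw [h r (by omega)]

end H69.SR
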