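import Pool.Agent.H69.SR.MomC
import Pool.Agent.H69.SR.Growth

/-!
# Module ParEx: the parameters exist

`κ := kap θ M > 0` (`kap_pos`). `T := ⌈2/κ⌉₊ + 1`, `ε := κ/48`, `R` from `momC D hε`, `K := (1 + 2 (R + M R^2)) ((2 + 4 R M) (L * (4 T^2)))`, `δ := κ/8/(3 K + 2 T + 1)`: `3 err + 2 T δ = 6 ε + (3 K + 2 T) δ ≤ κ/8 + κ/8`.
`Γ`: the closed unit ball of `ℂ` is compact, so it has a finite `δ`-net in it (`IsCompact.finite_cover_balls` or `Metric.totallyBounded`-type lemma: centres in the ball); insert `0` (`Finset` from `Set.Finite.toFinset`).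
-/

set_option autoImplicit false

open MeasureTheory ProbabilityTheory
open scoped BigOperators ComplexConjugate InnerProductSpace

namespace H69.SR

variable {L M : ℕ}

theorem net_ex {δ : ℝ} (hδ : 0 < δ) : ∃ Γ : Finset ℂ, (0 : ℂ) ∈ Γ ∧ (∀ g ∈ Γ, ‖g‖ ≤ 1) ∧
    ∀ z : ℂ, ‖z‖ ≤ 1 → ∃ g ∈ Γ, ‖g - z‖ ≤ δ := by
  obtain ⟨t, ht, htf, hc⟩ := (isCompact_closedBall (0 : ℂ) 1).finite_cover_balls hδ
  refine ⟨insert 0 htf.toFinset, Finset.mem_insert_self _ _, ?_, ?_⟩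
  · intro g hg
    rcases Finset.mem_insert.1 hg with h | h
    · rw [h, norm_zero]; exact zero_le_one
    · have := ht (htf.mem_toFinset.1 h)
      simpa using this
  · intro z hz
    have hz' : z ∈ Metric.closedBall (0 : ℂ) 1 := by simpa using hz
    obtain ⟨g, hg, hgz⟩ := Set.mem_iUnion₂.1 (hc hz')
    refine ⟨g, Finset.mem_insert_of_mem (htf.mem_toFinset.2 hg), ?_⟩
    rw [Metric.mem_ball, dist_comm, dist_eq_norm] at hgz
    exact hgz.le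

theorem par_ex (D : Prs L M) (hL : 1 ≤ L) (hML : M ≤ L) {lam θ : ℝ} (lam0 : 0 < lam) (lam1 : lam < 1)
    (hθ : 0 < θ) (hθ1 : θ ≤ 1) (hM : 1152 ≤ M * lam ^ 4) (gr : 24 * (1 - lam ^ 2) ^ 2 ≤ θ * (M * lam ^ 4)) :
    ∃ A : Par L, A.lam = lam ∧ A.θ = θ := by
  have hκ : 0 < kap θ M := kap_pos hθ M
  have hε : 0 < kap θ M / 48 := by positivity
  obtain ⟨R, hR, hmom⟩ := momC D hε
  obtain ⟨T, hTdef⟩ : ∃ T : ℕ, T = ⌈2 / kap θ M⌉₊ + 1 := ⟨_, rfl⟩
  obtain ⟨K, hK⟩ : ∃ K : ℝ, K = (1 + 2 * (R + M * R ^ 2)) * ((2 + 4 * R * M) * (L * (4 * (T : ℝ) ^ 2))) :=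
    ⟨_, rfl⟩
  have hR' : (0 : ℝ) < R := hR
  have hK0 : 0 ≤ K := by
    rw [hK]
    positivity
  have hD : 0 < 3 * K + 2 * (T : ℝ) + 1 := by positivity
  obtain ⟨δ, hδdef⟩ : ∃ δ : ℝ, δ = kap θ M / 8 / (3 * K + 2 * T + 1) := ⟨_, rfl⟩
  have hδ : 0 < δ := by rw [hδdef]; positivity
  obtain ⟨Γ, hΓ0, hΓ1, hΓ2⟩ := net_ex hδ
  have hT1 : 1 ≤ T := by rw [hTdef]; exact Nat.le_add_left _ _
  have hTκ : 2 / kap θ M ≤ T := by
    rw [hTdef]
    push_cast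
    have := Nat.le_ceil (2 / kap θ M)
    linarith
  refine ⟨{ M := M, T := T, lam := lam, R := R, ε := kap θ M / 48, δ := δ, θ := θ, D := D, Γ := Γ,
            hL := hL, hML := hML, hT := hT1, lam0 := lam0, lam1 := lam1, hR := hR, hε := hε, hδ := hδ,
            hθ := hθ, hθ1 := hθ1, hM := hM, gr := gr, mom := hmom, zero_mem := hΓ0, le_one := hΓ1,
            net := hΓ2, small := ?_, rounds := ?_ }, rfl, rfl⟩
  · have e : err L M T R (kap θ M / 48) δ = 2 * (kap θ M / 48) + K * δ := by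
      unfold err
      rw [hK]
      ring
    rw [e]
    have h1 : (3 * K + 2 * (T : ℝ) + 1) * δ = kap θ M / 8 := by
      rw [hδdef]
      field_simp
    have h2 : (3 * K + 2 * (T : ℝ)) * δ ≤ kap θ M / 8 := by
      rw [← h1]
      nlinarith
    nlinarith
  · rw [div_le_iff₀ hκ] at hTκ
    linarith

end H69.SR
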