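import Pool.Agent.H69.SR.Orth

/-!
# Module RunFix: a run is a solution of `ζ s = r s ζ`

* `run_old`, `run_fix`: induction on `T` for all `m`, `η`. For `s = m`: the final history agrees with `η` before `m` (`run_old` from `m+1`), so `r m (final) = r m η` (`hr`), which is the value at `m`
  (`run_old`, `Function.update_self`). For `s > m`: induction hypothesis. `runG_fix` in the same way: index `m + s`, `g s`; locality of `rG f b g` from `UU_loc` and `hb`.
* `fix_unique`: strong induction.
-/

set_option autoImplicit false

open MeasureTheory ProbabilityTheory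
open scoped BigOperators ComplexConjugate InnerProductSpace

namespace H69.SR

variable {L n : ℕ} {f b : ℕ → Hs L n → VV L n}

theorem loc_rG (hf : Loc f) (hb : Loc b) (g : VV L n) {t : ℕ} {η η' : Hs L n} (h : ∀ s < t, η s = η' s) :
    rG f b g t η = rG f b g t η' := by
  funext k
  have h1 : UU f η k t = UU f η' k t := UU_loc hf h k le_rfl
  have h2 : prj (UU f η k) t (g k) = prj (UU f η' k) t (g k) :=
    prj_congr (fun r hr => UU_loc hf h k hr) (g k)
  have h3 : b t η = b t η' := hb t η η' h
  unfold rG cop
  rw [h1, h2, h3]

theorem run_old (r : ℕ → Hs L n → VV L n) : ∀ (T m : ℕ) (η : Hs L n) {s : ℕ}, s < m → run r m T η s = η s := by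
  intro T
  induction T with
  | zero =>
    intro m η s hs
    rfl
  | succ T ih =>
    intro m η s hs
    have h1 : run r m (T + 1) η = run r (m + 1) T (Function.update η m (r m η)) := rfl
    rw [h1, ih (m + 1) (Function.update η m (r m η)) (by omega : s < m + 1)]
    exact Function.update_of_ne (by omega) _ _

theorem run_fix {r : ℕ → Hs L n → VV L n} (hr : Loc r) : ∀ (T m : ℕ) (η : Hs L n) {s : ℕ}, m ≤ s → s < m + T →
    run r m T η s = r s (run r m T η) := by
  intro T
  induction T with
  | zero =>
    intro m η s h1 h2
    omega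
  | succ T ih =>
    intro m η s hm hs
    have h1 : run r m (T + 1) η = run r (m + 1) T (Function.update η m (r m η)) := rfl
    by_cases hsm : s = m
    · subst hsm
      have h2 : r s (run r s (T + 1) η) = r s η :=
        hr s _ _ fun u hu => run_old r (T + 1) s η hu
      rw [h2, h1, run_old r T (s + 1) _ (by omega : s < s + 1)]
      exact Function.update_self _ _ _
    · rw [h1]
      exact ih (m + 1) _ (by omega) (by omega)

private theorem RunFix_oldG : ∀ (T m : ℕ) (g : Fin T → VV L n) (η : Hs L n) {s : ℕ}, s < m →
    runG f b m T g η s = η s := by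
  intro T
  induction T with
  | zero =>
    intro m g η s hs
    rfl
  | succ T ih =>
    intro m g η s hs
    have h1 : runG f b m (T + 1) g η =
        runG f b (m + 1) T (fun s => g s.succ) (Function.update η m (rG f b (g 0) m η)) := rfl
    rw [h1, ih (m + 1) _ _ (by omega : s < m + 1)]
    exact Function.update_of_ne (by omega) _ _

theorem runG_fix (hf : Loc f) (hb : Loc b) : ∀ (T m : ℕ) (g : Fin T → VV L n) (η : Hs L n) (s : Fin T),
    runG f b m T g η (m + s) = rG f b (g s) (m + s) (runG f b m T g η) := by
  intro T
  induction T with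
  | zero =>
    intro m g η s
    exact s.elim0
  | succ T ih =>
    intro m g η s
    have h1 : runG f b m (T + 1) g η =
        runG f b (m + 1) T (fun s => g s.succ) (Function.update η m (rG f b (g 0) m η)) := rfl
    refine Fin.cases ?_ (fun j => ?_) s
    · have h2 : rG f b (g 0) m (runG f b m (T + 1) g η) = rG f b (g 0) m η :=
        loc_rG hf hb (g 0) fun u hu => RunFix_oldG (T + 1) m g η hu
      have h3 : m + ((0 : Fin (T + 1)) : ℕ) = m := by simp
      rw [h3, h2, h1, RunFix_oldG T (m + 1) _ _ (by omega : m < m + 1)]
      exact Function.update_self _ _ _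
    · have h2 := ih (m + 1) (fun s => g s.succ) (Function.update η m (rG f b (g 0) m η)) j
      have h3 : m + ((j.succ : Fin (T + 1)) : ℕ) = m + 1 + (j : ℕ) := by
        rw [Fin.val_succ]; omega
      rw [h1, h3]
      exact h2

theorem fix_unique {r r' : ℕ → Hs L n → VV L n} (hr : Loc r) {t : ℕ} (hrr : ∀ s < t, r s = r' s) {ζ ζ' : Hs L n}
    (h : ∀ s < t, ζ s = r s ζ) (h' : ∀ s < t, ζ' s = r' s ζ') : ∀ s < t, ζ s = ζ' s := by
  intro s
  induction s using Nat.strong_induction_on with
  | _ s ih =>
    intro hs
    have h1 : r s ζ = r s ζ' := hr s ζ ζ' fun u hu => ih u hu (by omega)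
    rw [h s hs, h' s hs, h1, hrr s hs]

end H69.SR
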