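import Pool.Agent.H69.SR.Base

/-!
# Module StdC: the standard complex Gaussian law

`stdC` is the image of `gaussianReal 0 1 × gaussianReal 0 1` under `(x, y) ↦ (x + i y)/√2`. `integral_map`, `integral_prod_mul`; moments of `gaussianReal 0 1`: mean `0`, second moment `1`, fourth moment `3`
(`memLp_id_gaussianReal` for integrability of all powers; the fourth moment is not needed, only integrability). `z * z = (x^2 - y^2)/2 + i x y` has integral `0`, `‖z‖^2 = (x^2 + y^2)/2` has integral `1`.
* `stdL_eq`: `Measure.pi` of image measures is the image of `Measure.pi` (`Measure.pi_map_pi`: `(Measure.pi μ).map (fun x i => f i (x i)) = Measure.pi fun i => (μ i).map (f i)`), and `gm (Fin L × Bool)` is the image of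
  `Measure.pi fun _ : Fin L => (gaussianReal 0 1).prod (gaussianReal 0 1)` (currying: `Measure.pi` over a product index; `infinitePi_map_curry` with `infinitePi_eq_pi`, or uniqueness of the product measure
  `Measure.pi_eq` on boxes; for `Bool` two factors).
* `stdC_rot`: `‖u‖ = 1`: `z ↦ u z` is an orthogonal map in the plane: `glaw'`-free proof: `stdL_eq`-type representation and `Measure.map_map`, or `charFun`.
-/

set_option autoImplicit false

open MeasureTheory ProbabilityTheory
open scoped BigOperators ComplexConjugate InnerProductSpace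

namespace H69.SR

private noncomputable def stdc_phi (p : ℝ × ℝ) : ℂ := ((p.1 : ℂ) + (p.2 : ℂ) * Complex.I) / (Real.sqrt 2 : ℂ)

private lemma stdc_cont : Continuous stdc_phi := by
  unfold stdc_phi
  fun_prop

private lemma stdc_def : stdC = ((gaussianReal 0 1).prod (gaussianReal 0 1)).map stdc_phi := rfl

private lemma stdc_integral {g : ℂ → ℂ} (hg : Continuous g) :
    ∫ z, g z ∂stdC = ∫ p, g (stdc_phi p) ∂((gaussianReal 0 1).prod (gaussianReal 0 1)) := by
  rw [stdc_def]
  exact integral_map stdc_cont.aemeasurable hg.aestronglyMeasurable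

private lemma stdc_pow (k : ℕ) : Integrable (fun x : ℝ => |x| ^ k) (gaussianReal 0 1) := by
  have h := (memLp_id_gaussianReal (μ := 0) (v := 1) (k : NNReal)).integrable_norm_pow'
  simpa using h

private lemma stdc_pow' (k : ℕ) : Integrable (fun x : ℝ => x ^ k) (gaussianReal 0 1) := by
  refine (stdc_pow k).mono' (by fun_prop) (Filter.Eventually.of_forall fun x => ?_)
  rw [Real.norm_eq_abs, abs_pow]

private lemma stdc_m2 : ∫ x : ℝ, x ^ 2 ∂(gaussianReal 0 1) = 1 := by
  have h := variance_id_gaussianReal (μ := 0) (v := 1)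
  rw [variance_of_integral_eq_zero (by fun_prop) (by simp)] at h
  simpa using h

private lemma stdc_norm (p : ℝ × ℝ) : ‖stdc_phi p‖ ≤ |p.1| + |p.2| := by
  unfold stdc_phi
  rw [norm_div]
  have h1 : ‖(p.1 : ℂ) + (p.2 : ℂ) * Complex.I‖ ≤ |p.1| + |p.2| := by
    refine (norm_add_le _ _).trans ?_
    rw [norm_mul, Complex.norm_I, mul_one, Complex.norm_real, Complex.norm_real,
      Real.norm_eq_abs, Real.norm_eq_abs]
  have h2 : (1 : ℝ) ≤ ‖(Real.sqrt 2 : ℂ)‖ := by
    rw [Complex.norm_real, Real.norm_eq_abs, abs_of_nonneg (Real.sqrt_nonneg 2)]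
    rw [Real.one_le_sqrt]
    norm_num
  exact (div_le_self (norm_nonneg _) h2).trans h1

private lemma stdc_intfst {f : ℝ → ℂ} : ∫ p : ℝ × ℝ, f p.1 ∂((gaussianReal 0 1).prod (gaussianReal 0 1)) =
    ∫ x, f x ∂(gaussianReal 0 1) := by
  rw [integral_fun_fst]
  simp

private lemma stdc_intsnd {f : ℝ → ℂ} : ∫ p : ℝ × ℝ, f p.2 ∂((gaussianReal 0 1).prod (gaussianReal 0 1)) =
    ∫ x, f x ∂(gaussianReal 0 1) := by
  rw [integral_fun_snd]
  simp

private lemma stdc_c1 : ∫ x : ℝ, (x : ℂ) ∂(gaussianReal 0 1) = 0 := by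
  rw [integral_complex_ofReal]
  simp

private lemma stdc_c2 : ∫ x : ℝ, ((x ^ 2 : ℝ) : ℂ) ∂(gaussianReal 0 1) = 1 := by
  rw [integral_complex_ofReal, stdc_m2]
  simp

private lemma stdc_i1 : Integrable (fun x : ℝ => (x : ℂ)) (gaussianReal 0 1) := by
  have h := (stdc_pow' 1).ofReal (𝕜 := ℂ)
  simpa using h

private lemma stdc_i2 : Integrable (fun x : ℝ => ((x ^ 2 : ℝ) : ℂ)) (gaussianReal 0 1) :=
  (stdc_pow' 2).ofReal (𝕜 := ℂ)

private lemma stdc_s2 : (Real.sqrt 2 : ℂ) * (Real.sqrt 2 : ℂ) = 2 := by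
  rw [← Complex.ofReal_mul, Real.mul_self_sqrt (by norm_num)]
  norm_num

private lemma stdc_s2n : (Real.sqrt 2 : ℂ) ≠ 0 := by
  intro h
  have := stdc_s2
  rw [h] at this
  norm_num at this

private lemma stdc_bool : ((Measure.pi fun _ : Bool => gaussianReal 0 1).map
    fun f : Bool → ℝ => (f true, f false)) = (gaussianReal 0 1).prod (gaussianReal 0 1) := by
  refine (Measure.prod_eq fun s t hs ht => ?_).symm
  rw [Measure.map_apply (by fun_prop) (hs.prod ht)]
  have e : (fun f : Bool → ℝ => (f true, f false)) ⁻¹' (s ×ˢ t) =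
      Set.univ.pi fun b : Bool => if b then s else t := by
    ext f
    simp only [Set.mem_preimage, Set.mem_prod, Set.mem_pi, Set.mem_univ, true_implies, Bool.forall_bool,
      if_true, Bool.false_eq_true, if_false]
    exact and_comm
  rw [e, Measure.pi_pi, Fintype.prod_bool]
  simp

theorem stdC_int (k : ℕ) : Integrable (fun z : ℂ => ‖z‖ ^ k) stdC := by
  rw [stdc_def]
  rw [integrable_map_measure (by fun_prop) stdc_cont.aemeasurable]
  have h1 : Integrable (fun p : ℝ × ℝ => |p.1| ^ k) ((gaussianReal 0 1).prod (gaussianReal 0 1)) :=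
    (stdc_pow k).comp_fst _
  have h2 : Integrable (fun p : ℝ × ℝ => |p.2| ^ k) ((gaussianReal 0 1).prod (gaussianReal 0 1)) :=
    (stdc_pow k).comp_snd _
  refine ((h1.add h2).const_mul (2 ^ (k - 1))).mono' ?_ (Filter.Eventually.of_forall fun p => ?_)
  · exact ((continuous_norm.comp stdc_cont).pow k).aestronglyMeasurable
  · simp only [Function.comp_apply, Pi.add_apply]
    rw [Real.norm_eq_abs, abs_of_nonneg (by positivity)]
    exact (pow_le_pow_left₀ (norm_nonneg _) (stdc_norm p) k).trans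
      (add_pow_le (abs_nonneg _) (abs_nonneg _) k)

theorem stdC_one : ∫ z, z ∂stdC = 0 := by
  rw [stdc_integral (g := fun z => z) continuous_id]
  unfold stdc_phi
  rw [integral_div, integral_add (stdc_i1.comp_fst _) ((stdc_i1.comp_snd _).mul_const _),
    integral_mul_const, stdc_intfst (f := fun x => (x : ℂ)), stdc_intsnd (f := fun x => (x : ℂ)), stdc_c1]
  simp

theorem stdC_conj : ∫ z, conj z ∂stdC = 0 := by
  rw [integral_conj, stdC_one, map_zero]

theorem stdC_sq : ∫ z, z * z ∂stdC = 0 := by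
  rw [stdc_integral (g := fun z => z * z) (by fun_prop)]
  have e : ∀ p : ℝ × ℝ, stdc_phi p * stdc_phi p =
      ((((p.1 ^ 2 : ℝ) : ℂ) - ((p.2 ^ 2 : ℝ) : ℂ)) + 2 * Complex.I * ((p.1 : ℂ) * (p.2 : ℂ))) / 2 := by
    intro p
    unfold stdc_phi
    rw [div_mul_div_comm, stdc_s2]
    congr 1
    push_cast
    linear_combination (p.2 : ℂ) ^ 2 * Complex.I_sq
  simp only [e]
  have h12 : Integrable (fun p : ℝ × ℝ => (p.1 : ℂ) * (p.2 : ℂ)) ((gaussianReal 0 1).prod (gaussianReal 0 1)) :=
    stdc_i1.mul_prod stdc_i1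
  have h34 : Integrable (fun p : ℝ × ℝ => ((p.1 ^ 2 : ℝ) : ℂ) - ((p.2 ^ 2 : ℝ) : ℂ))
      ((gaussianReal 0 1).prod (gaussianReal 0 1)) := (stdc_i2.comp_fst _).sub (stdc_i2.comp_snd _)
  rw [integral_div, integral_add h34 (h12.const_mul _),
    integral_sub (stdc_i2.comp_fst _) (stdc_i2.comp_snd _), integral_const_mul,
    integral_prod_mul (fun x : ℝ => (x : ℂ)) (fun x : ℝ => (x : ℂ)),
    stdc_intfst (f := fun x => ((x ^ 2 : ℝ) : ℂ)), stdc_intsnd (f := fun x => ((x ^ 2 : ℝ) : ℂ)), stdc_c1]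
  simp

theorem stdC_nsq : ∫ z, z * conj z ∂stdC = 1 := by
  rw [stdc_integral (g := fun z => z * conj z) (by fun_prop)]
  have e : ∀ p : ℝ × ℝ, stdc_phi p * conj (stdc_phi p) =
      (((p.1 ^ 2 : ℝ) : ℂ) + ((p.2 ^ 2 : ℝ) : ℂ)) / 2 := by
    intro p
    unfold stdc_phi
    rw [map_div₀, div_mul_div_comm, Complex.conj_ofReal, stdc_s2]
    congr 1
    simp only [map_add, map_mul, Complex.conj_ofReal, Complex.conj_I]
    push_cast
    linear_combination -(p.2 : ℂ) ^ 2 * Complex.I_sq
  simp only [e]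
  rw [integral_div, integral_add (stdc_i2.comp_fst _) (stdc_i2.comp_snd _),
    stdc_intfst (f := fun x => ((x ^ 2 : ℝ) : ℂ)), stdc_intsnd (f := fun x => ((x ^ 2 : ℝ) : ℂ)), stdc_c2]
  norm_num

/-- `stdL L` as a linear image of a standard Gaussian measure -/
theorem stdL_eq (L : ℕ) : stdL L = (gm (Fin L × Bool)).map
    fun z l => ((z (l, true) : ℂ) + (z (l, false) : ℂ) * Complex.I) / (Real.sqrt 2 : ℂ) := by
  have h1 : stdC = (Measure.pi fun _ : Bool => gaussianReal 0 1).map
      fun f : Bool → ℝ => stdc_phi (f true, f false) := by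
    rw [stdc_def, ← stdc_bool, Measure.map_map stdc_cont.measurable (by fun_prop)]
    rfl
  have hm : Measurable fun f : Bool → ℝ => stdc_phi (f true, f false) :=
    stdc_cont.measurable.comp (by fun_prop)
  have h2 : (Measure.pi fun _ : Fin L => Measure.pi fun _ : Bool => gaussianReal 0 1) =
      (gm (Fin L × Bool)).map (MeasurableEquiv.curry (Fin L) Bool ℝ) := by
    unfold gm
    rw [← Measure.infinitePi_eq_pi (μ := fun _ : Fin L × Bool => gaussianReal 0 1),
      Measure.infinitePi_map_curry (fun (_ : Fin L) (_ : Bool) => gaussianReal 0 1),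
      Measure.infinitePi_eq_pi]
    simp only [Measure.infinitePi_eq_pi]
  have : IsProbabilityMeasure ((Measure.pi fun _ : Bool => gaussianReal 0 1).map
      fun f : Bool → ℝ => stdc_phi (f true, f false)) := by
    rw [← h1]
    infer_instance
  unfold stdL
  simp only [h1]
  rw [← Measure.pi_map_pi (fun _ => hm.aemeasurable), h2, Measure.map_map]
  · rfl
  · exact measurable_pi_iff.2 fun l => hm.comp (measurable_pi_apply l)
  · exact (MeasurableEquiv.curry (Fin L) Bool ℝ).measurable

/-- integrability of the monomials -/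
theorem stdL_int (L : ℕ) (k : ℕ) (l : Fin L) : Integrable (fun z : Fin L → ℂ => ‖z l‖ ^ k) (stdL L) := by
  have h := stdC_int k
  unfold stdL
  exact integrable_comp_eval (μ := fun _ : Fin L => stdC) (i := l) h

end H69.SR
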