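import Pool.Agent.H69.SR.Corr
import Pool.Agent.H69.SR.Ident

/-!
# Definitions for the analysis of one run (complete)

`GoodG`: the good event for the fresh vectors `g` (`ζ` the history).
-/

set_option autoImplicit false

open MeasureTheory ProbabilityTheory
open scoped BigOperators ComplexConjugate InnerProductSpace

namespace H69.SR

variable {L n : ℕ}

/-- the mean of the map of round `t` -/
noncomputable def e1 (A : Par L) (a : ℕ → Fin L → ℂ) (t : ℕ) (k : Fin L) : ℂ :=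
  ∫ z, FF A.D A.R (mm A.lam a t) k (fun l => mm A.lam a t l + z l) ∂stdL L

/-- the mean square of the map of round `t` -/
noncomputable def e2 (A : Par L) (a : ℕ → Fin L → ℂ) (t : ℕ) (k : Fin L) : ℝ :=
  ∫ z, ‖FF A.D A.R (mm A.lam a t) k (fun l => mm A.lam a t l + z l)‖ ^ 2 ∂stdL L

/-- the idealised value of the map of round `t` at the vertex `j` -/
noncomputable def Ft (A : Par L) (x : Fin n → ℂ) (a : ℕ → Fin L → ℂ) (g : ℕ → VV L n) (t : ℕ) (k : Fin L)
    (j : Fin n) : ℂ :=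
  FF A.D A.R (mm A.lam a t) k fun l => mm A.lam a t l * x j ^ ((l : ℕ) + 1) +
    ∑ s ∈ Finset.range t, ww a t s l * g s l j

/-- the signal share in round `t` -/
noncomputable def cc (A : Par L) (a : ℕ → Fin L → ℂ) (t : ℕ) (k : Fin L) : ℝ :=
  SS A.D (mm A.lam a t) k / (1 + SS A.D (mm A.lam a t) k)

/-- small projections -/
def GoodP (A : Par L) (f : ℕ → Hs L n → VV L n) (g : ℕ → VV L n) (ζ : Hs L n) : Prop :=
  ∀ t < A.T, ∀ k, ‖prj (UU f ζ k) t (g t k)‖ ≤ A.δ * Real.sqrt n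

/-- the averages over the vertices outside `J` are close to the means -/
def GoodL (A : Par L) (J : Finset (Fin n)) (x : Fin n → ℂ) (a : ℕ → Fin L → ℂ) (g : ℕ → VV L n) : Prop :=
  ∀ t, 1 ≤ t → t ≤ A.T → ∀ k : Fin L,
    ‖∑ j ∈ Jᶜ, (conj (x j ^ ((k : ℕ) + 1)) * Ft A x a g t k j - e1 A a t k)‖ ≤ A.ε * n ∧
    ‖∑ j ∈ Jᶜ, (((‖Ft A x a g t k j‖ ^ 2 : ℝ) : ℂ) - ((e2 A a t k : ℝ) : ℂ))‖ ≤ A.ε * n

/-- the share of the seed vertices -/
noncomputable def thJ (J : Finset (Fin n)) : ℝ := (J.card : ℝ) / n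

/-- the total error in one round, with the contribution of the seeds -/
noncomputable def eJ (A : Par L) (J : Finset (Fin n)) : ℝ :=
  err L A.M A.T A.R A.ε A.δ + thJ J / (1800 * L ^ 2)

lemma al_zero {x : Fin n → ℂ} {f : ℕ → Hs L n → VV L n} {η : Hs L n} {k : Fin L} {t : ℕ}
    (h : UU f η k t = 0) : al x f η k t = 0 := by
  unfold al; rw [h, inner_zero_right, zero_div]

end H69.SR
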