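import Pool.Agent.H69.SR.Err

/-!
# Module StepT: the vector of round `t ≥ 1`

`F := (A.pr a).f J s t ζ k`: on `J` it is `s j ^ (k+1)`, off `J` it is `FF D R m k (v ·)`, `m = mm lam a t`, `v l = ∑_(s<t) ww a t s l * ζ s l j` (the truncation `r < t` is harmless). `K := R + M R^2` (`FF_bd`), `Λ := 2 + 4 R M` (`FF_lip`), `0 ≤ m l ≤ 2` (`hnr`). `F̃ j := Ft A x a g t k j`. `D := Λ * (L * (4 T^2 δ))`.
* distance: `∑_(j ∉ J) ‖F j - F̃ j‖^2 ≤ Λ^2 ∑_j (∑_l ‖v_l - w_l‖)^2 ≤ Λ^2 L ∑_l ∑_j ‖v_l j - w_l j‖^2 ≤ Λ^2 L^2 (4T^2δ)^2 n = D^2 n` (`err_sum`, Cauchy-Schwarz `(∑_l c_l)^2 ≤ L ∑ c_l^2`).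
* `∑_(j ∉ J) ‖F j - F̃ j‖ ≤ √n * D √n = D n`.
* inner product: `⟪xv x k, F⟫ = ∑_(j∈J) conj(x^(k+1)) s^(k+1) + ∑_(j∉J) conj(x^(k+1)) F j`. For `j ∈ J`: the real part is `1 - ‖s^(k+1) - x^(k+1)‖^2/2 ≥ 1 - 1/(1800 L^2)`. Second sum: real part `≥ Re ∑ conj(x^(k+1)) F̃ - D n ≥ (n - |J|) Re e1 - ε n - D n`
  (`GoodL`), `Re e1 ≥ cc - ε` (`A.mom`, `0 ≤ m l ≤ 2`). Total `≥ |J| (1 - 1/(1800 L^2)) + (n - |J|) cc - 2 ε n - D n`.
* norm: `‖F‖^2 = |J| + ∑_(j∉J) ‖F j‖^2 ≤ |J| + ∑ ‖F̃ j‖^2 + 2 K ∑ ‖F j - F̃ j‖ ≤ |J| + (n - |J|) e2 + ε n + 2 K D n`, `e2 ≤ cc + ε` (`A.mom`).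
* `err L M T R ε δ = 2 ε + (1 + 2 K) D`.
-/

set_option autoImplicit false

open MeasureTheory ProbabilityTheory
open scoped BigOperators ComplexConjugate InnerProductSpace

namespace H69.SR

variable {L n : ℕ}

private lemma StepT_seed {x s : Fin n → ℂ} (hs : Seeds L x s) (k : Fin L) (j : Fin n) :
    1 - 1 / (1800 * (L : ℝ) ^ 2) ≤ (conj (x j ^ ((k : ℕ) + 1)) * s j ^ ((k : ℕ) + 1)).re := by
  have hL : (0 : ℝ) < L := by
    have := k.pos
    exact_mod_cast this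
  set u := x j ^ ((k : ℕ) + 1) with hu
  set w := s j ^ ((k : ℕ) + 1) with hw
  have h1 : ‖u‖ = 1 := by rw [hu, norm_pow, hs.nx, one_pow]
  have h2 : ‖w‖ = 1 := by rw [hw, norm_pow, hs.ns, one_pow]
  have h3 : ‖w - u‖ ≤ 1 / (30 * L) := hs.near j k
  have h4 : ‖w - u‖ ^ 2 = ‖w‖ ^ 2 + ‖u‖ ^ 2 - 2 * (conj u * w).re := by
    rw [← Complex.normSq_eq_norm_sq, ← Complex.normSq_eq_norm_sq, ← Complex.normSq_eq_norm_sq,
      Complex.normSq_sub, mul_comm (conj u) w]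
  have h5 : ‖w - u‖ ^ 2 ≤ (1 / (30 * L)) ^ 2 := pow_le_pow_left₀ (norm_nonneg _) h3 2
  have h6 : (1 / (30 * (L : ℝ))) ^ 2 = 2 * (1 / (1800 * (L : ℝ) ^ 2)) := by
    field_simp
    norm_num
  rw [h1, h2] at h4
  rw [h6] at h5
  linarith

private lemma StepT_J (A : Par L) {J : Finset (Fin n)} {s : Fin n → ℂ} (a : ℕ → Fin L → ℂ)
    (ζ : Hs L n) (t : ℕ) (k : Fin L) {j : Fin n} (hj : j ∈ J) :
    (A.pr a).f J s t ζ k j = s j ^ ((k : ℕ) + 1) := by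
  show (if j ∈ J then s j ^ ((k : ℕ) + 1) else _) = _
  rw [if_pos hj]

private lemma StepT_off (A : Par L) {J : Finset (Fin n)} {s : Fin n → ℂ} (a : ℕ → Fin L → ℂ)
    (ζ : Hs L n) (t : ℕ) (k : Fin L) {j : Fin n} (hj : j ∉ J) :
    (A.pr a).f J s t ζ k j = FF A.D A.R (mm A.lam a t) k fun l =>
      ∑ r ∈ Finset.range t, ww a t r l * ζ r l j := by
  show (if j ∈ J then s j ^ ((k : ℕ) + 1) else FF A.D A.R (mm A.lam a t) k fun l =>
      ∑ r ∈ Finset.range t, ww a t r l * (if r < t then ζ r l j else 0)) = _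
  rw [if_neg hj]
  congr 1
  funext l
  refine Finset.sum_congr rfl fun r hr => ?_
  rw [if_pos (Finset.mem_range.1 hr)]

private lemma StepT_sum (A : Par L) (hn : 0 < n) {J : Finset (Fin n)} {x s : Fin n → ℂ}
    (hs : Seeds L x s) {a : ℕ → Fin L → ℂ} (ha : a ∈ A.gss) {ζ : Hs L n} {g : ℕ → VV L n}
    (hζ : ∀ t < A.T, ζ t = rG ((A.pr a).f J s) ((A.pr a).b J s A.lam x) (g t) t ζ)
    (hC : Cons A.δ x a ((A.pr a).f J s) ζ A.T) (hP : GoodP A ((A.pr a).f J s) g ζ)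
    {t : ℕ} (ht : t ≤ A.T) (h0 : ∀ l, nr a t l ≠ 0) (k : Fin L) :
    ∑ j ∈ Jᶜ, ‖(A.pr a).f J s t ζ k j - Ft A x a g t k j‖ ≤
      ((2 + 4 * A.R * A.M) * (L * (4 * A.T ^ 2 * A.δ))) * n := by
  have hR := A.hR
  have hδ := A.hδ
  have hlam := A.lam0
  have hn0 : (0 : ℝ) < n := by exact_mod_cast hn
  have hm0 : ∀ l, 0 ≤ mm A.lam a t l := fun l => mul_nonneg hlam.le (nr_nonneg a t l)
  set V : Fin n → Fin L → ℂ := fun j l => ∑ r ∈ Finset.range t, ww a t r l * ζ r l j with hV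
  set W : Fin n → Fin L → ℂ := fun j l => (mm A.lam a t l : ℂ) * x j ^ ((l : ℕ) + 1) +
    ∑ r ∈ Finset.range t, ww a t r l * g r l j with hW
  set Λ : ℝ := 2 + 4 * A.R * A.M with hΛ
  have hΛ0 : 0 ≤ Λ := by positivity
  have h1 : ∀ j ∈ Jᶜ, ‖(A.pr a).f J s t ζ k j - Ft A x a g t k j‖ ≤
      Λ * ∑ l, ‖V j l - W j l‖ := by
    intro j hj
    rw [StepT_off A a ζ t k (Finset.mem_compl.1 hj)]
    exact FF_lip A.D hR.le hm0 k (V j) (W j)
  have h2 : ∀ l : Fin L, ∑ j, ‖V j l - W j l‖ ≤ 4 * A.T ^ 2 * A.δ * n := by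
    intro l
    have h3 := err_sum A hn hs.nx ha hζ hC hP ht (h0 l)
    have h4 : (∑ j, ‖V j l - W j l‖) ^ 2 ≤ (4 * A.T ^ 2 * A.δ * n) ^ 2 := by
      calc (∑ j, ‖V j l - W j l‖) ^ 2 ≤ (Finset.univ : Finset (Fin n)).card *
            ∑ j, ‖V j l - W j l‖ ^ 2 := sq_sum_le_card_mul_sum_sq
        _ ≤ n * ((4 * A.T ^ 2 * A.δ) ^ 2 * n) := by
            rw [Finset.card_univ, Fintype.card_fin]
            exact mul_le_mul_of_nonneg_left h3 hn0.le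
        _ = (4 * A.T ^ 2 * A.δ * n) ^ 2 := by ring
    exact abs_le_of_sq_le_sq' h4 (by positivity) |>.2
  calc ∑ j ∈ Jᶜ, ‖(A.pr a).f J s t ζ k j - Ft A x a g t k j‖
      ≤ ∑ j ∈ Jᶜ, Λ * ∑ l, ‖V j l - W j l‖ := Finset.sum_le_sum h1
    _ ≤ ∑ j, Λ * ∑ l, ‖V j l - W j l‖ :=
        Finset.sum_le_sum_of_subset_of_nonneg (Finset.subset_univ _) fun j _ _ =>
          mul_nonneg hΛ0 (Finset.sum_nonneg fun _ _ => norm_nonneg _)
    _ = Λ * ∑ l, ∑ j, ‖V j l - W j l‖ := by rw [← Finset.mul_sum, Finset.sum_comm]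
    _ ≤ Λ * ∑ _l : Fin L, 4 * A.T ^ 2 * A.δ * n :=
        mul_le_mul_of_nonneg_left (Finset.sum_le_sum fun l _ => h2 l) hΛ0
    _ = Λ * (L * (4 * A.T ^ 2 * A.δ)) * n := by
        rw [Finset.sum_const, Finset.card_univ, Fintype.card_fin, nsmul_eq_mul]
        ring

theorem stepT (A : Par L) (hn : 0 < n) {J : Finset (Fin n)} {x s : Fin n → ℂ} (hs : Seeds L x s)
    {a : ℕ → Fin L → ℂ} (ha : a ∈ A.gss) {ζ : Hs L n} {g : ℕ → VV L n}
    (hζ : ∀ t < A.T, ζ t = rG ((A.pr a).f J s) ((A.pr a).b J s A.lam x) (g t) t ζ)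
    (hC : Cons A.δ x a ((A.pr a).f J s) ζ A.T) (hP : GoodP A ((A.pr a).f J s) g ζ) (hG : GoodL A J x a g)
    {t : ℕ} (h1t : 1 ≤ t) (ht : t ≤ A.T) (h0 : ∀ l, nr a t l ≠ 0) (hnr : ∀ l, A.lam * nr a t l ≤ 2) (k : Fin L) :
    (thJ J + (1 - thJ J) * cc A a t k - eJ A J) * n ≤ (⟪xv x k, (A.pr a).f J s t ζ k⟫_ℂ).re ∧
      ‖(A.pr a).f J s t ζ k‖ ^ 2 ≤ (thJ J + (1 - thJ J) * cc A a t k + eJ A J) * n := by
  have hR := A.hR
  have hδ := A.hδ
  have hε := A.hε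
  have hlam := A.lam0
  have hn0 : (0 : ℝ) < n := by exact_mod_cast hn
  have hm0 : ∀ l, 0 ≤ mm A.lam a t l := fun l => mul_nonneg hlam.le (nr_nonneg a t l)
  have hL0 : (0 : ℝ) < L := by exact_mod_cast A.hL
  set D : ℝ := (2 + 4 * A.R * A.M) * (L * (4 * A.T ^ 2 * A.δ)) with hD
  have hD0 : 0 ≤ D := by positivity
  set K : ℝ := A.R + A.M * A.R ^ 2 with hK
  have hK0 : 0 ≤ K := by positivity
  have hsum := StepT_sum A hn hs ha hζ hC hP ht h0 k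
  obtain ⟨hm1, hm2⟩ := A.mom (mm A.lam a t) (fun l => ⟨hm0 l, hnr l⟩) k
  obtain ⟨hg1, hg2⟩ := hG t h1t ht k
  have hm1' : ‖e1 A a t k - ((cc A a t k : ℝ) : ℂ)‖ ≤ A.ε := hm1
  have hm2' : e2 A a t k ≤ cc A a t k + A.ε := hm2
  set F : Fin n → ℂ := fun j => (A.pr a).f J s t ζ k j with hF
  set G : Fin n → ℂ := fun j => Ft A x a g t k j with hGd
  have hJn : (J.card : ℝ) ≤ n := by
    have h := Finset.card_le_univ J
    rw [Fintype.card_fin] at h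
    exact_mod_cast h
  have hJc : ((Jᶜ).card : ℝ) = n - J.card := by
    have h := Finset.card_compl_add_card J
    rw [Fintype.card_fin] at h
    have h' : ((Jᶜ).card : ℝ) + J.card = n := by exact_mod_cast h
    linarith
  have hth : thJ J * n = J.card := by
    unfold thJ
    field_simp
  have herr : err L A.M A.T A.R A.ε A.δ = 2 * A.ε + (1 + 2 * K) * D := rfl
  have hej : eJ A J * n = (2 * A.ε + (1 + 2 * K) * D) * n + J.card * (1 / (1800 * (L : ℝ) ^ 2)) := by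
    unfold eJ
    rw [herr, add_mul]
    congr 1
    rw [div_mul_eq_mul_div, hth]
    ring
  have hKD : 0 ≤ K * D * n := by positivity
  have hDn : 0 ≤ D * n := by positivity
  have hεn : 0 ≤ A.ε * n := by positivity
  have hcard1 : 0 ≤ A.ε * (n - (J.card : ℝ)) := mul_nonneg hε.le (by linarith)
  have hcard2 : A.ε * (n - (J.card : ℝ)) ≤ A.ε * n := by
    have : (0 : ℝ) ≤ J.card := Nat.cast_nonneg _
    nlinarith
  have hrw : ∀ c : ℝ, (thJ J + (1 - thJ J) * cc A a t k + c) * n =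
      J.card + (n - J.card) * cc A a t k + c * n := by
    intro c
    have : (thJ J + (1 - thJ J) * cc A a t k + c) * n =
      thJ J * n + (n - thJ J * n) * cc A a t k + c * n := by ring
    rw [this, hth]
  constructor
  · have hsplit : (⟪xv x k, (A.pr a).f J s t ζ k⟫_ℂ).re =
        ∑ j ∈ J, (conj (x j ^ ((k : ℕ) + 1)) * F j).re +
          ∑ j ∈ Jᶜ, (conj (x j ^ ((k : ℕ) + 1)) * F j).re := by
      rw [inner_E, Complex.re_sum, Finset.sum_add_sum_compl]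
      rfl
    have hA1 : (J.card : ℝ) * (1 - 1 / (1800 * (L : ℝ) ^ 2)) ≤
        ∑ j ∈ J, (conj (x j ^ ((k : ℕ) + 1)) * F j).re := by
      have h : ∀ j ∈ J, 1 - 1 / (1800 * (L : ℝ) ^ 2) ≤ (conj (x j ^ ((k : ℕ) + 1)) * F j).re := by
        intro j hj
        have e : F j = s j ^ ((k : ℕ) + 1) := StepT_J A a ζ t k hj
        rw [e]
        exact StepT_seed hs k j
      have h2 := Finset.sum_le_sum h
      rw [Finset.sum_const, nsmul_eq_mul] at h2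
      exact h2
    have hA2 : ∑ j ∈ Jᶜ, (conj (x j ^ ((k : ℕ) + 1)) * G j).re - D * n ≤
        ∑ j ∈ Jᶜ, (conj (x j ^ ((k : ℕ) + 1)) * F j).re := by
      have h : ∀ j ∈ Jᶜ, (conj (x j ^ ((k : ℕ) + 1)) * G j).re - ‖F j - G j‖ ≤
          (conj (x j ^ ((k : ℕ) + 1)) * F j).re := by
        intro j _
        have e1 : (conj (x j ^ ((k : ℕ) + 1)) * G j).re - (conj (x j ^ ((k : ℕ) + 1)) * F j).re =
            (conj (x j ^ ((k : ℕ) + 1)) * (G j - F j)).re := by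
          rw [mul_sub, Complex.sub_re]
        have e2 : (conj (x j ^ ((k : ℕ) + 1)) * (G j - F j)).re ≤ ‖F j - G j‖ := by
          refine (Complex.re_le_norm _).trans ?_
          rw [norm_mul, RCLike.norm_conj, norm_pow, hs.nx, one_pow, one_mul, norm_sub_rev]
        linarith
      have h2 := Finset.sum_le_sum h
      rw [Finset.sum_sub_distrib] at h2
      linarith
    have hA3 : (n - (J.card : ℝ)) * (e1 A a t k).re - A.ε * n ≤
        ∑ j ∈ Jᶜ, (conj (x j ^ ((k : ℕ) + 1)) * G j).re := by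
      have e : (∑ j ∈ Jᶜ, (conj (x j ^ ((k : ℕ) + 1)) * Ft A x a g t k j - e1 A a t k)).re =
          ∑ j ∈ Jᶜ, (conj (x j ^ ((k : ℕ) + 1)) * G j).re - (n - (J.card : ℝ)) * (e1 A a t k).re := by
        rw [Complex.re_sum]
        simp only [Complex.sub_re]
        rw [Finset.sum_sub_distrib, Finset.sum_const, nsmul_eq_mul, hJc]
      have h1 : -(A.ε * n) ≤
          (∑ j ∈ Jᶜ, (conj (x j ^ ((k : ℕ) + 1)) * Ft A x a g t k j - e1 A a t k)).re :=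
        (neg_le_neg hg1).trans (neg_le_of_abs_le ((Complex.abs_re_le_norm _)))
      rw [e] at h1
      linarith
    have hA4 : cc A a t k - A.ε ≤ (e1 A a t k).re := by
      have h1 := (Complex.abs_re_le_norm (e1 A a t k - ((cc A a t k : ℝ) : ℂ))).trans hm1'
      rw [Complex.sub_re, Complex.ofReal_re] at h1
      have := (abs_le.1 h1).1
      linarith
    have hA5 : (n - (J.card : ℝ)) * (cc A a t k - A.ε) ≤ (n - (J.card : ℝ)) * (e1 A a t k).re :=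
      mul_le_mul_of_nonneg_left hA4 (by linarith)
    rw [hsplit]
    have hfin : (thJ J + (1 - thJ J) * cc A a t k - eJ A J) * n =
        J.card + (n - J.card) * cc A a t k - ((2 * A.ε + (1 + 2 * K) * D) * n +
          J.card * (1 / (1800 * (L : ℝ) ^ 2))) := by
      rw [sub_eq_add_neg (thJ J + (1 - thJ J) * cc A a t k), hrw, ← hej]
      ring
    rw [hfin]
    have e5 : (n - (J.card : ℝ)) * (cc A a t k - A.ε) =
        (n - (J.card : ℝ)) * cc A a t k - A.ε * (n - (J.card : ℝ)) := by ring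
    have e6 : (2 * A.ε + (1 + 2 * K) * D) * n = 2 * (A.ε * n) + D * n + 2 * (K * D * n) := by ring
    have e7 : (J.card : ℝ) * (1 - 1 / (1800 * (L : ℝ) ^ 2)) =
        J.card - J.card * (1 / (1800 * (L : ℝ) ^ 2)) := by ring
    rw [e5] at hA5
    rw [e7] at hA1
    rw [e6]
    linarith
  · have hsplit : ‖(A.pr a).f J s t ζ k‖ ^ 2 = ∑ j ∈ J, ‖F j‖ ^ 2 + ∑ j ∈ Jᶜ, ‖F j‖ ^ 2 := by
      rw [nsq_E, Finset.sum_add_sum_compl]
    have hB1 : ∑ j ∈ J, ‖F j‖ ^ 2 = J.card := by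
      have h : ∀ j ∈ J, ‖F j‖ ^ 2 = 1 := by
        intro j hj
        have e : F j = s j ^ ((k : ℕ) + 1) := StepT_J A a ζ t k hj
        rw [e, norm_pow, hs.ns, one_pow, one_pow]
      rw [Finset.sum_congr rfl h, Finset.sum_const, nsmul_eq_mul, mul_one]
    have hB2 : ∑ j ∈ Jᶜ, ‖F j‖ ^ 2 ≤ ∑ j ∈ Jᶜ, ‖G j‖ ^ 2 + 2 * K * (D * n) := by
      have h : ∀ j ∈ Jᶜ, ‖F j‖ ^ 2 ≤ ‖G j‖ ^ 2 + 2 * K * ‖F j - G j‖ := by
        intro j hj
        have e : F j = FF A.D A.R (mm A.lam a t) k fun l => ∑ r ∈ Finset.range t, ww a t r l * ζ r l j :=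
          StepT_off A a ζ t k (Finset.mem_compl.1 hj)
        have b1 : ‖F j‖ ≤ K := by
          rw [e]
          exact FF_bd A.D hR.le hm0 k _
        have b2 : ‖G j‖ ≤ K := FF_bd A.D hR.le hm0 k _
        have b3 : ‖F j‖ - ‖G j‖ ≤ ‖F j - G j‖ := norm_sub_norm_le _ _
        have b4 := norm_nonneg (F j - G j)
        have b5 := norm_nonneg (F j)
        have b6 := norm_nonneg (G j)
        by_cases hle : ‖F j‖ ≤ ‖G j‖
        · have : ‖F j‖ ^ 2 ≤ ‖G j‖ ^ 2 := pow_le_pow_left₀ b5 hle 2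
          have h7 : 0 ≤ 2 * K * ‖F j - G j‖ := by positivity
          linarith
        · push Not at hle
          have h7 : ‖F j‖ ^ 2 - ‖G j‖ ^ 2 = (‖F j‖ + ‖G j‖) * (‖F j‖ - ‖G j‖) := by ring
          have h8 : (‖F j‖ + ‖G j‖) * (‖F j‖ - ‖G j‖) ≤ (2 * K) * ‖F j - G j‖ :=
            mul_le_mul (by linarith) b3 (by linarith) (by positivity)
          linarith
      have h2 := Finset.sum_le_sum h
      rw [Finset.sum_add_distrib, ← Finset.mul_sum] at h2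
      refine h2.trans ?_
      have h3 : 2 * K * ∑ j ∈ Jᶜ, ‖F j - G j‖ ≤ 2 * K * (D * n) :=
        mul_le_mul_of_nonneg_left hsum (by positivity)
      linarith
    have hB3 : ∑ j ∈ Jᶜ, ‖G j‖ ^ 2 ≤ (n - (J.card : ℝ)) * e2 A a t k + A.ε * n := by
      have e : (∑ j ∈ Jᶜ, (((‖Ft A x a g t k j‖ ^ 2 : ℝ) : ℂ) - ((e2 A a t k : ℝ) : ℂ))).re =
          ∑ j ∈ Jᶜ, ‖G j‖ ^ 2 - (n - (J.card : ℝ)) * e2 A a t k := by
        rw [Complex.re_sum]
        simp only [Complex.sub_re, Complex.ofReal_re]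
        rw [Finset.sum_sub_distrib, Finset.sum_const, nsmul_eq_mul, hJc]
      have h1 := (Complex.re_le_norm
        (∑ j ∈ Jᶜ, (((‖Ft A x a g t k j‖ ^ 2 : ℝ) : ℂ) - ((e2 A a t k : ℝ) : ℂ)))).trans hg2
      rw [e] at h1
      linarith
    have hB4 : (n - (J.card : ℝ)) * e2 A a t k ≤ (n - (J.card : ℝ)) * (cc A a t k + A.ε) :=
      mul_le_mul_of_nonneg_left hm2' (by linarith)
    have hJ18 : 0 ≤ (J.card : ℝ) * (1 / (1800 * (L : ℝ) ^ 2)) := by positivity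
    rw [hsplit, hB1, hrw, hej]
    have e5 : (n - (J.card : ℝ)) * (cc A a t k + A.ε) =
        (n - (J.card : ℝ)) * cc A a t k + A.ε * (n - (J.card : ℝ)) := by ring
    have e6 : (2 * A.ε + (1 + 2 * K) * D) * n = 2 * (A.ε * n) + D * n + 2 * (K * D * n) := by ring
    have e7 : 2 * K * (D * n) = 2 * (K * D * n) := by ring
    rw [e5] at hB4
    rw [e7] at hB2
    rw [e6]
    linarith

/-- round `0`: the map vanishes off `J` (`nr a 0 = 0`, `FF_zero`) and `cc A a 0 k = 0` -/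
theorem step0 (A : Par L) (hn : 0 < n) {J : Finset (Fin n)} {x s : Fin n → ℂ} (hs : Seeds L x s)
    (a : ℕ → Fin L → ℂ) (ζ : Hs L n) (k : Fin L) :
    (thJ J - thJ J / (1800 * L ^ 2)) * n ≤ (⟪xv x k, (A.pr a).f J s 0 ζ k⟫_ℂ).re ∧
      ‖(A.pr a).f J s 0 ζ k‖ ^ 2 = thJ J * n := by
  have hn0 : (0 : ℝ) < n := by exact_mod_cast hn
  have hth : thJ J * n = J.card := by
    unfold thJ
    field_simp
  have hm : mm A.lam a 0 = fun _ => 0 := by
    funext l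
    unfold mm nr
    simp
  have hoff : ∀ j, j ∉ J → (A.pr a).f J s 0 ζ k j = 0 := by
    intro j hj
    rw [StepT_off A a ζ 0 k hj, hm]
    exact FF_zero A.D A.R k _
  constructor
  · have hsplit : (⟪xv x k, (A.pr a).f J s 0 ζ k⟫_ℂ).re =
        ∑ j ∈ J, (conj (x j ^ ((k : ℕ) + 1)) * (A.pr a).f J s 0 ζ k j).re := by
      rw [inner_E, Complex.re_sum]
      symm
      refine Finset.sum_subset (Finset.subset_univ J) fun j _ hj => ?_
      rw [hoff j hj, mul_zero, Complex.zero_re]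
    rw [hsplit]
    have h : ∀ j ∈ J, 1 - 1 / (1800 * (L : ℝ) ^ 2) ≤
        (conj (x j ^ ((k : ℕ) + 1)) * (A.pr a).f J s 0 ζ k j).re := by
      intro j hj
      rw [StepT_J A a ζ 0 k hj]
      exact StepT_seed hs k j
    have h2 := Finset.sum_le_sum h
    rw [Finset.sum_const, nsmul_eq_mul] at h2
    refine le_trans (le_of_eq ?_) h2
    have h3 : (thJ J - thJ J / (1800 * L ^ 2)) * n =
        (thJ J * n) * (1 - 1 / (1800 * (L : ℝ) ^ 2)) := by ring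
    rw [h3, hth]
  · rw [nsq_E, hth]
    have hsplit : ∑ j, ‖(A.pr a).f J s 0 ζ k j‖ ^ 2 = ∑ j ∈ J, ‖(A.pr a).f J s 0 ζ k j‖ ^ 2 := by
      symm
      refine Finset.sum_subset (Finset.subset_univ J) fun j _ hj => ?_
      rw [hoff j hj, norm_zero]
      norm_num
    rw [hsplit]
    have h : ∀ j ∈ J, ‖(A.pr a).f J s 0 ζ k j‖ ^ 2 = 1 := by
      intro j hj
      rw [StepT_J A a ζ 0 k hj, norm_pow, hs.ns, one_pow, one_pow]
    rw [Finset.sum_congr rfl h, Finset.sum_const, nsmul_eq_mul, mul_one]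

end H69.SR
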